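import Mathlib

-- part Pool.Agent.P.MP_e9cc94_co.DihA
section

/-! Difference sets and dihedral sections: the induced matrices. -/

set_option autoImplicit false
set_option linter.unusedSectionVars false

namespace Pool.Agent.P.MP_e9cc94_co.Dih

open Finset Matrix DihedralGroup

variable {A B : Type} [CommRing A] [CommRing B] {m : ℕ}

/-- the two-dimensional representation attached to a root of unity `y` -/
def rho (y : A) : DihedralGroup m → Matrix Bool Bool A
  | r i => of fun a b => if a = b then y ^ (if a then i else -i).val else 0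
  | sr i => of fun a b => if a = b then 0 else y ^ (if b then i else -i).val

theorem pw_add [NeZero m] {y : A} (hy : y ^ m = 1) (i j : ZMod m) :
    y ^ i.val * y ^ j.val = y ^ (i + j).val := by
  rw [ZMod.val_add, ← pow_eq_pow_mod _ hy, pow_add]

theorem rho_mul [NeZero m] {y : A} (hy : y ^ m = 1) (g h : DihedralGroup m) :
    rho y (g * h) = rho y g * rho y h := by
  ext a b
  cases g <;> cases h <;> cases a <;> cases b <;>
    simp [rho, Matrix.mul_apply, pw_add hy, sub_eq_add_neg, add_comm]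

theorem rho_one (y : A) : rho y (1 : DihedralGroup m) = 1 := by
  rw [one_def]
  ext a b
  cases a <;> cases b <;> simp [rho, -r_zero]

theorem rho_inv (y : A) (g : DihedralGroup m) (a b : Bool) :
    rho y g⁻¹ a b = rho y g (!b) (!a) := by
  cases g <;> cases a <;> cases b <;> simp [rho]

theorem rho_map (π : A →+* B) (y : A) (g : DihedralGroup m) (a b : Bool) :
    π (rho y g a b) = rho (π y) g a b := by
  cases g <;> cases a <;> cases b <;> simp [rho]

variable {G : Type} [Group G] [Fintype G] [DecidableEq G] {K : Subgroup G}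

open Classical in
/-- extension by zero -/
noncomputable def dot (φ : K →* DihedralGroup m) (y : A) (g : G) : Matrix Bool Bool A :=
  if h : g ∈ K then rho y (φ ⟨g, h⟩) else 0

variable (φ : K →* DihedralGroup m)

theorem dot_mem (y : A) (k : K) : dot φ y k = rho y (φ k) := by simp [dot]

theorem dot_not (y : A) {g : G} (h : g ∉ K) : dot φ y g = 0 := by simp [dot, h]

theorem dot_mul [NeZero m] {y : A} (hy : y ^ m = 1) {k : G} (hk : k ∈ K) (z : G) :
    dot φ y (k * z) = dot φ y k * dot φ y z := by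
  by_cases hz : z ∈ K
  · have h := dot_mem φ y (⟨k, hk⟩ * ⟨z, hz⟩)
    rw [map_mul, rho_mul hy, ← dot_mem, ← dot_mem] at h
    exact h
  · rw [dot_not φ y hz, dot_not φ y (by simpa [K.mul_mem_cancel_left hk] using hz), mul_zero]

theorem dot_one (y : A) : dot φ y 1 = 1 := by
  have h := dot_mem φ y 1
  rwa [map_one, rho_one] at h

theorem dot_inv (y : A) (g : G) (a b : Bool) : dot φ y g⁻¹ a b = dot φ y g (!b) (!a) := by
  by_cases hg : g ∈ K
  · have h := dot_mem φ y (⟨g, hg⟩ : K)⁻¹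
    rw [map_inv] at h
    rw [show dot φ y g⁻¹ = _ from h, rho_inv, ← dot_mem]
  · rw [dot_not φ y hg, dot_not φ y (by simpa using hg)]
    rfl

theorem dot_map (π : A →+* B) (y : A) (g : G) (a b : Bool) :
    π (dot φ y g a b) = dot φ (π y) g a b := by
  by_cases hg : g ∈ K
  · rw [show dot φ y g = _ from dot_mem φ y ⟨g, hg⟩, show dot φ (π y) g = _ from
      dot_mem φ (π y) ⟨g, hg⟩, rho_map]
  · simp [dot_not φ _ hg]

/-- the index set -/
abbrev Ix (K : Subgroup G) : Type := (G ⧸ K) × Bool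

noncomputable instance : Fintype (G ⧸ K) := Fintype.ofFinite _

noncomputable instance : DecidableEq (G ⧸ K) := Classical.decEq _

/-- the induced representation -/
noncomputable def ind (y : A) (g : G) : Matrix (Ix K) (Ix K) A :=
  of fun a b => dot φ y (a.1.out⁻¹ * g * b.1.out) a.2 b.2

theorem ind_mul [NeZero m] {y : A} (hy : y ^ m = 1) (g h : G) :
    ind φ y g * ind φ y h = ind φ y (g * h) := by
  ext a c
  have key : ∀ x : G ⧸ K, a.1.out⁻¹ * g * x.out ∈ K ↔ x = ((g⁻¹ * a.1.out : G) : G ⧸ K) := by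
    intro x
    conv_rhs => rw [← x.out_eq', eq_comm, QuotientGroup.eq]
    simp
  rw [Matrix.mul_apply, Fintype.sum_prod_type,
    Finset.sum_eq_single ((g⁻¹ * a.1.out : G) : G ⧸ K)]
  · simp only [ind, of_apply]
    rw [← Matrix.mul_apply, ← dot_mul φ hy ((key _).2 rfl)]
    congr 1
    group
  · intro x _ hx
    simp [ind, dot_not φ y ((key x).not.2 hx)]
  · simp

theorem ind_one (y : A) : ind φ y 1 = 1 := by
  ext ⟨x, a⟩ ⟨x', b⟩
  by_cases h : x = x'
  · subst h
    simp [ind, dot_one, Matrix.one_apply]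
  · have : x.out⁻¹ * x'.out ∉ K := by
      rw [← QuotientGroup.eq, QuotientGroup.out_eq', QuotientGroup.out_eq']
      exact h
    simp [ind, dot_not φ y this, h]

/-- the flip of the index set -/
def fl (X : Type) : X × Bool ≃ X × Bool where
  toFun a := (a.1, !a.2)
  invFun a := (a.1, !a.2)
  left_inv a := by simp
  right_inv a := by simp

/-- the adjoint for the split quadratic form -/
def adj {X : Type} (N : Matrix (X × Bool) (X × Bool) A) : Matrix (X × Bool) (X × Bool) A :=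
  (N.submatrix (fl X) (fl X))ᵀ

theorem ind_inv (y : A) (g : G) : ind φ y g⁻¹ = adj (ind φ y g) := by
  ext a b
  simp only [adj, ind, of_apply, transpose_apply, submatrix_apply, fl, Equiv.coe_fn_mk]
  rw [← dot_inv]
  congr 1
  group

/-- the matrix of `D` -/
noncomputable def mat (D : Finset G) (y : A) : Matrix (Ix K) (Ix K) A := ∑ d ∈ D, ind φ y d

theorem mat_map (D : Finset G) (π : A →+* B) (y : A) :
    (mat φ D y).map π = mat φ D (π y) := by
  ext a b
  simp [mat, ind, Matrix.sum_apply, dot_map]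

theorem det_map (D : Finset G) (π : A →+* B) (y : A) :
    π (mat φ D y).det = (mat φ D (π y)).det := by
  rw [RingHom.map_det, RingHom.mapMatrix_apply, mat_map]

theorem mat_adj [NeZero m] {y : A} (hy : y ^ m = 1) {D : Finset G} {lam n : ℕ}
    (h : ∀ g : G, g ≠ 1 → #{p ∈ D ×ˢ D | p.1 * p.2⁻¹ = g} = lam) (hn : #D = lam + n) :
    mat φ D y * adj (mat φ D y) =
      (n : A) • (1 : Matrix (Ix K) (Ix K) A) +
        (lam : A) • of fun a b : Ix K => (∑ g, dot φ y g) a.2 b.2 := by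
  have h1 : adj (mat φ D y) = ∑ d ∈ D, ind φ y d⁻¹ := by
    ext a b
    simp [mat, ind_inv, adj, Matrix.sum_apply]
  have h2 : #{p ∈ D ×ˢ D | p.1 * p.2⁻¹ = 1} = lam + n := by
    rw [← hn, ← D.diag_card]
    congr 1
    ext p
    simp only [mem_filter, mem_product, mul_inv_eq_one, mem_diag]
    exact ⟨fun h => ⟨h.1.1, h.2⟩, fun h => ⟨⟨h.1, h.2 ▸ h.1⟩, h.2⟩⟩
  have h3 : ∑ g, ind φ y g = of fun a b : Ix K => (∑ g, dot φ y g) a.2 b.2 := by
    ext a b
    simp only [Matrix.sum_apply, of_apply, ind]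
    exact Fintype.sum_equiv ((Equiv.mulLeft a.1.out⁻¹).trans (Equiv.mulRight b.1.out)) _ _
      fun g => rfl
  rw [h1, mat, sum_mul_sum, ← sum_product']
  simp only [ind_mul φ hy]
  rw [← sum_fiberwise_of_maps_to (t := univ) (g := fun p : G × G => p.1 * p.2⁻¹)
    fun _ _ => mem_univ _, ← h3, smul_sum, ← ind_one φ y]
  have h4 : ∀ g : G, ∑ p ∈ D ×ˢ D with p.1 * p.2⁻¹ = g, ind φ y (p.1 * p.2⁻¹) =
      (if g = 1 then (n : A) • ind φ y g else 0) + (lam : A) • ind φ y g := by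
    intro g
    rw [sum_congr rfl fun p hp => by rw [(mem_filter.1 hp).2], sum_const]
    split_ifs with hg
    · rw [hg, h2, ← add_smul, ← Nat.cast_add, add_comm, Nat.cast_smul_eq_nsmul]
    · rw [h g hg, zero_add, Nat.cast_smul_eq_nsmul]
  simp only [h4, sum_add_distrib, sum_ite_eq', mem_univ, if_true]

theorem tot_fix [NeZero m] {y : A} (hy : y ^ m = 1) (k : K) :
    rho y (φ k) * ∑ g, dot φ y g = ∑ g, dot φ y g := by
  rw [mul_sum, ← dot_mem]
  simp only [← dot_mul φ hy k.2]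
  exact Fintype.sum_equiv (Equiv.mulLeft (k : G)) _ _ fun g => rfl

theorem tot_zero [NeZero m] [IsDomain A] (hφ : Function.Surjective φ) {y : A} (hy : y ^ m = 1)
    (h1 : y ≠ 1) : ∑ g, dot φ y g = 0 := by
  have hm : m ≠ 1 := by
    rintro rfl
    exact h1 (by simpa using hy)
  have hv : (1 : ZMod m).val = 1 := by rw [ZMod.val_one_eq_one_mod]; exact Nat.one_mod_eq_one.2 hm
  obtain ⟨k, hk⟩ := hφ (r 1)
  obtain ⟨k', hk'⟩ := hφ (r (-1))
  have e := tot_fix φ hy k
  have e' := tot_fix φ hy k'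
  rw [hk] at e
  rw [hk'] at e'
  generalize ∑ g, dot φ y g = T at e e'
  ext a b
  have f := congrFun (congrFun e a) b
  have f' := congrFun (congrFun e' a) b
  cases a
  · simpa [rho, Matrix.mul_apply, hv, mul_left_eq_self₀, h1] using f'
  · simpa [rho, Matrix.mul_apply, hv, mul_left_eq_self₀, h1] using f

theorem tot_one [NeZero m] (hφ : Function.Surjective φ) :
    ∃ c : ℕ, 2 * c = Nat.card K ∧ ∀ a b, (∑ g, dot φ (1 : ℤ) g) a b = c := by
  obtain ⟨k, hk⟩ := hφ (sr 0)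
  have e := tot_fix φ (one_pow m : (1 : ℤ) ^ m = 1) k
  rw [hk] at e
  have hs : ∀ b, (∑ g, dot φ (1 : ℤ) g) true b + (∑ g, dot φ (1 : ℤ) g) false b =
      Nat.card K := by
    intro b
    classical
    simp only [Matrix.sum_apply, ← sum_add_distrib]
    have : ∀ g : G, dot φ (1 : ℤ) g true b + dot φ (1 : ℤ) g false b = if g ∈ K then 1 else 0 := by
      intro g
      split_ifs with hg
      · rw [show dot φ (1 : ℤ) g = _ from dot_mem φ 1 ⟨g, hg⟩]
        cases φ ⟨g, hg⟩ <;> cases b <;> simp [rho]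
      · simp [dot_not φ _ hg]
    simp [this, Nat.card_eq_fintype_card, Fintype.card_subtype]
  generalize ∑ g, dot φ (1 : ℤ) g = T at e hs
  have f : ∀ b, T false b = T true b := fun b => by
    simpa [rho, Matrix.mul_apply] using congrFun (congrFun e true) b
  have f1 := hs true
  have f2 := hs false
  have f3 := f true
  have f4 := f false
  refine ⟨Nat.card K / 2, by omega, fun a b => ?_⟩
  cases a <;> cases b <;> omega

end Pool.Agent.P.MP_e9cc94_co.Dih
end

-- part Pool.Agent.P.MP_e9cc94_co.DihB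
section

/-! Difference sets and dihedral sections: determinants modulo primes and modulo four. -/

set_option autoImplicit false
set_option linter.unusedSectionVars false

namespace Pool.Agent.P.MP_e9cc94_co.Dih

open Finset Matrix

section adj
variable {A : Type} [CommRing A] {X : Type} [Fintype X] [DecidableEq X]

theorem adj_mul (M N : Matrix (X × Bool) (X × Bool) A) : adj (M * N) = adj N * adj M := by
  rw [adj, adj, adj, ← transpose_mul, submatrix_mul_equiv]

theorem adj_adj (M : Matrix (X × Bool) (X × Bool) A) : adj (adj M) = M := by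
  ext a b
  simp [adj, fl]

theorem det_adj (M : Matrix (X × Bool) (X × Bool) A) : (adj M).det = M.det := by
  rw [adj, det_transpose, det_submatrix_equiv_self]

theorem adj_one_add (N : Matrix (X × Bool) (X × Bool) A) :
    adj (1 + (2 : A) • N) = 1 + (2 : A) • adj N := by
  ext a b
  simp [adj, Matrix.one_apply, eq_comm]

theorem trace_adj (N : Matrix (X × Bool) (X × Bool) A) : trace (adj N) = trace N :=
  Fintype.sum_equiv (fl X) _ _ fun _ => rfl

theorem trace_even (N : Matrix (X × Bool) (X × Bool) A) : ∃ e, trace (N * adj N) = 2 * e := by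
  have h : ∀ x : X, (N * adj N) (x, false) (x, false) = (N * adj N) (x, true) (x, true) := by
    intro x
    simp only [Matrix.mul_apply]
    refine Fintype.sum_equiv (fl X) _ _ fun b => ?_
    simp [adj, fl, mul_comm]
  refine ⟨∑ x : X, (N * adj N) (x, true) (x, true), ?_⟩
  simp only [trace, diag_apply, Fintype.sum_prod_type, Fintype.sum_bool, h, ← two_mul, mul_sum]

/-- two congruent similitudes of the split form have the same determinant modulo four -/
theorem det_four [IsDomain A] [CharZero A] {M N : Matrix (X × Bool) (X × Bool) A} {t z : A}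
    (ht : 1 + 8 * t ≠ 0) (h : ∀ a b, ∃ c, M a b - N a b = 2 * c)
    (hN : N * adj N = (1 + 8 * t) • (1 : Matrix (X × Bool) (X × Bool) A))
    (hM : trace (M * adj M) = (1 + 8 * t) * Fintype.card (X × Bool) + 8 * z) :
    ∃ w, M.det * N.det = 1 + 4 * w := by
  choose Q hQ using h
  have hd : N.det ≠ 0 := by
    intro e
    have h1 := congrArg det hN
    rw [det_mul, e, zero_mul, det_smul, det_one, mul_one] at h1
    exact pow_ne_zero _ ht h1.symm
  have hN' : adj N * N = (1 + 8 * t) • (1 : Matrix (X × Bool) (X × Bool) A) := by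
    refine (isRegular_of_isLeftRegular_det (IsRegular.of_ne_zero hd).left).left ?_
    show N * (adj N * N) = N * ((1 + 8 * t) • (1 : Matrix (X × Bool) (X × Bool) A))
    rw [← mul_assoc, hN, Matrix.smul_mul, Matrix.mul_smul, one_mul, mul_one]
  have hMN : M = N + (2 : A) • of Q := by
    ext a b
    simp [← hQ a b]
  obtain ⟨L, hL⟩ : ∃ L, M * adj N = 1 + (2 : A) • L := by
    refine ⟨(4 * t) • (1 : Matrix (X × Bool) (X × Bool) A) + of Q * adj N, ?_⟩
    rw [hMN, add_mul, hN, Matrix.smul_mul, smul_add, smul_smul, add_smul, one_smul, add_assoc]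
    congr 3
    ring
  have h1 : (M * adj N) * adj (M * adj N) = (1 + 8 * t) • (M * adj M) := by
    rw [adj_mul, adj_adj, mul_assoc, ← mul_assoc (adj N), hN', Matrix.smul_mul, one_mul,
      Matrix.mul_smul]
  obtain ⟨e, he⟩ := trace_even L
  have h2 := congrArg trace h1
  rw [hL, adj_one_add, trace_smul, hM] at h2
  simp only [mul_add, add_mul, one_mul, mul_one, Matrix.smul_mul, Matrix.mul_smul, trace_add,
    trace_smul, trace_one, trace_adj, he, smul_eq_mul] at h2
  have h3 : trace L = 2 * ((2 * t + 8 * t ^ 2) * Fintype.card (X × Bool) + (1 + 8 * t) * z - e) := by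
    refine mul_left_cancel₀ (by norm_num : (4 : A) ≠ 0) ?_
    linear_combination h2
  have h4 := det_one_add_smul (2 : A) L
  rw [← hL, det_mul, det_adj, h3] at h4
  generalize Polynomial.eval (2 : A) _ = w at h4
  exact ⟨(2 * t + 8 * t ^ 2) * Fintype.card (X × Bool) + (1 + 8 * t) * z - e + w, by
    rw [h4]; ring⟩

theorem det_rank_one {Y : Type} [Fintype Y] [DecidableEq Y] {n c : ℤ} (hn : n ≠ 0) :
    n * (n • (1 : Matrix Y Y ℤ) + of fun _ _ => c).det =
      n ^ Fintype.card Y * (n + c * Fintype.card Y) := by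
  have hn' : (n : ℚ) ≠ 0 := by exact_mod_cast hn
  have h : (n • (1 : Matrix Y Y ℤ) + of fun _ _ => c).map (Int.castRingHom ℚ) =
      (n : ℚ) • (1 + replicateCol Unit (fun _ : Y => (c / n : ℚ)) *
        replicateRow Unit fun _ : Y => (1 : ℚ)) := by
    ext a b
    simp only [map_apply, Matrix.add_apply, Matrix.smul_apply, of_apply, Matrix.mul_apply,
      Matrix.one_apply, replicateCol_apply, replicateRow_apply, smul_eq_mul, eq_intCast]
    split_ifs <;> simp <;> field_simp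
  have h2 := (Int.castRingHom ℚ).map_det (n • (1 : Matrix Y Y ℤ) + of fun _ _ => c)
  rw [RingHom.mapMatrix_apply, h, det_smul, det_one_add_replicateCol_mul_replicateRow] at h2
  simp only [eq_intCast, dotProduct, one_mul, sum_const, card_univ, nsmul_eq_mul] at h2
  have h3 : (n : ℚ) * ((n • (1 : Matrix Y Y ℤ) + of fun _ _ => c).det : ℤ) =
      n ^ Fintype.card Y * (n + c * Fintype.card Y) := by
    rw [h2]
    field_simp
  exact_mod_cast h3

end adj

/-- the ring of algebraic integers -/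
abbrev S : Type := integralClosure ℤ ℂ

theorem exists_res {l : ℕ} (hl : l.Prime) : ∃ Q : Ideal S, (∀ a : ℤ, (a : S) ∈ Q ↔ (l : ℤ) ∣ a) ∧
    ∀ y : S, y ^ l = 1 → Ideal.Quotient.mk Q y = 1 := by
  have hp : (Ideal.span {(l : ℤ)}).IsPrime :=
    (Ideal.span_singleton_prime (by exact_mod_cast hl.ne_zero)).2 (Nat.prime_iff_prime_int.1 hl)
  obtain ⟨Q, hQ, h⟩ := Ideal.exists_ideal_over_prime_of_isIntegral_of_isDomain (S := S)
    (Ideal.span {(l : ℤ)}) (by
      rw [(RingHom.injective_iff_ker_eq_bot _).1 (algebraMap ℤ S).injective_int]; exact bot_le)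
  have h1 : ∀ a : ℤ, (a : S) ∈ Q ↔ (l : ℤ) ∣ a := fun a => by
    rw [← Ideal.mem_span_singleton, ← h, Ideal.mem_comap, eq_intCast]
  refine ⟨Q, h1, fun y hy => ?_⟩
  have := Fact.mk hl
  have : CharP (S ⧸ Q) l := (CharP.charP_iff_prime_eq_zero hl).2 (by
    have h2 := Ideal.Quotient.eq_zero_iff_mem.2 ((h1 l).2 dvd_rfl)
    simpa using h2)
  have h2 : (Ideal.Quotient.mk Q y - 1) ^ l = 0 := by
    rw [sub_pow_char, ← map_pow, hy, map_one, one_pow, sub_self]
  exact sub_eq_zero.1 (pow_eq_zero_iff hl.ne_zero |>.1 h2)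

theorem exists_root {l : ℕ} (hl : l ≠ 0) : ∃ w : S, IsPrimitiveRoot w l := by
  have h := Complex.isPrimitiveRoot_exp l hl
  exact ⟨⟨_, h.isIntegral (Nat.pos_of_ne_zero hl)⟩, IsPrimitiveRoot.coe_submonoidClass_iff.1 h⟩

theorem four_dvd {a : ℤ} {w : S} (h : (a : S) = 4 * w) : 4 ∣ a := by
  obtain ⟨Q, h1, -⟩ := exists_res Nat.prime_two
  have h2 : (2 : S) ∈ Q := by simpa using (h1 2).2 dvd_rfl
  obtain ⟨b, rfl⟩ := (h1 a).1 (by
    rw [h, show (4 : S) * w = 2 * (2 * w) by ring]; exact Q.mul_mem_right _ h2)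
  have h3 : (b : S) = 2 * w := by
    refine mul_left_cancel₀ (two_ne_zero' S) ?_
    push_cast at h
    linear_combination h
  obtain ⟨c, rfl⟩ := (h1 b).1 (by rw [h3]; exact Q.mul_mem_right _ h2)
  exact ⟨c, by push_cast; ring⟩

end Pool.Agent.P.MP_e9cc94_co.Dih
end

-- part Pool.Agent.P.MP_e9cc94_co.DihC
section

/-! Difference sets and dihedral sections: the congruence. -/

set_option autoImplicit false
set_option linter.unusedSectionVars false

namespace Pool.Agent.P.MP_e9cc94_co.Dih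

open Finset Matrix

variable {G : Type} [Group G] [Fintype G] [DecidableEq G] {K : Subgroup G} {m : ℕ}
  {D : Finset G} {lam n u : ℕ}

theorem count (h : ∀ g : G, g ≠ 1 → #{p ∈ D ×ˢ D | p.1 * p.2⁻¹ = g} = lam) :
    #D * #D + lam = #D + lam * Fintype.card G := by
  have h2 : #{p ∈ D ×ˢ D | p.1 * p.2⁻¹ = 1} = #D := by
    rw [← D.diag_card]
    congr 1
    ext p
    simp only [mem_filter, mem_product, mul_inv_eq_one, mem_diag]
    exact ⟨fun h => ⟨h.1.1, h.2⟩, fun h => ⟨⟨h.1, h.2 ▸ h.1⟩, h.2⟩⟩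
  rw [← card_product, card_eq_sum_card_fiberwise (t := univ) (f := fun p : G × G => p.1 * p.2⁻¹)
    fun _ _ => mem_univ _, ← add_sum_erase _ _ (mem_univ 1), h2,
    sum_congr rfl fun g hg => h g (ne_of_mem_erase hg), sum_const, card_erase_of_mem (mem_univ _),
    card_univ, smul_eq_mul]
  obtain ⟨v, hv⟩ := Nat.exists_eq_succ_of_ne_zero (Fintype.card_ne_zero (α := G))
  rw [hv, Nat.succ_sub_one, Nat.succ_eq_add_one]
  ring

theorem ne_zero_of_surj {φ : K →* DihedralGroup m} (hφ : Function.Surjective φ) : m ≠ 0 := by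
  rintro rfl
  have := Finite.of_surjective _ hφ
  exact not_finite (DihedralGroup 0)

theorem dvd_card {φ : K →* DihedralGroup m} (hφ : Function.Surjective φ) :
    2 * m ∣ Fintype.card G := by
  rw [← DihedralGroup.nat_card, ← Nat.card_eq_fintype_card]
  exact (Subgroup.card_dvd_of_surjective φ hφ).trans K.card_subgroup_dvd_card

theorem sign_eq {l : ℕ} (hl : l.Prime) (h2 : l ≠ 2) {a b U : ℤ} (ha : a = 1 ∨ a = -1)
    (hb : b = 1 ∨ b = -1) (hU : ¬(l : ℤ) ∣ U) (h : (l : ℤ) ∣ a * U - b * U) : a = b := by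
  have hp := Nat.prime_iff_prime_int.1 hl
  have h3 : ¬(l : ℤ) ∣ 2 := fun e =>
    h2 ((Nat.prime_dvd_prime_iff_eq hl Nat.prime_two).1 (by exact_mod_cast e))
  rw [← sub_mul] at h
  have h4 := (hp.dvd_or_dvd h).resolve_right hU
  rcases ha with rfl | rfl <;> rcases hb with rfl | rfl
  · rfl
  · exact absurd h4 h3
  · exact absurd (by simpa using h4.neg_right) h3
  · rfl

theorem two_primes (h : ∀ g : G, g ≠ 1 → #{p ∈ D ×ˢ D | p.1 * p.2⁻¹ = g} = lam)
    (hn : #D = lam + u ^ 2) {φ : K →* DihedralGroup m} (hφ : Function.Surjective φ) {q q' : ℕ}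
    (hq : q.Prime) (hq' : q'.Prime) (h2 : q ≠ 2) (hne : q' ≠ q) (hm : q ∣ m) (hm' : q' ∣ m)
    (hu : ¬q ∣ u) (hu' : ¬q' ∣ u) :
    ∃ ε : ℤ, (ε = 1 ∨ ε = -1) ∧ (q : ℤ) ∣ #D - ε * u ∧ (q' : ℤ) ∣ #D - ε * u ∧
      (q' = 2 → 4 ∣ (#D : ℤ) - ε * u) := by
  have : NeZero m := ⟨ne_zero_of_surj hφ⟩
  have hu0 : (u : ℤ) ≠ 0 := by
    rintro e
    exact hu (by rw [Nat.cast_eq_zero.1 e]; exact dvd_zero _)
  set R := Fintype.card (Ix K) with hR
  set U : ℤ := u ^ R with hU
  have hk : (#D : ℤ) ^ 2 = u ^ 2 + lam * Fintype.card G := by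
    have h1 := count h
    zify at h1 hn
    linear_combination h1 + hn
  have orth : ∀ y : S, y ^ m = 1 → y ≠ 1 → mat φ D y * adj (mat φ D y) =
      ((u : S) ^ 2) • (1 : Matrix (Ix K) (Ix K) S) := by
    intro y hy h1
    rw [mat_adj φ hy h hn, tot_zero φ hφ hy h1]
    ext a b
    simp
  have sgn : ∀ y : S, y ^ m = 1 → y ≠ 1 →
      ∃ α : ℤ, (α = 1 ∨ α = -1) ∧ (mat φ D y).det = ((α * U : ℤ) : S) := by
    intro y hy h1
    have h3 := congrArg det (orth y hy h1)
    rw [det_mul, det_adj, det_smul, det_one, mul_one, ← pow_mul, mul_comm 2, pow_mul, ← sq] at h3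
    rcases sq_eq_sq_iff_eq_or_eq_neg.1 h3 with e | e
    · exact ⟨1, Or.inl rfl, by rw [e, hU]; push_cast; ring⟩
    · exact ⟨-1, Or.inr rfl, by rw [e, hU]; push_cast; ring⟩
  obtain ⟨c, hc, hT⟩ := tot_one φ hφ
  have hcR : (c : ℤ) * R = Fintype.card G := by
    have h3 := K.card_mul_index
    rw [← hc, Nat.card_eq_fintype_card, Subgroup.index, Nat.card_eq_fintype_card] at h3
    rw [hR, Fintype.card_prod, Fintype.card_bool, ← h3]
    push_cast
    ring
  have one : mat φ D (1 : ℤ) * adj (mat φ D (1 : ℤ)) =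
      ((u : ℤ) ^ 2) • (1 : Matrix (Ix K) (Ix K) ℤ) + of fun _ _ => (lam * c : ℤ) := by
    rw [mat_adj φ (one_pow m) h hn]
    ext a b
    simp only [Matrix.add_apply, Matrix.smul_apply, of_apply, hT, smul_eq_mul, Nat.cast_pow]
  set d := (mat φ D (1 : ℤ)).det with hd
  obtain ⟨η, hη, hdη⟩ : ∃ η : ℤ, (η = 1 ∨ η = -1) ∧ u * d = η * #D * U := by
    have h3 := det_rank_one (Y := Ix K) (c := lam * c) (pow_ne_zero 2 hu0)
    rw [← one, det_mul, det_adj, mul_assoc (lam : ℤ), hcR, ← hk, ← pow_mul, mul_comm 2, pow_mul,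
      ← hd, ← hR, ← hU] at h3
    rcases sq_eq_sq_iff_eq_or_eq_neg.1 (show (u * d) ^ 2 = (#D * U) ^ 2 by
      linear_combination h3) with e | e
    · exact ⟨1, Or.inl rfl, by rw [e]; ring⟩
    · exact ⟨-1, Or.inr rfl, by rw [e]; ring⟩
  have hd1 : (mat φ D (1 : S)).det = (d : S) := by
    simpa using (det_map φ D (Int.castRingHom S) 1).symm
  have cong : ∀ {l : ℕ}, l.Prime → ∀ y z : S, z ^ l = 1 → ∀ a b : ℤ,
      (mat φ D (y * z)).det = a → (mat φ D y).det = b → (l : ℤ) ∣ a - b := by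
    intro l hl y z hz a b ha hb
    obtain ⟨Q, h3, h4⟩ := exists_res hl
    rw [← h3, Int.cast_sub, ← Ideal.Quotient.eq, ← ha, ← hb, det_map, det_map, map_mul, h4 z hz,
      mul_one]
  obtain ⟨w, hw⟩ := exists_root hq.ne_zero
  obtain ⟨w', hw'⟩ := exists_root hq'.ne_zero
  have e1 : w ^ m = 1 := (hw.pow_eq_one_iff_dvd m).2 hm
  have e2 : w' ^ m = 1 := (hw'.pow_eq_one_iff_dvd m).2 hm'
  have n1 := hw.ne_one hq.one_lt
  have n2 := hw'.ne_one hq'.one_lt
  have n3 : w * w' ≠ 1 := fun e => hne ((Nat.prime_dvd_prime_iff_eq hq' hq).1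
    (hw'.dvd_of_pow_eq_one _ (by simpa [mul_pow, hw.pow_eq_one] using congrArg (· ^ q) e)))
  have e3 : (w * w') ^ m = 1 := by rw [mul_pow, e1, e2, one_mul]
  obtain ⟨α₁, s1, d1⟩ := sgn w e1 n1
  obtain ⟨α₂, s2, d2⟩ := sgn w' e2 n2
  obtain ⟨α, s3, d3⟩ := sgn (w * w') e3 n3
  have nU : ∀ {l : ℕ}, l.Prime → ¬l ∣ u → ¬(l : ℤ) ∣ U := fun hl hu e =>
    hu (by exact_mod_cast (Nat.prime_iff_prime_int.1 hl).dvd_of_dvd_pow e)
  have fin : ∀ {l : ℕ}, l.Prime → ¬l ∣ u → (l : ℤ) ∣ α * U - d → (l : ℤ) ∣ #D - α * η * u := by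
    intro l hl hu h3
    have h4 : (l : ℤ) ∣ (#D - α * η * u) * U := by
      have h5 : (#D - α * η * u) * U = -(η * u) * (α * U - d) := by
        rcases hη with rfl | rfl
        · linear_combination -hdη
        · linear_combination hdη
      rw [h5]
      exact h3.mul_left _
    exact ((Nat.prime_iff_prime_int.1 hl).dvd_or_dvd h4).resolve_right (nU hl hu)
  have hε : α * η = 1 ∨ α * η = -1 := by
    rcases s3 with rfl | rfl <;> rcases hη with rfl | rfl <;> simp
  obtain rfl : α = α₂ := sign_eq hq h2 s3 s2 (nU hq hu)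
    (cong hq w' w hw.pow_eq_one _ _ (by rw [mul_comm, d3]) d2)
  have c1 := cong hq 1 w hw.pow_eq_one _ _ (by rw [one_mul, d1]) hd1
  have c2 := cong hq' 1 w' hw'.pow_eq_one _ _ (by rw [one_mul, d2]) hd1
  by_cases h2' : q' = 2
  swap
  · obtain rfl : α = α₁ := sign_eq hq' h2' s3 s1 (nU hq' hu')
      (cong hq' w w' hw'.pow_eq_one _ _ d3 d1)
    exact ⟨_, hε, fin hq hu c1, fin hq' hu' c2, fun e => absurd e h2'⟩
  subst h2'
  obtain rfl := hw'.eq_neg_one_of_two_right
  have hodd : Odd (u : ℤ) := by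
    rw [Int.odd_coe_nat, ← Nat.not_even_iff_odd, even_iff_two_dvd]
    exact hu'
  obtain ⟨t, ht⟩ := Int.eight_dvd_sq_sub_one_of_odd hodd
  have ht' : (u : S) ^ 2 = 1 + 8 * (t : S) := by
    have h3 : (u : ℤ) ^ 2 = 1 + 8 * t := by linarith
    exact_mod_cast congrArg (Int.cast : ℤ → S) h3
  have ht0 : 1 + 8 * (t : S) ≠ 0 := by
    rw [← ht']
    exact pow_ne_zero _ (by exact_mod_cast hu0)
  have even : ∀ (y : S) a b, ∃ c, mat φ D y a b - mat φ D (y * -1) a b = 2 * c := by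
    intro y a b
    have h3 : Ideal.Quotient.mk (Ideal.span {(2 : S)}) (y * -1) =
        Ideal.Quotient.mk (Ideal.span {(2 : S)}) y :=
      Ideal.Quotient.eq.2 (Ideal.mem_span_singleton.2 ⟨-y, by ring⟩)
    have h4 := mat_map φ D (Ideal.Quotient.mk (Ideal.span {(2 : S)})) (y * -1)
    rw [h3, ← mat_map] at h4
    exact Ideal.mem_span_singleton.1 (Ideal.Quotient.eq.1 (congrFun (congrFun h4 a) b).symm)
  obtain ⟨s, hs⟩ : (4 : ℤ) ∣ U * U - 1 := by
    have h3 := Int.eight_dvd_sq_sub_one_of_odd (hodd.pow (n := R))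
    rw [sq] at h3
    exact (show (4 : ℤ) ∣ 8 by norm_num).trans h3
  obtain rfl : α = α₁ := by
    obtain ⟨x, hx⟩ := det_four (z := 0) ht0 (even w) (by rw [orth _ e3 n3, ht'])
      (by rw [orth _ e1 n1, ht']; simp)
    rw [d1, d3] at hx
    have h3 := four_dvd (a := α₁ * U * (α * U) - 1) (w := x) (by push_cast at hx ⊢; linear_combination hx)
    have h4 : α₁ * U * (α * U) - 1 = α₁ * α * (4 * s + 1) - 1 := by linear_combination α₁ * α * hs
    rw [h4] at h3
    rcases s1 with rfl | rfl <;> rcases s3 with rfl | rfl <;> omega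
  refine ⟨_, hε, fin hq hu c1, fin hq' hu' c2, fun _ => ?_⟩
  have hkodd : Odd (#D : ℤ) := by
    obtain ⟨v, hv⟩ := (Dvd.intro _ rfl).trans (dvd_card hφ)
    rw [← Int.odd_pow' two_ne_zero, hk, hv]
    push_cast
    exact hodd.pow.add_even ((even_two_mul _).mul_left _)
  obtain ⟨t', ht2⟩ := Int.eight_dvd_sq_sub_one_of_odd hkodd
  have tr : trace (mat φ D (1 : S) * adj (mat φ D (1 : S))) =
      (1 + 8 * (t : S)) * R + 8 * ((t' - t : ℤ) : S) := by
    have h3 : trace (mat φ D (1 : ℤ) * adj (mat φ D (1 : ℤ))) = (1 + 8 * t) * R + 8 * (t' - t) := by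
      rw [one, trace_add, trace_smul, trace_one, trace]
      simp only [diag_apply, of_apply, sum_const, card_univ, smul_eq_mul, nsmul_eq_mul, ← hR]
      linear_combination R * ht + lam * hcR - hk + ht2 - ht
    have h4 := congrArg (Int.castRingHom S) h3
    rw [← (map_one (Int.castRingHom S)), ← mat_map]
    simp only [trace, diag_apply, Matrix.mul_apply, map_sum, map_mul, adj, transpose_apply,
      submatrix_apply, map_apply] at h4 ⊢
    rw [h4]
    simp
  obtain ⟨x, hx⟩ := det_four ht0 (even 1) (by rw [one_mul, orth _ e2 n2, ht']) tr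
  rw [one_mul, hd1, d2] at hx
  obtain ⟨r, hr⟩ := four_dvd (a := d * (α * U) - 1) (w := x)
    (by push_cast at hx ⊢; linear_combination hx)
  refine ⟨α * η * u * r - #D * s, ?_⟩
  rcases s1 with rfl | rfl <;> rcases hη with rfl | rfl
  · linear_combination u * hr - U * hdη - #D * hs
  · linear_combination -u * hr + U * hdη - #D * hs
  · linear_combination -u * hr - U * hdη - #D * hs
  · linear_combination u * hr + U * hdη - #D * hs

end Pool.Agent.P.MP_e9cc94_co.Dih
end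

-- part Pool.Agent.P.MP_e9cc94_co.DihD
section

/-! Difference sets and dihedral sections: the general congruence and the Pell parameters. -/

set_option autoImplicit false
set_option linter.unusedSectionVars false

namespace Pool.Agent.P.MP_e9cc94_co.Dih

open Finset

variable {G : Type} [Group G] [Fintype G] [DecidableEq G] {K : Subgroup G} {m : ℕ}
  {D : Finset G} {lam u : ℕ}

theorem coprime_of_primes {a b : ℤ}
    (h : ∀ l : ℕ, l.Prime → (l : ℤ) ∣ a → (l : ℤ) ∣ b → False) : IsCoprime a b := by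
  rw [Int.isCoprime_iff_gcd_eq_one]
  by_contra e
  obtain ⟨l, hl, h1⟩ := Nat.exists_prime_and_dvd e
  exact h l hl ((Int.natCast_dvd_natCast.2 h1).trans (Int.gcd_dvd_left ..))
    ((Int.natCast_dvd_natCast.2 h1).trans (Int.gcd_dvd_right ..))

theorem general (h : ∀ g : G, g ≠ 1 → #{p ∈ D ×ˢ D | p.1 * p.2⁻¹ = g} = lam)
    (hn : #D = lam + u ^ 2) {φ : K →* DihedralGroup m} (hφ : Function.Surjective φ)
    (hc : m.Coprime u) : (2 * m : ℤ) ∣ #D - u ∨ (2 * m : ℤ) ∣ #D + u := by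
  obtain ⟨v, hv⟩ := dvd_card hφ
  have hk : (#D : ℤ) ^ 2 = u ^ 2 + lam * (2 * m * v) := by
    have h1 := count h
    rw [hv] at h1
    zify at h1 hn
    linear_combination h1 + hn
  have hn' : (#D : ℤ) = lam + u ^ 2 := by exact_mod_cast hn
  have nd : ∀ {l : ℕ}, l.Prime → l ∣ m → ¬l ∣ u := fun hl h1 h2 =>
    hl.one_lt.ne' (Nat.eq_one_of_dvd_coprimes hc h1 h2)
  have par : ∀ ε : ℤ, ε = 1 ∨ ε = -1 → 2 ∣ (#D : ℤ) - ε * u ∧ 2 ∣ (#D : ℤ) + ε * u := by
    intro ε hε
    have h1 : Even (((#D : ℤ) - u) * (#D + u)) := ⟨lam * m * v, by linear_combination hk⟩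
    rw [Int.even_mul, even_iff_two_dvd, even_iff_two_dvd] at h1
    rcases hε with rfl | rfl <;> omega
  obtain ⟨ε, hε, h1, h2⟩ : ∃ ε : ℤ, (ε = 1 ∨ ε = -1) ∧
      (∀ l : ℕ, l.Prime → l ∣ m → (l : ℤ) ∣ #D - ε * u) ∧ (2 ∣ m → 4 ∣ (#D : ℤ) - ε * u) := by
    by_cases ho : ∃ q : ℕ, q.Prime ∧ q ≠ 2 ∧ q ∣ m
    · obtain ⟨q, hq, hq2, hqm⟩ := ho
      have hp := Nat.prime_iff_prime_int.1 hq
      obtain ⟨ε, hε, h1⟩ : ∃ ε : ℤ, (ε = 1 ∨ ε = -1) ∧ (q : ℤ) ∣ #D - ε * u := by
        have h1 : (q : ℤ) ∣ (#D - 1 * u) * (#D - -1 * u) := by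
          rw [show ((#D : ℤ) - 1 * u) * (#D - -1 * u) = m * (2 * lam * v) by linear_combination hk]
          exact (Int.natCast_dvd_natCast.2 hqm).mul_right _
        exact (hp.dvd_or_dvd h1).elim (fun e => ⟨1, Or.inl rfl, e⟩) fun e => ⟨-1, Or.inr rfl, e⟩
      have key : ∀ l : ℕ, l.Prime → l ≠ q → l ∣ m →
          (l : ℤ) ∣ #D - ε * u ∧ (l = 2 → 4 ∣ (#D : ℤ) - ε * u) := by
        intro l hl hlq hlm
        obtain ⟨ε', hε', h2, h3⟩ := two_primes h hn hφ hq hl hq2 hlq hqm hlm (nd hq hqm) (nd hl hlm)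
        obtain rfl : ε = ε' := sign_eq (U := u) hq hq2 hε hε'
          (fun e => nd hq hqm (Int.natCast_dvd_natCast.1 e)) (by simpa using h2.sub h1)
        exact h3
      refine ⟨ε, hε, fun l hl hlm => ?_, fun e => (key 2 Nat.prime_two hq2.symm e).2 rfl⟩
      by_cases e : l = q
      · exact e ▸ h1
      · exact (key l hl e hlm).1
    · have h1 : ∀ ε : ℤ, ε = 1 ∨ ε = -1 → ∀ l : ℕ, l.Prime → l ∣ m → (l : ℤ) ∣ #D - ε * u := by
        intro ε hε l hl hlm
        obtain rfl : l = 2 := by_contra fun e => ho ⟨l, hl, e, hlm⟩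
        exact (par ε hε).1
      by_cases h2 : 4 ∣ (#D : ℤ) - 1 * u
      · exact ⟨1, Or.inl rfl, h1 1 (Or.inl rfl), fun _ => h2⟩
      · refine ⟨-1, Or.inr rfl, h1 _ (Or.inr rfl), fun e => ?_⟩
        have h3 := nd Nat.prime_two e
        have h4 := (par 1 (Or.inl rfl)).1
        omega
  have hε2 : ε ^ 2 = 1 := by rcases hε with rfl | rfl <;> rfl
  have nd' : ∀ l : ℕ, l.Prime → l ∣ m → (l : ℤ) ∣ #D + ε * u → l = 2 := by
    intro l hl hlm h3
    have h4 : (l : ℤ) ∣ 2 * u := by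
      have h5 := (h3.sub (h1 l hl hlm)).mul_left ε
      rwa [show ε * ((#D : ℤ) + ε * u - (#D - ε * u)) = 2 * u by linear_combination 2 * u * hε2]
        at h5
    rcases (Nat.prime_iff_prime_int.1 hl).dvd_or_dvd h4 with e | e
    · exact (Nat.prime_dvd_prime_iff_eq hl Nat.prime_two).1 (by exact_mod_cast e)
    · exact absurd (Int.natCast_dvd_natCast.1 e) (nd hl hlm)
  suffices h3 : (2 * m : ℤ) ∣ #D - ε * u by
    rcases hε with rfl | rfl
    · exact Or.inl (by simpa using h3)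
    · exact Or.inr (by simpa using h3)
  obtain ⟨b, hb⟩ := (par ε hε).2
  obtain ⟨a, ha⟩ := (par ε hε).1
  have hab : 2 * (a * b) = lam * (m * v) := by
    refine mul_left_cancel₀ (two_ne_zero' ℤ) ?_
    linear_combination hk - (u : ℤ) ^ 2 * hε2 - (#D - ε * u) * hb - 2 * b * ha
  rw [ha]
  refine mul_dvd_mul_left _ ?_
  by_cases he : 2 ∣ m
  · have h3 := nd Nat.prime_two he
    have h4 := h2 he
    obtain ⟨l', hl'⟩ : (2 : ℤ) ∣ lam := by
      have h5 : Odd ((u : ℤ) ^ 2) := Odd.pow (Int.odd_iff.2 (by omega))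
      rw [Int.odd_iff] at h5
      rcases hε with rfl | rfl <;> omega
    refine IsCoprime.dvd_of_dvd_mul_right (z := b) (coprime_of_primes fun l hl h5 h6 => ?_)
      ⟨l' * v, by rw [hl'] at hab; linarith⟩
    obtain rfl := nd' l hl (Int.natCast_dvd_natCast.1 h5) (hb ▸ h6.mul_left 2)
    rcases hε with rfl | rfl <;> omega
  · refine IsCoprime.dvd_of_dvd_mul_right (z := 2 * b) (coprime_of_primes fun l hl h5 h6 => ?_)
      ⟨lam * v, by linarith⟩
    obtain rfl := nd' l hl (Int.natCast_dvd_natCast.1 h5) (hb ▸ h6)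
    exact he (Int.natCast_dvd_natCast.1 h5)

theorem sq_nat {a b c : ℤ} (ha : 0 ≤ a) (h : IsCoprime a b) (e : a * b = c ^ 2) :
    ∃ s : ℕ, a = s ^ 2 := by
  obtain ⟨s, hs | hs⟩ := Int.sq_of_isCoprime h e
  · exact ⟨s.natAbs, by simpa using hs⟩
  · exact ⟨0, by have := sq_nonneg s; push_cast; omega⟩

/-- the Pell parameters -/
theorem params {k lam : ℕ} (hl : 2 < lam) (h : k * k + lam = k + lam * (2 * lam)) :
    ∃ u P H a : ℕ, ∃ δ : ℤ, k = lam + u ^ 2 ∧ lam = 2 * u * P * H ∧ k = u * a ∧ 2 ≤ P ∧ 3 ≤ H ∧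
      H.Coprime (2 * P) ∧ u.Coprime (2 * P * H) ∧ (δ = 1 ∨ δ = -1) ∧ (a : ℤ) - δ = 4 * P ^ 2 ∧
      (a : ℤ) + δ = 2 * H ^ 2 := by
  zify at h hl
  have hlt : (lam : ℤ) < k := by nlinarith
  have e1 : ((k : ℤ) - lam) * (2 * (k - lam) - 1) = (2 * lam - k) ^ 2 := by linear_combination h
  have c1 : IsCoprime ((k : ℤ) - lam) (2 * (k - lam) - 1) := ⟨2, -1, by ring⟩
  obtain ⟨u, hu⟩ := sq_nat (by omega) c1 e1
  obtain ⟨s, hs⟩ := sq_nat (by omega) c1.symm (by rw [mul_comm, e1])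
  have hu0 : (0 : ℤ) < u := by
    rcases Nat.eq_zero_or_pos u with rfl | e
    · simp at hu; omega
    · exact_mod_cast e
  have hus : (s : ℤ) ^ 2 = 2 * u ^ 2 - 1 := by rw [← hs, ← hu]
  have hle : (u : ℤ) ≤ s := by nlinarith
  have hlam : (lam : ℤ) = u * (u + s) := by
    rcases sq_eq_sq_iff_eq_or_eq_neg.1 (show (2 * lam - k : ℤ) ^ 2 = (u * s) ^ 2 by
      rw [← e1, hs, hu]; ring) with e | e
    · linear_combination e + hu
    · nlinarith
  have hso : Odd (s : ℤ) := by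
    rw [← Int.odd_pow' two_ne_zero, hus]
    exact (even_two_mul _).sub_odd odd_one
  obtain ⟨r, hr⟩ := Int.eight_dvd_sq_sub_one_of_odd hso
  have huo : Odd (u : ℤ) := by
    rw [← Int.odd_pow' two_ne_zero, Int.odd_iff]
    omega
  obtain ⟨t, ht⟩ := huo.add_odd hso
  obtain ⟨x, hx⟩ : Odd (2 * u + s : ℤ) := (even_two_mul _).add_odd hso
  have hx1 : x * (x + 1) = 2 * t ^ 2 := by
    refine mul_left_cancel₀ (by norm_num : (4 : ℤ) ≠ 0) ?_
    linear_combination -hus - (2 * u + s + 2 * x + 1) * hx + 2 * (u + s + 2 * t) * ht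
  have hu2 : (2 : ℤ) ≤ u := by
    by_contra e
    have e' : (u : ℤ) = 1 := by omega
    rw [e'] at hus hlam
    nlinarith
  have hx3 : 3 ≤ x := by omega
  have hut : IsCoprime (u : ℤ) (2 * t) :=
    ⟨2 * u + s, -s, by linear_combination -hus + s * ht⟩
  have fin : ∀ (P H : ℕ) (δ : ℤ), (δ = 1 ∨ δ = -1) → 2 * x + 1 - δ = 4 * P ^ 2 →
      2 * x + 1 + δ = 2 * H ^ 2 → ∃ u P H a : ℕ, ∃ δ : ℤ, k = lam + u ^ 2 ∧ lam = 2 * u * P * H ∧
      k = u * a ∧ 2 ≤ P ∧ 3 ≤ H ∧ H.Coprime (2 * P) ∧ u.Coprime (2 * P * H) ∧ (δ = 1 ∨ δ = -1) ∧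
      (a : ℤ) - δ = 4 * P ^ 2 ∧ (a : ℤ) + δ = 2 * H ^ 2 := by
    intro P H δ hδ hP hH
    have hδ2 : δ ^ 2 = 1 := by rcases hδ with rfl | rfl <;> rfl
    have htPH : t = P * H := by
      refine (pow_left_inj₀ (by omega) (by positivity) two_ne_zero).1 ?_
      refine mul_left_cancel₀ (by norm_num : (8 : ℤ) ≠ 0) ?_
      linear_combination -4 * hx1 + (2 * x + 1 + δ) * hP + 4 * P ^ 2 * hH + hδ2
    have hc : IsCoprime (H : ℤ) (P : ℤ) :=
      ⟨δ * H, -2 * δ * P, by
        refine mul_left_cancel₀ (two_ne_zero' ℤ) ?_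
        linear_combination δ * hP - δ * hH + 2 * hδ2⟩
    have hHo : Odd (H : ℤ) := by
      rw [← Int.odd_pow' two_ne_zero, Int.odd_iff]
      rcases hδ with rfl | rfl <;> omega
    have hP2 : (1 : ℤ) < P := by
      by_contra e
      have e' : P ≤ 1 := by omega
      interval_cases P <;> rcases hδ with rfl | rfl <;> omega
    have hH2 : (1 : ℤ) < H := by
      by_contra e
      have e' : H ≤ 1 := by omega
      interval_cases H <;> rcases hδ with rfl | rfl <;> omega
    refine ⟨u, P, H, 2 * u + s, δ, ?_, ?_, ?_, by omega, ?_, ?_, ?_, hδ, ?_, ?_⟩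
    · zify; linarith
    · zify; rw [hlam, ht, htPH]; ring
    · zify; linear_combination hu + hlam
    · rw [Int.odd_iff] at hHo; omega
    · exact Nat.Coprime.mul_right (Nat.coprime_two_right.2 (by exact_mod_cast hHo))
        (Nat.isCoprime_iff_coprime.1 hc)
    · rw [htPH] at hut
      refine Nat.isCoprime_iff_coprime.1 ?_
      push_cast
      rwa [mul_assoc]
    · push_cast; rw [hx, hP]
    · push_cast; rw [hx, hH]
  rcases Int.even_or_odd' x with ⟨y, rfl | rfl⟩
  · have c2 : IsCoprime y (2 * y + 1) := ⟨-2, 1, by ring⟩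
    have e2 : y * (2 * y + 1) = t ^ 2 := by linarith
    obtain ⟨P, hP⟩ := sq_nat (by omega) c2 e2
    obtain ⟨H, hH⟩ := sq_nat (by omega) c2.symm (by rw [mul_comm, e2])
    exact fin P H 1 (Or.inl rfl) (by linarith) (by linarith)
  · have c2 : IsCoprime (y + 1) (2 * y + 1) := ⟨2, -1, by ring⟩
    have e2 : (y + 1) * (2 * y + 1) = t ^ 2 := by linarith
    obtain ⟨P, hP⟩ := sq_nat (by omega) c2 e2
    obtain ⟨H, hH⟩ := sq_nat (by omega) c2.symm (by rw [mul_comm, e2])
    exact fin P H (-1) (Or.inr rfl) (by linarith) (by linarith)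

theorem pell (h : ∀ g : G, g ≠ 1 → #{p ∈ D ×ˢ D | p.1 * p.2⁻¹ = g} = lam)
    (h4 : 4 < Fintype.card G) (hv : Fintype.card G = 2 * lam) :
    ∃ u P H : ℕ, #D = lam + u ^ 2 ∧ Fintype.card G = 4 * u * P * H ∧ 2 ≤ P ∧
      (H ^ 2 = 2 * P ^ 2 + 1 ∨ H ^ 2 + 1 = 2 * P ^ 2) ∧
      ∀ (K : Subgroup G) (m : ℕ) (φ : K →* DihedralGroup m), Function.Surjective φ →
        m.Coprime H ∨ m.Coprime (2 * P) := by
  obtain ⟨u, P, H, a, δ, h1, h2, h3, hP, hH, c1, c2, hδ, e1, e2⟩ :=
    params (k := #D) (lam := lam) (by omega) (by rw [count h, hv])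
  have hPH : H ^ 2 = 2 * P ^ 2 + 1 ∨ H ^ 2 + 1 = 2 * P ^ 2 := by
    zify
    rcases hδ with rfl | rfl <;> omega
  refine ⟨u, P, H, h1, by rw [hv, h2]; ring, hP, hPH, fun K m φ hφ => ?_⟩
  by_contra hc
  rw [not_or, Nat.Prime.not_coprime_iff_dvd, Nat.Prime.not_coprime_iff_dvd] at hc
  obtain ⟨⟨q, hq, hqm, hqH⟩, q', hq', hqm', hqP⟩ := hc
  have n1 : ∀ {l a b : ℕ}, l.Prime → a.Coprime b → l ∣ a → ¬l ∣ b := fun hl hc h1 h2 =>
    hl.one_lt.ne' (Nat.eq_one_of_dvd_coprimes hc h1 h2)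
  have hq2 : q ≠ 2 := by
    rintro rfl
    exact n1 hq c1 hqH (dvd_mul_right _ _)
  have hu : ¬q ∣ u := fun e => n1 hq c2 e (hqH.mul_left _)
  have hu' : ¬q' ∣ u := fun e => n1 hq' c2 e (hqP.mul_right _)
  obtain ⟨ε, hε, d1, d2, d3⟩ := two_primes h h1 hφ hq hq' hq2
    (fun e => n1 hq c1 hqH (e ▸ hqP)) hqm hqm' hu hu'
  rw [show (#D : ℤ) - ε * u = u * (a - ε) by rw [h3]; push_cast; ring] at d1 d2 d3
  have p1 := Nat.prime_iff_prime_int.1 hq
  have p2 := Nat.prime_iff_prime_int.1 hq'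
  replace d1 := (p1.dvd_or_dvd d1).resolve_left fun e => hu (Int.natCast_dvd_natCast.1 e)
  replace d2 := (p2.dvd_or_dvd d2).resolve_left fun e => hu' (Int.natCast_dvd_natCast.1 e)
  obtain rfl | rfl : ε = δ ∨ ε = -δ := by
    rcases hε with rfl | rfl <;> rcases hδ with rfl | rfl <;> simp
  · rw [e1, show (4 * P ^ 2 : ℤ) = (2 * P : ℕ) ^ 2 by push_cast; ring] at d1
    exact n1 hq c1 hqH (Int.natCast_dvd_natCast.1 (p1.dvd_of_dvd_pow d1))
  · rw [sub_neg_eq_add, e2] at d2 d3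
    have d4 : (q' : ℤ) ∣ H ^ 2 := by
      by_cases e : q' = 2
      · obtain ⟨z, hz⟩ := d3 e
        subst e
        exact (p2.dvd_or_dvd (⟨z, by push_cast; linarith⟩ : ((2 : ℕ) : ℤ) ∣ u * H ^ 2)).resolve_left
          fun e => hu' (Int.natCast_dvd_natCast.1 e)
      · exact (p2.dvd_or_dvd d2).resolve_left fun e' =>
          e ((Nat.prime_dvd_prime_iff_eq hq' Nat.prime_two).1 (by exact_mod_cast e'))
    exact n1 hq' c1 (Int.natCast_dvd_natCast.1 (p2.dvd_of_dvd_pow d4)) hqP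

end Pool.Agent.P.MP_e9cc94_co.Dih
end
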