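import Mathlib
import Pool.Agent.K.MP_e9cc94_co.C0

-- part Pool.Agent.P.MP_e9cc94_co.SpA
section

/-! Difference sets and spinor norms: determinants of Cayley transforms. -/

set_option autoImplicit false
set_option linter.unusedSectionVars false

namespace Pool.Agent.P.MP_e9cc94_co.Sp

open Finset Matrix

/-- the determinant of a skew matrix is a square -/
theorem skew_sq : ∀ (n : ℕ) (ι : Type) [Fintype ι] [DecidableEq ι] (T : Matrix ι ι ℚ),
    Fintype.card ι = n → Tᵀ = -T → ∃ c, T.det = c ^ 2 := by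
  intro n
  induction n using Nat.strong_induction_on with
  | _ n ih =>
  intro ι _ _ T hn hT
  by_cases h0 : T = 0
  · subst h0
    cases isEmpty_or_nonempty ι
    · exact ⟨1, by simp⟩
    · exact ⟨0, by simp⟩
  obtain ⟨i, j, hij⟩ : ∃ i j, T i j ≠ 0 := by
    by_contra! h
    exact h0 (by ext; simp [h])
  have hs : ∀ a b, T b a = -T a b := fun a b => congrFun (congrFun hT a) b
  have hd : ∀ a, T a a = 0 := fun a => by linarith [hs a a]
  have hf : Function.Injective ![i, j] := by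
    have hne : i ≠ j := by
      rintro rfl
      exact hij (hd i)
    intro a b
    fin_cases a <;> fin_cases b <;> simp [hne, hne.symm]
  classical
  let e := (Equiv.sumCongr (Equiv.ofInjective _ hf) (Equiv.refl _)).trans
    (Equiv.Set.sumCompl (Set.range ![i, j]))
  have hA : (T.submatrix e e).toBlocks₁₁ = !![0, T i j; -T i j, 0] := by
    ext a b
    fin_cases a <;> fin_cases b <;> simp [e, toBlocks₁₁, hd, hs i j]
  have hc := Fintype.card_congr e
  rw [Fintype.card_sum, Fintype.card_fin] at hc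
  have hB : (T.submatrix e e).toBlocks₁₂ᵀ = -(T.submatrix e e).toBlocks₂₁ := by
    ext a b
    exact hs _ _
  have hD : (T.submatrix e e).toBlocks₂₂ᵀ = -(T.submatrix e e).toBlocks₂₂ := by
    ext a b
    exact hs _ _
  rw [← det_submatrix_equiv_self e, ← fromBlocks_toBlocks (T.submatrix e e), hA]
  generalize (T.submatrix e e).toBlocks₁₂ = B at hB
  generalize (T.submatrix e e).toBlocks₂₁ = C at hB
  generalize (T.submatrix e e).toBlocks₂₂ = D at hD
  have hE : (!![0, -(T i j)⁻¹; (T i j)⁻¹, 0] : Matrix (Fin 2) (Fin 2) ℚ) *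
      !![0, T i j; -T i j, 0] = 1 := by
    ext a b
    fin_cases a <;> fin_cases b <;> simp [hij]
  let := invertibleOfLeftInverse _ _ hE
  have hE' : (⅟!![0, T i j; -T i j, 0] : Matrix (Fin 2) (Fin 2) ℚ)ᵀ =
      -⅟!![0, T i j; -T i j, 0] := by
    rw [invOf_eq_left_inv hE]
    ext a b
    fin_cases a <;> fin_cases b <;> simp
  have hC : Cᵀ = -B := by rw [← neg_neg C, ← hB]; simp
  obtain ⟨c, hc⟩ := ih _ (by omega) _ (D - C * ⅟!![0, T i j; -T i j, 0] * B) rfl (by
    rw [transpose_sub, transpose_mul, transpose_mul, hE', hB, hC, hD]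
    simp [Matrix.mul_assoc, sub_eq_add_neg, add_comm])
  exact ⟨T i j * c, by rw [det_fromBlocks₁₁, hc, det_fin_two_of]; ring⟩

variable {ι : Type} [Fintype ι] [DecidableEq ι]

/-- rows in `s` from the identity, the others from `T` -/
def pw (s : Finset ι) (T : Matrix ι ι ℚ) : Matrix ι ι ℚ :=
  of fun a b => if a ∈ s then (1 : Matrix ι ι ℚ) a b else T a b

theorem pw_sq {T : Matrix ι ι ℚ} (hT : Tᵀ = -T) (s : Finset ι) : ∃ c, (pw s T).det = c ^ 2 := by
  have h1 : toSquareBlockProp (pw s T) (· ∈ s) = 1 := by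
    ext a b
    simp only [toSquareBlockProp_def, pw, of_apply, a.2, if_true, Matrix.one_apply, Subtype.ext_iff]
  rw [twoBlockTriangular_det' _ (· ∈ s) fun i hi j hj => by
    simp [pw, hi, Matrix.one_apply_ne (ne_of_mem_of_not_mem hi hj)], h1, @det_one _ _ (_), one_mul]
  refine skew_sq _ _ _ rfl ?_
  ext a b
  simpa [toSquareBlockProp_def, pw, a.2, b.2] using congrFun (congrFun hT a) b

theorem expand (σ : ι → ℚ) (T : Matrix ι ι ℚ) :
    (diagonal σ + T).det = ∑ s : Finset ι, (∏ i ∈ s, σ i) * (pw s T).det := by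
  refine (detRowAlternating.map_add_univ (diagonal σ) T).trans (sum_congr rfl fun s _ => ?_)
  have h : of (s.piecewise (diagonal σ) T) = diagonal (s.piecewise σ 1) * pw s T := by
    ext a b
    by_cases ha : a ∈ s <;> simp [pw, ha, diagonal_apply, Matrix.one_apply, Finset.piecewise]
  refine (congrArg det h).trans ?_
  rw [det_mul, det_diagonal, prod_piecewise]
  simp

theorem det_nonneg {Y : Matrix ι ι ℚ} (h : Y + Yᵀ = 1) : 0 ≤ Y.det := by
  have h1 : Y = diagonal (fun _ => 1 / 2) + (Y - diagonal fun _ => 1 / 2) := by simp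
  rw [h1, expand]
  refine sum_nonneg fun s _ => ?_
  obtain ⟨c, hc⟩ := pw_sq (T := Y - diagonal fun _ => 1 / 2) (by
    ext a b
    have := congrFun (congrFun h a) b
    simp only [Matrix.add_apply, transpose_apply, Matrix.sub_apply, Matrix.neg_apply,
      diagonal_apply, Matrix.one_apply, eq_comm] at this ⊢
    split_ifs at this ⊢ <;> linarith) s
  rw [hc]
  positivity

variable {Γ : Type} [LinearOrderedCommGroupWithZero Γ] (v : Valuation ℚ Γ)

theorem det_int {X : Matrix ι ι ℚ} (h : ∀ i j, X i j ∈ v.integer) : X.det ∈ v.integer := by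
  rw [det_apply']
  exact sum_mem fun _ _ => mul_mem (intCast_mem _ _) (prod_mem fun _ _ => h _ _)

/-- the local statement: the determinant has even valuation -/
theorem loc {X Y : Matrix ι ι ℚ} {σ : ι → ℚ} (hX : ∀ i j, X i j ∈ v.integer)
    (hσ : ∀ i, σ i ∈ v.integer) (h : Y * X = 1) (hY : Y + Yᵀ = diagonal fun i => 2 * σ i) :
    ∃ c, v (X.det * c ^ 2) = 1 := by
  obtain ⟨T, rfl⟩ : ∃ T, Y = diagonal σ + T := ⟨Y - diagonal σ, by simp⟩
  have hT : Tᵀ = -T := by
    ext a b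
    have := congrFun (congrFun hY a) b
    simp only [Matrix.add_apply, transpose_apply, Matrix.neg_apply, diagonal_apply] at this ⊢
    by_cases e : a = b
    · subst e
      simp only [if_true] at this
      linarith
    · simp only [e, Ne.symm e, if_false] at this
      linarith
  have h1 := congrArg det h
  rw [det_mul, expand, det_one, sum_mul] at h1
  obtain ⟨s, hs⟩ : ∃ s : Finset ι, 1 ≤ v ((∏ i ∈ s, σ i) * (pw s T).det * X.det) := by
    by_contra! e
    have h2 := v.map_sum_lt (s := univ) one_ne_zero fun s _ => e s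
    rw [h1, map_one] at h2
    exact lt_irrefl _ h2
  obtain ⟨c, hc⟩ := pw_sq hT s
  have h2 : (pw s T * X).det ∈ v.integer := by
    refine det_int v fun a b => ?_
    by_cases ha : a ∈ s
    · simpa [pw, ha, Matrix.mul_apply, Matrix.one_apply] using hX a b
    · have h3 := congrFun (congrFun h a) b
      rw [add_mul, Matrix.add_apply, diagonal_mul] at h3
      have h4 : (pw s T * X) a b = (1 : Matrix ι ι ℚ) a b - σ a * X a b := by
        rw [← h3]
        simp [pw, ha, Matrix.mul_apply]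
      rw [h4, Matrix.one_apply]
      refine sub_mem ?_ (mul_mem (hσ a) (hX a b))
      split_ifs
      · exact one_mem _
      · exact zero_mem _
  rw [det_mul, hc, mul_comm] at h2
  rw [hc, mul_assoc, map_mul, mul_comm (c ^ 2)] at hs
  have h3 : v (∏ i ∈ s, σ i) ≤ 1 := prod_mem fun i _ => hσ i
  exact ⟨c, le_antisymm h2 (hs.trans (mul_le_of_le_one_left' h3))⟩

end Pool.Agent.P.MP_e9cc94_co.Sp
end

-- part Pool.Agent.P.MP_e9cc94_co.SpB
section

/-! Difference sets and spinor norms: orthogonal matrices. -/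

set_option autoImplicit false
set_option linter.unusedSectionVars false

namespace Pool.Agent.P.MP_e9cc94_co.Sp

open Finset Matrix

variable {ι : Type} [Fintype ι] [DecidableEq ι]

theorem cayley {A : Matrix ι ι ℚ} (h : A * Aᵀ = 1) (hd : (1 + A).det ≠ 0) :
    ∃ Y : Matrix ι ι ℚ, Y * (1 + A) = 1 ∧ A * Y = Yᵀ ∧ Y + Yᵀ = 1 := by
  have h1 := (1 + A).nonsing_inv_mul (Ne.isUnit hd)
  have h2 := mul_eq_one_comm.1 h1
  generalize (1 + A)⁻¹ = Y at h1 h2
  have h3 : Yᵀ * (1 + Aᵀ) = 1 := by simpa using congrArg transpose h2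
  have h4 : A * Y = Yᵀ := by
    rw [← one_mul (A * Y), ← h3, mul_assoc, ← mul_assoc _ A, add_mul, mul_eq_one_comm.1 h, one_mul,
      add_comm, h2, mul_one]
  exact ⟨Y, h1, h4, by rw [← h4, ← h2, add_mul, one_mul]⟩

theorem det_pos {A : Matrix ι ι ℚ} (h : A * Aᵀ = 1) (hd : (1 + A).det ≠ 0) : 0 < (1 + A).det := by
  obtain ⟨Y, h1, -, h2⟩ := cayley h hd
  have h3 := congrArg det h1
  rw [det_mul, det_one] at h3
  exact pos_of_mul_pos_right (h3 ▸ one_pos) (det_nonneg h2)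

variable {Γ : Type} [LinearOrderedCommGroupWithZero Γ] (v : Valuation ℚ Γ)

theorem one_add_int {A : Matrix ι ι ℚ} (hA : ∀ i j, A i j ∈ v.integer) (i j : ι) :
    (1 + A) i j ∈ v.integer := by
  rw [Matrix.add_apply, Matrix.one_apply]
  refine add_mem ?_ (hA i j)
  split_ifs
  · exact one_mem _
  · exact zero_mem _

theorem loc_one {A : Matrix ι ι ℚ} (h : A * Aᵀ = 1) (hd : (1 + A).det ≠ 0)
    (h2 : (1 / 2 : ℚ) ∈ v.integer) (hA : ∀ i j, A i j ∈ v.integer) :
    ∃ c, v ((1 + A).det * c ^ 2) = 1 := by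
  obtain ⟨Y, h1, -, h3⟩ := cayley h hd
  exact loc v (σ := fun _ => 1 / 2) (one_add_int v hA) (fun _ => h2) h1 (by simpa using h3)

theorem loc_two [Nonempty ι] {A : Matrix ι ι ℚ} (h : A * Aᵀ = 1) (hd : (1 + A).det ≠ 0)
    (h2 : (1 / 2 : ℚ) ∈ v.integer)
    (hA : ∀ i j, (A - (2 / Fintype.card ι : ℚ) • ((of fun _ _ : ι => (1 : ℚ)) * A)) i j ∈ v.integer) :
    ∃ c, v ((1 + A).det * (Fintype.card ι / 2) * c ^ 2) = 1 := by
  obtain ⟨Y, h1, h3, h4⟩ := cayley h hd
  set r : ℚ := (Fintype.card ι : ℚ) with hr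
  have hr0 : r ≠ 0 := Nat.cast_ne_zero.2 Fintype.card_ne_zero
  obtain ⟨j, hj⟩ : ∃ j : Matrix ι Unit ℚ, j = of fun _ _ => 1 := ⟨_, rfl⟩
  have hJ : (of fun _ _ : ι => (1 : ℚ)) = j * jᵀ := by
    ext a b
    simp [hj, Matrix.mul_apply]
  have hjj : jᵀ * j = r • (1 : Matrix Unit Unit ℚ) := by
    ext a b
    simp [hj, Matrix.mul_apply, hr]
  have hY : jᵀ * (Yᵀ * j) = (r / 2) • (1 : Matrix Unit Unit ℚ) := by
    have e1 : jᵀ * (Y * j) = jᵀ * (Yᵀ * j) := by
      have e : (jᵀ * (Y * j))ᵀ = jᵀ * (Yᵀ * j) := by simp [Matrix.mul_assoc]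
      rw [← e]
      rfl
    have e2 : jᵀ * (Y * j) + jᵀ * (Yᵀ * j) = r • (1 : Matrix Unit Unit ℚ) := by
      rw [← Matrix.mul_add, ← Matrix.add_mul, h4, Matrix.one_mul, hjj]
    rw [e1, ← two_smul ℚ] at e2
    rw [div_eq_inv_mul, mul_smul, ← e2, smul_smul]
    simp
  rw [hJ] at hA
  obtain ⟨B, hB⟩ : ∃ B, B = A - (2 / r) • (j * jᵀ * A) := ⟨_, rfl⟩
  rw [← hB] at hA
  have hjB : jᵀ * B = -(jᵀ * A) := by
    rw [hB, Matrix.mul_sub, Matrix.mul_smul, Matrix.mul_assoc, ← Matrix.mul_assoc jᵀ j, hjj,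
      Matrix.smul_mul, Matrix.one_mul, smul_smul, div_mul_cancel₀ _ hr0, two_smul]
    simp
  have hBY : B * Y = Yᵀ - (2 / r) • (j * (jᵀ * Yᵀ)) := by
    rw [hB, Matrix.sub_mul, Matrix.smul_mul, Matrix.mul_assoc, h3, Matrix.mul_assoc]
  have hX : fromBlocks (1 + B) j (jᵀ * B) ((r / 2) • (1 : Matrix Unit Unit ℚ)) =
      fromBlocks (1 + A) j 0 ((r / 2) • (1 : Matrix Unit Unit ℚ)) *
        fromBlocks 1 0 ((2 / r) • (jᵀ * B)) 1 := by
    rw [fromBlocks_multiply, hjB]
    congr 1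
    · simp [hB, Matrix.mul_assoc, sub_eq_add_neg, add_assoc]
    · simp
    · simp [smul_smul, hr0]
    · simp
  obtain ⟨c, hc⟩ := loc v (X := fromBlocks (1 + B) j (jᵀ * B) ((r / 2) • (1 : Matrix Unit Unit ℚ)))
    (Y := fromBlocks Y (-(2 / r) • (Y * j)) ((2 / r) • (jᵀ * Yᵀ)) 0)
    (σ := Sum.elim (fun _ => 1 / 2) fun _ => 0) (by
      rintro (a | a) (b | b)
      · exact one_add_int v hA a b
      · simp [hj]
      · simpa [hj, Matrix.mul_apply] using sum_mem fun c _ => hA c b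
      · simpa [div_eq_mul_inv] using mul_mem (natCast_mem v.integer _) h2)
    (by rintro (a | a) <;> simp only [Sum.elim_inl, Sum.elim_inr, h2, zero_mem]) (by
      rw [mul_eq_one_comm, fromBlocks_multiply, ← fromBlocks_one]
      congr 1
      · rw [add_mul, one_mul, hBY, Matrix.mul_smul, add_assoc, sub_add_cancel, h4]
      · rw [Matrix.mul_zero, add_zero, Matrix.mul_smul, ← Matrix.mul_assoc, add_mul, one_mul, hBY,
          ← add_sub_assoc, h4, Matrix.sub_mul, Matrix.smul_mul, Matrix.mul_assoc, Matrix.mul_assoc,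
          hY]
        simp [smul_smul, hr0]
      · rw [hjB, Matrix.neg_mul, Matrix.mul_assoc, h3]
        simp [smul_smul, hr0]
      · rw [hjB, Matrix.mul_zero, add_zero, Matrix.mul_smul, Matrix.neg_mul, Matrix.mul_assoc,
          ← Matrix.mul_assoc A, h3, hY]
        simp [smul_smul, hr0]) (by
      rw [fromBlocks_transpose, fromBlocks_add, h4]
      ext (a | a) (b | b) <;> simp [Matrix.one_apply, diagonal_apply])
  refine ⟨c, ?_⟩
  rw [hX, det_mul, det_fromBlocks_zero₂₁, det_fromBlocks_zero₁₂] at hc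
  simpa using hc

end Pool.Agent.P.MP_e9cc94_co.Sp
end

-- part Pool.Agent.P.MP_e9cc94_co.SpC
section

/-! Difference sets and spinor norms: the product formula. -/

set_option autoImplicit false
set_option linter.unusedSectionVars false

namespace Pool.Agent.P.MP_e9cc94_co.Sp

open Finset Matrix

variable {ι : Type} [Fintype ι] [DecidableEq ι]

theorem swap {M : Matrix ι ι ℤ} {c : ℤ} (hc : c ≠ 0) (h : M * Mᵀ = c • (1 : Matrix ι ι ℤ)) :
    Mᵀ * M = c • (1 : Matrix ι ι ℤ) := by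
  have hd : M.det ≠ 0 := by
    intro e
    have h1 := congrArg det h
    rw [det_mul, e, zero_mul, det_smul, det_one, mul_one] at h1
    exact pow_ne_zero _ hc h1.symm
  refine (isRegular_of_isLeftRegular_det (IsRegular.of_ne_zero hd).left).left ?_
  show M * (Mᵀ * M) = M * (c • (1 : Matrix ι ι ℤ))
  rw [← mul_assoc, h, Matrix.smul_mul, Matrix.mul_smul, one_mul, mul_one]

theorem sim_mul {M N : Matrix ι ι ℤ} {c d : ℤ} (h : M * Mᵀ = c • (1 : Matrix ι ι ℤ))
    (h' : N * Nᵀ = d • (1 : Matrix ι ι ℤ)) : M * N * (M * N)ᵀ = (c * d) • (1 : Matrix ι ι ℤ) := by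
  rw [transpose_mul, mul_assoc, ← mul_assoc N, h', Matrix.smul_mul, one_mul, Matrix.mul_smul, h,
    smul_smul, mul_comm]

/-- the prime two -/
theorem two_adic {N : Matrix ι ι ℤ} {V : ℤ} (hV : Odd V)
    (h : (V • (1 : Matrix ι ι ℤ) + (4 : ℤ) • N) * (V • (1 : Matrix ι ι ℤ) + (4 : ℤ) • N)ᵀ =
      (V * V) • (1 : Matrix ι ι ℤ)) :
    ∃ w, ((V * V) • (1 : Matrix ι ι ℤ) + (2 * V) • N).det = 1 + 4 * w := by
  have h2 := congrArg trace h
  simp only [transpose_add, transpose_smul, transpose_one, mul_add, add_mul, one_mul, mul_one,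
    Matrix.smul_mul, Matrix.mul_smul, trace_add, trace_smul, trace_one, trace_transpose,
    smul_eq_mul] at h2
  obtain ⟨t, ht⟩ := Int.eight_dvd_sq_sub_one_of_odd hV
  have h3 : (V * V) • (1 : Matrix ι ι ℤ) + (2 * V) • N =
      1 + (2 : ℤ) • ((4 * t) • (1 : Matrix ι ι ℤ) + V • N) := by
    rw [show V * V = 1 + 2 * (4 * t) by linear_combination ht]
    module
  have h4 := det_one_add_smul (2 : ℤ) ((4 * t) • (1 : Matrix ι ι ℤ) + V • N)
  rw [← h3, trace_add, trace_smul, trace_smul, trace_one, smul_eq_mul, smul_eq_mul] at h4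
  generalize Polynomial.eval (2 : ℤ) _ = w at h4
  refine ⟨2 * t * Fintype.card ι - trace (N * Nᵀ) + w, ?_⟩
  rw [h4]
  linarith

theorem val_one {l : ℕ} [Fact l.Prime] {d : ℤ} (h : ¬(l : ℤ) ∣ d) :
    Rat.padicValuation l d = 1 := Int.padicValuation_eq_one_iff.2 h

theorem frac_mem {l : ℕ} [Fact l.Prime] {d : ℤ} (h : ¬(l : ℤ) ∣ d) (x : ℤ) :
    (x / d : ℚ) ∈ (Rat.padicValuation l).integer := by
  rw [Valuation.mem_integer_iff, map_div₀, val_one h, div_one]
  exact Int.padicValuation_le_one l x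

theorem mod_four {W : ℕ}
    (h : ∀ (l : ℕ) [Fact l.Prime], l % 4 = 3 → ∃ c : ℚ, Rat.padicValuation l (W * c ^ 2) = 1) :
    W % 4 ≠ 3 := by
  obtain ⟨x, y, rfl⟩ := (Nat.eq_sq_add_sq_iff (n := W)).2 fun l hl h3 => by
    have := Fact.mk (Nat.prime_of_mem_primeFactors hl)
    obtain ⟨c, hc⟩ := h l h3
    have h0 : (W * c ^ 2 : ℚ) ≠ 0 := fun e => by simp [e] at hc
    have h1 := left_ne_zero_of_mul h0
    have h2 := right_ne_zero_of_mul h0
    have h4 : padicValRat l (W * c ^ 2) = 0 := by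
      simpa [Rat.padicValuation, h0, h1, h2, -mul_eq_zero] using hc
    rw [padicValRat.mul h1 h2, padicValRat.pow, padicValRat.of_nat] at h4
    rw [← Int.even_coe_nat]
    exact ⟨-padicValRat l c, by push_cast at h4 ⊢; linarith⟩
  intro e
  have h1 : ∀ a b : ZMod 4, a ^ 2 + b ^ 2 ≠ 3 := by decide
  refine h1 x y ?_
  have h2 := congrArg (Nat.cast : ℕ → ZMod 4) e
  rw [ZMod.natCast_mod] at h2
  exact_mod_cast h2

theorem core {M A B C : Matrix ι ι ℤ} {u P H a κ : ℕ} {δ : ℤ} (hu : Odd u) (hH : H.Coprime (2 * P))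
    (hδ : δ = 1 ∨ δ = -1) (e0 : a = 2 * P * H + u) (e1 : (a : ℤ) - δ = 4 * P ^ 2)
    (e2 : (a : ℤ) + δ = 2 * H ^ 2) (hP : 0 < P)
    (hκ : κ * Fintype.card ι = 4 * u * P * H) (h4 : 4 ∣ κ)
    (hM : M * Mᵀ = (u ^ 2 : ℤ) • (1 : Matrix ι ι ℤ) +
      (2 * u * P * H * κ : ℤ) • of fun _ _ : ι => (1 : ℤ))
    (hr : (M * of fun _ _ : ι => (1 : ℤ)) = (u * a : ℤ) • of fun _ _ : ι => (1 : ℤ))
    (hc : (of fun _ _ : ι => (1 : ℤ)) * M = (u * a : ℤ) • of fun _ _ : ι => (1 : ℤ))
    (hA : A * Aᵀ = (u ^ 2 : ℤ) • (1 : Matrix ι ι ℤ)) (hB : B * Bᵀ = (u ^ 2 : ℤ) • (1 : Matrix ι ι ℤ))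
    (hC : C * Cᵀ = (u ^ 2 : ℤ) • (1 : Matrix ι ι ℤ)) (c1 : ∀ i j, 2 ∣ M i j - A i j)
    (c2 : ∀ i j, 2 ∣ A i j - C i j) (c3 : ∀ i j, 4 ∣ M i j - A i j - B i j + C i j) :
    Nat.gcd (Fintype.card ι) H % 4 = 1 := by
  obtain ⟨J, hJ⟩ : ∃ J : Matrix ι ι ℤ, J = of fun _ _ => 1 := ⟨_, rfl⟩
  rw [← hJ] at hM hr hc
  set r := Fintype.card ι with hr'
  have hHo : Odd H := Nat.coprime_two_right.1 (hH.coprime_mul_right_right)
  have hu0 : (u : ℤ) ≠ 0 := by exact_mod_cast hu.pos.ne'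
  have hH0 : (H : ℤ) ≠ 0 := by exact_mod_cast hHo.pos.ne'
  have hr0 : r ≠ 0 := by
    rintro e
    rw [e] at hκ
    have := hu.pos
    have := hHo.pos
    exact absurd hκ.symm (by positivity)
  have : Nonempty ι := Fintype.card_pos_iff.1 (Nat.pos_of_ne_zero hr0)
  have hκ' : (κ : ℤ) * r = 4 * u * P * H := by exact_mod_cast hκ
  have hJt : Jᵀ = J := by rw [hJ]; rfl
  have hJJ : J * J = (r : ℤ) • J := by
    ext i j
    simp [hJ, Matrix.mul_apply, hr']
  have hr2 : J * Mᵀ = (u * a : ℤ) • J := by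
    rw [← hJt, ← transpose_mul, hr, transpose_smul]
  have hM' : ((H : ℤ) • M - (P * κ : ℤ) • J) * ((H : ℤ) • M - (P * κ : ℤ) • J)ᵀ =
      (H ^ 2 * u ^ 2 : ℤ) • (1 : Matrix ι ι ℤ) := by
    simp only [transpose_sub, transpose_smul, hJt, sub_mul, mul_sub, Matrix.smul_mul,
      Matrix.mul_smul, hM, hr, hr2, hJJ]
    match_scalars
    · ring
    · linear_combination P ^ 2 * κ * hκ' - u * P * H * κ * (e1 + e2)
  have hF := sim_mul (sim_mul (M := Aᵀ) (swap (pow_ne_zero 2 hu0) hA) hB)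
    (N := Cᵀ) (swap (pow_ne_zero 2 hu0) hC)
  have hZ := sim_mul hM' hF
  obtain ⟨V, hV⟩ : ∃ V : ℤ, V = u ^ 4 * H := ⟨_, rfl⟩
  have hVo : Odd V := by
    rw [hV]
    exact_mod_cast hu.pow.mul hHo
  have hV0 : (V : ℚ) ≠ 0 := by
    rintro e
    rw [Int.cast_eq_zero.1 e] at hVo
    exact absurd hVo (by decide)
  rw [show (H ^ 2 * u ^ 2 * (u ^ 2 * u ^ 2 * u ^ 2) : ℤ) = V * V by rw [hV]; ring] at hZ
  obtain ⟨N, hN⟩ : ∃ N : Matrix ι ι ℤ, ((H : ℤ) • M - (P * κ : ℤ) • J) * (Aᵀ * B * Cᵀ) =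
      V • (1 : Matrix ι ι ℤ) + (4 : ℤ) • N := by
    choose p hp using c1
    choose e he using c2
    choose w hw using c3
    obtain ⟨κ', hκ'⟩ := h4
    have f1 : M = A + (2 : ℤ) • of p := by ext i j; simp [← hp i j]
    have f2 : Cᵀ = Aᵀ - (2 : ℤ) • (of e)ᵀ := by
      ext i j
      simp only [Matrix.sub_apply, Matrix.smul_apply, transpose_apply, of_apply, smul_eq_mul]
      linarith [he j i]
    have f3 : B = C + (2 : ℤ) • of p - (4 : ℤ) • of w := by
      ext i j
      simp only [Matrix.sub_apply, Matrix.add_apply, Matrix.smul_apply, of_apply, smul_eq_mul]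
      linarith [hp i j, hw i j]
    have g1 : M * Aᵀ = (u ^ 2 : ℤ) • (1 : Matrix ι ι ℤ) + (2 : ℤ) • (of p * Aᵀ) := by
      rw [f1, add_mul, hA, Matrix.smul_mul]
    have g2 : B * Cᵀ = (u ^ 2 : ℤ) • (1 : Matrix ι ι ℤ) + (2 : ℤ) • (of p * Aᵀ) -
        (4 : ℤ) • (of p * (of e)ᵀ + of w * Cᵀ) := by
      rw [f3, sub_mul, add_mul, hC, Matrix.smul_mul, Matrix.smul_mul]
      nth_rw 1 [f2]
      rw [mul_sub, Matrix.mul_smul]
      module
    refine ⟨(H : ℤ) • ((u ^ 2 : ℤ) • (of p * Aᵀ) + of p * Aᵀ * (of p * Aᵀ) -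
      M * Aᵀ * (of p * (of e)ᵀ + of w * Cᵀ)) - (P * κ' : ℤ) • (J * (Aᵀ * B * Cᵀ)), ?_⟩
    rw [sub_mul, Matrix.smul_mul, Matrix.smul_mul, mul_assoc Aᵀ, ← mul_assoc M, g2, mul_sub,
      Matrix.mul_smul]
    nth_rw 1 [g1]
    simp only [mul_add, add_mul, Matrix.smul_mul, Matrix.mul_smul, one_mul, mul_one, hV, hκ']
    module
  obtain ⟨w, hw⟩ := two_adic hVo (hN ▸ hZ)
  generalize Aᵀ * B * Cᵀ = F at hZ hN
  let f := (Int.castRingHom ℚ).mapMatrix (m := ι)
  obtain ⟨Q, hQ⟩ : ∃ Q : Matrix ι ι ℚ, Q = (V : ℚ)⁻¹ • f (((H : ℤ) • M - (P * κ : ℤ) • J) * F) :=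
    ⟨_, rfl⟩
  have hQQ : Q * Qᵀ = 1 := by
    have h1 := congrArg f hZ
    rw [map_mul, map_zsmul, map_one] at h1
    rw [hQ, transpose_smul, Matrix.smul_mul, Matrix.mul_smul]
    erw [h1]
    rw [← Int.cast_smul_eq_zsmul ℚ, smul_smul, smul_smul, Int.cast_mul,
      show (V : ℚ)⁻¹ * (V : ℚ)⁻¹ * (V * V) = 1 by field_simp, one_smul]
  have hd : ((1 + 4 * w : ℤ) : ℚ) = (V * V / 2) ^ r * (1 + Q).det := by
    rw [← hw, ← det_smul, ← eq_intCast (Int.castRingHom ℚ), RingHom.map_det, hQ, hN]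
    congr 1
    ext i j
    simp only [f, RingHom.mapMatrix_apply, map_apply, Matrix.add_apply, Matrix.smul_apply,
      Matrix.one_apply, smul_eq_mul, eq_intCast]
    split_ifs <;> push_cast <;> field_simp <;> ring
  have hd0 : (1 + Q).det ≠ 0 := by
    intro e
    rw [e, mul_zero, Int.cast_eq_zero] at hd
    omega
  have hw0 : 0 < 1 + 4 * w := by
    have := det_pos hQQ hd0
    have h1 : (0 : ℚ) < ((1 + 4 * w : ℤ) : ℚ) := by
      rw [hd]
      have := mul_self_pos.2 hV0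
      positivity
    exact_mod_cast h1
  obtain ⟨W, hW⟩ := Int.eq_ofNat_of_zero_le hw0.le
  obtain ⟨r', hr1⟩ := Nat.gcd_dvd_left r H
  have hg : Odd (Nat.gcd r H) := hHo.of_dvd_nat (Nat.gcd_dvd_right ..)
  have key := mod_four (W := W * Nat.gcd r H) fun l hl h3 => by
    have hp := Nat.prime_iff_prime_int.1 hl.out
    have n2 : ¬(l : ℤ) ∣ 2 := fun e => by
      have := Int.le_of_dvd two_pos e
      omega
    have nu : ¬(l : ℤ) ∣ u := fun e => by
      refine ZMod.mod_four_ne_three_of_sq_eq_neg_one (y := (a : ZMod l)) ?_ h3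
      have h1 : (a : ℤ) ^ 2 + 1 = u * (4 * a - 2 * u) := by
        zify at e0
        rcases hδ with rfl | rfl
        · linear_combination -(a + 1) * e1 - 4 * P ^ 2 * e2 + 2 * (a - u + 2 * P * H) * e0
        · linear_combination -(a - 1) * e1 - 4 * P ^ 2 * e2 + 2 * (a - u + 2 * P * H) * e0
      have h2 := (ZMod.intCast_zmod_eq_zero_iff_dvd _ l).2 (h1 ▸ e.mul_right (4 * a - 2 * u))
      push_cast at h2
      linear_combination h2
    have half : (1 / 2 : ℚ) ∈ (Rat.padicValuation l).integer := by simpa using frac_mem n2 1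
    have v2 : Rat.padicValuation l 2 = 1 := by simpa using val_one n2
    obtain ⟨c, hc⟩ : ∃ c : ℚ, Rat.padicValuation l ((1 + Q).det * (Nat.gcd r H) * c ^ 2) = 1 := by
      by_cases hlH : l ∣ H
      · have nP : ¬(l : ℤ) ∣ 2 * P := fun e => hl.out.one_lt.ne'
          (Nat.eq_one_of_dvd_coprimes hH hlH (by exact_mod_cast e))
        have nd : ¬(l : ℤ) ∣ 2 * P * u ^ 4 := fun e =>
          (hp.dvd_or_dvd e).elim nP fun e => nu (hp.dvd_of_dvd_pow e)
        obtain ⟨c, hc'⟩ := loc_two (Rat.padicValuation l) hQQ hd0 half fun i j => by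
          have h1 : (of fun _ _ : ι => (1 : ℚ)) = f J := by
            ext i j
            simp [f, hJ]
          have h2 : J * (((H : ℤ) • M - (P * κ : ℤ) • J) * F) = (u * H * δ : ℤ) • (J * F) := by
            rw [← mul_assoc, mul_sub, Matrix.mul_smul, Matrix.mul_smul, hc, hJJ, smul_smul,
              smul_smul, ← sub_smul, Matrix.smul_mul]
            congr 1
            linear_combination -P * hκ' + u * H * e1
          have h5 := frac_mem nd (2 * P * (M * F) i j - κ * H * (J * F) i j)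
          rw [h1, hQ, Matrix.mul_smul, ← map_mul, h2, sub_mul, Matrix.smul_mul, Matrix.smul_mul]
          refine (congrArg (· ∈ _) ?_).mp h5
          simp only [f, RingHom.mapMatrix_apply, map_apply, Matrix.sub_apply, Matrix.smul_apply,
            smul_eq_mul, eq_intCast, hV, ← hr']
          have q1 : (κ : ℚ) * r = 4 * u * P * H := by exact_mod_cast hκ
          have q2 : (H : ℚ) ^ 2 = 2 * P ^ 2 + δ := by
            have : (H : ℤ) ^ 2 = 2 * P ^ 2 + δ := by linarith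
            exact_mod_cast this
          have q3 : (r : ℚ) ≠ 0 := by exact_mod_cast hr0
          have q4 : (u : ℚ) ≠ 0 := by exact_mod_cast hu0
          have q5 : (H : ℚ) ≠ 0 := by exact_mod_cast hH0
          have q6 : (P : ℚ) ≠ 0 := by exact_mod_cast hP.ne'
          push_cast
          field_simp
          linear_combination -(J * F) i j * (κ * r * q2 + δ * q1)
        have nr : ¬(l : ℤ) ∣ r' := fun e => by
          obtain ⟨H', hH'⟩ := Nat.gcd_dvd_right r H
          have h1 : (κ : ℤ) * r' = 2 * (u * (2 * P * H')) := by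
            have h1 : κ * (Nat.gcd r H * r') = 4 * u * P * (Nat.gcd r H * H') := by
              rw [← hr1, ← hH', hκ]
            refine mul_left_cancel₀ (Nat.cast_ne_zero.2 hg.pos.ne' : (Nat.gcd r H : ℤ) ≠ 0) ?_
            zify at h1
            linear_combination h1
          have h2 := (hp.dvd_or_dvd ((hp.dvd_or_dvd ((hp.dvd_or_dvd
            (h1 ▸ e.mul_left κ)).resolve_left n2)).resolve_left nu)).resolve_left nP
          have h5 : Nat.gcd r H * l ∣ Nat.gcd r H * 1 := by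
            rw [mul_one]
            refine Nat.dvd_gcd ?_ ?_
            · exact (mul_dvd_mul_left _ (Int.natCast_dvd_natCast.1 e)).trans hr1.symm.dvd
            · exact (mul_dvd_mul_left _ (Int.natCast_dvd_natCast.1 h2)).trans hH'.symm.dvd
          exact hl.out.not_dvd_one (Nat.dvd_of_mul_dvd_mul_left hg.pos h5)
        refine ⟨c, ?_⟩
        rw [← hr', hr1] at hc'
        simp only [Nat.cast_mul, map_mul, map_div₀, v2, div_one] at hc' ⊢
        have h1 : Rat.padicValuation l r' = 1 := by simpa using val_one nr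
        rwa [h1, mul_one] at hc'
      · have nd : ¬(l : ℤ) ∣ V := fun e => (hp.dvd_or_dvd (hV ▸ e)).elim
          (fun e => nu (hp.dvd_of_dvd_pow e)) fun e => hlH (by exact_mod_cast e)
        obtain ⟨c, hc'⟩ := loc_one (Rat.padicValuation l) hQQ hd0 half fun i j => by
          rw [hQ]
          simpa [f, div_eq_inv_mul] using
            frac_mem nd ((((H : ℤ) • M - (P * κ : ℤ) • J) * F) i j)
        have h1 : Rat.padicValuation l (Nat.gcd r H) = 1 := by
          refine val_one (d := Nat.gcd r H) fun e => hlH ?_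
          exact (Int.natCast_dvd_natCast.1 e).trans (Nat.gcd_dvd_right ..)
        refine ⟨c, ?_⟩
        simp only [map_mul, h1, mul_one] at hc' ⊢
        exact hc'
    refine ⟨c / V ^ r, ?_⟩
    have h1 : ((W * Nat.gcd r H : ℕ) : ℚ) * (c / V ^ r) ^ 2 =
        (1 + Q).det * (Nat.gcd r H) * c ^ 2 / 2 ^ r := by
      rw [hW, Int.cast_natCast] at hd
      rw [Nat.cast_mul, hd, div_pow, div_pow, mul_pow]
      field_simp
    rw [h1, map_div₀, hc, map_pow, v2, one_pow, div_one]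
  rw [Nat.odd_iff] at hg
  rw [Nat.mul_mod, show W % 4 = 1 by omega, one_mul, Nat.mod_mod] at key
  omega

end Pool.Agent.P.MP_e9cc94_co.Sp
end

-- part Pool.Agent.P.MP_e9cc94_co.SpD
section

/-! Difference sets and spinor norms: matrices induced from sign characters. -/

set_option autoImplicit false
set_option linter.unusedSectionVars false

namespace Pool.Agent.P.MP_e9cc94_co.Sp

open Finset Matrix

theorem sign_char {Q : Type} [Group Q] [Finite Q] (h : IsPGroup 2 Q) (hc : ¬IsCyclic Q) (x : Q) :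
    ∃ s : Q →* ℤ, s ≠ 1 ∧ s x = 1 := by
  classical
  obtain ⟨n, hn⟩ := h.exists_card_eq
  obtain ⟨m, hm⟩ := (h.to_subgroup (Subgroup.zpowers x)).exists_card_eq
  have h1 : m < n := by
    refine (Nat.pow_lt_pow_iff_right one_lt_two).1 ?_
    rw [← hm, ← hn]
    refine (Subgroup.card_le_card_group _).lt_of_ne fun e => hc ?_
    exact isCyclic_iff_exists_zpowers_eq_top.2 ⟨x, (Subgroup.card_eq_iff_eq_top _).1 e⟩
  obtain ⟨n, rfl⟩ : ∃ k, n = k + 1 := ⟨n - 1, by omega⟩
  obtain ⟨M, hM, hx⟩ := Sylow.exists_subgroup_card_pow_prime_le 2 (m := n)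
    (hn ▸ pow_dvd_pow _ n.le_succ) _ hm (by omega)
  have h2 : M.index = 2 := by
    have h3 := M.card_mul_index
    rw [hM, hn, pow_succ] at h3
    exact mul_left_cancel₀ (by positivity) h3
  obtain ⟨y, hy⟩ : ∃ y, y ∉ M := by
    by_contra! e
    rw [(Subgroup.eq_top_iff' M).2 e, Subgroup.index_top] at h2
    omega
  refine ⟨⟨⟨fun g => if g ∈ M then 1 else -1, by simp⟩, fun a b => ?_⟩, fun e => ?_, ?_⟩
  · by_cases ha : a ∈ M <;> by_cases hb : b ∈ M <;>
      simp [Subgroup.mul_mem_iff_of_index_two h2, ha, hb]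
  · simpa [hy] using DFunLike.congr_fun e y
  · simp [hx (Subgroup.mem_zpowers x)]

variable {G : Type} [Group G] [Fintype G] [DecidableEq G] {K : Subgroup G}

theorem pm (s : K →* ℤ) (k : K) : s k = 1 ∨ s k = -1 :=
  Int.eq_one_or_neg_one_of_mul_eq_one (v := s k⁻¹) (by rw [← map_mul, mul_inv_cancel, map_one])

open Classical in
/-- extension by zero -/
noncomputable def dot (s : K →* ℤ) (g : G) : ℤ := if h : g ∈ K then s ⟨g, h⟩ else 0

variable (s t : K →* ℤ)

theorem dot_mem {g : G} (h : g ∈ K) : dot s g = s ⟨g, h⟩ := by simp [dot, h]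

theorem dot_not {g : G} (h : g ∉ K) : dot s g = 0 := by simp [dot, h]

theorem dot_mul {k : G} (hk : k ∈ K) (z : G) : dot s (k * z) = dot s k * dot s z := by
  by_cases hz : z ∈ K
  · rw [dot_mem s hk, dot_mem s hz, dot_mem s (mul_mem hk hz), ← map_mul]
    rfl
  · rw [dot_not s hz, dot_not s (by simpa [K.mul_mem_cancel_left hk] using hz), mul_zero]

theorem dot_inv (g : G) : dot s g⁻¹ = dot s g := by
  by_cases hg : g ∈ K
  · have h : s ⟨g⁻¹, inv_mem hg⟩ * s ⟨g, hg⟩ = 1 := by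
      rw [← map_mul, ← map_one s]
      congr 1
      simp
    rw [dot_mem s hg, dot_mem s (inv_mem hg)]
    rcases pm s ⟨g, hg⟩ with e | e <;> rw [e] at h ⊢ <;> linarith
  · rw [dot_not s hg, dot_not s (by simpa using hg)]

theorem dot_cong (g : G) : 2 ∣ dot (1 : K →* ℤ) g - dot s g ∧ 2 ∣ dot s g - dot (s * t) g ∧
    4 ∣ dot (1 : K →* ℤ) g - dot s g - dot t g + dot (s * t) g := by
  by_cases hg : g ∈ K
  · simp only [dot_mem _ hg, MonoidHom.mul_apply, MonoidHom.one_apply]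
    rcases pm s ⟨g, hg⟩ with e | e <;> rcases pm t ⟨g, hg⟩ with e' | e' <;> rw [e, e'] <;> decide
  · simp [dot_not _ hg]

theorem dot_sum [Fintype K] : ∑ g, dot s g = ∑ k : K, s k := by
  classical
  rw [← sum_filter_add_sum_filter_not univ (· ∈ K), sum_eq_zero (s := filter (· ∉ K) _)
    fun g hg => dot_not s (mem_filter.1 hg).2, add_zero,
    sum_subtype (p := (· ∈ K)) _ (by simp)]
  exact sum_congr rfl fun k _ => dot_mem s k.2

theorem tot_zero (h : s ≠ 1) : ∑ g, dot s g = 0 := by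
  classical
  rw [dot_sum, sum_hom_units_eq_zero s h]

theorem tot_one : ∑ g, dot (1 : K →* ℤ) g = Nat.card K := by
  classical
  rw [dot_sum]
  simp

/-- the induced representation -/
noncomputable def ind (g : G) : Matrix (G ⧸ K) (G ⧸ K) ℤ :=
  of fun a b => dot s (a.out⁻¹ * g * b.out)

theorem key (a x : G ⧸ K) (g : G) :
    a.out⁻¹ * g * x.out ∈ K ↔ x = ((g⁻¹ * a.out : G) : G ⧸ K) := by
  conv_rhs => rw [← x.out_eq', eq_comm, QuotientGroup.eq]
  simp

theorem ind_mul (g h : G) : ind s g * ind s h = ind s (g * h) := by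
  ext a c
  rw [Matrix.mul_apply, Finset.sum_eq_single ((g⁻¹ * a.out : G) : G ⧸ K)]
  · simp only [ind, of_apply]
    rw [← dot_mul s ((key ..).2 rfl)]
    congr 1
    group
  · intro x _ hx
    simp [ind, dot_not s ((key a x g).not.2 hx)]
  · simp

theorem ind_one : ind s 1 = 1 := by
  ext x x'
  by_cases h : x = x'
  · subst h
    simp only [ind, of_apply, mul_one, inv_mul_cancel, dot_mem s (one_mem K), one_apply_eq]
    exact map_one s
  · have : x.out⁻¹ * x'.out ∉ K := by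
      rw [← QuotientGroup.eq, QuotientGroup.out_eq', QuotientGroup.out_eq']
      exact h
    simp [ind, dot_not s this, h]

theorem ind_inv (g : G) : ind s g⁻¹ = (ind s g)ᵀ := by
  ext a b
  simp only [ind, of_apply, transpose_apply]
  rw [← dot_inv]
  congr 1
  group

theorem ind_row (g : G) : (ind (1 : K →* ℤ) g * of fun _ _ : G ⧸ K => (1 : ℤ)) =
    of fun _ _ : G ⧸ K => (1 : ℤ) := by
  ext a c
  rw [Matrix.mul_apply, Finset.sum_eq_single ((g⁻¹ * a.out : G) : G ⧸ K)]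
  · simp [ind, dot_mem _ ((key a _ g).2 rfl)]
  · intro x _ hx
    simp [ind, dot_not _ ((key a x g).not.2 hx)]
  · simp

theorem ind_col (g : G) : (of fun _ _ : G ⧸ K => (1 : ℤ)) * ind (1 : K →* ℤ) g =
    of fun _ _ : G ⧸ K => (1 : ℤ) := by
  have h := congrArg transpose (ind_row (K := K) g⁻¹)
  rwa [transpose_mul, ind_inv] at h

/-- the matrix of `D` -/
noncomputable def mat (D : Finset G) : Matrix (G ⧸ K) (G ⧸ K) ℤ := ∑ d ∈ D, ind s d

theorem mat_mul {D : Finset G} {lam n : ℕ}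
    (h : ∀ g : G, g ≠ 1 → #{p ∈ D ×ˢ D | p.1 * p.2⁻¹ = g} = lam) (hn : #D = lam + n) :
    mat s D * (mat s D)ᵀ = (n : ℤ) • (1 : Matrix (G ⧸ K) (G ⧸ K) ℤ) +
      (lam * ∑ g, dot s g) • of fun _ _ : G ⧸ K => (1 : ℤ) := by
  have h1 : (mat s D)ᵀ = ∑ d ∈ D, ind s d⁻¹ := by
    simp only [mat, ind_inv, transpose_sum]
  have h2 : #{p ∈ D ×ˢ D | p.1 * p.2⁻¹ = 1} = lam + n := by
    rw [← hn, ← D.diag_card]
    congr 1
    ext p
    simp only [mem_filter, mem_product, mul_inv_eq_one, mem_diag]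
    exact ⟨fun h => ⟨h.1.1, h.2⟩, fun h => ⟨⟨h.1, h.2 ▸ h.1⟩, h.2⟩⟩
  have h3 : ∑ g, ind s g = (∑ g, dot s g) • of fun _ _ : G ⧸ K => (1 : ℤ) := by
    ext a b
    simp only [Matrix.sum_apply, Matrix.smul_apply, of_apply, ind, smul_eq_mul, mul_one]
    exact Fintype.sum_equiv ((Equiv.mulLeft a.out⁻¹).trans (Equiv.mulRight b.out)) _ _
      fun g => rfl
  rw [h1, mat, sum_mul_sum, ← sum_product']
  simp only [ind_mul s]
  rw [← sum_fiberwise_of_maps_to (t := univ) (g := fun p : G × G => p.1 * p.2⁻¹)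
    fun _ _ => mem_univ _, mul_smul, ← h3, smul_sum, ← ind_one s]
  have h4 : ∀ g : G, ∑ p ∈ D ×ˢ D with p.1 * p.2⁻¹ = g, ind s (p.1 * p.2⁻¹) =
      (if g = 1 then (n : ℤ) • ind s g else 0) + (lam : ℤ) • ind s g := by
    intro g
    rw [sum_congr rfl fun p hp => by rw [(mem_filter.1 hp).2], sum_const]
    split_ifs with hg
    · rw [hg, h2, ← add_smul, ← Nat.cast_add, add_comm, Nat.cast_smul_eq_nsmul]
    · rw [h g hg, zero_add, Nat.cast_smul_eq_nsmul]
  simp only [h4, sum_add_distrib, sum_ite_eq', mem_univ, if_true]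

theorem pell {D : Finset G} {lam : ℕ}
    (h : ∀ g : G, g ≠ 1 → #{p ∈ D ×ˢ D | p.1 * p.2⁻¹ = g} = lam)
    (h4 : 4 < Fintype.card G) (hv : Fintype.card G = 2 * lam) :
    ∃ u P H : ℕ, #D = lam + u ^ 2 ∧ Fintype.card G = 4 * u * P * H ∧ 2 ≤ P ∧
      (H ^ 2 = 2 * P ^ 2 + 1 ∨ H ^ 2 + 1 = 2 * P ^ 2) ∧
      ∀ (K : Subgroup G) (Q : Type) [Group Q] (φ : K →* Q), Function.Surjective φ →
        IsPGroup 2 Q → ¬IsCyclic Q → Nat.gcd K.index H % 4 = 1 := by
  obtain ⟨u, P, H, a, δ, h1, h2, h3, hP, hH, c1, c2, hδ, e1, e2⟩ :=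
    Dih.params (k := #D) (lam := lam) (by omega) (by rw [Dih.count h, hv])
  have hPH : H ^ 2 = 2 * P ^ 2 + 1 ∨ H ^ 2 + 1 = 2 * P ^ 2 := by
    zify
    rcases hδ with rfl | rfl <;> omega
  have hG : Fintype.card G = 4 * u * P * H := by rw [hv, h2]; ring
  refine ⟨u, P, H, h1, hG, hP, hPH, fun K Q _ φ hφ hQ hc => ?_⟩
  have := Finite.of_surjective _ hφ
  obtain ⟨s, hs, -⟩ := sign_char hQ hc 1
  obtain ⟨y, hy⟩ : ∃ y, s y ≠ 1 := by
    by_contra! e
    exact hs (MonoidHom.ext e)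
  obtain ⟨t, ht, hy'⟩ := sign_char hQ hc y
  have lift : ∀ s : Q →* ℤ, s ≠ 1 → ∑ g, dot (s.comp φ) g = 0 := fun s hs =>
    tot_zero _ fun e => hs (MonoidHom.ext fun q => by
      obtain ⟨k, rfl⟩ := hφ q
      exact DFunLike.congr_fun e k)
  have z1 := lift s hs
  have z2 := lift t ht
  have z3 : ∑ g, dot (s.comp φ * t.comp φ) g = 0 :=
    lift (s * t) fun e => hy (by simpa [hy'] using DFunLike.congr_fun e y)
  generalize s.comp φ = s at z1 z3
  generalize t.comp φ = t at z2 z3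
  have hu : Odd u := Nat.coprime_two_right.1 c2.coprime_mul_right_right.coprime_mul_right_right
  have orth : ∀ s : K →* ℤ, ∑ g, dot s g = 0 →
      mat s D * (mat s D)ᵀ = (u ^ 2 : ℤ) • (1 : Matrix (G ⧸ K) (G ⧸ K) ℤ) := fun s hs => by
    rw [mat_mul s h h1, hs, mul_zero, zero_smul, add_zero, Nat.cast_pow]
  rw [Subgroup.index, Nat.card_eq_fintype_card]
  refine core (M := mat 1 D) (κ := Nat.card K) hu c1 hδ ?_ e1 e2 (by omega) ?_ ?_ ?_ ?_ ?_
    (orth s z1) (orth t z2) (orth _ z3) (fun i j => ?_) (fun i j => ?_) fun i j => ?_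
  · refine mul_left_cancel₀ hu.pos.ne' ?_
    rw [← h3, h1, h2]
    ring
  · rw [← hG, ← Nat.card_eq_fintype_card, ← Nat.card_eq_fintype_card]
    exact K.card_mul_index
  · have h5 : (4 : ℤ) ∣ ∑ g, (dot (1 : K →* ℤ) g - dot s g - dot t g + dot (s * t) g) :=
      dvd_sum fun g _ => (dot_cong s t g).2.2
    simp only [sum_add_distrib, sum_sub_distrib, z1, z2, z3, tot_one, sub_zero, add_zero] at h5
    exact_mod_cast h5
  · rw [mat_mul 1 h h1, tot_one, h2]
    push_cast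
    rfl
  · simp only [mat, sum_mul, ind_row, sum_const, h3]
    rw [← Nat.cast_mul, natCast_zsmul]
  · simp only [mat, mul_sum, ind_col, sum_const, h3]
    rw [← Nat.cast_mul, natCast_zsmul]
  all_goals simp only [mat, Matrix.sum_apply, ← sum_sub_distrib, ← sum_add_distrib]
  · exact dvd_sum fun g _ => (dot_cong s t _).1
  · exact dvd_sum fun g _ => (dot_cong s t _).2.1
  · exact dvd_sum fun g _ => (dot_cong s t _).2.2

end Pool.Agent.P.MP_e9cc94_co.Sp
end
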