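import Pool.Agent.K.MP_e9cc94_co.C4

set_option autoImplicit false

namespace PellDS
open Finset Matrix

/-- the points are 0,...,4 and infinity = 5; translation by one -/
def A0 : Fin 6 → Fin 6 := ![1,2,3,4,0,5]
/-- z to z/(1+z) -/
def B0 : Fin 6 → Fin 6 := ![0,3,4,2,5,1]
/-- PGL(2,5) on the projective line -/
def L120 : List (Fin 6 → Fin 6) :=
  [![0,1,2,3,4,5], ![0,1,4,5,2,3], ![0,2,1,3,5,4], ![0,2,5,4,1,3], ![0,3,4,2,5,1],
   ![0,3,5,1,4,2], ![0,4,1,5,3,2], ![0,4,3,2,1,5], ![0,5,2,4,3,1], ![0,5,3,1,2,4],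
   ![1,0,2,5,4,3], ![1,0,4,3,2,5], ![1,2,0,5,3,4], ![1,2,3,4,0,5], ![1,3,2,4,5,0],
   ![1,3,5,0,2,4], ![1,4,0,3,5,2], ![1,4,5,2,0,3], ![1,5,3,0,4,2], ![1,5,4,2,3,0],
   ![2,0,1,4,5,3], ![2,0,5,3,1,4], ![2,1,0,4,3,5], ![2,1,3,5,0,4], ![2,3,1,5,4,0],
   ![2,3,4,0,1,5], ![2,4,3,0,5,1], ![2,4,5,1,3,0], ![2,5,0,3,4,1], ![2,5,4,1,0,3],
   ![3,0,4,1,5,2], ![3,0,5,2,4,1], ![3,1,2,0,5,4], ![3,1,5,4,2,0], ![3,2,1,0,4,5],
   ![3,2,4,5,1,0], ![3,4,0,1,2,5], ![3,4,2,5,0,1], ![3,5,0,2,1,4], ![3,5,1,4,0,2],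
   ![4,0,1,2,3,5], ![4,0,3,5,1,2], ![4,1,0,2,5,3], ![4,1,5,3,0,2], ![4,2,3,1,5,0],
   ![4,2,5,0,3,1], ![4,3,0,5,2,1], ![4,3,2,1,0,5], ![4,5,1,3,2,0], ![4,5,2,0,1,3],
   ![5,0,2,1,3,4], ![5,0,3,4,2,1], ![5,1,3,2,4,0], ![5,1,4,0,3,2], ![5,2,0,1,4,3],
   ![5,2,4,3,0,1], ![5,3,0,4,1,2], ![5,3,1,2,0,4], ![5,4,1,0,2,3], ![5,4,2,3,1,0],
   ![0,1,3,4,5,2], ![0,1,5,2,3,4], ![0,2,3,5,4,1], ![0,2,4,1,3,5], ![0,3,1,4,2,5],
   ![0,3,2,5,1,4], ![0,4,2,1,5,3], ![0,4,5,3,2,1], ![0,5,1,2,4,3], ![0,5,4,3,1,2],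
   ![1,0,3,2,5,4], ![1,0,5,4,3,2], ![1,2,4,0,5,3], ![1,2,5,3,4,0], ![1,3,0,2,4,5],
   ![1,3,4,5,0,2], ![1,4,2,0,3,5], ![1,4,3,5,2,0], ![1,5,0,4,2,3], ![1,5,2,3,0,4],
   ![2,0,3,1,4,5], ![2,0,4,5,3,1], ![2,1,4,3,5,0], ![2,1,5,0,4,3], ![2,3,0,1,5,4],
   ![2,3,5,4,0,1], ![2,4,0,5,1,3], ![2,4,1,3,0,5], ![2,5,1,0,3,4], ![2,5,3,4,1,0],
   ![3,0,1,5,2,4], ![3,0,2,4,1,5], ![3,1,0,5,4,2], ![3,1,4,2,0,5], ![3,2,0,4,5,1],
   ![3,2,5,1,0,4], ![3,4,1,2,5,0], ![3,4,5,0,1,2], ![3,5,2,1,4,0], ![3,5,4,0,2,1],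
   ![4,0,2,3,5,1], ![4,0,5,1,2,3], ![4,1,2,5,3,0], ![4,1,3,0,2,5], ![4,2,0,3,1,5],
   ![4,2,1,5,0,3], ![4,3,1,0,5,2], ![4,3,5,2,1,0], ![4,5,0,1,3,2], ![4,5,3,2,0,1],
   ![5,0,1,3,4,2], ![5,0,4,2,1,3], ![5,1,0,3,2,4], ![5,1,2,4,0,3], ![5,2,1,4,3,0],
   ![5,2,3,0,1,4], ![5,3,2,0,4,1], ![5,3,4,1,2,0], ![5,4,0,2,3,1], ![5,4,3,1,0,2]]

def br (x y : Fin 6) : ZMod 5 :=
  if x = 5 then (if y = 5 then 0 else 1) else if y = 5 then 4 else (x.val : ZMod 5) - (y.val : ZMod 5)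
def TT (x y z : Fin 6) : ZMod 5 := br x y * br x z * br y z ^ 3
/-- the derivative of `p` at `x` -/
def tau (p : Fin 6 → Fin 6) (x : Fin 6) : ZMod 5 :=
  TT (p x) (p (x + 1)) (p (x + 2)) * TT x (x + 1) (x + 2) ^ 3
/-- the sign character of PGL(2,5), with kernel PSL(2,5) -/
def sg (p : Fin 6 → Fin 6) : ℤ := if tau p 5 * tau p 5 = 1 then 1 else -1
/-- the sign cocycle on PSL(2,5) -/
def sig (p : Fin 6 → Fin 6) (x : Fin 6) : ℤ := if tau p x = 1 then 1 else -1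
/-- the invariant 1-factorisation of the complete graph on the six points -/
def col (x y : Fin 6) : Fin 5 :=
  if x = 5 then Fin.ofNat 5 y.val else if y = 5 then Fin.ofNat 5 x.val
  else Fin.ofNat 5 (3 * (x.val + y.val))
/-- the action on the five colours -/
def act5 (p : Fin 6 → Fin 6) (c : Fin 5) : Fin 5 := col (p 5) (p c.castSucc)
/-- the conference matrix -/
def SS : Matrix (Fin 6) (Fin 6) ℤ :=
  !![0,1,-1,-1,1,1; 1,0,1,-1,-1,1; -1,1,0,1,-1,1; -1,-1,1,0,1,1; 1,-1,-1,1,0,1; 1,1,1,1,1,0]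

/-- use this (with `by decide +kernel`) for every statement about all of `L120` -/
theorem allL {P : (Fin 6 → Fin 6) → Prop} [DecidablePred P]
    (h : L120.all (fun p => decide (P p)) = true) : ∀ p ∈ L120, P p := by
  simpa [List.all_eq_true] using h

theorem tau_spec : ∀ p ∈ L120, ∀ x y z : Fin 6, x ≠ y → x ≠ z → y ≠ z →
    TT (p x) (p y) (p z) = tau p x * TT x y z :=
  allL (by decide +kernel)
theorem TT_ne : ∀ x : Fin 6, TT x (x + 1) (x + 2) ≠ 0 ∧ x ≠ x + 1 ∧ x ≠ x + 2 ∧ x + 1 ≠ x + 2 := by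
  decide +kernel
theorem tau_sg : ∀ p ∈ L120, ∀ x : Fin 6, tau p x ≠ 0 ∧
    sg p = if tau p x * tau p x = 1 then 1 else -1 :=
  allL (by decide +kernel)
theorem col_spec : ∀ p ∈ L120, ∀ x y : Fin 6, x ≠ y → col (p x) (p y) = act5 p (col x y) :=
  allL (by decide +kernel)
theorem even_words : ∀ p ∈ L120, sg p = 1 → ∃ i j k l : Fin 5,
    ∀ x, p x = A0^[i.val] (B0^[j.val] (A0^[k.val] (B0^[l.val] x))) :=
  allL (by decide +kernel)
theorem even_tr6 : ∀ i k : Fin 6, ∃ p ∈ L120, sg p = 1 ∧ p i = k := by decide +kernel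
theorem even_tr66 : ∀ i k : Fin 6, i ≠ k → ∃ p ∈ L120, sg p = 1 ∧ p 5 = i ∧ p 0 = k := by
  decide +kernel
theorem even_tr5 : ∀ i k : Fin 5, ∃ p ∈ L120, sg p = 1 ∧ act5 p i = k := by decide +kernel
theorem even_neg : ∀ i : Fin 6, ∃ p ∈ L120, sg p = 1 ∧ p i = i ∧ sig p i = -1 := by decide +kernel
theorem sig_SS : ∀ p ∈ L120, sg p = 1 → ∀ x y, SS (p x) (p y) = sig p x * sig p y * SS x y :=
  allL (by decide +kernel)

variable {G : Type} [Group G]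

/-- the action of `G` on its six Sylow 5-subgroups -/
structure Act (π : G →* Equiv.Perm (Fin 6)) : Prop where
  mem : ∀ g, ⇑(π g) ∈ L120
  ha : ∃ a, ⇑(π a) = A0
  hb : ∃ b, ⇑(π b) = B0

variable {π : G →* Equiv.Perm (Fin 6)}

theorem Act.tau_mul (h : Act π) (g k : G) (x : Fin 6) :
    tau (π (g * k)) x = tau (π g) (π k x) * tau (π k) x := by
  obtain ⟨h0, h1, h2, h3⟩ := TT_ne x
  have e1 := tau_spec _ (h.mem (g * k)) _ _ _ h1 h2 h3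
  have e2 := tau_spec _ (h.mem k) _ _ _ h1 h2 h3
  have e3 := tau_spec _ (h.mem g) _ _ _ ((π k).injective.ne h1) ((π k).injective.ne h2)
    ((π k).injective.ne h3)
  simp only [map_mul, Equiv.Perm.coe_mul, Function.comp_apply] at e1 ⊢
  rw [e3, e2, ← mul_assoc] at e1
  have : Fact (Nat.Prime 5) := ⟨by norm_num⟩
  exact (mul_right_cancel₀ h0 e1).symm

theorem sg_sq (p : Fin 6 → Fin 6) : sg p * sg p = 1 := by unfold sg; split_ifs <;> rfl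
theorem sig_sq (p : Fin 6 → Fin 6) (x : Fin 6) : sig p x * sig p x = 1 := by
  unfold sig; split_ifs <;> rfl

theorem Act.sg_mul (h : Act π) (g k : G) : sg (π (g * k)) = sg (π g) * sg (π k) := by
  have key : ∀ a b : ZMod 5, a ≠ 0 → b ≠ 0 → (if a * b * (a * b) = 1 then (1 : ℤ) else -1) =
      (if a * a = 1 then 1 else -1) * (if b * b = 1 then 1 else -1) := by decide
  rw [(tau_sg _ (h.mem (g * k)) 0).2, (tau_sg _ (h.mem g) (π k 0)).2, (tau_sg _ (h.mem k) 0).2,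
    h.tau_mul]
  exact key _ _ (tau_sg _ (h.mem g) _).1 (tau_sg _ (h.mem k) _).1

theorem mono6 (π : G →* Equiv.Perm (Fin 6)) : IsMono (fun g i => π g i) (fun _ _ => 1) :=
  ⟨fun i => by simp, fun g k i => by simp, fun _ _ _ => rfl, fun _ _ => rfl⟩

theorem Act.mono6s (h : Act π) : IsMono (fun g i => π g i) (fun g _ => sg (π g)) :=
  ⟨fun i => by simp, fun g k i => by simp, fun g k _ => h.sg_mul g k, fun _ _ => sg_sq _⟩

theorem Act.act5_mul (h : Act π) (g k : G) (c : Fin 5) :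
    act5 (π (g * k)) c = act5 (π g) (act5 (π k) c) := by
  have h5 : (5 : Fin 6) ≠ c.castSucc := by revert c; decide
  have := col_spec _ (h.mem g) _ _ ((π k).injective.ne h5)
  simp only [act5, map_mul, Equiv.Perm.coe_mul, Function.comp_apply] at this ⊢
  exact this

theorem act5_one (π : G →* Equiv.Perm (Fin 6)) (c : Fin 5) : act5 (π 1) c = c := by
  rw [map_one]; revert c; decide

theorem Act.mono5 (h : Act π) : IsMono (fun g c => act5 (π g) c) (fun _ _ => 1) :=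
  ⟨act5_one π, h.act5_mul, fun _ _ _ => rfl, fun _ _ => rfl⟩

theorem Act.mono5s (h : Act π) : IsMono (fun g c => act5 (π g) c) (fun g _ => sg (π g)) :=
  ⟨act5_one π, h.act5_mul, fun g k _ => h.sg_mul g k, fun _ _ => sg_sq _⟩

theorem Act.monoSig (h : Act π) (hev : ∀ g, sg (π g) = 1) :
    IsMono (fun g i => π g i) (fun g i => sig (π g) i) := by
  refine ⟨fun i => by simp, fun g k i => by simp, fun g k i => ?_, fun _ _ => sig_sq _ _⟩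
  have key : ∀ a b : ZMod 5, (if a * a = 1 then (1 : ℤ) else -1) = 1 →
      (if b * b = 1 then (1 : ℤ) else -1) = 1 → (if a * b = 1 then (1 : ℤ) else -1) =
      (if a = 1 then 1 else -1) * (if b = 1 then 1 else -1) := by decide
  simp only [sig]
  rw [h.tau_mul]
  exact key _ _ ((tau_sg _ (h.mem g) _).2.symm.trans (hev g))
    ((tau_sg _ (h.mem k) _).2.symm.trans (hev k))

/-- every element of PSL(2,5) is attained -/
theorem Act.surj (h : Act π) {p : Fin 6 → Fin 6} (hp : p ∈ L120) (hs : sg p = 1) :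
    ∃ g, ⇑(π g) = p := by
  obtain ⟨a, ha⟩ := h.ha
  obtain ⟨b, hb⟩ := h.hb
  obtain ⟨i, j, k, l, e⟩ := even_words p hp hs
  refine ⟨a ^ i.val * (b ^ j.val * (a ^ k.val * b ^ l.val)), funext fun x => ?_⟩
  simp only [map_mul, map_pow, Equiv.Perm.coe_mul, Function.comp_apply, Equiv.Perm.coe_pow, ha, hb]
  exact (e x).symm

variable [Fintype G]

theorem Act.tot6 (h : Act π) (hG : Fintype.card G = 120) :
    ∑ g, mono (fun g i => π g i) (fun _ _ => 1) g = Matrix.of fun _ _ => (20 : ℤ) := by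
  refine (mono6 π).tot_triv (fun i k => ?_) 20 (by rw [hG]; rfl)
  obtain ⟨p, hp, hs, e⟩ := even_tr6 i k
  obtain ⟨g, rfl⟩ := h.surj hp hs
  exact ⟨g, e⟩

theorem Act.tot5 (h : Act π) (hG : Fintype.card G = 120) :
    ∑ g, mono (fun g c => act5 (π g) c) (fun _ _ => 1) g = Matrix.of fun _ _ => (24 : ℤ) := by
  refine h.mono5.tot_triv (fun i k => ?_) 24 (by rw [hG]; rfl)
  obtain ⟨p, hp, hs, e⟩ := even_tr5 i k
  obtain ⟨g, rfl⟩ := h.surj hp hs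
  exact ⟨g, e⟩

theorem Act.tot6s (h : Act π) (hodd : ∃ g, sg (π g) = -1) :
    ∑ g, mono (fun g i => π g i) (fun g _ => sg (π g)) g = 0 := by
  refine h.mono6s.tot_zero fun i => ?_
  obtain ⟨o, ho⟩ := hodd
  obtain ⟨p, hp, hs, e⟩ := even_tr6 (π o i) i
  obtain ⟨g, rfl⟩ := h.surj hp hs
  exact ⟨g * o, by simpa using e, by rw [h.sg_mul, hs, ho]; rfl⟩

theorem Act.tot5s (h : Act π) (hodd : ∃ g, sg (π g) = -1) :
    ∑ g, mono (fun g c => act5 (π g) c) (fun g _ => sg (π g)) g = 0 := by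
  refine h.mono5s.tot_zero fun i => ?_
  obtain ⟨o, ho⟩ := hodd
  obtain ⟨p, hp, hs, e⟩ := even_tr5 (act5 (π o) i) i
  obtain ⟨g, rfl⟩ := h.surj hp hs
  exact ⟨g * o, by rw [h.act5_mul]; exact e, by rw [h.sg_mul, hs, ho]; rfl⟩

theorem Act.totSig (h : Act π) (hev : ∀ g, sg (π g) = 1) :
    ∑ g, mono (fun g i => π g i) (fun g i => sig (π g) i) g = 0 := by
  refine (h.monoSig hev).tot_zero fun i => ?_
  obtain ⟨p, hp, hs, e1, e2⟩ := even_neg i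
  obtain ⟨g, rfl⟩ := h.surj hp hs
  exact ⟨g, e1, e2⟩

theorem Act.sg_sum [DecidableEq G] (h : Act π) (hodd : ∃ g, sg (π g) = -1) {D : Finset G}
    (hD : DS D) : (∑ d ∈ D, sg (π d)) * (∑ d ∈ D, sg (π d)) = 25 := by
  have hm : IsMono (fun (_ : G) (i : Unit) => i) (fun g _ => sg (π g)) :=
    ⟨fun _ => rfl, fun _ _ _ => rfl, fun g k _ => h.sg_mul g k, fun _ _ => sg_sq _⟩
  have h0 := hm.tot_zero fun i => by obtain ⟨o, ho⟩ := hodd; exact ⟨o, rfl, ho⟩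
  have h1 := hm.gram_apply hD () ()
  rw [h0] at h1
  simpa [Matrix.sum_apply, mono] using h1

end PellDS
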