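import Pool.Agent.K.MP_e9cc94_co.C10

set_option autoImplicit false

namespace PellDS
open Finset

/-- the map fixing `5` that starts at `c` and moves on by `m` steps -/
def caseC0_aff (m : Fin 5) (c : Fin 6) : Fin 6 → Fin 6 :=
  ![c, A0^[m.val] c, A0^[m.val] (A0^[m.val] c), A0^[m.val] (A0^[m.val] (A0^[m.val] c)),
    A0^[m.val] (A0^[m.val] (A0^[m.val] (A0^[m.val] c))), 5]

theorem caseC0_aff_mem : ∀ (m : Fin 5) (c : Fin 6), A0^[m.val] c ≠ c → caseC0_aff m c ∈ L120 := by
  decide +kernel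

theorem caseC0_big_mem : ∀ (k m : Fin 5) (c : Fin 6), A0^[m.val] c ≠ c →
    (fun x => A0^[k.val] (B0 (caseC0_aff m c x))) ∈ L120 := by
  decide +kernel

theorem caseC0_reach : ∀ z : Fin 6, z ≠ 5 → ∃ k : Fin 5, A0^[k.val] 1 = z := by decide

theorem caseC0_B0 : ∀ x1 x2 x3 x4 : Fin 6,
    (∀ z, (![0, x1, x2, x3, x4, 1] : Fin 6 → Fin 6)^[5] z = z) →
    (∀ i k : Fin 5, (![0, x1, x2, x3, x4, 1] : Fin 6 → Fin 6)^[k.val] (A0^[i.val] 1) = 5 →
      ∃ m : Fin 5, ∀ x, (![0, x1, x2, x3, x4, 1] : Fin 6 → Fin 6)^[k.val]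
          (A0^[i.val] ((![0, x1, x2, x3, x4, 1] : Fin 6 → Fin 6) (A0 x))) =
        A0^[m.val] ((![0, x1, x2, x3, x4, 1] : Fin 6 → Fin 6)^[k.val]
          (A0^[i.val] ((![0, x1, x2, x3, x4, 1] : Fin 6 → Fin 6) x)))) →
    (![0, x1, x2, x3, x4, 1] : Fin 6 → Fin 6) = B0 := by
  decide +kernel

theorem caseC0_eq_aff (f : Equiv.Perm (Fin 6)) (h5 : f 5 = 5) (m : Fin 5)
    (hm : ∀ x, f (A0 x) = A0^[m.val] (f x)) :
    ⇑f = caseC0_aff m (f 0) ∧ A0^[m.val] (f 0) ≠ f 0 := by
  have h1 : f 1 = A0^[m.val] (f 0) := hm 0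
  have h2 : f 2 = A0^[m.val] (f 1) := hm 1
  have h3 : f 3 = A0^[m.val] (f 2) := hm 2
  have h4 : f 4 = A0^[m.val] (f 3) := hm 3
  refine ⟨?_, ?_⟩
  · funext x
    unfold caseC0_aff
    rw [← h1, ← h2, ← h3, ← h4]
    fin_cases x
    · rfl
    · rfl
    · rfl
    · rfl
    · rfl
    · exact h5
  · rw [← h1]
    exact f.injective.ne (by decide)

variable {G : Type} [Group G] [Fintype G]

theorem caseC0_card (hG : Fintype.card G = 120) (P : Sylow 5 G) : Nat.card P = 5 := by
  have : Fact (Nat.Prime 5) := ⟨by norm_num⟩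
  rw [Sylow.card_eq_multiplicity, Nat.card_eq_fintype_card, hG]
  have h : Nat.factorization 120 5 = 1 := by
    rw [show (120 : ℕ) = 5 * 24 by norm_num, Nat.factorization_mul (by norm_num) (by norm_num),
      Finsupp.add_apply, Nat.Prime.factorization_self (by norm_num),
      Nat.factorization_eq_zero_of_not_dvd (by norm_num)]
  rw [h, pow_one]

theorem caseC0_pow (hG : Fintype.card G = 120) (P : Sylow 5 G) {g : G} (hg : g ∈ P) :
    g ^ 5 = 1 := by
  have h := pow_card_eq_one' (G := (P : Subgroup G)) (x := ⟨g, hg⟩)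
  have hc : Nat.card (P : Subgroup G) = 5 := caseC0_card hG P
  rw [hc] at h
  exact congrArg Subtype.val h

theorem caseC0_order (hG : Fintype.card G = 120) (P : Sylow 5 G) {g : G} (hg : g ∈ P)
    (h1 : g ≠ 1) : orderOf g = 5 := by
  have : Fact (Nat.Prime 5) := ⟨by norm_num⟩
  exact orderOf_eq_prime (caseC0_pow hG P hg) h1

theorem caseC0_zp (hG : Fintype.card G = 120) (P : Sylow 5 G) {g : G} (hg : g ∈ P)
    (h1 : g ≠ 1) : Subgroup.zpowers g = (P : Subgroup G) := by
  refine Subgroup.eq_of_le_of_card_ge ((Subgroup.zpowers_le).2 hg) ?_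
  rw [Nat.card_zpowers, caseC0_order hG P hg h1]
  exact (caseC0_card hG P).le

theorem caseC0_self (P : Sylow 5 G) {g : G} (hg : g ∈ P) : g • P = P :=
  Sylow.smul_eq_iff_mem_normalizer.2 (Subgroup.le_normalizer (H := (P : Subgroup G)) hg)

theorem caseC0_fix (hG : Fintype.card G = 120) (P R : Sylow 5 G) {g : G} (hg : g ∈ P)
    (h1 : g ≠ 1) (hR : g • R = R) : R = P := by
  have hz := caseC0_zp hG P hg h1
  have hn : (P : Subgroup G) ≤ Subgroup.normalizer (R : Set G) := by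
    rw [← hz]
    exact (Subgroup.zpowers_le).2 (Sylow.smul_eq_iff_mem_normalizer.1 hR)
  have hle : (P : Subgroup G) ≤ R :=
    P.2.sylow_mem_fixedPoints_iff.1 ((P : Subgroup G).sylow_mem_fixedPoints_iff.2 hn)
  exact Sylow.ext (P.3 R.2 hle)

theorem caseC0_ex (hG : Fintype.card G = 120) (P : Sylow 5 G) : ∃ g, g ∈ P ∧ g ≠ 1 := by
  have h : Nontrivial P := Finite.one_lt_card_iff_nontrivial.1 (by rw [caseC0_card hG]; norm_num)
  obtain ⟨x, hx⟩ := exists_ne (1 : P)
  exact ⟨x.1, x.2, fun e => hx (Subtype.ext e)⟩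

/-- numbering of the six subgroups -/
def caseC0_e (P Q : Sylow 5 G) (a : G) (i : Fin 6) : Sylow 5 G :=
  if i = 5 then P else a ^ i.val • Q

theorem caseC0_bij (hG : Fintype.card G = 120) (h5 : Nat.card (Sylow 5 G) = 6) {P Q : Sylow 5 G}
    (hPQ : Q ≠ P) {a : G} (ha : a ∈ P) (h1 : a ≠ 1) : Function.Bijective (caseC0_e P Q a) := by
  have hne : ∀ n : ℕ, a ^ n • Q ≠ P := fun n h => hPQ (by
    have h2 := caseC0_self P (P.1.pow_mem ha n)
    exact MulAction.injective (a ^ n) (h.trans h2.symm))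
  have hlt : ∀ i j : ℕ, i < j → j < 5 → a ^ i • Q ≠ a ^ j • Q := fun i j hij hj h => by
    obtain ⟨d, rfl⟩ := Nat.exists_eq_add_of_lt hij
    rw [add_assoc, pow_add, mul_smul] at h
    have h2 := MulAction.injective (a ^ i) h
    refine hPQ (caseC0_fix hG P Q (P.1.pow_mem ha (d + 1)) ?_ h2.symm)
    refine pow_ne_one_of_lt_orderOf (by omega) ?_
    rw [caseC0_order hG P ha h1]
    omega
  have hfin : Finite (Sylow 5 G) := Nat.finite_of_card_ne_zero (by rw [h5]; norm_num)
  refine Function.Injective.bijective_of_nat_card_le ?_ (by rw [h5]; simp)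
  intro i j hij
  unfold caseC0_e at hij
  by_cases hi : i = 5
  · by_cases hj : j = 5
    · rw [hi, hj]
    · rw [if_pos hi, if_neg hj] at hij
      exact absurd hij.symm (hne _)
  · by_cases hj : j = 5
    · rw [if_neg hi, if_pos hj] at hij
      exact absurd hij (hne _)
    · rw [if_neg hi, if_neg hj] at hij
      have hi' : i.val < 5 := by
        have := i.2
        have : i.val ≠ 5 := fun e => hi (Fin.ext e)
        omega
      have hj' : j.val < 5 := by
        have := j.2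
        have : j.val ≠ 5 := fun e => hj (Fin.ext e)
        omega
      rcases lt_trichotomy i.val j.val with h | h | h
      · exact absurd hij (hlt _ _ h hj')
      · exact Fin.ext h
      · exact absurd hij.symm (hlt _ _ h hi')

theorem exists_act (hG : Fintype.card G = 120) (h5 : Nat.card (Sylow 5 G) = 6) :
    ∃ π : G →* Equiv.Perm (Fin 6), Act π := by
  classical
  have hfin : Finite (Sylow 5 G) := Nat.finite_of_card_ne_zero (by rw [h5]; norm_num)
  have hnt : Nontrivial (Sylow 5 G) := Finite.one_lt_card_iff_nontrivial.1 (by rw [h5]; norm_num)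
  obtain ⟨Q, P, hPQ⟩ := exists_pair_ne (Sylow 5 G)
  obtain ⟨a, ha, ha1⟩ := caseC0_ex hG P
  obtain ⟨b0, hb0, hb1⟩ := caseC0_ex hG Q
  let E : Fin 6 ≃ Sylow 5 G := Equiv.ofBijective _ (caseC0_bij hG h5 hPQ ha ha1)
  have hE : ∀ i, E i = caseC0_e P Q a i := fun _ => rfl
  let π : G →* Equiv.Perm (Fin 6) :=
    { toFun := fun g => E.symm.permCongr (MulAction.toPermHom G (Sylow 5 G) g)
      map_one' := by ext x; simp
      map_mul' := fun g k => by ext x; simp [mul_smul] }
  have hπ : ∀ g i j, π g i = j ↔ g • E i = E j := fun g i j => by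
    simp [π, Equiv.symm_apply_eq]
  have hE5 : E 5 = P := rfl
  have hE0 : E 0 = Q := by
    rw [hE]; simp [caseC0_e]
  have hA : ⇑(π a) = A0 := by
    funext x
    rw [hπ, hE, hE]
    have h55 := caseC0_pow hG P ha
    fin_cases x
    · simp [caseC0_e, A0]
    · simp [caseC0_e, A0, smul_smul, ← pow_succ', pow_two]
    · simp [caseC0_e, A0, smul_smul, ← pow_succ']
    · simp [caseC0_e, A0, smul_smul, ← pow_succ']
    · simp [caseC0_e, A0, smul_smul, ← pow_succ', h55]
    · simpa [caseC0_e, A0] using caseC0_self P ha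
  have hAff : ∀ g, π g 5 = 5 → ∃ m : Fin 5, ∀ x, π g (A0 x) = A0^[m.val] (π g x) := by
    intro g hg
    rw [hπ, hE5] at hg
    have hn := Sylow.smul_eq_iff_mem_normalizer.1 hg
    have hc : g * a * g⁻¹ ∈ Subgroup.zpowers a := by
      rw [caseC0_zp hG P ha ha1]
      exact (Subgroup.mem_set_normalizer_iff.1 hn a).1 ha
    rw [mem_zpowers_iff_mem_range_orderOf, caseC0_order hG P ha ha1, Finset.mem_image] at hc
    obtain ⟨m, hm, e⟩ := hc
    refine ⟨⟨m, Finset.mem_range.1 hm⟩, fun x => ?_⟩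
    have e2 : g * a = a ^ m * g := by rw [e]; group
    have e3 := congrArg (fun k => π k x) e2
    simpa only [map_mul, map_pow, Equiv.Perm.coe_mul, Function.comp_apply, Equiv.Perm.coe_pow, hA]
      using e3
  obtain ⟨k0, hk0⟩ := (caseC0_bij hG h5 hPQ.symm hb0 hb1).2 (E 1)
  have hk5 : k0 ≠ 5 := by
    rintro rfl
    have : E 0 = E 1 := by rw [hE0, ← hk0]; rfl
    exact absurd (E.injective this) (by decide)
  unfold caseC0_e at hk0
  rw [if_neg hk5] at hk0
  obtain ⟨b, hbQ, hbP⟩ : ∃ b, b ∈ Q ∧ b • P = E 1 := ⟨_, Q.1.pow_mem hb0 _, hk0⟩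
  have f0 : π b 0 = 0 := by rw [hπ, hE0]; exact caseC0_self Q hbQ
  have f5 : π b 5 = 1 := by rw [hπ, hE5]; exact hbP
  have hf : ⇑(π b) = ![0, π b 1, π b 2, π b 3, π b 4, 1] := by
    funext x
    fin_cases x
    · exact f0
    · rfl
    · rfl
    · rfl
    · rfl
    · exact f5
  have hB : ⇑(π b) = B0 := by
    rw [hf]
    refine caseC0_B0 _ _ _ _ ?_ ?_
    · intro z
      rw [← hf, ← Equiv.Perm.coe_pow, ← map_pow, caseC0_pow hG Q hbQ, map_one]
      rfl
    · intro i k h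
      rw [← hf] at h ⊢
      have := hAff (b ^ k.val * (a ^ i.val * b)) (by
        simpa only [map_mul, map_pow, Equiv.Perm.coe_mul, Function.comp_apply, Equiv.Perm.coe_pow,
          hA, f5] using h)
      simpa only [map_mul, map_pow, Equiv.Perm.coe_mul, Function.comp_apply, Equiv.Perm.coe_pow,
        hA] using this
  refine ⟨π, fun g => ?_, ⟨a, hA⟩, ⟨b, hB⟩⟩
  by_cases hz : π g 5 = 5
  · obtain ⟨m, hm⟩ := hAff g hz
    obtain ⟨e1, e2⟩ := caseC0_eq_aff _ hz m hm
    rw [e1]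
    exact caseC0_aff_mem m _ e2
  · obtain ⟨k, hk⟩ := caseC0_reach _ hz
    obtain ⟨g', rfl⟩ : ∃ g', g = a ^ k.val * b * g' := ⟨(a ^ k.val * b)⁻¹ * g, by group⟩
    have hz' : π g' 5 = 5 := by
      apply (π (a ^ k.val * b)).injective
      rw [← Equiv.Perm.mul_apply, ← map_mul, ← hk]
      simp only [map_mul, map_pow, Equiv.Perm.coe_mul, Function.comp_apply, Equiv.Perm.coe_pow,
        hA, f5]
    obtain ⟨m, hm⟩ := hAff g' hz'
    obtain ⟨e1, e2⟩ := caseC0_eq_aff _ hz' m hm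
    have e3 : ⇑(π (a ^ k.val * b * g')) =
        fun x => A0^[k.val] (B0 (caseC0_aff m (π g' 0) x)) := by
      funext x
      rw [← e1]
      simp only [map_mul, map_pow, Equiv.Perm.coe_mul, Function.comp_apply, Equiv.Perm.coe_pow,
        hA, hB]
    rw [e3]
    exact caseC0_big_mem k m _ e2

end PellDS
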