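import Mathlib

set_option autoImplicit false

namespace PellDS
open Finset Matrix

/-- exactly one odd entry, and it is 1 mod 4 -/
def C1PureT1 {n : ℕ} (v : Fin n → ℤ) (j : Fin n) : Prop :=
  v j % 4 = 1 ∧ ∀ k, k ≠ j → v k % 2 = 0
/-- exactly one even entry, and it is 2 mod 4 -/
def C1PureT2 {n : ℕ} (v : Fin n → ℤ) (j : Fin n) : Prop :=
  v j % 4 = 2 ∧ ∀ k, k ≠ j → v k % 2 = 1

theorem C1Pure_sq (x : ℤ) :
    (x % 4 = 0 ∧ x * x % 8 = 0) ∨ (x % 4 = 1 ∧ x * x % 8 = 1) ∨ (x % 4 = 2 ∧ x * x % 8 = 4) ∨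
      (x % 4 = 3 ∧ x * x % 8 = 1) := by
  have h : x % 8 = 0 ∨ x % 8 = 1 ∨ x % 8 = 2 ∨ x % 8 = 3 ∨ x % 8 = 4 ∨ x % 8 = 5 ∨ x % 8 = 6 ∨
      x % 8 = 7 := by omega
  have h2 : x * x % 8 = (x % 8) * (x % 8) % 8 := Int.mul_emod _ _ _
  rcases h with h | h | h | h | h | h | h | h <;> rw [h] at h2 <;> omega

theorem C1Pure_fin (r : Fin 6 → Fin 4)
    (h1 : ((r 0).val + (r 1).val + (r 2).val + (r 3).val + (r 4).val + (r 5).val) % 4 = 1)
    (h2 : ((r 0).val * (r 0).val + (r 1).val * (r 1).val + (r 2).val * (r 2).val +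
      (r 3).val * (r 3).val + (r 4).val * (r 4).val + (r 5).val * (r 5).val) % 8 = 1) :
    (∃ j, (r j).val = 1 ∧ ∀ k, k ≠ j → (r k).val % 2 = 0) ∨
      (∃ j, (r j).val = 2 ∧ ∀ k, k ≠ j → (r k).val % 2 = 1) := by
  have key : ∀ a b c d e f : Fin 4, (a.val + b.val + c.val + d.val + e.val + f.val) % 4 = 1 →
      (a.val * a.val + b.val * b.val + c.val * c.val + d.val * d.val + e.val * e.val +
        f.val * f.val) % 8 = 1 →
      (∃ j, ((![a, b, c, d, e, f] : Fin 6 → Fin 4) j).val = 1 ∧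
        ∀ k, k ≠ j → ((![a, b, c, d, e, f] : Fin 6 → Fin 4) k).val % 2 = 0) ∨
      (∃ j, ((![a, b, c, d, e, f] : Fin 6 → Fin 4) j).val = 2 ∧
        ∀ k, k ≠ j → ((![a, b, c, d, e, f] : Fin 6 → Fin 4) k).val % 2 = 1) := by
    decide +kernel
  have e : (![r 0, r 1, r 2, r 3, r 4, r 5] : Fin 6 → Fin 4) = r := by
    funext i; fin_cases i <;> rfl
  have := key _ _ _ _ _ _ h1 h2
  rwa [e] at this

theorem C1Pure_row6 (v : Fin 6 → ℤ) (h1 : ∑ k, v k = 5) (h2 : ∑ k, v k * v k = 25) :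
    (∃ j, C1PureT1 v j) ∨ (∃ j, C1PureT2 v j) := by
  let r : Fin 6 → Fin 4 := fun k => ⟨(v k % 4).toNat, by omega⟩
  have hr : ∀ k, ((r k).val : ℤ) = v k % 4 := fun k => by simp only [r]; omega
  have hs : ∀ k, (((r k).val * (r k).val : ℕ) : ℤ) % 8 = v k * v k % 8 := fun k => by
    push_cast
    rw [hr k]
    rcases C1Pure_sq (v k) with h | h | h | h <;> rw [h.1, h.2] <;> norm_num
  simp only [Fin.sum_univ_six] at h1 h2
  have a0 := hr 0; have a1 := hr 1; have a2 := hr 2; have a3 := hr 3; have a4 := hr 4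
  have a5 := hr 5
  have b0 := hs 0; have b1 := hs 1; have b2 := hs 2; have b3 := hs 3; have b4 := hs 4
  have b5 := hs 5
  rcases C1Pure_fin r (by omega) (by omega) with ⟨j, hj, hk⟩ | ⟨j, hj, hk⟩
  · refine Or.inl ⟨j, ?_, fun k h => ?_⟩
    · have := hr j; omega
    · have := hr k; have := hk k h; omega
  · refine Or.inr ⟨j, ?_, fun k h => ?_⟩
    · have := hr j; omega
    · have := hr k; have := hk k h; omega

theorem C1Pure_row5 (v : Fin 5 → ℤ) (h1 : ∑ k, v k = 5) (h2 : ∑ k, v k * v k = 25) :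
    ∃ j, C1PureT1 v j := by
  have h := C1Pure_row6 (Fin.cons 0 v) (by simpa [Fin.sum_univ_succ] using h1)
    (by simpa [Fin.sum_univ_succ] using h2)
  rcases h with ⟨j, hj, hk⟩ | ⟨j, hj, hk⟩
  · refine Fin.cases (motive := fun j => (Fin.cons 0 v : Fin 6 → ℤ) j % 4 = 1 →
      (∀ k, k ≠ j → (Fin.cons 0 v : Fin 6 → ℤ) k % 2 = 0) → ∃ j, C1PureT1 v j) ?_ ?_ j hj hk
    · intro h; simp at h
    · intro j hj hk
      exact ⟨j, by simpa using hj, fun k h => by
        simpa using hk k.succ (fun e => h (Fin.succ_injective _ e))⟩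
  · exfalso
    by_cases h0 : j = 0
    · subst h0; simp at hj
    · have := hk 0 (Ne.symm h0); simp at this

theorem C1Pure_dot {n : ℕ} (u v : Fin n → ℤ) (j : Fin n) (h1 : u j % 2 = 1)
    (h2 : ∀ k, k ≠ j → u k % 2 = 0) : (∑ k, u k * v k) % 2 = v j % 2 := by
  rw [← Finset.add_sum_erase _ _ (Finset.mem_univ j)]
  have h3 : (2 : ℤ) ∣ ∑ k ∈ univ.erase j, u k * v k :=
    Finset.dvd_sum fun k hk =>
      Dvd.dvd.mul_right (Int.dvd_of_emod_eq_zero (h2 k (Finset.ne_of_mem_erase hk))) _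
  have h4 : u j * v j % 2 = v j % 2 := by
    rw [Int.mul_emod, h1]; simp
  omega

theorem C1Pure_det4 {n : ℕ} (X : Matrix (Fin n) (Fin n) ℤ) (p : Equiv.Perm (Fin n))
    (h : ∀ i, C1PureT1 (X i) (p i)) : X.det % 4 = ((Equiv.Perm.sign p : ℤˣ) : ℤ) % 4 := by
  rw [← Matrix.det_transpose, Matrix.det_apply', ← Finset.add_sum_erase _ _ (Finset.mem_univ p)]
  have h3 : (4 : ℤ) ∣ ∑ σ ∈ univ.erase p,
      ((Equiv.Perm.sign σ : ℤˣ) : ℤ) * ∏ i, Xᵀ (σ i) i := by
    refine Finset.dvd_sum fun σ hσ => Dvd.dvd.mul_left ?_ _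
    have hne : σ ≠ p := Finset.ne_of_mem_erase hσ
    obtain ⟨i, hi⟩ : ∃ i, σ i ≠ p i := by
      by_contra hc
      exact hne (Equiv.ext fun i => by_contra fun h => hc ⟨i, h⟩)
    have hj : p.symm (σ i) ≠ i := fun e => hi (by rw [← p.apply_symm_apply (σ i), e])
    have hj2 : σ (p.symm (σ i)) ≠ p (p.symm (σ i)) := by
      rw [p.apply_symm_apply]
      exact fun e => hj (σ.injective e)
    rw [← Finset.mul_prod_erase _ _ (Finset.mem_univ i),
      ← Finset.mul_prod_erase _ _ (Finset.mem_erase.2 ⟨hj, Finset.mem_univ _⟩), ← mul_assoc]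
    refine Dvd.dvd.mul_right ?_ _
    exact mul_dvd_mul (a := 2) (c := 2) (Int.dvd_of_emod_eq_zero ((h i).2 _ hi))
      (Int.dvd_of_emod_eq_zero ((h _).2 _ hj2))
  have h4 : (∏ i, Xᵀ (p i) i) % 4 = 1 := by
    have : ∀ s : Finset (Fin n), (∏ i ∈ s, Xᵀ (p i) i) % 4 = 1 := by
      intro s
      induction s using Finset.induction_on with
      | empty => simp
      | insert a s ha ih =>
        rw [Finset.prod_insert ha, Int.mul_emod, ih, Matrix.transpose_apply, (h a).1]; rfl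
    exact this _
  have h5 : ((Equiv.Perm.sign p : ℤˣ) : ℤ) * (∏ i, Xᵀ (p i) i) % 4 =
      ((Equiv.Perm.sign p : ℤˣ) : ℤ) % 4 := by
    rw [Int.mul_emod, h4]; simp
  simp only [Int.cast_id]
  omega

theorem C1Pure_detsq {n : ℕ} (X : Matrix (Fin n) (Fin n) ℤ)
    (h : ∀ i i', ∑ k, X i k * X i' k = if i = i' then 25 else 0) :
    X.det = 5 ^ n ∨ X.det = -5 ^ n := by
  have h1 : X * Xᵀ = (25 : ℤ) • (1 : Matrix (Fin n) (Fin n) ℤ) := by
    ext i i'
    simp [Matrix.mul_apply, h, Matrix.one_apply]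
  have h2 := congrArg Matrix.det h1
  rw [Matrix.det_mul, Matrix.det_transpose, Matrix.det_smul, Matrix.det_one, Fintype.card_fin,
    mul_one] at h2
  refine mul_self_eq_mul_self_iff.1 ?_
  rw [h2, ← mul_pow]; norm_num

theorem C1Pure_perm {n : ℕ} (X : Matrix (Fin n) (Fin n) ℤ)
    (h : ∀ i i', ∑ k, X i k * X i' k = if i = i' then 25 else 0)
    (ht : ∀ i, ∃ j, C1PureT1 (X i) j) : ∃ p : Equiv.Perm (Fin n), ∀ i, C1PureT1 (X i) (p i) := by
  choose f hf using ht
  have hinj : Function.Injective f := by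
    intro i i' e
    by_contra hne
    have h1 := C1Pure_dot (X i) (X i') (f i) (by have := (hf i).1; omega) (hf i).2
    rw [h, if_neg hne, e] at h1
    have := (hf i').1
    omega
  exact ⟨Equiv.ofBijective f (Finite.injective_iff_bijective.1 hinj), hf⟩

theorem C1Pure_det7 (F : Matrix (Fin 6) (Fin 6) ℤ) (hr : ∀ i, ∑ k, F i k = 5) :
    (Matrix.of fun i k => F i k + 5 : Matrix (Fin 6) (Fin 6) ℤ).det = 7 * F.det := by
  have h1 : (Matrix.of fun i k => F i k + 5 : Matrix (Fin 6) (Fin 6) ℤ) =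
      F * (1 + replicateCol Unit (fun _ => (1 : ℤ)) * replicateRow Unit (fun _ => (1 : ℤ))) := by
    ext i k
    rw [Matrix.mul_add, Matrix.mul_one]
    simp [Matrix.mul_apply, hr]
  rw [h1, Matrix.det_mul, Matrix.det_one_add_replicateCol_mul_replicateRow]
  simp [dotProduct, mul_comm]

theorem C1Pure_core5 (A B : Matrix (Fin 5) (Fin 5) ℤ)
    (hA : ∀ i i', ∑ k, A i k * A i' k = if i = i' then 25 else 0) (rA : ∀ i, ∑ k, A i k = 5)
    (hB : ∀ i i', ∑ k, B i k * B i' k = if i = i' then 25 else 0) (rB : ∀ i, ∑ k, B i k = 5)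
    (hp : ∀ i k, B i k % 2 = A i k % 2) : A.det = B.det := by
  obtain ⟨p, h1⟩ := C1Pure_perm A hA fun i => C1Pure_row5 _ (rA i) (by simpa using hA i i)
  have h2 : ∀ i, C1PureT1 (B i) (p i) := fun i => by
    obtain ⟨j, hj⟩ := C1Pure_row5 _ (rB i) (by simpa using hB i i)
    by_cases e : p i = j
    · rwa [e]
    · have := hj.2 _ e; have := hp i (p i); have := (h1 i).1; omega
  have a1 := C1Pure_det4 A p h1
  have a2 := C1Pure_det4 B p h2
  have b1 := C1Pure_detsq A hA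
  have b2 := C1Pure_detsq B hB
  omega

theorem C1Pure_third : ∀ i i' : Fin 6, ∃ k, k ≠ i ∧ k ≠ i' := by decide

theorem C1Pure_aux6 (X F : Matrix (Fin 6) (Fin 6) ℤ)
    (hX : ∀ i i', ∑ k, X i k * X i' k = if i = i' then 25 else 0)
    (hF : ∀ i i', ∑ k, F i k * F i' k = if i = i' then 25 else 0) (rF : ∀ i, ∑ k, F i k = 5)
    (hp : ∀ i k, (F i k + X i k) % 2 = 1) (ht : ∀ i, ∃ j, C1PureT1 (X i) j) :
    X.det = -F.det := by
  obtain ⟨p, h1⟩ := C1Pure_perm X hX ht
  have h2 : ∀ i, C1PureT2 (F i) (p i) := fun i => by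
    rcases C1Pure_row6 _ (rF i) (by simpa using hF i i) with ⟨j, hj⟩ | ⟨j, hj⟩
    · obtain ⟨k, k1, k2⟩ := C1Pure_third j (p i)
      have := hj.2 _ k1; have := (h1 i).2 _ k2; have := hp i k; omega
    · by_cases e : p i = j
      · rwa [e]
      · have := hj.2 _ e; have := hp i (p i); have := (h1 i).1; omega
  have h3 : ∀ i, C1PureT1 ((-(Matrix.of fun i k => F i k + 5) : Matrix (Fin 6) (Fin 6) ℤ) i)
      (p i) := fun i => by
    refine ⟨?_, fun k hk => ?_⟩
    · have := (h2 i).1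
      simp only [Matrix.neg_apply, Matrix.of_apply]; omega
    · have := (h2 i).2 k hk
      simp only [Matrix.neg_apply, Matrix.of_apply]; omega
  have a1 := C1Pure_det4 X p h1
  have a2 := C1Pure_det4 _ p h3
  rw [Matrix.det_neg, C1Pure_det7 F rF, Fintype.card_fin] at a2
  have b1 := C1Pure_detsq X hX
  have b2 := C1Pure_detsq F hF
  omega

theorem C1Pure_core6 (C E : Matrix (Fin 6) (Fin 6) ℤ)
    (hC : ∀ i i', ∑ k, C i k * C i' k = if i = i' then 25 else 0) (rC : ∀ i, ∑ k, C i k = 5)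
    (hE : ∀ i i', ∑ k, E i k * E i' k = if i = i' then 25 else 0) (rE : ∀ i, ∑ k, E i k = 5)
    (hp : ∀ i k, (E i k + C i k) % 2 = 1) : C.det = -E.det := by
  have row : ∀ i, (∃ j, C1PureT1 (C i) j) ∨ (∃ j, C1PureT2 (C i) j) := fun i =>
    C1Pure_row6 _ (rC i) (by simpa using hC i i)
  have t1 : ∀ i j i', C1PureT1 (C i) j → i ≠ i' → C i' j % 2 = 0 := fun i j i' h hne => by
    have h1 := C1Pure_dot (C i) (C i') j (by have := h.1; omega) h.2
    rw [hC, if_neg hne] at h1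
    omega
  have t2 : ∀ i j i', C1PureT2 (C i) j → i ≠ i' → C i' j % 2 = 1 := fun i j i' h hne => by
    have h1 := C1Pure_dot (fun k => C i k + 1) (C i') j (by have := h.1; omega)
      (fun k hk => by have := h.2 k hk; omega)
    simp only [add_mul, one_mul, Finset.sum_add_distrib] at h1
    rw [hC, if_neg hne, rC] at h1
    omega
  have mix : ∀ i j i' j', C1PureT1 (C i) j → C1PureT2 (C i') j' → False := by
    intro i j i' j' h h'
    by_cases e : i = i'
    · subst e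
      obtain ⟨k, k1, k2⟩ := C1Pure_third j j'
      have := h.2 _ k1; have := h'.2 _ k2; omega
    · have a := t1 i j i' h e
      have e2 : j = j' := by
        by_contra hne
        have := h'.2 _ hne; omega
      subst e2
      obtain ⟨k, k1, k2⟩ := C1Pure_third i i'
      have := t1 i j k h k1.symm; have := t2 i' j k h' k2.symm; omega
  rcases row 0 with ⟨j, hj⟩ | ⟨j, hj⟩
  · exact C1Pure_aux6 C E hC hE rE hp fun i =>
      (row i).resolve_right fun ⟨j', h'⟩ => mix _ _ _ _ hj h'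
  · have := C1Pure_aux6 E C hE hC rC (fun i k => by have := hp i k; omega) fun i => by
      obtain ⟨j', h'⟩ := (row i).resolve_left fun ⟨j', h'⟩ => mix _ _ _ _ h' hj
      refine (C1Pure_row6 _ (rE i) (by simpa using hE i i)).resolve_right ?_
      rintro ⟨q, hq⟩
      obtain ⟨k, k1, k2⟩ := C1Pure_third q j'
      have := hq.2 _ k1; have := h'.2 _ k2; have := hp i k; omega
    omega

theorem c1_pure (M6 Dm : Matrix (Fin 6) (Fin 6) ℤ) (M5 B : Matrix (Fin 5) (Fin 5) ℤ) (e : ℤ)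
    (he : e * e = 25)
    (h6 : ∀ i i', ∑ k, M6 i k * M6 i' k = (if i = i' then 25 else 0) + 200)
    (r6 : ∀ i, ∑ k, M6 i k = 35)
    (hD : ∀ i i', ∑ k, Dm i k * Dm i' k = if i = i' then 25 else 0)
    (rD : ∀ i, ∑ k, Dm i k = e)
    (h5 : ∀ i i', ∑ k, M5 i k * M5 i' k = (if i = i' then 25 else 0) + 240)
    (r5 : ∀ i, ∑ k, M5 i k = 35)
    (hB : ∀ i i', ∑ k, B i k * B i' k = if i = i' then 25 else 0)
    (rB : ∀ i, ∑ k, B i k = e)
    (p6 : ∀ i k, Dm i k ≡ M6 i k [ZMOD 2]) (p5 : ∀ i k, B i k ≡ M5 i k [ZMOD 2])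
    (l1 : M6.det * e ≡ 35 ^ 2 * B.det [ZMOD 3])
    (l2 : Dm.det * 35 ≡ e ^ 2 * M5.det [ZMOD 3]) : False := by
  let C : Matrix (Fin 6) (Fin 6) ℤ := Matrix.of fun i k => M6 i k - 5
  let A : Matrix (Fin 5) (Fin 5) ℤ := Matrix.of fun i k => M5 i k - 6
  have rC : ∀ i, ∑ k, C i k = 5 := fun i => by
    simp [C, Finset.sum_sub_distrib, r6]
  have rA : ∀ i, ∑ k, A i k = 5 := fun i => by
    simp [A, Finset.sum_sub_distrib, r5]
  have hC : ∀ i i', ∑ k, C i k * C i' k = if i = i' then 25 else 0 := fun i i' => by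
    have a := h6 i i'; have b := r6 i; have c := r6 i'
    simp only [C, Matrix.of_apply, Fin.sum_univ_six] at a b c ⊢
    linear_combination a - 5 * b - 5 * c
  have hA : ∀ i i', ∑ k, A i k * A i' k = if i = i' then 25 else 0 := fun i i' => by
    have a := h5 i i'; have b := r5 i; have c := r5 i'
    simp only [A, Matrix.of_apply, Fin.sum_univ_five] at a b c ⊢
    linear_combination a - 6 * b - 6 * c
  have d6 : M6.det = 7 * C.det := by
    rw [← C1Pure_det7 C rC]
    congr 1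
    ext i k
    simp [C]
  have d5 : M5.det ≡ A.det [ZMOD 3] := by
    refine (ZMod.intCast_eq_intCast_iff _ _ 3).1 ?_
    have a := (Int.castRingHom (ZMod 3)).map_det M5
    have b := (Int.castRingHom (ZMod 3)).map_det A
    simp only [eq_intCast] at a b
    rw [a, b]
    congr 1
    ext i k
    have : (6 : ZMod 3) = 0 := rfl
    simp [A, this]
  have bC := C1Pure_detsq C hC
  have bA := C1Pure_detsq A hA
  have q6 : ∀ i k, Dm i k % 2 = M6 i k % 2 := p6
  have q5 : ∀ i k, B i k % 2 = M5 i k % 2 := p5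
  unfold Int.ModEq at l1 l2 d5
  rcases mul_self_eq_mul_self_iff.1 (he.trans (by norm_num : (25 : ℤ) = 5 * 5)) with rfl | rfl
  · have c6 := C1Pure_core6 C Dm hC rC hD rD fun i k => by
      have := q6 i k; simp only [C, Matrix.of_apply]; omega
    have c5 := C1Pure_core5 A B hA rA hB rB fun i k => by
      have := q5 i k; simp only [A, Matrix.of_apply]; omega
    omega
  · have c6 := C1Pure_core6 C (-Dm) hC rC (fun i i' => by simpa using hD i i')
      (fun i => by simp [rD]) fun i k => by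
        have := q6 i k; simp only [C, Matrix.of_apply, Matrix.neg_apply]; omega
    have c5 := C1Pure_core5 A (-B) hA rA (fun i i' => by simpa using hB i i')
      (fun i => by simp [rB]) fun i k => by
        have := q5 i k; simp only [A, Matrix.of_apply, Matrix.neg_apply]; omega
    rw [Matrix.det_neg, Fintype.card_fin] at c6 c5
    omega

end PellDS
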