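import Pool.Agent.K.MP_e9cc94_co.C10
import Pool.Agent.K.MP_e9cc94_co.C12

set_option autoImplicit false

namespace PellDS
open Finset Matrix

variable {G : Type} [Group G] {π : G →* Equiv.Perm (Fin 6)}

def c1lP : Matrix (Fin 6) (Fin 6) (ZMod 3) :=
  !![1,0,1,0,0,0; 1,0,0,1,0,0; 1,0,0,0,1,0; 1,0,0,0,0,1; 1,0,0,0,0,0; 1,1,2,2,2,2]
def c1lPi : Matrix (Fin 6) (Fin 6) (ZMod 3) :=
  !![0,0,0,0,1,0; 1,1,1,1,1,1; 1,0,0,0,2,0; 0,1,0,0,2,0; 0,0,1,0,2,0; 0,0,0,1,2,0]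
def c1lQ : Matrix (Fin 5) (Fin 5) (ZMod 3) :=
  !![1,0,1,2,2; 1,1,0,1,2; 1,2,1,0,1; 1,2,2,1,0; 1,1,2,2,1]
def c1lQi : Matrix (Fin 5) (Fin 5) (ZMod 3) :=
  !![2,2,2,2,2; 1,1,0,2,2; 0,2,1,2,1; 2,1,2,0,1; 2,0,1,1,2]

def c1lM (p : Fin 6 → Fin 6) (i j : Fin 6) : ZMod 3 := ∑ k, c1lPi i (p k) * c1lP k j
def c1lN (p : Fin 6 → Fin 6) (i j : Fin 5) : ZMod 3 := ∑ k, c1lQi i (act5 p k) * c1lQ k j

theorem c1l_PP : c1lPi * c1lP = 1 := by
  have key : ∀ i j : Fin 6, (∑ k, c1lPi i k * c1lP k j : ZMod 3) = if i = j then 1 else 0 := by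
    decide +kernel
  ext i j
  rw [Matrix.mul_apply, Matrix.one_apply, key]

theorem c1l_QQ : c1lQi * c1lQ = 1 := by
  have key : ∀ i j : Fin 5, (∑ k, c1lQi i k * c1lQ k j : ZMod 3) = if i = j then 1 else 0 := by
    decide +kernel
  ext i j
  rw [Matrix.mul_apply, Matrix.one_apply, key]

theorem c1l_a : ∀ p ∈ L120, c1lM p 0 0 = 1 ∧ (∀ i : Fin 5, c1lM p i.succ 0 = 0) ∧
    c1lM p (Fin.succ 0) (Fin.succ 0) = 1 ∧
      ∀ j : Fin 4, c1lM p (Fin.succ 0) j.succ.succ = 0 :=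
  allL (by decide +kernel)

theorem c1l_b : ∀ p ∈ L120, c1lN p 0 0 = 1 ∧ ∀ i : Fin 4, c1lN p i.succ 0 = 0 :=
  allL (by decide +kernel)

theorem c1l_c : ∀ p ∈ L120, ∀ i j : Fin 4,
    c1lM p i.succ.succ j.succ.succ = (sg p : ZMod 3) * c1lN p i.succ j.succ :=
  allL (by decide +kernel)

omit [Group G] in
theorem c1l_conj {ι : Type} [Fintype ι] [DecidableEq ι] (A B : Matrix ι ι (ZMod 3))
    (ρ : G → ι → ι) (s : G → ℤ) (D : Finset G) (i j : ι) :
    (A * (∑ d ∈ D, mono ρ (fun g _ => s g) d).map (Int.castRingHom (ZMod 3)) * B) i j =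
      ∑ d ∈ D, (s d : ZMod 3) * ∑ k, A i (ρ d k) * B k j := by
  have h1 : ∀ k, (A * (∑ d ∈ D, mono ρ (fun g _ => s g) d).map (Int.castRingHom (ZMod 3))) i k =
      ∑ d ∈ D, (s d : ZMod 3) * A i (ρ d k) := by
    intro k
    rw [Matrix.mul_apply]
    simp only [Matrix.map_apply, Matrix.sum_apply, map_sum, Finset.mul_sum]
    rw [Finset.sum_comm]
    refine Finset.sum_congr rfl fun d _ => ?_
    rw [Finset.sum_eq_single (ρ d k)]
    · simp [mono, mul_comm]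
    · intro b _ hb
      simp [mono, Ne.symm hb]
    · simp
  rw [Matrix.mul_apply]
  simp only [h1, Finset.sum_mul, Finset.mul_sum]
  rw [Finset.sum_comm]
  refine Finset.sum_congr rfl fun d _ => Finset.sum_congr rfl fun k _ => ?_
  ring

theorem c1l_det {ι : Type} [Fintype ι] [DecidableEq ι] {A B : Matrix ι ι (ZMod 3)}
    (h : A * B = 1) (M : Matrix ι ι ℤ) :
    (M.det : ZMod 3) = (A * M.map (Int.castRingHom (ZMod 3)) * B).det := by
  have h1 : A.det * B.det = 1 := by rw [← Matrix.det_mul, h, Matrix.det_one]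
  have h2 := (Int.castRingHom (ZMod 3)).map_det M
  rw [RingHom.mapMatrix_apply, eq_intCast] at h2
  rw [Matrix.det_mul, Matrix.det_mul, ← h2, mul_right_comm, h1, one_mul]

theorem c1l_col {n : ℕ} (M : Matrix (Fin (n + 1)) (Fin (n + 1)) (ZMod 3))
    (h : ∀ i : Fin n, M i.succ 0 = 0) :
    M.det = M 0 0 * (M.submatrix Fin.succ Fin.succ).det := by
  rw [Matrix.det_succ_column_zero, Fin.sum_univ_succ]
  simp [h]

theorem c1l_row {n : ℕ} (M : Matrix (Fin (n + 1)) (Fin (n + 1)) (ZMod 3))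
    (h : ∀ i : Fin n, M 0 i.succ = 0) :
    M.det = M 0 0 * (M.submatrix Fin.succ Fin.succ).det := by
  rw [Matrix.det_succ_row_zero, Fin.sum_univ_succ]
  simp [h]

/-- the mod 3 link between the 6-point action and the signed 5-point action -/
theorem c1_link (hπ : Act π) (D : Finset G) (w : G → ℤ) :
    (∑ d ∈ D, mono (fun g i => π g i) (fun g _ => w g) d).det * ∑ d ∈ D, w d * sg (π d) ≡
      (∑ d ∈ D, w d) ^ 2 *
        (∑ d ∈ D, mono (fun g c => act5 (π g) c) (fun g _ => w g * sg (π g)) d).det [ZMOD 3] := by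
  refine (ZMod.intCast_eq_intCast_iff _ _ 3).1 ?_
  rw [Int.cast_mul, Int.cast_mul, c1l_det c1l_PP, c1l_det c1l_QQ]
  have hM := c1l_conj c1lPi c1lP (fun g i => π g i) w D
  have hN := c1l_conj c1lQi c1lQ (fun g c => act5 (π g) c) (fun g => w g * sg (π g)) D
  generalize c1lPi * (∑ d ∈ D, mono (fun g i => π g i) (fun g _ => w g) d).map
    (Int.castRingHom (ZMod 3)) * c1lP = M at hM ⊢
  generalize c1lQi * (∑ d ∈ D, mono (fun g c => act5 (π g) c) (fun g _ => w g * sg (π g)) d).map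
    (Int.castRingHom (ZMod 3)) * c1lQ = N at hN ⊢
  have hM' : ∀ i j, M i j = ∑ d ∈ D, (w d : ZMod 3) * c1lM (π d) i j := hM
  have hN' : ∀ i j, N i j = ∑ d ∈ D, ((w d * sg (π d) : ℤ) : ZMod 3) * c1lN (π d) i j := hN
  have m1 : M 0 0 = ((∑ d ∈ D, w d : ℤ) : ZMod 3) := by
    rw [hM', Int.cast_sum]
    exact Finset.sum_congr rfl fun d _ => by rw [(c1l_a _ (hπ.mem d)).1, mul_one]
  have m2 : ∀ i : Fin 5, M i.succ 0 = 0 := fun i => by
    rw [hM']
    exact Finset.sum_eq_zero fun d _ => by rw [(c1l_a _ (hπ.mem d)).2.1, mul_zero]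
  have m3 : M (Fin.succ 0) (Fin.succ 0) = ((∑ d ∈ D, w d : ℤ) : ZMod 3) := by
    rw [hM', Int.cast_sum]
    exact Finset.sum_congr rfl fun d _ => by rw [(c1l_a _ (hπ.mem d)).2.2.1, mul_one]
  have m4 : ∀ j : Fin 4, M (Fin.succ 0) j.succ.succ = 0 := fun j => by
    rw [hM']
    exact Finset.sum_eq_zero fun d _ => by rw [(c1l_a _ (hπ.mem d)).2.2.2, mul_zero]
  have n1 : N 0 0 = ((∑ d ∈ D, w d * sg (π d) : ℤ) : ZMod 3) := by
    rw [hN', Int.cast_sum]
    exact Finset.sum_congr rfl fun d _ => by rw [(c1l_b _ (hπ.mem d)).1, mul_one]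
  have n2 : ∀ i : Fin 4, N i.succ 0 = 0 := fun i => by
    rw [hN']
    exact Finset.sum_eq_zero fun d _ => by rw [(c1l_b _ (hπ.mem d)).2, mul_zero]
  have e : (M.submatrix Fin.succ Fin.succ).submatrix Fin.succ Fin.succ =
      N.submatrix Fin.succ Fin.succ := by
    ext i j
    simp only [Matrix.submatrix_apply]
    rw [hM', hN']
    exact Finset.sum_congr rfl fun d _ => by
      rw [c1l_c _ (hπ.mem d), Int.cast_mul, mul_assoc]
  rw [c1l_col M m2, c1l_row (M.submatrix Fin.succ Fin.succ) m4, c1l_col N n2, e,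
    Matrix.submatrix_apply, m1, m3, n1, Int.cast_pow]
  ring

theorem caseC1 [Fintype G] [DecidableEq G] {D : Finset G} (h : DS D) (hG : Fintype.card G = 120)
    (hπ : Act π) (hodd : ∃ g, sg (π g) = -1) : False := by
  have h35 : ∑ _d ∈ D, (1 : ℤ) = 35 := by
    rw [Finset.sum_const, h.1]
    rfl
  refine c1_pure (∑ d ∈ D, mono (fun g i => π g i) (fun _ _ => 1) d)
    (∑ d ∈ D, mono (fun g i => π g i) (fun g _ => sg (π g)) d)
    (∑ d ∈ D, mono (fun g c => act5 (π g) c) (fun _ _ => 1) d)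
    (∑ d ∈ D, mono (fun g c => act5 (π g) c) (fun g _ => sg (π g)) d)
    (∑ d ∈ D, sg (π d)) (hπ.sg_sum hodd h) ?_ ?_ ?_ ?_ ?_ ?_ ?_ ?_ ?_ ?_ ?_ ?_
  · intro i i'
    rw [(mono6 π).gram_apply h, hπ.tot6 hG]
    rfl
  · intro i
    rw [← h35]
    exact (mono6 π).row D i
  · intro i i'
    rw [hπ.mono6s.gram_apply h, hπ.tot6s hodd]
    simp
  · intro i
    exact hπ.mono6s.row D i
  · intro i i'
    rw [hπ.mono5.gram_apply h, hπ.tot5 hG]
    rfl
  · intro i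
    rw [← h35]
    exact hπ.mono5.row D i
  · intro i i'
    rw [hπ.mono5s.gram_apply h, hπ.tot5s hodd]
    simp
  · intro i
    exact hπ.mono5s.row D i
  · intro i k
    exact mono_parity _ _ hπ.mono6s.sq D i k
  · intro i k
    exact mono_parity _ _ hπ.mono5s.sq D i k
  · have := c1_link hπ D fun _ => 1
    simp only [one_mul] at this
    rw [h35] at this
    exact this
  · have := c1_link hπ D fun g => sg (π g)
    simp only [sg_sq] at this
    rw [h35] at this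
    exact this

end PellDS
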