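import Mathlib

-- part Pool.Agent.P.MP_e9cc94_co.Basic
section

set_option autoImplicit false

namespace PellDS
open Finset Matrix

/-- a (120,35,10) difference set (the group order is a separate hypothesis) -/
def DS {G : Type} [Group G] [DecidableEq G] (D : Finset G) : Prop :=
  D.card = 35 ∧
    ∀ g : G, g ≠ 1 → ((D ×ˢ D).filter (fun p : G × G => p.1 * p.2⁻¹ = g)).card = 10

variable {G : Type} [Group G] [Fintype G] [DecidableEq G] {D : Finset G}

omit [Fintype G] in
theorem card_diag (D : Finset G) :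
    ((D ×ˢ D).filter (fun p : G × G => p.1 * p.2⁻¹ = 1)).card = D.card := by
  symm
  refine Finset.card_bij (fun d _ => (d, d)) ?_ ?_ ?_
  · intro d hd; simp [hd]
  · intro a _ b _ h; exact (Prod.mk.inj h).1
  · rintro ⟨a, b⟩ hp
    simp only [mem_filter, mem_product, mul_inv_eq_one] at hp
    exact ⟨a, hp.1.1, by rw [hp.2]⟩

theorem sum_fiber (D : Finset G) {V : Type*} [AddCommMonoid V] (φ : G → V) :
    ∑ d ∈ D, ∑ e ∈ D, φ (d * e⁻¹) =
      ∑ g, ((D ×ˢ D).filter (fun p : G × G => p.1 * p.2⁻¹ = g)).card • φ g := by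
  rw [← Finset.sum_product' (f := fun d e => φ (d * e⁻¹))]
  rw [← Finset.sum_fiberwise (s := D ×ˢ D) (g := fun p : G × G => p.1 * p.2⁻¹)]
  refine Finset.sum_congr rfl fun g _ => ?_
  rw [Finset.sum_congr rfl (g := fun _ => φ g), Finset.sum_const]
  intro p hp
  rw [(mem_filter.1 hp).2]

/-- the difference set equation against a test function -/
theorem DS.sum (h : DS D) {V : Type*} [AddCommMonoid V] (φ : G → V) :
    ∑ d ∈ D, ∑ e ∈ D, φ (d * e⁻¹) = 25 • φ 1 + 10 • ∑ g, φ g := by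
  rw [sum_fiber, Finset.smul_sum]
  have : ∀ g : G, ((D ×ˢ D).filter (fun p : G × G => p.1 * p.2⁻¹ = g)).card • φ g =
      (if g = 1 then 25 • φ 1 else 0) + 10 • φ g := by
    intro g
    by_cases hg : g = 1
    · subst hg
      rw [card_diag, h.1, if_pos rfl, ← add_smul]
    · rw [h.2 g hg, if_neg hg, zero_add]
  simp only [this, Finset.sum_add_distrib]
  simp

omit [Fintype G] [DecidableEq G] in
theorem tr_inj (g k : G) : Function.Injective fun d : G => g * d * k := by
  intro a b h; simpa using h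

omit [Fintype G] in
theorem sum_tr (D : Finset G) (g k : G) {V : Type*} [AddCommMonoid V] (f : G → V) :
    ∑ d ∈ D.image (fun d => g * d * k), f d = ∑ d ∈ D, f (g * d * k) :=
  Finset.sum_image fun _ _ _ _ h => tr_inj g k h

omit [Fintype G] in
theorem card_tr (D : Finset G) (g k : G) (Q : G → Prop) [DecidablePred Q] :
    ((D.image (fun d => g * d * k)).filter Q).card = (D.filter fun d => Q (g * d * k)).card := by
  rw [Finset.filter_image, Finset.card_image_of_injective _ (tr_inj g k)]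

omit [Fintype G] in
theorem DS.translate (h : DS D) (g k : G) : DS (D.image fun d => g * d * k) := by
  refine ⟨by rw [Finset.card_image_of_injective _ (tr_inj g k), h.1], fun x hx => ?_⟩
  have hx' : g⁻¹ * x * g ≠ 1 := by
    intro e; apply hx
    have : x = g * (g⁻¹ * x * g) * g⁻¹ := by group
    rw [this, e]; group
  rw [← h.2 _ hx']
  symm
  refine Finset.card_bij (fun p _ => (g * p.1 * k, g * p.2 * k)) ?_ ?_ ?_
  · rintro ⟨a, b⟩ hp
    simp only [mem_filter, mem_product, mem_image] at hp ⊢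
    refine ⟨⟨⟨a, hp.1.1, rfl⟩, ⟨b, hp.1.2, rfl⟩⟩, ?_⟩
    have : g * a * k * (g * b * k)⁻¹ = g * (a * b⁻¹) * g⁻¹ := by group
    rw [this, hp.2]; group
  · rintro ⟨a, b⟩ _ ⟨c, d⟩ _ e
    obtain ⟨e1, e2⟩ := Prod.mk.inj e
    exact Prod.ext (tr_inj g k e1) (tr_inj g k e2)
  · rintro ⟨a, b⟩ hp
    simp only [mem_filter, mem_product, mem_image] at hp
    obtain ⟨⟨⟨a', ha, rfl⟩, ⟨b', hb, rfl⟩⟩, e⟩ := hp
    refine ⟨(a', b'), ?_, rfl⟩
    simp only [mem_filter, mem_product]
    refine ⟨⟨ha, hb⟩, ?_⟩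
    rw [← e]; group

/-- signed permutation matrix of `g` -/
def mono {ι : Type} [DecidableEq ι] (π : G → ι → ι) (σ : G → ι → ℤ) (g : G) : Matrix ι ι ℤ :=
  Matrix.of fun i k => if π g k = i then σ g k else 0

/-- an action with a sign cocycle -/
structure IsMono {ι : Type} (π : G → ι → ι) (σ : G → ι → ℤ) : Prop where
  one : ∀ i, π 1 i = i
  mul : ∀ g h i, π (g * h) i = π g (π h i)
  coc : ∀ g h i, σ (g * h) i = σ g (π h i) * σ h i
  sq : ∀ g i, σ g i * σ g i = 1

section mono
variable {ι : Type} [Fintype ι] [DecidableEq ι] {π : G → ι → ι} {σ : G → ι → ℤ}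

omit [Fintype G] [DecidableEq G] [Fintype ι] [DecidableEq ι] in
theorem IsMono.inv_l (hm : IsMono π σ) (g : G) (i : ι) : π g⁻¹ (π g i) = i := by
  rw [← hm.mul, inv_mul_cancel, hm.one]

omit [Fintype G] [DecidableEq G] [Fintype ι] [DecidableEq ι] in
theorem IsMono.inv_r (hm : IsMono π σ) (g : G) (i : ι) : π g (π g⁻¹ i) = i := by
  rw [← hm.mul, mul_inv_cancel, hm.one]

omit [Fintype G] [DecidableEq G] [Fintype ι] [DecidableEq ι] in
theorem IsMono.inj (hm : IsMono π σ) (g : G) : Function.Injective (π g) :=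
  fun a b h => by rw [← hm.inv_l g a, h, hm.inv_l]

omit [Fintype G] [DecidableEq G] [Fintype ι] [DecidableEq ι] in
theorem IsMono.sig_one (hm : IsMono π σ) (i : ι) : σ 1 i = 1 := by
  have h1 := hm.coc 1 1 i
  rw [mul_one, hm.one, hm.sq] at h1
  exact h1

omit [Fintype G] [DecidableEq G] [Fintype ι] [DecidableEq ι] in
theorem IsMono.sig_inv (hm : IsMono π σ) (g : G) (i : ι) : σ g⁻¹ (π g i) = σ g i := by
  have h1 := hm.coc g⁻¹ g i
  rw [inv_mul_cancel, hm.sig_one] at h1
  have h2 := hm.sq g i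
  calc σ g⁻¹ (π g i) = σ g⁻¹ (π g i) * (σ g i * σ g i) := by rw [h2, mul_one]
    _ = σ g i := by rw [← mul_assoc, ← h1, one_mul]

omit [Fintype G] [DecidableEq G] in
theorem IsMono.mono_mul (hm : IsMono π σ) (g h : G) :
    mono π σ (g * h) = mono π σ g * mono π σ h := by
  ext i k
  simp only [mono, Matrix.mul_apply, Matrix.of_apply]
  rw [Finset.sum_eq_single (π h k)]
  · rw [if_pos rfl, hm.mul, hm.coc]; split_ifs <;> simp
  · intro b _ hb; rw [if_neg (Ne.symm hb), mul_zero]
  · simp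

omit [Fintype G] [DecidableEq G] [Fintype ι] in
theorem IsMono.mono_inv (hm : IsMono π σ) (g : G) : mono π σ g⁻¹ = (mono π σ g)ᵀ := by
  ext i k
  simp only [mono, Matrix.transpose_apply, Matrix.of_apply]
  by_cases e : π g i = k
  · subst e; rw [if_pos (hm.inv_l g i), if_pos rfl, hm.sig_inv]
  · rw [if_neg e, if_neg]
    intro e'; apply e; rw [← e', hm.inv_r]

omit [Fintype G] [DecidableEq G] [Fintype ι] in
theorem IsMono.mono_one (hm : IsMono π σ) : mono π σ 1 = 1 := by
  ext i k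
  simp only [mono, Matrix.of_apply, hm.one, hm.sig_one, Matrix.one_apply, eq_comm]

theorem IsMono.gram (hm : IsMono π σ) (h : DS D) :
    (∑ d ∈ D, mono π σ d) * (∑ d ∈ D, mono π σ d)ᵀ = 25 • 1 + 10 • ∑ g, mono π σ g := by
  rw [← hm.mono_one, ← h.sum (mono π σ), Matrix.transpose_sum, Finset.sum_mul]
  refine Finset.sum_congr rfl fun d _ => ?_
  rw [Finset.mul_sum]
  refine Finset.sum_congr rfl fun e _ => ?_
  rw [hm.mono_mul, hm.mono_inv]

/-- entrywise form of `gram` -/
theorem IsMono.gram_apply (hm : IsMono π σ) (h : DS D) (i i' : ι) :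
    ∑ k, (∑ d ∈ D, mono π σ d) i k * (∑ d ∈ D, mono π σ d) i' k =
      (if i = i' then 25 else 0) + 10 * (∑ g, mono π σ g) i i' := by
  have := congrFun (congrFun (hm.gram h) i) i'
  rw [Matrix.mul_apply] at this
  simp only [Matrix.transpose_apply] at this
  rw [this, Matrix.add_apply, Matrix.smul_apply, Matrix.smul_apply, Matrix.one_apply]
  split_ifs <;> simp

omit [DecidableEq G] [Fintype ι] in
theorem IsMono.tot_inv (hm : IsMono π σ) (h : G) (i k : ι) :
    (∑ g, mono π σ g) (π h i) k = σ h i * (∑ g, mono π σ g) i k := by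
  simp only [Matrix.sum_apply, Finset.mul_sum]
  rw [← Equiv.sum_comp (Equiv.mulLeft h)]
  refine Finset.sum_congr rfl fun g _ => ?_
  simp only [mono, Matrix.of_apply, Equiv.coe_mulLeft, hm.mul, hm.coc]
  by_cases e : π g k = i
  · rw [if_pos e, if_pos (by rw [e]), e]
  · rw [if_neg e, if_neg (fun e' => e (hm.inj h e')), mul_zero]

omit [DecidableEq G] [Fintype ι] in
theorem IsMono.tot_zero (hm : IsMono π σ) (hneg : ∀ i, ∃ h, π h i = i ∧ σ h i = -1) :
    ∑ g, mono π σ g = 0 := by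
  ext i k
  obtain ⟨h, h1, h2⟩ := hneg i
  have := hm.tot_inv h i k
  rw [h1, h2] at this
  simp only [Matrix.zero_apply]
  omega

omit [DecidableEq G] in
theorem IsMono.tot_triv (hm : IsMono π fun _ _ => 1) (htr : ∀ i k, ∃ g, π g i = k) (c : ℤ)
    (hc : (Fintype.card ι : ℤ) * c = Fintype.card G) :
    ∑ g, mono π (fun _ _ => 1) g = Matrix.of fun _ _ => c := by
  ext i k
  have h1 : ∀ i', (∑ g, mono π (fun _ _ => 1) g) i' k = (∑ g, mono π (fun _ _ => 1) g) i k := by
    intro i'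
    obtain ⟨g, rfl⟩ := htr i i'
    rw [hm.tot_inv, one_mul]
  have h2 : ∑ i', (∑ g, mono π (fun _ _ => 1) g) i' k = Fintype.card G := by
    simp only [Matrix.sum_apply]
    rw [Finset.sum_comm]
    simp [mono]
  simp only [h1, Finset.sum_const, Finset.card_univ, nsmul_eq_mul] at h2
  have h3 : (Fintype.card ι : ℤ) ≠ 0 := by
    have : Nonempty ι := ⟨i⟩
    exact_mod_cast Fintype.card_ne_zero
  rw [Matrix.of_apply]
  exact mul_left_cancel₀ h3 (h2.trans hc.symm)

omit [Fintype G] [DecidableEq G] [Group G] in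
/-- column sums for a point-independent sign -/
theorem mono_col (π : G → ι → ι) (s : G → ℤ) (D : Finset G) (k : ι) :
    ∑ i, (∑ d ∈ D, mono π (fun g _ => s g) d) i k = ∑ d ∈ D, s d := by
  simp only [Matrix.sum_apply]
  rw [Finset.sum_comm]
  simp [mono]

omit [Fintype G] [DecidableEq G] in
/-- row sums for a point-independent sign -/
theorem IsMono.row {s : G → ℤ} (hm : IsMono π fun g _ => s g) (D : Finset G) (i : ι) :
    ∑ k, (∑ d ∈ D, mono π (fun g _ => s g) d) i k = ∑ d ∈ D, s d := by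
  simp only [Matrix.sum_apply]
  rw [Finset.sum_comm]
  refine Finset.sum_congr rfl fun d _ => ?_
  simp only [mono, Matrix.of_apply]
  rw [Finset.sum_eq_single (π d⁻¹ i)]
  · rw [if_pos (hm.inv_r d i)]
  · intro b _ hb; rw [if_neg]; intro e; apply hb; rw [← e, hm.inv_l]
  · simp

omit [Fintype G] [DecidableEq G] [Group G] [Fintype ι] in
/-- changing the signs does not change the matrix mod 2 -/
theorem mono_parity (π : G → ι → ι) (σ : G → ι → ℤ) (hσ : ∀ g i, σ g i * σ g i = 1)
    (D : Finset G) (i k : ι) :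
    (∑ d ∈ D, mono π σ d) i k ≡ (∑ d ∈ D, mono π (fun _ _ => 1) d) i k [ZMOD 2] := by
  simp only [Matrix.sum_apply]
  refine Int.ModEq.sum fun d _ => ?_
  simp only [mono, Matrix.of_apply]
  split_ifs
  · rcases Int.eq_one_or_neg_one_of_mul_eq_one (hσ d k) with e | e <;> rw [e] <;> decide
  · rfl

omit [Fintype G] in
/-- left translation -/
theorem IsMono.sum_left (hm : IsMono π σ) (D : Finset G) (g : G) :
    ∑ d ∈ D.image (fun d => g * d * 1), mono π σ d = mono π σ g * ∑ d ∈ D, mono π σ d := by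
  rw [sum_tr, Finset.mul_sum]
  refine Finset.sum_congr rfl fun d _ => ?_
  rw [mul_one, hm.mono_mul]

omit [Fintype G] in
/-- right translation -/
theorem IsMono.sum_right (hm : IsMono π σ) (D : Finset G) (g : G) (i k : ι) :
    (∑ d ∈ D.image (fun d => 1 * d * g), mono π σ d) i k =
      (∑ d ∈ D, mono π σ d) i (π g k) * σ g k := by
  rw [sum_tr]
  simp only [Matrix.sum_apply, Finset.sum_mul, one_mul]
  refine Finset.sum_congr rfl fun d _ => ?_
  simp only [mono, Matrix.of_apply, hm.mul, hm.coc]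
  split_ifs <;> simp

end mono

/-- coordinates on a group of order 120 with cyclic Sylow 2-subgroup -/
structure Coord (ε : ZMod 3) (μ : ZMod 5) (j : G → ZMod 8) (u : G → ZMod 3) (y : G → ZMod 5) :
    Prop where
  he : ε ≠ 0
  hm : μ ≠ 0
  jm : ∀ g h, j (g * h) = j g + j h
  um : ∀ g h, u (g * h) = u g + ε ^ (j g).val * u h
  ym : ∀ g h, y (g * h) = y g + μ ^ (j g).val * y h
  bij : Function.Bijective fun g => (j g, u g, y g)

section coord
variable {ε : ZMod 3} {μ : ZMod 5} {j : G → ZMod 8} {u : G → ZMod 3} {y : G → ZMod 5}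
omit [Fintype G] [DecidableEq G]

theorem Coord.j1 (c : Coord ε μ j u y) : j 1 = 0 := by
  have := c.jm 1 1; rw [mul_one] at this; simpa using this

theorem Coord.u1 (c : Coord ε μ j u y) : u 1 = 0 := by
  have := c.um 1 1; rw [mul_one, c.j1] at this; simpa using this

theorem Coord.y1 (c : Coord ε μ j u y) : y 1 = 0 := by
  have := c.ym 1 1; rw [mul_one, c.j1] at this; simpa using this

theorem Coord.jd (c : Coord ε μ j u y) (d e : G) : j (d * e⁻¹) = j d - j e := by
  have := c.jm (d * e⁻¹) e; rw [inv_mul_cancel_right] at this; rw [this]; ring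

theorem Coord.ud (c : Coord ε μ j u y) (d e : G) :
    u (d * e⁻¹) = u d - ε ^ (j d - j e).val * u e := by
  have := c.um (d * e⁻¹) e; rw [inv_mul_cancel_right, c.jd] at this; rw [this]; ring

theorem Coord.yd (c : Coord ε μ j u y) (d e : G) :
    y (d * e⁻¹) = y d - μ ^ (j d - j e).val * y e := by
  have := c.ym (d * e⁻¹) e; rw [inv_mul_cancel_right, c.jd] at this; rw [this]; ring

theorem Coord.flip {j : G → ZMod 8} (c : Coord ε 3 j u y) : Coord ε 2 (fun g => -j g) u y where
  he := c.he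
  hm := by decide
  jm g h := by rw [c.jm]; ring
  um g h := by
    have : ∀ ε : ZMod 3, ε ≠ 0 → ∀ a : ZMod 8, ε ^ (-a).val = ε ^ a.val := by decide
    rw [c.um, this ε c.he]
  ym g h := by
    have : ∀ a : ZMod 8, (2 : ZMod 5) ^ (-a).val = 3 ^ a.val := by decide
    rw [c.ym, this]
  bij := by
    have e : (fun g => (-j g, u g, y g)) =
        (Equiv.prodCongr (Equiv.neg (ZMod 8)) (Equiv.refl _)) ∘ fun g => (j g, u g, y g) := rfl
    rw [e]; exact (Equiv.bijective _).comp c.bij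

end coord

omit [DecidableEq G] in
/-- a sum over the group in coordinates -/
theorem Coord.sum {ε : ZMod 3} {μ : ZMod 5} {j : G → ZMod 8} {u : G → ZMod 3} {y : G → ZMod 5}
    (c : Coord ε μ j u y) {V : Type*} [AddCommMonoid V] (f : ZMod 8 → ZMod 3 → ZMod 5 → V) :
    ∑ g, f (j g) (u g) (y g) = ∑ a, ∑ b, ∑ z, f a b z := by
  have := c.bij.sum_comp (fun p : ZMod 8 × ZMod 3 × ZMod 5 => f p.1 p.2.1 p.2.2)
  rw [this, Fintype.sum_prod_type]
  refine Finset.sum_congr rfl fun a _ => ?_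
  rw [Fintype.sum_prod_type]

end PellDS
end

-- part Pool.Agent.P.MP_e9cc94_co.CaseB
section

set_option autoImplicit false

namespace PellDS
open Finset

variable {G : Type} [Group G] [Fintype G] [DecidableEq G] {D : Finset G}

open Classical in
/-- extension by zero -/
noncomputable def casebExt (H : Subgroup G) (χ : H →* ℤˣ) (g : G) : ℤ :=
  if h : g ∈ H then ((χ ⟨g, h⟩ : ℤˣ) : ℤ) else 0

omit [Fintype G] [DecidableEq G] in
theorem caseb_pos {H : Subgroup G} (χ : H →* ℤˣ) {g : G} (h : g ∈ H) :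
    casebExt H χ g = ((χ ⟨g, h⟩ : ℤˣ) : ℤ) := dif_pos h

omit [Fintype G] [DecidableEq G] in
theorem caseb_neg {H : Subgroup G} (χ : H →* ℤˣ) {g : G} (h : g ∉ H) :
    casebExt H χ g = 0 := dif_neg h

omit [Fintype G] [DecidableEq G] in
theorem caseb_mul {H : Subgroup G} (χ : H →* ℤˣ) (g : G) {k : G} (hk : k ∈ H) :
    casebExt H χ g * casebExt H χ k = casebExt H χ (g * k⁻¹) := by
  by_cases hg : g ∈ H
  · rw [caseb_pos χ hg, caseb_pos χ hk, caseb_pos χ (H.mul_mem hg (H.inv_mem hk))]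
    have : (⟨g * k⁻¹, H.mul_mem hg (H.inv_mem hk)⟩ : H) = ⟨g, hg⟩ * (⟨k, hk⟩ : H)⁻¹ := rfl
    rw [this, map_mul, map_inv, Int.units_inv_eq_self, Units.val_mul]
  · rw [caseb_neg χ hg, zero_mul, caseb_neg]
    intro h
    exact hg ((H.mul_mem_cancel_right (H.inv_mem hk)).1 h)

omit [DecidableEq G] in
theorem caseb_tr (H : Subgroup G) (hH : H.index = 3) :
    ∃ t : Fin 3 → G, ∀ g : G, ∃ i, g * t i ∈ H ∧ ∀ j, j ≠ i → g * t j ∉ H := by
  have hc : Nat.card (G ⧸ H) = 3 := hH
  have e : (G ⧸ H) ≃ Fin 3 := Finite.equivFinOfCardEq hc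
  refine ⟨fun i => (e.symm i).out, fun g => ?_⟩
  have key : ∀ i, g * (e.symm i).out ∈ H ↔ e (QuotientGroup.mk g⁻¹) = i := by
    intro i
    rw [← Equiv.eq_symm_apply, ← QuotientGroup.out_eq' (e.symm i), QuotientGroup.eq, inv_inv,
      QuotientGroup.out_eq']
  exact ⟨_, (key _).2 rfl, fun j hj h => hj ((key j).1 h).symm⟩

omit [DecidableEq G] in
theorem caseb_tot (H : Subgroup G) (χ : H →* ℤˣ) [Fintype H] :
    ∑ g, casebExt H χ g = ∑ k : H, ((χ k : ℤˣ) : ℤ) := by
  classical
  rw [← Finset.sum_filter_of_ne (s := univ) (p := fun g => g ∈ H)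
    (fun g _ hg => by_contra fun h => hg (caseb_neg χ h))]
  rw [Finset.sum_subtype (p := fun g => g ∈ H) (univ.filter fun g => g ∈ H) (by simp)]
  exact Finset.sum_congr rfl fun k _ => caseb_pos χ k.2

theorem caseb_sq (h : DS D) {H : Subgroup G} (χ : H →* ℤˣ) {t : Fin 3 → G}
    (ht : ∀ g : G, ∃ i, g * t i ∈ H ∧ ∀ j, j ≠ i → g * t j ∉ H) :
    ∑ i, (∑ d ∈ D, casebExt H χ (d * t i)) * (∑ d ∈ D, casebExt H χ (d * t i)) =
      25 + 10 * ∑ g, casebExt H χ g := by
  have key : ∀ d e : G, ∑ i, casebExt H χ (d * t i) * casebExt H χ (e * t i) =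
      casebExt H χ (d * e⁻¹) := by
    intro d e
    obtain ⟨i, hi, hj⟩ := ht e
    rw [Finset.sum_eq_single i (fun j _ hne => by rw [caseb_neg χ (hj j hne), mul_zero])
      (fun hn => absurd (mem_univ i) hn), caseb_mul χ _ hi]
    congr 1
    group
  have h1 := h.sum (casebExt H χ)
  rw [caseb_pos χ H.one_mem, show (⟨1, H.one_mem⟩ : H) = 1 from rfl, map_one] at h1
  simp only [Finset.sum_mul_sum]
  rw [Finset.sum_comm]
  rw [Finset.sum_congr rfl fun d _ => Finset.sum_comm]
  simp only [key]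
  rw [h1]
  simp

theorem caseb_num : ∀ a ∈ Finset.Icc (-5 : ℤ) 5, ∀ b ∈ Finset.Icc (-5 : ℤ) 5,
    ∀ c ∈ Finset.Icc (-5 : ℤ) 5, a * a + b * b + c * c = 25 →
      (a = 0 ∨ b = 0 ∨ c = 0) ∧ a % 4 ≠ 2 ∧ b % 4 ≠ 2 ∧ c % 4 ≠ 2 := by
  decide +kernel

theorem caseb_num' (m : Fin 3 → ℤ) (h : ∑ i, m i * m i = 25) :
    (∃ i, m i = 0) ∧ ∀ i, m i % 4 ≠ 2 := by
  rw [Fin.sum_univ_three] at h
  have b : ∀ x y z : ℤ, x * x + y * y + z * z = 25 → x ∈ Finset.Icc (-5 : ℤ) 5 := by
    intro x y z e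
    rw [Finset.mem_Icc]
    constructor <;> nlinarith [mul_self_nonneg y, mul_self_nonneg z]
  obtain ⟨h0, h1, h2, h3⟩ := caseb_num _ (b _ _ _ h) _ (b (m 1) (m 0) (m 2) (by linarith)) _
    (b (m 2) (m 0) (m 1) (by linarith)) h
  refine ⟨?_, fun i => ?_⟩
  · rcases h0 with e | e | e
    exacts [⟨0, e⟩, ⟨1, e⟩, ⟨2, e⟩]
  · fin_cases i
    exacts [h1, h2, h3]

theorem caseB_core (h : DS D) (hG : Fintype.card G = 120) (H : Subgroup G) (hH : H.index = 3)
    (α β : H →* ℤˣ) (hα : α ≠ 1) (hβ : β ≠ 1) (hαβ : α * β ≠ 1) : False := by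
  classical
  obtain ⟨t, ht⟩ := caseb_tr H hH
  have hcard : Fintype.card H = 40 := by
    have := H.card_mul_index
    rw [hH, Nat.card_eq_fintype_card, Nat.card_eq_fintype_card, hG] at this
    omega
  have hz : ∀ χ : H →* ℤˣ, χ ≠ 1 → ∀ i, (∑ d ∈ D, casebExt H χ (d * t i)) % 4 ≠ 2 := by
    intro χ hχ
    have h1 := caseb_sq h χ ht
    have h2 : ∑ k : H, ((χ k : ℤˣ) : ℤ) = 0 := by
      refine sum_hom_units_eq_zero ((Units.coeHom ℤ).comp χ) fun e => hχ ?_
      ext k
      simpa using DFunLike.congr_fun e k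
    rw [caseb_tot, h2, mul_zero, add_zero] at h1
    exact (caseb_num' _ h1).2
  have h1 := caseb_sq h 1 ht
  rw [caseb_tot] at h1
  simp only [MonoidHom.one_apply, Units.val_one, sum_const, card_univ, hcard] at h1
  have h2 : ∑ i, ∑ d ∈ D, casebExt H 1 (d * t i) = 35 := by
    rw [Finset.sum_comm, Finset.sum_congr rfl (g := fun _ => (1 : ℤ)), sum_const, h.1]
    · rfl
    · intro d _
      obtain ⟨i, hi, hj⟩ := ht d
      rw [Finset.sum_eq_single i (fun j _ hne => caseb_neg 1 (hj j hne))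
        (fun hn => absurd (mem_univ i) hn), caseb_pos 1 hi]
      rfl
  obtain ⟨i, hi⟩ := (caseb_num' (fun i => ∑ d ∈ D, casebExt H 1 (d * t i) - 10) (by
    rw [Fin.sum_univ_three] at h1 h2 ⊢
    simp only [nsmul_eq_mul] at h1
    linear_combination h1 - 20 * h2)).1
  have par : ∀ χ : H →* ℤˣ, (2 : ℤ) ∣ ∑ d ∈ D, casebExt H 1 (d * t i) -
      ∑ d ∈ D, casebExt H χ (d * t i) := by
    intro χ
    rw [← Finset.sum_sub_distrib]
    refine Finset.dvd_sum fun d _ => ?_
    by_cases hd : d * t i ∈ H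
    · rw [caseb_pos _ hd, caseb_pos _ hd]
      rcases Int.units_eq_one_or (χ ⟨_, hd⟩) with e | e <;> simp [e]
    · simp [caseb_neg _ hd]
  have four : (4 : ℤ) ∣ ∑ d ∈ D, casebExt H 1 (d * t i) + ∑ d ∈ D, casebExt H α (d * t i) +
      ∑ d ∈ D, casebExt H β (d * t i) + ∑ d ∈ D, casebExt H (α * β) (d * t i) := by
    rw [← Finset.sum_add_distrib, ← Finset.sum_add_distrib, ← Finset.sum_add_distrib]
    refine Finset.dvd_sum fun d _ => ?_
    by_cases hd : d * t i ∈ H
    · rw [caseb_pos _ hd, caseb_pos _ hd, caseb_pos _ hd, caseb_pos _ hd, MonoidHom.mul_apply]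
      rcases Int.units_eq_one_or (α ⟨_, hd⟩) with e | e <;>
        rcases Int.units_eq_one_or (β ⟨_, hd⟩) with e' | e' <;> simp [e, e']
    · simp [caseb_neg _ hd]
  have a1 := hz α hα i
  have a2 := hz β hβ i
  have a3 := hz _ hαβ i
  have b1 := par α
  have b2 := par β
  have b3 := par (α * β)
  omega

theorem caseb_sign {S : Type} [Group S] (A : Subgroup S) (h : A.index = 2) :
    ∃ α : S →* ℤˣ, (∀ g ∈ A, α g = 1) ∧ ∀ g, g ∉ A → α g = -1 := by
  classical
  refine ⟨MonoidHom.mk' (fun g => if g ∈ A then 1 else -1) fun a b => ?_, fun g hg => if_pos hg,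
    fun g hg => if_neg hg⟩
  rw [Subgroup.mul_mem_iff_of_index_two h]
  by_cases ha : a ∈ A <;> by_cases hb : b ∈ A <;> simp [ha, hb]

theorem caseb_eight {S : Type} [Group S] [Finite S] (hc : Nat.card S = 8)
    (h8 : ∀ x : S, orderOf x ≠ 8) : ∃ α β : S →* ℤˣ, α ≠ 1 ∧ β ≠ 1 ∧ α * β ≠ 1 := by
  have hidx : ∀ A : Subgroup S, Nat.card A = 2 ^ 2 → A.index = 2 ∧ ∃ x, x ∉ A := by
    intro A hA
    have h1 := A.card_mul_index
    rw [hA, hc] at h1
    have h2 : A.index = 2 := by omega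
    refine ⟨h2, ?_⟩
    by_contra hn
    push Not at hn
    rw [(Subgroup.eq_top_iff' A).2 hn, Subgroup.index_top] at h2
    omega
  have hd : 2 ^ 2 ∣ Nat.card S := by rw [hc]; norm_num
  obtain ⟨A, hA⟩ := Sylow.exists_subgroup_card_pow_prime 2 hd
  obtain ⟨iA, x, hx⟩ := hidx A hA
  have ho : orderOf x ∣ 2 ^ 3 := by
    have := orderOf_dvd_natCard x
    rwa [hc] at this
  obtain ⟨n, hn, e⟩ := (Nat.dvd_prime_pow Nat.prime_two).1 ho
  have hn2 : n ≤ 2 := by
    by_contra hlt
    have : n = 3 := by omega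
    exact h8 x (by rw [e, this]; norm_num)
  obtain ⟨B, hB, hxB⟩ := Sylow.exists_subgroup_card_pow_prime_le 2 hd (Subgroup.zpowers x)
    (by rw [Nat.card_zpowers, e]) hn2
  obtain ⟨iB, y, hy⟩ := hidx B hB
  obtain ⟨α, -, a2⟩ := caseb_sign A iA
  obtain ⟨β, b1, b2⟩ := caseb_sign B iB
  refine ⟨α, β, fun e => ?_, fun e => ?_, fun e => ?_⟩
  · have := a2 x hx
    rw [e, MonoidHom.one_apply] at this
    exact absurd this (by decide)
  · have := b2 y hy
    rw [e, MonoidHom.one_apply] at this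
    exact absurd this (by decide)
  · have := DFunLike.congr_fun e x
    rw [MonoidHom.mul_apply, a2 x hx, b1 x (hxB (Subgroup.mem_zpowers x)),
      MonoidHom.one_apply] at this
    exact absurd this (by decide)

theorem caseB (h : DS D) (hG : Fintype.card G = 120) (h8 : ∀ x : G, orderOf x ≠ 8)
    (h5 : Nat.card (Sylow 5 G) = 1) : False := by
  have : Fact (Nat.Prime 5) := ⟨by norm_num⟩
  have hG' : Nat.card G = 120 := by rw [Nat.card_eq_fintype_card, hG]
  have hsub : Subsingleton (Sylow 5 G) := (Nat.card_eq_one_iff_unique.1 h5).1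
  obtain ⟨P⟩ : Nonempty (Sylow 5 G) := inferInstance
  have hN : (P : Subgroup G).Normal := Sylow.normal_of_subsingleton P
  have hP : Nat.card (P : Subgroup G) = 5 := by
    have h1 := P.card_eq_multiplicity
    have h2 : Nat.factorization 120 5 = 1 := by decide +kernel
    rw [hG', h2] at h1
    exact h1
  have hQ : Nat.card (G ⧸ (P : Subgroup G)) = 24 := by
    have h1 := (P : Subgroup G).card_mul_index
    rw [hP, hG'] at h1
    have h2 : (P : Subgroup G).index = 24 := by omega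
    exact h2
  obtain ⟨S, hS⟩ := Sylow.exists_subgroup_card_pow_prime (G := G ⧸ (P : Subgroup G)) 2 (n := 3)
    (by rw [hQ]; norm_num)
  have hSi : S.index = 3 := by
    have h1 := S.card_mul_index
    rw [hS, hQ] at h1
    omega
  have hsur := QuotientGroup.mk'_surjective (P : Subgroup G)
  obtain ⟨α, β, h1, h2, h3⟩ := caseb_eight (S := S) hS (by
    intro y hy
    obtain ⟨x, hx⟩ := hsur y.1
    have d1 : 8 ∣ orderOf x := by
      rw [← hy, ← Subgroup.orderOf_coe, ← hx]
      exact orderOf_map_dvd _ x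
    exact h8 _ (orderOf_pow_orderOf_div (orderOf_pos x).ne' d1))
  have hφ := MonoidHom.subgroupComap_surjective_of_surjective
    (QuotientGroup.mk' (P : Subgroup G)) S hsur
  have key : ∀ γ : S →* ℤˣ, γ ≠ 1 →
      γ.comp ((QuotientGroup.mk' (P : Subgroup G)).subgroupComap S) ≠ 1 := by
    intro γ hγ e
    apply hγ
    refine MonoidHom.ext fun y => ?_
    obtain ⟨x, rfl⟩ := hφ y
    exact DFunLike.congr_fun e x
  exact caseB_core h hG (S.comap (QuotientGroup.mk' (P : Subgroup G)))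
    ((S.index_comap_of_surjective hsur).trans hSi) _ _ (key α h1) (key β h2) (key _ h3)

end PellDS
end

-- part Pool.Agent.P.MP_e9cc94_co.CaseA0
section

set_option autoImplicit false

namespace PellDS
open Finset

theorem casea0_conj {H : Type} [Group H] {x n : H} {m : ℕ} (h : x * n * x⁻¹ = n ^ m) (i k : ℕ) :
    x ^ i * n ^ k = n ^ (m ^ i * k) * x ^ i := by
  induction i generalizing k with
  | zero => simp
  | succ i ih =>
    have h1 : x * n ^ k = n ^ (m * k) * x := by
      have : x * n ^ k * x⁻¹ = n ^ (m * k) := by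
        rw [pow_mul, ← h, conj_pow]
      rw [← this]; group
    calc x ^ (i + 1) * n ^ k = x ^ i * (x * n ^ k) := by rw [pow_succ, mul_assoc]
      _ = x ^ i * n ^ (m * k) * x := by rw [h1, mul_assoc]
      _ = n ^ (m ^ i * (m * k)) * x ^ i * x := by rw [ih]
      _ = n ^ (m ^ (i + 1) * k) * x ^ (i + 1) := by
        rw [pow_succ m i, pow_succ x i, mul_assoc, mul_assoc]

theorem casea0_exp {H : Type} [Group H] [Finite H] {n : H} (hn : (Subgroup.zpowers n).Normal)
    (x : H) : ∃ m : ℕ, x * n * x⁻¹ = n ^ m := by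
  have h := hn.conj_mem n (Subgroup.mem_zpowers n) x
  rw [← mem_powers_iff_mem_zpowers] at h
  obtain ⟨m, hm⟩ := h
  exact ⟨m, hm.symm⟩

theorem casea0_mod {H : Type} [Group H] {x n : H} {m r : ℕ} (h : x * n * x⁻¹ = n ^ m)
    (hr : x ^ r = 1) : m ^ r ≡ 1 [MOD orderOf n] := by
  have h1 := casea0_conj h r 1
  rw [hr, one_mul, mul_one, mul_one] at h1
  exact (pow_eq_pow_iff_modEq.1 h1).symm

theorem casea0_cube : ∀ z : ZMod 5, z ^ 3 = 1 → z = 1 := by decide

theorem casea0_fifteen {N : Type} [Group N] [Finite N] (hN : Nat.card N = 15) :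
    ∃ n : N, orderOf n = 15 := by
  have : Fact (Nat.Prime 3) := ⟨by norm_num⟩
  have : Fact (Nat.Prime 5) := ⟨by norm_num⟩
  obtain ⟨a, ha⟩ := exists_prime_orderOf_dvd_card' (G := N) 3 (by rw [hN]; norm_num)
  obtain ⟨b, hb⟩ := exists_prime_orderOf_dvd_card' (G := N) 5 (by rw [hN]; norm_num)
  have hidx : (Subgroup.zpowers b).index = 3 := by
    have := (Subgroup.zpowers b).card_mul_index
    rw [Nat.card_zpowers, hb, hN] at this
    omega
  have hnorm : (Subgroup.zpowers b).Normal := by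
    apply Subgroup.normal_of_index_eq_minFac_card
    rw [hidx, hN]; norm_num
  obtain ⟨m, hm⟩ := casea0_exp hnorm a
  have h3 : a ^ 3 = 1 := by rw [← ha]; exact pow_orderOf_eq_one a
  have h1 := casea0_mod hm h3
  rw [hb] at h1
  have h2 : ((m : ZMod 5)) ^ 3 = 1 := by
    have := (ZMod.natCast_eq_natCast_iff _ _ _).2 h1
    push_cast at this
    exact this
  have h5 : m ≡ 1 [MOD 5] := by
    have := casea0_cube _ h2
    rw [← ZMod.natCast_eq_natCast_iff]
    simpa using this
  have h6 : b ^ m = b := by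
    have : b ^ m = b ^ 1 := pow_eq_pow_iff_modEq.2 (by rw [hb]; exact h5)
    simpa using this
  have hc : Commute a b := by
    have : a * b * a⁻¹ = b := hm.trans h6
    show a * b = b * a
    calc a * b = a * b * a⁻¹ * a := by group
      _ = b * a := by rw [this]
  refine ⟨a * b, ?_⟩
  rw [hc.orderOf_mul_eq_mul_orderOf_of_coprime (by rw [ha, hb]; norm_num), ha, hb]

theorem casea0_val {H : Type} [Group H] {n : H} {r : ℕ} [NeZero r] (hn : orderOf n = r) (k : ℕ) :
    n ^ ((k : ZMod r)).val = n ^ k := by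
  rw [ZMod.val_natCast, ← hn, pow_mod_orderOf]

theorem casea0_inj {H : Type} [Group H] {n : H} {r : ℕ} [NeZero r] (hn : orderOf n = r)
    {a b : ZMod r} (h : n ^ a.val = n ^ b.val) : a = b := by
  have h1 := pow_eq_pow_iff_modEq.1 h
  rw [hn, ← ZMod.natCast_eq_natCast_iff] at h1
  simpa using h1

variable {G : Type} [Group G] [Fintype G]

theorem casea0_normal (hG : Fintype.card G = 120) (x : G) (hx : orderOf x = 8) :
    ∃ n : G, orderOf n = 15 ∧ (Subgroup.zpowers n).Normal ∧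
      Disjoint (Subgroup.zpowers n) (Subgroup.zpowers x) := by
  have : Fact (Nat.Prime 2) := ⟨by norm_num⟩
  have hc : Nat.card G = 120 := by rw [Nat.card_eq_fintype_card, hG]
  have hfac : (Nat.card G).factorization 2 = 3 := by
    rw [hc]
    have : (120 : ℕ) = 2 ^ 3 * 15 := by norm_num
    rw [this, Nat.factorization_mul (by norm_num) (by norm_num), Nat.Prime.factorization_pow
      Nat.prime_two]
    have h15 : (15 : ℕ).factorization 2 = 0 :=
      Nat.factorization_eq_zero_of_not_dvd (by norm_num)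
    simp [h15]
  have hz : Nat.card (Subgroup.zpowers x) = 2 ^ (Nat.card G).factorization 2 := by
    rw [hfac, Nat.card_zpowers, hx]; norm_num
  let P : Sylow 2 G := Sylow.ofCard (Subgroup.zpowers x) hz
  have hmin : (Nat.card G).minFac = 2 := by rw [hc]; norm_num
  have hcyc : IsCyclic P := Subgroup.isCyclic_zpowers x
  have hcomp := IsCyclic.isComplement' hmin hcyc
  set N := (MonoidHom.transferSylow P (hcyc.normalizer_le_centralizer hmin)).ker with hNdef
  have hNn : N.Normal := MonoidHom.normal_ker _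
  have hcard := hcomp.card_mul_card
  have hP : Nat.card (P : Subgroup G) = 8 := by
    show Nat.card (Subgroup.zpowers x) = 8
    rw [Nat.card_zpowers, hx]
  have hN : Nat.card N = 15 := by
    rw [hP, hc] at hcard
    omega
  obtain ⟨n, hn⟩ := casea0_fifteen hN
  have hn' : orderOf (n : G) = 15 := by rw [Subgroup.orderOf_coe, hn]
  have heq : Subgroup.zpowers (n : G) = N := by
    apply Subgroup.eq_of_le_of_card_ge
    · exact Subgroup.zpowers_le_of_mem n.2
    · rw [Nat.card_zpowers, hn', hN]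
  refine ⟨n, hn', ?_, ?_⟩
  · rw [heq]
    exact hNn
  · rw [heq]
    exact hcomp.disjoint

theorem exists_coord (hG : Fintype.card G = 120) (x : G) (hx : orderOf x = 8) :
    ∃ (ε : ZMod 3) (μ : ZMod 5) (j : G → ZMod 8) (u : G → ZMod 3) (y : G → ZMod 5),
      Coord ε μ j u y := by
  obtain ⟨n, hn, hnn, hd⟩ := casea0_normal hG x hx
  obtain ⟨m, hm⟩ := casea0_exp hnn x
  have hx8 : x ^ 8 = 1 := by rw [← hx]; exact pow_orderOf_eq_one x
  have hm8 := casea0_mod hm hx8
  rw [hn] at hm8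
  have hm15 : (m : ZMod 15) ^ 8 = 1 := by
    have := (ZMod.natCast_eq_natCast_iff _ _ _).2 hm8
    push_cast at this
    exact this
  let Φ : ZMod 8 × ZMod 15 → G := fun z => n ^ z.2.val * x ^ z.1.val
  have hinj : Function.Injective Φ := by
    rintro ⟨i, k⟩ ⟨i', k'⟩ h
    have h1 : n ^ k.val * x ^ i.val = n ^ k'.val * x ^ i'.val := h
    have h2 : (n ^ k'.val)⁻¹ * n ^ k.val = x ^ i'.val * (x ^ i.val)⁻¹ := by
      calc (n ^ k'.val)⁻¹ * n ^ k.val
          = (n ^ k'.val)⁻¹ * (n ^ k.val * x ^ i.val) * (x ^ i.val)⁻¹ := by group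
        _ = x ^ i'.val * (x ^ i.val)⁻¹ := by rw [h1]; group
    have hA : (n ^ k'.val)⁻¹ * n ^ k.val ∈ Subgroup.zpowers n :=
      Subgroup.mul_mem _ (Subgroup.inv_mem _ (Subgroup.npow_mem_zpowers n _))
        (Subgroup.npow_mem_zpowers n _)
    have hB : (n ^ k'.val)⁻¹ * n ^ k.val ∈ Subgroup.zpowers x := by
      rw [h2]
      exact Subgroup.mul_mem _ (Subgroup.npow_mem_zpowers x _)
        (Subgroup.inv_mem _ (Subgroup.npow_mem_zpowers x _))
    have h3 : (n ^ k'.val)⁻¹ * n ^ k.val = 1 := Subgroup.disjoint_def.1 hd hA hB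
    have h4 : n ^ k.val = n ^ k'.val := (inv_mul_eq_one.1 h3).symm
    have h5 : x ^ i.val = x ^ i'.val := by
      rw [h4] at h1
      exact mul_left_cancel h1
    rw [casea0_inj hn h4, casea0_inj hx h5]
  have hbij : Function.Bijective Φ := by
    rw [Fintype.bijective_iff_injective_and_card]
    refine ⟨hinj, ?_⟩
    rw [hG]; simp
  have hmul : ∀ z w : ZMod 8 × ZMod 15,
      Φ z * Φ w = Φ (z.1 + w.1, z.2 + (m : ZMod 15) ^ z.1.val * w.2) := by
    rintro ⟨i, k⟩ ⟨i', k'⟩
    show n ^ k.val * x ^ i.val * (n ^ k'.val * x ^ i'.val) =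
      n ^ (k + (m : ZMod 15) ^ i.val * k').val * x ^ (i + i').val
    have e1 : k + (m : ZMod 15) ^ i.val * k' = ((k.val + m ^ i.val * k'.val : ℕ) : ZMod 15) := by
      push_cast
      simp
    have e2 : i + i' = ((i.val + i'.val : ℕ) : ZMod 8) := by
      push_cast
      simp
    rw [e1, e2, casea0_val hn, casea0_val hx, pow_add, pow_add]
    calc n ^ k.val * x ^ i.val * (n ^ k'.val * x ^ i'.val)
        = n ^ k.val * (x ^ i.val * n ^ k'.val) * x ^ i'.val := by group
      _ = _ := by rw [casea0_conj hm]; group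
  let E := Equiv.ofBijective Φ hbij
  have hΨ : ∀ g h : G, E.symm (g * h) =
      ((E.symm g).1 + (E.symm h).1,
        (E.symm g).2 + (m : ZMod 15) ^ (E.symm g).1.val * (E.symm h).2) := by
    intro g h
    rw [Equiv.symm_apply_eq]
    show g * h = Φ _
    rw [← hmul]
    have a1 : Φ (E.symm g) = g := E.apply_symm_apply g
    have a2 : Φ (E.symm h) = h := E.apply_symm_apply h
    rw [a1, a2]
  let c3 : ZMod 15 →+* ZMod 3 := ZMod.castHom (by norm_num : 3 ∣ 15) (ZMod 3)
  let c5 : ZMod 15 →+* ZMod 5 := ZMod.castHom (by norm_num : 5 ∣ 15) (ZMod 5)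
  refine ⟨c3 m, c5 m, fun g => (E.symm g).1, fun g => c3 (E.symm g).2,
    fun g => c5 (E.symm g).2, ?_, ?_, ?_, ?_, ?_, ?_⟩
  · intro h0
    have := congrArg c3 hm15
    rw [map_pow, h0, map_one] at this
    revert this; decide
  · intro h0
    have := congrArg c5 hm15
    rw [map_pow, h0, map_one] at this
    revert this; decide
  · intro g h; rw [hΨ]
  · intro g h; simp only [hΨ, map_add, map_mul, map_pow]
  · intro g h; simp only [hΨ, map_add, map_mul, map_pow]
  · have hcrt : ∀ a b : ZMod 15, c3 a = c3 b → c5 a = c5 b → a = b := by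
      decide +kernel
    rw [Fintype.bijective_iff_injective_and_card]
    refine ⟨?_, by rw [hG]; simp⟩
    intro g h e
    simp only [Prod.mk.injEq] at e
    apply E.symm.injective
    exact Prod.ext e.1 (hcrt _ _ e.2.1 e.2.2)

end PellDS
end
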