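import Pool.Agent.K.MP_e9cc94_co.C14
import Pool.Agent.K.MP_e9cc94_co.C4
import Pool.Agent.K.MP_e9cc94_co.C5
import Pool.Agent.K.MP_e9cc94_co.C9
import Pool.Agent.K.MP_e9cc94_co.C11
import Pool.Agent.K.MP_e9cc94_co.C13

-- part Pool.Agent.P.MP_e9cc94_co.CaseC2
section

set_option autoImplicit false

namespace PellDS
open Finset Matrix

variable {G : Type} [Group G] {π : G →* Equiv.Perm (Fin 6)}

/-- the signed matrix of a subset -/
def casec2_N (π : G →* Equiv.Perm (Fin 6)) (D : Finset G) : Matrix (Fin 6) (Fin 6) ℤ :=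
  ∑ d ∈ D, mono (fun g i => π g i) (fun g i => sig (π g) i) d

theorem casec2_comm (hπ : Act π) (hev : ∀ g, sg (π g) = 1) (g : G) :
    mono (fun g i => π g i) (fun g i => sig (π g) i) g * SS =
      SS * mono (fun g i => π g i) (fun g i => sig (π g) i) g := by
  ext i l
  obtain ⟨k, rfl⟩ := (π g).surjective i
  simp only [mono, Matrix.mul_apply, Matrix.of_apply]
  rw [Finset.sum_eq_single k, Finset.sum_eq_single (π g l)]
  · rw [if_pos rfl, if_pos rfl, sig_SS _ (hπ.mem g) (hev g)]
    linear_combination (-(sig (π g) k * SS k l)) * sig_sq (π g) l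
  · intro b _ hb; rw [if_neg (Ne.symm hb), mul_zero]
  · simp
  · intro b _ hb; rw [if_neg (fun e => hb ((π g).injective e)), zero_mul]
  · simp

theorem casec2_gram [Fintype G] [DecidableEq G] {D : Finset G} (h : DS D) (hπ : Act π)
    (hev : ∀ g, sg (π g) = 1) (i i' : Fin 6) :
    ∑ k, casec2_N π D i k * casec2_N π D i' k = if i = i' then 25 else 0 := by
  have h1 := (hπ.monoSig hev).gram_apply h i i'
  rw [hπ.totSig hev] at h1
  simpa [casec2_N] using h1

theorem casec2_SS [Fintype G] [DecidableEq G] {D : Finset G} (h : DS D) (hπ : Act π)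
    (hev : ∀ g, sg (π g) = 1) (i i' : Fin 6) :
    ∑ k, ∑ l, casec2_N π D i k * SS k l * casec2_N π D i' l = 25 * SS i i' := by
  have h1 : casec2_N π D * SS = SS * casec2_N π D := by
    unfold casec2_N
    rw [Finset.sum_mul, Finset.mul_sum]
    exact Finset.sum_congr rfl fun d _ => casec2_comm hπ hev d
  have h2 : casec2_N π D * (casec2_N π D)ᵀ = 25 • 1 := by
    have := (hπ.monoSig hev).gram h
    rw [hπ.totSig hev, smul_zero, add_zero] at this
    exact this
  have h3 : casec2_N π D * SS * (casec2_N π D)ᵀ = 25 • SS := by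
    rw [h1, Matrix.mul_assoc, h2, Matrix.mul_smul, Matrix.mul_one]
  have h4 := congrFun (congrFun h3 i) i'
  simp only [Matrix.mul_apply, Matrix.transpose_apply, Finset.sum_mul, Matrix.smul_apply,
    nsmul_eq_mul, Nat.cast_ofNat] at h4
  rw [Finset.sum_comm]
  exact h4

theorem casec2_odd (p : Fin 6 → Fin 6) (x : Fin 6) (a : ℤ) : Odd (a * sig p x) ↔ Odd a := by
  unfold sig
  split_ifs <;> simp

theorem casec2_right [DecidableEq G] (hπ : Act π) (hev : ∀ g, sg (π g) = 1) (D : Finset G) (g : G)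
    (i k : Fin 6) :
    Odd (casec2_N π (D.image fun d => 1 * d * g) i k) ↔ Odd (casec2_N π D i (π g k)) := by
  unfold casec2_N
  rw [(hπ.monoSig hev).sum_right, casec2_odd]

theorem casec2_four : ∀ p ∈ L120, sg p = 1 →
    (∑ i, ((if p i = G0 i then 1 else 0) - sig G0 i * if p i = G0 i then sig p i else 0)) % 4 = 0 :=
  allL (by decide +kernel)

theorem casec2_end [Fintype G] [DecidableEq G] {D : Finset G} (h : DS D)
    (hG : Fintype.card G = 120) (hπ : Act π) (hev : ∀ g, sg (π g) = 1)
    (hp : ∀ i k, Odd (casec2_N π D i k) ↔ i = k) (h4 : (∑ i, casec2_N π D (G0 i) i) % 4 = 0) :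
    False := by
  have h1 := c2_C (∑ d ∈ D, mono (fun g i => π g i) (fun _ _ => 1) d)
    (fun i i' => by
      have := (mono6 π).gram_apply h i i'
      rw [hπ.tot6 hG] at this
      simpa using this)
    (fun i => by
      have := (mono6 π).row (s := fun _ => 1) D i
      rw [this, Finset.sum_const, h.1]
      rfl)
    (fun i k => by
      have := mono_parity (fun g i => π g i) (fun g i => sig (π g) i) (fun _ _ => sig_sq _ _) D i k
      rw [← hp, Int.odd_iff, Int.odd_iff]
      unfold casec2_N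
      unfold Int.ModEq at this
      rw [this])
  have h2 : (4 : ℤ) ∣ ∑ i, ((∑ d ∈ D, mono (fun g i => π g i) (fun _ _ => 1) d) (G0 i) i -
      sig G0 i * casec2_N π D (G0 i) i) := by
    unfold casec2_N
    simp only [Matrix.sum_apply, Finset.mul_sum, ← Finset.sum_sub_distrib]
    rw [Finset.sum_comm]
    refine Finset.dvd_sum fun d _ => Int.dvd_of_emod_eq_zero ?_
    simp only [mono, Matrix.of_apply]
    exact casec2_four _ (hπ.mem d) (hev d)
  have h3 : (4 : ℤ) ∣ ∑ i, (sig G0 i * casec2_N π D (G0 i) i - casec2_N π D (G0 i) i) := by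
    refine Finset.dvd_sum fun i _ => ?_
    have h5 : G0 i ≠ i := by revert i; decide
    have h6 := mt (hp (G0 i) i).1 h5
    rw [Int.odd_iff] at h6
    unfold sig
    split_ifs <;> omega
  rw [Finset.sum_sub_distrib] at h2 h3
  omega

theorem caseC2 [Fintype G] [DecidableEq G] {D : Finset G} (h : DS D) (hG : Fintype.card G = 120)
    (hπ : Act π) (hev : ∀ g, sg (π g) = 1) : False := by
  have hrow : ∀ i, ∃ k, ∀ l, Odd (casec2_N π D i l) ↔ l = k := fun i =>
    c2_row _ (by rw [casec2_gram h hπ hev, if_pos rfl])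
      (by
        rw [casec2_SS h hπ hev]
        have : SS i i = 0 := by revert i; decide
        rw [this, mul_zero])
  obtain ⟨k5, h5⟩ := hrow 5
  obtain ⟨k0, h0⟩ := hrow 0
  have hne : k5 ≠ k0 := by
    rintro rfl
    have h1 := casec2_gram h hπ hev 5 0
    rw [if_neg (by decide), ← Finset.add_sum_erase _ _ (mem_univ k5)] at h1
    have h2 : Odd (casec2_N π D 5 k5 * casec2_N π D 0 k5) := ((h5 _).2 rfl).mul ((h0 _).2 rfl)
    have h3 : Even (∑ k ∈ univ.erase k5, casec2_N π D 5 k * casec2_N π D 0 k) :=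
      Finset.even_sum _ fun k hk =>
        (Int.not_odd_iff_even.1 (mt (h5 k).1 (ne_of_mem_erase hk))).mul_right _
    have h4 := h2.add_even h3
    rw [h1] at h4
    exact absurd h4 (by decide)
  obtain ⟨p, hp, hs, e5, e0⟩ := even_tr66 k5 k0 hne
  obtain ⟨g, rfl⟩ := hπ.surj hp hs
  have hD := h.translate 1 g
  have o5 := (casec2_right hπ hev D g 5 5).2 ((h5 _).2 e5)
  have o0 := (casec2_right hπ hev D g 0 0).2 ((h0 _).2 e0)
  generalize D.image (fun d => 1 * d * g) = E at hD o5 o0
  rcases c2_D _ (casec2_gram hD hπ hev) (casec2_SS hD hπ hev) o5 o0 with ⟨h1, h2⟩ | ⟨h1, h2⟩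
  · exact casec2_end hD hG hπ hev h1 h2
  · have hq : (![0,4,3,2,1,5] : Fin 6 → Fin 6) ∈ L120 ∧ sg ![0,4,3,2,1,5] = 1 := by
      decide +kernel
    obtain ⟨t, ht⟩ := hπ.surj hq.1 hq.2
    have hE := hD.translate 1 t
    have q5 := (casec2_right hπ hev E t 5 5).2 (by rw [ht]; exact o5)
    have q0 := (casec2_right hπ hev E t 0 0).2 (by rw [ht]; exact o0)
    have q1 := (casec2_right hπ hev E t 1 1).2 (by rw [ht]; exact h1)
    rcases c2_D _ (casec2_gram hE hπ hev) (casec2_SS hE hπ hev) q5 q0 with ⟨h3, h4⟩ | ⟨-, h4⟩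
    · exact casec2_end hE hG hπ hev h3 h4
    · exact Int.not_odd_iff_even.2 h4 q1

end PellDS
end

-- part Pool.Agent.P.MP_e9cc94_co.Main
section

set_option autoImplicit false

namespace PellDS
open Finset

variable {G : Type} [Group G] [Fintype G] [DecidableEq G] {D : Finset G}

theorem no_DS (h : DS D) (hG : Fintype.card G = 120) : False := by
  by_cases h8 : ∃ x : G, orderOf x = 8
  · obtain ⟨x, hx⟩ := h8
    obtain ⟨ε, μ, j, u, y, c⟩ := exists_coord hG x hx
    have hμ : ∀ μ : ZMod 5, μ ≠ 0 → μ * μ = 1 ∨ μ = 2 ∨ μ = 3 := by decide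
    rcases hμ μ c.hm with e | rfl | rfl
    · exact caseA1 h c e
    · exact caseA2 h c
    · exact caseA2 h c.flip
  · have : Fact (Nat.Prime 5) := ⟨by norm_num⟩
    have hc : Nat.card G = 120 := by rw [Nat.card_eq_fintype_card, hG]
    obtain ⟨P⟩ : Nonempty (Sylow 5 G) := inferInstance
    have h1 : Nat.card (Sylow 5 G) ≡ 1 [MOD 5] := card_sylow_modEq_one 5 G
    have h2 : Nat.card (Sylow 5 G) ∣ (P : Subgroup G).index := P.card_dvd_index
    have h3 : Nat.card P = 5 := by
      rw [P.card_eq_multiplicity, hc]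
      have : Nat.factorization 120 5 = 1 := by
        rw [show (120 : ℕ) = 5 * 24 from rfl, Nat.factorization_mul (by norm_num) (by norm_num)]
        simp [Nat.Prime.factorization_self this.out, Nat.factorization_eq_zero_of_not_dvd]
      rw [this]; rfl
    have h4 : (P : Subgroup G).index = 24 := by
      have := (P : Subgroup G).card_mul_index
      rw [hc, h3] at this; omega
    rw [h4] at h2
    have h5 : Nat.card (Sylow 5 G) = 1 ∨ Nat.card (Sylow 5 G) = 6 := by
      have h6 := Nat.le_of_dvd (by norm_num) h2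
      generalize Nat.card (Sylow 5 G) = n at h1 h2 h6
      unfold Nat.ModEq at h1
      interval_cases n <;> simp_all
    rcases h5 with h5 | h5
    · exact caseB h hG (fun x hx => h8 ⟨x, hx⟩) h5
    · obtain ⟨π, hπ⟩ := exists_act hG h5
      by_cases ho : ∃ g, sg (π g) = -1
      · exact caseC1 h hG hπ ho
      · refine caseC2 h hG hπ fun g => ?_
        rcases Int.eq_one_or_neg_one_of_mul_eq_one (sg_sq (π g)) with e | e
        · exact e
        · exact absurd ⟨g, e⟩ ho

/-- counting pairs -/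
theorem count_pairs (D : Finset G) (lam : ℕ)
    (h : ∀ g : G, g ≠ 1 → ((D ×ˢ D).filter (fun p : G × G => p.1 * p.2⁻¹ = g)).card = lam) :
    D.card * D.card + lam = D.card + Fintype.card G * lam := by
  have h1 := sum_fiber D (fun _ => (1 : ℕ))
  simp only [sum_const, smul_eq_mul, mul_one] at h1
  rw [h1, ← Finset.add_sum_erase _ _ (mem_univ (1 : G)), card_diag,
    Finset.sum_congr rfl (g := fun _ => lam) fun g hg => h g (mem_erase.1 hg).1]
  rw [sum_const, card_erase_of_mem (mem_univ _), card_univ, smul_eq_mul]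
  have : 0 < Fintype.card G := Fintype.card_pos
  obtain ⟨n, hn⟩ : ∃ n, Fintype.card G = n + 1 := ⟨Fintype.card G - 1, by omega⟩
  rw [hn]; simp; ring

def rootNear (lam : ℕ) : Bool :=
  (List.range 4).any fun s =>
    let r := lam * 28284271 / 10000000 - s
    decide (r * r < 8 * lam * lam + 1 - 4 * lam ∧ 8 * lam * lam + 1 - 4 * lam < (r + 1) * (r + 1))

theorem pell_check : (List.range 2030).all (fun lam => decide (lam ≤ 2) || decide (lam = 60) ||
    rootNear lam) = true := by decide +kernel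

theorem pell_arith (k lam : ℕ) (h : k * k + lam = k + 2 * lam * lam) (h2 : 2 < lam)
    (h3 : lam < 2030) : lam = 60 ∧ k = 85 := by
  have h4 := List.all_eq_true.1 pell_check lam (List.mem_range.2 h3)
  have hk : 1 ≤ k := by
    rcases Nat.eq_zero_or_pos k with rfl | hk
    · nlinarith
    · exact hk
  obtain ⟨m, rfl⟩ : ∃ m, k = m + 1 := ⟨k - 1, by omega⟩
  have hs : 8 * lam * lam + 1 - 4 * lam = (2 * m + 1) * (2 * m + 1) := by
    apply Nat.sub_eq_of_eq_add; nlinarith
  simp only [Bool.or_eq_true, decide_eq_true_eq] at h4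
  rcases h4 with (h4 | rfl) | h4
  · omega
  · refine ⟨rfl, ?_⟩
    have : (2 * m + 1) * (2 * m + 1) = 169 * 169 := by omega
    have := Nat.mul_self_inj.1 this
    omega
  · exfalso
    simp only [rootNear, List.any_eq_true, decide_eq_true_eq, hs] at h4
    obtain ⟨s, -, h5, h6⟩ := h4
    have h7 := Nat.mul_self_lt_mul_self_iff.1 h5
    have h8 := Nat.mul_self_lt_mul_self_iff.1 h6
    omega

/-- the complement of a (120,85,60) difference set -/
theorem compl_DS (D : Finset G) (hG : Fintype.card G = 120) (hk : D.card = 85)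
    (h : ∀ g : G, g ≠ 1 → ((D ×ˢ D).filter (fun p : G × G => p.1 * p.2⁻¹ = g)).card = 60) :
    DS Dᶜ := by
  refine ⟨by rw [card_compl, hG, hk], fun g hg => ?_⟩
  have key : ∀ E : Finset G, ((E ×ˢ E).filter (fun p : G × G => p.1 * p.2⁻¹ = g)).card =
      (E ∩ E.image (fun e => g * e * 1)).card := by
    intro E
    refine Finset.card_bij (fun p _ => p.1) ?_ ?_ ?_
    · rintro ⟨a, b⟩ hp
      simp only [mem_filter, mem_product] at hp
      simp only [mem_inter, mem_image]
      exact ⟨hp.1.1, b, hp.1.2, by rw [← hp.2]; group⟩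
    · rintro ⟨a, b⟩ hp ⟨c, d⟩ hq e
      simp only [mem_filter, mem_product] at hp hq e
      subst e
      have : a * b⁻¹ = a * d⁻¹ := hp.2.trans hq.2.symm
      simp only [mul_right_inj, inv_inj] at this
      rw [this]
    · intro a ha
      simp only [mem_inter, mem_image] at ha
      obtain ⟨ha, b, hb, e⟩ := ha
      exact ⟨(a, b), by simp only [mem_filter, mem_product]; exact ⟨⟨ha, hb⟩, by rw [← e]; group⟩,
        rfl⟩
  have h1 := h g hg
  rw [key] at h1 ⊢
  have h2 : (Dᶜ).image (fun e => g * e * 1) = (D.image (fun e => g * e * 1))ᶜ := by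
    ext x
    simp only [mem_image, mem_compl, mul_one]
    constructor
    · rintro ⟨a, ha, rfl⟩ ⟨b, hb, e⟩
      exact ha (mul_left_cancel e ▸ hb)
    · intro hx
      exact ⟨g⁻¹ * x, fun hh => hx ⟨_, hh, by group⟩, by group⟩
  rw [h2, ← compl_union, card_compl, hG]
  have h3 := card_union_add_card_inter D (D.image (fun e => g * e * 1))
  rw [card_image_of_injective _ (tr_inj g 1), hk, h1] at h3
  omega

theorem main (D : Finset G) (lam : ℕ) (h4 : 4 < Fintype.card G) (hv : Fintype.card G = 2 * lam)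
    (h : ∀ g : G, g ≠ 1 → ((D ×ˢ D).filter (fun p : G × G => p.1 * p.2⁻¹ = g)).card = lam) :
    4060 ≤ Fintype.card G := by
  by_contra hlt
  have h1 := count_pairs D lam h
  rw [hv] at h1
  obtain ⟨rfl, hk⟩ := pell_arith D.card lam h1 (by omega) (by omega)
  exact no_DS (compl_DS D hv hk h) hv

end PellDS
end
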