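import Mathlib

-- part Pool.Agent.P.MP_e9cc94_co.PlA
section

set_option autoImplicit false

/-! Divisibility by powers of a regular element `π` whose residue ring satisfies `y ^ q = y`. -/

namespace Pool.Agent.P.MP_e9cc94_co.Pl

variable {R : Type*} [CommRing R] {π : R}

theorem cancel_unit (c x : R) (j : ℕ) (h : π ^ j ∣ (1 + π * c) * x) : π ^ j ∣ x := by
  have h1 : (1 + π * c) ∣ 1 - (-(π * c)) ^ j := by
    have := one_sub_dvd_one_sub_pow (-(π * c)) j
    rwa [sub_neg_eq_add] at this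
  obtain ⟨d, hd⟩ := h1
  have h2 : x = d * ((1 + π * c) * x) + (-(π * c)) ^ j * x := by
    linear_combination x * hd
  rw [h2]
  refine dvd_add (h.mul_left d) (Dvd.dvd.mul_right ?_ x)
  rw [show -(π * c) = π * (-c) by ring, mul_pow]
  exact dvd_mul_right _ _

theorem reg_pow (hreg : ∀ x : R, π * x = 0 → x = 0) (j : ℕ) (x : R) (h : π ^ j * x = 0) :
    x = 0 := by
  induction j with
  | zero => simpa using h
  | succ j ih => exact ih (hreg _ (by rw [← h]; ring))

theorem dvd_cancel (hreg : ∀ x : R, π * x = 0 → x = 0) (j : ℕ) (x : R)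
    (h : π ^ (j + 1) ∣ π * x) : π ^ j ∣ x := by
  obtain ⟨c, hc⟩ := h
  exact ⟨c, sub_eq_zero.1 (hreg _ (by rw [mul_sub, hc]; ring))⟩

/-- an endomorphism that is the identity modulo `π` keeps all `π`-adic valuations -/
theorem lemA (hreg : ∀ x : R, π * x = 0 → x = 0) {q : ℕ} (hF : ∀ y : R, π ∣ y ^ (q + 2) - y)
    (σ : R →+* R) (hσ : ∀ y, π ∣ σ y - y) :
    ∀ (j : ℕ) (y y' : R), π ^ j ∣ y * y' → π ^ j ∣ σ y * y' := by
  intro j
  induction j with
  | zero => intro y y' _; simp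
  | succ j ih =>
    intro y y' h
    obtain ⟨y1, hy1⟩ := hF y
    obtain ⟨c, hc⟩ := hσ (1 - y ^ (q + 1))
    obtain ⟨t, ht⟩ := hσ π
    have e1 : π ^ j ∣ y1 * y' := by
      refine dvd_cancel hreg j _ ?_
      rw [show π * (y1 * y') = (y ^ (q + 1) - 1) * (y * y') by linear_combination (-y') * hy1]
      exact h.mul_left _
    have e2 := ih _ _ e1
    have e3 : σ y * σ (1 - y ^ (q + 1)) = -(σ π * σ y1) := by
      rw [← map_mul, ← map_mul, ← map_neg]
      congr 1
      linear_combination -hy1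
    refine cancel_unit c _ _ ?_
    have e4 : (1 + π * c) * (σ y * y') =
        -(1 + t) * (π * (σ y1 * y')) + σ y * y ^ q * (y * y') := by
      linear_combination (-(σ y * y')) * hc + y' * e3 - σ y1 * y' * ht
    rw [e4]
    refine dvd_add (Dvd.dvd.mul_left ?_ _) (h.mul_left _)
    rw [pow_succ']
    exact mul_dvd_mul_left π e2

theorem lemA' {q : ℕ} (hF : ∀ y : R, π ∣ y ^ (q + 2) - y) (j : ℕ) (y y2 y' : R)
    (h : π ^ j ∣ y * y') (h2 : π ∣ y2 - y) : π ^ j ∣ (y2 ^ (q + 1)) ^ j * y' := by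
  have e1 : π ∣ y2 ^ (q + 1) * (1 - y ^ (q + 1)) := by
    have a1 : π ∣ y2 ^ (q + 1) - y ^ (q + 1) := h2.trans (sub_dvd_pow_sub_pow _ _ _)
    rw [show y2 ^ (q + 1) * (1 - y ^ (q + 1)) = (y2 ^ (q + 1) - y ^ (q + 1)) * (1 - y ^ (q + 1))
      - y ^ q * (y ^ (q + 2) - y) by ring]
    exact dvd_sub (a1.mul_right _) ((hF y).mul_left _)
  obtain ⟨d, hd⟩ := one_sub_dvd_one_sub_pow (1 - y ^ (q + 1)) j
  have e2 : (y2 ^ (q + 1)) ^ j * y' = (y2 ^ (q + 1) * (1 - y ^ (q + 1))) ^ j * y'
      + (y2 ^ (q + 1)) ^ j * y ^ q * d * (y * y') := by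
    rw [mul_pow]
    linear_combination ((y2 ^ (q + 1)) ^ j * y') * hd
  rw [e2]
  exact dvd_add ((pow_dvd_pow_of_dvd e1 j).mul_right _) (h.mul_left _)

theorem pi_pow (hreg : ∀ x : R, π * x = 0 → x = 0) {p : ℕ} (hp : p.Prime) (hodd : Odd p)
    (hz : (1 - π) ^ p = 1) : ∃ r : R, π ^ (p - 1) = -(p : R) * (1 + π * r) := by
  have h := add_pow_prime_eq hp (-π) 1
  have h1 : (1 : ℕ) ∈ Finset.Ioo 0 p := by simpa using hp.one_lt
  rw [← Finset.add_sum_erase _ _ h1] at h
  have h2 : π ∣ ∑ k ∈ (Finset.Ioo 0 p).erase 1,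
      (-π) ^ (k - 1) * 1 ^ (p - k - 1) * ((p.choose k / p : ℕ) : R) := by
    refine Finset.dvd_sum fun k hk => ?_
    simp only [Finset.mem_erase, Finset.mem_Ioo] at hk
    refine Dvd.dvd.mul_right (Dvd.dvd.mul_right ?_ _) _
    exact (dvd_neg.2 dvd_rfl).trans (dvd_pow_self _ (by omega))
  obtain ⟨r, hr⟩ := h2
  rw [hr, show -π + 1 = 1 - π by ring, hz, hodd.neg_pow, Nat.choose_one_right,
    Nat.div_self hp.pos] at h
  refine ⟨r, sub_eq_zero.1 (hreg _ ?_)⟩
  have h3 : π ^ p = π * π ^ (p - 1) := by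
    rw [← pow_succ']; congr 1; have := hp.pos; omega
  rw [h3] at h
  simp only [Nat.sub_self, pow_zero, one_pow, Nat.cast_one, mul_one] at h
  linear_combination h

theorem pi_dvd_p (hreg : ∀ x : R, π * x = 0 → x = 0) {p : ℕ} (hp : p.Prime) (hodd : Odd p)
    (hz : (1 - π) ^ p = 1) : π ^ (p - 1) ∣ (p : R) ∧ (p : R) ∣ π ^ (p - 1) := by
  obtain ⟨r, hr⟩ := pi_pow hreg hp hodd hz
  refine ⟨cancel_unit r _ _ ⟨-1, by linear_combination hr⟩, ⟨-(1 + π * r), by linear_combination hr⟩⟩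

theorem thmA (hreg : ∀ x : R, π * x = 0 → x = 0) {p : ℕ} (hp : p.Prime) (hodd : Odd p)
    (hz : (1 - π) ^ p = 1) {q : ℕ} (hF : ∀ y : R, π ∣ y ^ (q + 2) - y)
    (σ : R →+* R) (hσ : ∀ y, π ∣ σ y - y) (D D' : R) (h : (p : R) ^ 2 ∣ D * D') :
    (p : R) ^ 2 ∣ σ D * D' := by
  obtain ⟨h1, h2⟩ := pi_dvd_p hreg hp hodd hz
  have e := lemA hreg hF σ hσ ((p - 1) * 2) D D'
    (by rw [pow_mul]; exact (pow_dvd_pow_of_dvd h1 2).trans h)
  rw [pow_mul] at e
  exact (pow_dvd_pow_of_dvd h2 2).trans e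

theorem dvd_of_coprime {p : ℕ} (hπ : π ∣ (p : R)) (n : ℤ) (hn : IsCoprime n (p : ℤ)) (y : R)
    (h : π ∣ (n : R) * y) : π ∣ y := by
  obtain ⟨a, b, hab⟩ := hn
  have e : (a : R) * n + b * p = 1 := by exact_mod_cast congrArg (Int.cast : ℤ → R) hab
  rw [show y = a * ((n : R) * y) + b * y * p by linear_combination (-y) * e]
  exact dvd_add (h.mul_left _) (hπ.mul_left _)

/-- valuations of an eigenvector with eigenvalue one are multiples of `p - 1` -/
theorem lemB (hreg : ∀ x : R, π * x = 0 → x = 0) {p : ℕ} (hπ : π ∣ (p : R))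
    (σ : R →+* R) (hσ : ∀ y, π ∣ σ y - y) {r : ℕ} (hσz : σ (1 - π) = (1 - π) ^ r)
    (hr : ∀ i, 0 < i → i < p - 1 → IsCoprime ((r : ℤ) ^ i - 1) (p : ℤ))
    (μ : ℤ) (hμ : IsCoprime μ (p : ℤ)) (y X : R) (hy : (μ : R) * σ y = X * y) (hX : π ∣ X - μ)
    (h1 : π ∣ y) : ∀ i, i ≤ p - 1 → π ^ i ∣ y := by
  set τ : R := ∑ i ∈ Finset.range r, (1 - π) ^ i with hτ
  have hστ : σ π = π * τ := by
    have a := mul_neg_geom_sum (1 - π) r
    rw [map_sub, map_one] at hσz
    linear_combination -hσz - a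
  have hτr : π ∣ τ - r := by
    have : τ - r = ∑ i ∈ Finset.range r, ((1 - π) ^ i - 1) := by
      simp [hτ, Finset.sum_sub_distrib]
    rw [this]
    refine Finset.dvd_sum fun i _ => ?_
    have a := sub_dvd_pow_sub_pow (1 - π) 1 i
    rw [one_pow, show (1 - π) - 1 = -π by ring, neg_dvd] at a
    exact a
  intro i
  induction i with
  | zero => intro _; simp
  | succ i ih =>
    intro hi
    rcases Nat.eq_zero_or_pos i with rfl | hi0
    · simpa using h1
    obtain ⟨w, hw⟩ := ih (by omega)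
    have e1 : (μ : R) * τ ^ i * σ w = X * w := by
      refine sub_eq_zero.1 (reg_pow hreg i _ ?_)
      rw [hw, map_mul, map_pow, hστ, mul_pow] at hy
      linear_combination hy
    have e2 : π ∣ τ ^ i - (r : R) ^ i := hτr.trans (sub_dvd_pow_sub_pow _ _ _)
    have e3 : π ∣ ((μ * ((r : ℤ) ^ i - 1) : ℤ) : R) * w := by
      have : ((μ * ((r : ℤ) ^ i - 1) : ℤ) : R) * w =
          (X - μ) * w - μ * τ ^ i * (σ w - w) - μ * w * (τ ^ i - (r : R) ^ i) := by
        push_cast
        linear_combination e1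
      rw [this]
      exact dvd_sub (dvd_sub (hX.mul_right _) ((hσ w).mul_left _)) (e2.mul_left _)
    have e4 := dvd_of_coprime hπ _ (hμ.mul_left (hr i hi0 (by omega))) w e3
    rw [hw, pow_succ]
    exact mul_dvd_mul_left _ e4

theorem thmB (hreg : ∀ x : R, π * x = 0 → x = 0) {p : ℕ} (hp : p.Prime) (hodd : Odd p)
    (hz : (1 - π) ^ p = 1) {q : ℕ} (hF : ∀ y : R, π ∣ y ^ (q + 2) - y)
    (σ : R →+* R) (hσ : ∀ y, π ∣ σ y - y) {r : ℕ} (hσz : σ (1 - π) = (1 - π) ^ r)
    (hr : ∀ i, 0 < i → i < p - 1 → IsCoprime ((r : ℤ) ^ i - 1) (p : ℤ))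
    (μ : ℤ) (hμ : IsCoprime μ (p : ℤ)) (D D' E E' X H : R) (hy : (μ : R) * σ D = X * D)
    (hX : π ∣ X - μ) (hD : (p : R) ^ 2 ∣ D * D') (hE : σ E = E) (hED : π ∣ E - D)
    (hED' : π ∣ E' - D') (hE' : (p : R) ∣ E' ^ (q + 2) - E') (hH : (p : R) ^ 2 ∣ H * (E * E')) :
    (p : R) ^ 2 ∣ H * D * E' := by
  obtain ⟨h1, h2⟩ := pi_dvd_p hreg hp hodd hz
  have hπ : π ∣ (p : R) := (dvd_pow_self π (by have := hp.two_le; omega)).trans h1
  have a1 : (p : R) ∣ D * (1 - E ^ (q + 1)) := by
    refine h2.trans (lemB hreg hπ σ hσ hσz hr μ hμ _ X ?_ hX ?_ _ le_rfl)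
    · rw [map_mul, map_sub, map_one, map_pow, hE]
      linear_combination (1 - E ^ (q + 1)) * hy
    · rw [show D * (1 - E ^ (q + 1)) = -((E - D) * (1 - E ^ (q + 1))) - (E ^ (q + 2) - E) by ring]
      exact dvd_sub (dvd_neg.2 (hED.mul_right _)) (hF E)
  have a2 : (p : R) ^ 2 ∣ (E' ^ (q + 1)) ^ ((p - 1) * 2) * D := by
    have b := lemA' hF ((p - 1) * 2) D' E' D
      (by rw [pow_mul, mul_comm D' D]; exact (pow_dvd_pow_of_dvd h1 2).trans hD) hED'
    rw [pow_mul π] at b
    exact (pow_dvd_pow_of_dvd h2 2).trans b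
  obtain ⟨d, hd⟩ := one_sub_dvd_one_sub_pow (E' ^ (q + 1)) ((p - 1) * 2)
  have a3 : (p : R) ^ 2 ∣ (D * (1 - E ^ (q + 1))) * (E' ^ (q + 2) - E') := by
    rw [sq]; exact mul_dvd_mul a1 hE'
  have e : H * D * E' = D * E ^ q * (H * (E * E'))
      + H * E' * (1 - E ^ (q + 1)) * ((E' ^ (q + 1)) ^ ((p - 1) * 2) * D)
      - H * d * ((D * (1 - E ^ (q + 1))) * (E' ^ (q + 2) - E')) := by
    linear_combination (H * D * E' * (1 - E ^ (q + 1))) * hd
  rw [e]
  exact dvd_sub (dvd_add (hH.mul_left _) (a2.mul_left _)) (a3.mul_left _)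

end Pool.Agent.P.MP_e9cc94_co.Pl
end

-- part Pool.Agent.P.MP_e9cc94_co.PlB
section

set_option autoImplicit false

/-! Norms on the integral group ring of a finite abelian group. -/

namespace Pool.Agent.P.MP_e9cc94_co.Pl

open Finset AddMonoidAlgebra

abbrev ZA (A : Type) := AddMonoidAlgebra ℤ A

variable {A A' : Type} [AddCommGroup A] [AddCommGroup A']

noncomputable def md (f : A →+ A') : ZA A →+* ZA A' := mapDomainRingHom ℤ f

noncomputable def st : ZA A →+* ZA A := md (negAddMonoidHom : A →+ A)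

@[simp] theorem md_single (f : A →+ A') (a : A) (n : ℤ) :
    md f (single a n) = single (f a) n := by
  simp [md, mapDomainRingHom]

@[simp] theorem st_single (a : A) (n : ℤ) : st (single a n) = single (-a) n := by
  simp [st]

theorem md_ext {A'' : Type} [AddCommGroup A''] {B : Type} [AddCommGroup B] (f : A →+ A')
    (g : A' →+ A'') (f' : A →+ B) (g' : B →+ A'') (h : ∀ a, g (f a) = g' (f' a)) (y : ZA A) :
    md g (md f y) = md g' (md f' y) := by
  induction y using AddMonoidAlgebra.induction_linear with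
  | zero => simp
  | add a b ha hb => simp only [map_add, ha, hb]
  | single a n => simp [h]

theorem md_comp {A'' : Type} [AddCommGroup A''] (f : A →+ A')
    (g : A' →+ A'') (f' : A →+ A'') (h : ∀ a, g (f a) = f' a) (y : ZA A) :
    md g (md f y) = md f' y := by
  induction y using AddMonoidAlgebra.induction_linear with
  | zero => simp
  | add a b ha hb => simp only [map_add, ha, hb]
  | single a n => simp [h]

theorem md_id (f : A →+ A) (h : ∀ a, f a = a) (y : ZA A) : md f y = y := by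
  induction y using AddMonoidAlgebra.induction_linear with
  | zero => simp
  | add a b ha hb => simp only [map_add, ha, hb]
  | single a n => simp [h]

theorem md_st (f : A →+ A') (y : ZA A) : md f (st y) = st (md f y) :=
  md_ext _ _ _ _ (by simp) y

theorem st_st (y : ZA A) : st (st y) = y := by
  rw [st, md_comp _ _ (AddMonoidHom.id A) (by simp), md_id _ (by simp)]

theorem coeff_int_mul (n : ℤ) (y : ZA A) (a : A) : ((n : ZA A) * y).coeff a = n * y.coeff a := by
  rw [intCast_def, coeff_single_zero_mul]; simp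

theorem coeff_nat_mul (n : ℕ) (y : ZA A) (a : A) : ((n : ZA A) * y).coeff a = n * y.coeff a := by
  rw [← coeff_int_mul, Int.cast_natCast]

theorem int_reg {n : ℤ} (hn : n ≠ 0) (y : ZA A) (h : (n : ZA A) * y = 0) : y = 0 := by
  ext a
  have := coeff_int_mul n y a
  rw [h] at this
  simpa [hn] using this

theorem coeff_single_mul' (g : A) (y : ZA A) (a : A) :
    (single g (1 : ℤ) * y).coeff a = y.coeff (a - g) := by
  rw [coeff_single_mul_apply, one_mul, neg_add_eq_sub]

theorem coeff_st (y : ZA A) (a : A) : (st y).coeff a = y.coeff (-a) := by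
  classical
  induction y using AddMonoidAlgebra.induction_linear with
  | zero => simp
  | add a b ha hb => simp only [map_add, coeff_add, Finsupp.add_apply, ha, hb]
  | single b n =>
    simp only [st_single, coeff_single, Finsupp.single_apply]
    exact if_congr neg_eq_iff_eq_neg rfl rfl

theorem frob {l : ℕ} (hl : l.Prime) (f : ℕ) (hf : ∀ a : A, l ^ f • a = a) (y : ZA A) :
    (l : ZA A) ∣ y ^ l ^ f - y := by
  haveI := Fact.mk hl
  induction y using AddMonoidAlgebra.induction_linear with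
  | zero => rw [zero_pow (pow_pos hl.pos f).ne']; simp
  | add a b ha hb =>
    obtain ⟨r, hr⟩ := exists_add_pow_prime_pow_eq hl a b f
    rw [hr, show a ^ l ^ f + b ^ l ^ f + l * a * b * r - (a + b) =
      (a ^ l ^ f - a) + (b ^ l ^ f - b) + l * (a * b * r) by ring]
    exact dvd_add (dvd_add ha hb) (dvd_mul_right _ _)
  | single a n =>
    have h1 : (l : ℤ) ∣ n ^ l ^ f - n := by
      rw [← ZMod.intCast_zmod_eq_zero_iff_dvd]
      push_cast
      rw [ZMod.pow_card_pow, sub_self]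
    obtain ⟨c, hc⟩ := h1
    refine ⟨single a c, ?_⟩
    rw [single_pow, hf, ← single_sub, hc, natCast_def, single_mul_single, zero_add]

variable [Fintype A] [Fintype A']

theorem frob' {l : ℕ} (hl : l.Prime) (hc : Nat.Coprime l (Fintype.card A)) :
    ∃ q : ℕ, ∀ y : ZA A, (l : ZA A) ∣ y ^ (q + 2) - y := by
  have hpos : 0 < Fintype.card A := Fintype.card_pos
  have h1 := Nat.ModEq.pow_totient hc
  have h2 : 2 ≤ l ^ (Fintype.card A).totient :=
    hl.two_le.trans (Nat.le_self_pow (Nat.totient_pos.2 hpos).ne' l)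
  refine ⟨l ^ (Fintype.card A).totient - 2, fun y => ?_⟩
  rw [Nat.sub_add_cancel h2]
  refine frob hl _ (fun a => ?_) y
  obtain ⟨c, hc⟩ := (Nat.modEq_iff_dvd' (by omega)).1 h1.symm
  rw [show l ^ (Fintype.card A).totient = c * Fintype.card A + 1 by rw [mul_comm, ← hc]; omega,
    add_nsmul, mul_nsmul', card_nsmul_eq_zero, nsmul_zero, zero_add, one_nsmul]

theorem root_prime {n l : ℕ} (hl : l.Prime) (hc : Nat.Coprime l (Fintype.card A)) (T : ZA A)
    (hT : (l : ZA A) ∣ T ^ n) : (l : ZA A) ∣ T := by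
  obtain ⟨q, hq⟩ := frob' hl hc
  have e : ∀ j : ℕ, (l : ZA A) ∣ T ^ ((q + 1) * j + 1) - T := by
    intro j
    induction j with
    | zero => simp
    | succ j ih =>
      rw [show T ^ ((q + 1) * (j + 1) + 1) - T =
        T ^ ((q + 1) * j) * (T ^ (q + 2) - T) + (T ^ ((q + 1) * j + 1) - T) by ring]
      exact dvd_add ((hq T).mul_left _) ih
  have e2 : (l : ZA A) ∣ T ^ ((q + 1) * n + 1) := by
    rw [pow_succ, mul_comm (q + 1), pow_mul]
    exact (hT.pow (by omega)).mul_right _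
  simpa using dvd_sub e2 (e n)

theorem root {n : ℕ} (hn : 0 < n) : ∀ (M : ℕ), Nat.Coprime M (Fintype.card A) → M ≠ 0 →
    ∀ T : ZA A, T ^ n = (M : ZA A) ^ n → (M : ZA A) ∣ T := by
  intro M
  induction M using induction_on_primes with
  | zero => intro _ h; exact absurd rfl h
  | one => intro _ _ T _; simp
  | prime_mul l a hl ih =>
    intro hc h0 T hT
    obtain ⟨T1, rfl⟩ := root_prime (n := n) hl (Nat.Coprime.coprime_mul_right hc) T
      (by rw [hT]; push_cast; exact (dvd_mul_right _ _).pow hn.ne')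
    have e : T1 ^ n = (a : ZA A) ^ n := by
      refine sub_eq_zero.1 (int_reg (n := (l : ℤ) ^ n) (pow_ne_zero _ (by exact_mod_cast hl.ne_zero))
        _ ?_)
      push_cast at hT ⊢
      rw [mul_pow, mul_pow] at hT
      linear_combination hT
    push_cast
    exact mul_dvd_mul_left _ (ih (Nat.Coprime.coprime_mul_left hc) (right_ne_zero_of_mul h0) T1 e)

noncomputable def n1 (y : ZA A) : ℤ := ∑ a, |y.coeff a|

noncomputable def n2 (y : ZA A) : ℤ := ∑ a, y.coeff a ^ 2

noncomputable def all (A : Type) [Fintype A] : ZA A := ∑ a, single a 1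

theorem coeff_all (a : A) : (all A).coeff a = 1 := by
  classical
  simp [all, Finsupp.finset_sum_apply, Finsupp.single_apply]

theorem coeff_mul' (x y : ZA A) (a : A) :
    (x * y).coeff a = ∑ b, x.coeff b * y.coeff (a - b) := by
  rw [coeff_mul_apply_left, Finsupp.sum_fintype _ _ (by simp)]
  simp only [neg_add_eq_sub]

theorem coeff_md [DecidableEq A'] (f : A →+ A') (y : ZA A) (a' : A') :
    (md f y).coeff a' = ∑ a, if f a = a' then y.coeff a else 0 := by
  classical
  induction y using AddMonoidAlgebra.induction_linear with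
  | zero => simp
  | add a b ha hb =>
    simp only [map_add, coeff_add, Finsupp.add_apply, ha, hb, ← sum_add_distrib]
    refine sum_congr rfl fun c _ => ?_
    split_ifs <;> simp
  | single b n =>
    simp only [md_single, coeff_single, Finsupp.single_apply]
    rw [sum_eq_single b] <;> simp +contextual [eq_comm]

theorem n1_mul (x y : ZA A) : n1 (x * y) ≤ n1 x * n1 y := by
  unfold n1
  calc ∑ a, |(x * y).coeff a| ≤ ∑ a, ∑ b, |x.coeff b| * |y.coeff (a - b)| := by
        refine sum_le_sum fun a _ => ?_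
        rw [coeff_mul']
        refine (abs_sum_le_sum_abs _ _).trans (le_of_eq ?_)
        simp only [abs_mul]
    _ = _ := by
        rw [sum_comm, sum_mul]
        refine sum_congr rfl fun b _ => ?_
        rw [← mul_sum]
        congr 1
        exact Equiv.sum_comp (Equiv.subRight b) fun a => |y.coeff a|

theorem n1_sub (x y : ZA A) : n1 (x - y) ≤ n1 x + n1 y := by
  unfold n1
  rw [← sum_add_distrib]
  exact sum_le_sum fun a _ => by simpa using abs_sub _ _

theorem n1_single (a : A) (n : ℤ) : n1 (single a n) = |n| := by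
  classical
  unfold n1
  rw [sum_eq_single a] <;> simp +contextual [Finsupp.single_apply, eq_comm]

theorem n1_int (n : ℤ) : n1 (n : ZA A) = |n| := by
  rw [intCast_def, n1_single]; simp

theorem n1_md (f : A →+ A') (y : ZA A) : n1 (md f y) ≤ n1 y := by
  classical
  unfold n1
  calc ∑ a', |(md f y).coeff a'| ≤ ∑ a', ∑ a, if f a = a' then |y.coeff a| else 0 := by
        refine sum_le_sum fun a' _ => ?_
        rw [coeff_md]
        refine (abs_sum_le_sum_abs _ _).trans (le_of_eq (sum_congr rfl fun a _ => ?_))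
        split_ifs <;> simp
    _ = _ := by rw [sum_comm]; simp

theorem n1_nonneg (y : ZA A) : 0 ≤ n1 y := sum_nonneg fun _ _ => abs_nonneg _

theorem n1_le_n2 (y : ZA A) : n1 y ≤ n2 y :=
  sum_le_sum fun a _ => by
    rw [← sq_abs]
    exact Int.le_self_sq _

theorem n2_eq (y : ZA A) : (y * st y).coeff 0 = n2 y := by
  rw [coeff_mul']
  simp [coeff_st, n2, sq]

theorem eq_zero_of_small {p : ℕ} (y : ZA A) (h : (p : ZA A) ∣ y) (h1 : n1 y < p) : y = 0 := by
  obtain ⟨c, hc⟩ := h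
  ext a
  have e : (p : ℤ) ∣ y.coeff a := by
    rw [hc, coeff_nat_mul]
    exact dvd_mul_right _ _
  have e2 : |y.coeff a| ≤ n1 y :=
    single_le_sum (f := fun a => |y.coeff a|) (fun _ _ => abs_nonneg _) (mem_univ a)
  simpa using Int.eq_zero_of_abs_lt_dvd e (e2.trans_lt h1)

theorem unit_form (T : ZA A) (h : T * st T = 1) :
    ∃ g : A, T = single g 1 ∨ T = -single g 1 := by
  classical
  have h2 : n2 T = 1 := by rw [← n2_eq, h]; simp [one_def]
  obtain ⟨g, -, hg⟩ := exists_ne_zero_of_sum_ne_zero (s := univ) (f := fun a => T.coeff a ^ 2)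
    (by rw [← n2, h2]; exact one_ne_zero)
  unfold n2 at h2
  rw [← add_sum_erase _ _ (mem_univ g)] at h2
  have a1 : 0 ≤ ∑ x ∈ univ.erase g, T.coeff x ^ 2 := sum_nonneg fun _ _ => sq_nonneg _
  have a2 : 0 < T.coeff g ^ 2 := lt_of_le_of_ne (sq_nonneg _) hg.symm
  have a3 : ∑ x ∈ univ.erase g, T.coeff x ^ 2 = 0 := by omega
  have a4 : T.coeff g ^ 2 = 1 := by omega
  have a5 : T = single g (T.coeff g) := by
    ext a
    by_cases hag : g = a
    · subst hag; simp
    · have := (sum_eq_zero_iff_of_nonneg fun _ _ => sq_nonneg _).1 a3 a (by simp [Ne.symm hag])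
      simp only [coeff_single, Finsupp.single_apply, if_neg hag]
      exact pow_eq_zero_iff (two_ne_zero) |>.1 this
  refine ⟨g, ?_⟩
  rcases sq_eq_one_iff.1 a4 with e | e
  · left; rw [a5, e]
  · right; rw [a5, e, single_neg]

theorem single_mul_all (g : A) : single g (1 : ℤ) * all A = all A := by
  ext a
  rw [coeff_single_mul', coeff_all, coeff_all]

theorem mul_all (y : ZA A) : y * all A = ((∑ a, y.coeff a : ℤ) : ZA A) * all A := by
  ext a
  rw [coeff_mul', coeff_int_mul]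
  simp [coeff_all]

theorem md_all (f : A →+ A) (hf : Function.Bijective f) : md f (all A) = all A := by
  simp only [all, map_sum, md_single]
  exact hf.sum_comp fun a => single a (1 : ℤ)

theorem st_all : st (all A) = all A := by
  ext a
  rw [coeff_st, coeff_all, coeff_all]

theorem all_mul_all : all A * all A = (Fintype.card A : ZA A) * all A := by
  rw [mul_all]; simp [coeff_all]

end Pool.Agent.P.MP_e9cc94_co.Pl
end

-- part Pool.Agent.P.MP_e9cc94_co.PlC
section

set_option autoImplicit false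

/-! The ring `ℤ[C_p × W]` modulo the elements that are constant along `C_p`. -/

namespace Pool.Agent.P.MP_e9cc94_co.Pl

open Finset AddMonoidAlgebra

noncomputable def mkf {A : Type} [Fintype A] (f : A → ℤ) : ZA A :=
  ofCoeff (Finsupp.equivFunOnFinite.symm f)

theorem coeff_mkf {A : Type} [Fintype A] (f : A → ℤ) (a : A) : (mkf f).coeff a = f a := by
  simp [mkf]

variable {p : ℕ} {W : Type} [AddCommGroup W]

noncomputable def pi0 (p : ℕ) (W : Type) [AddCommGroup W] : ZA (ZMod p × W) :=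
  1 - single (1, 0) 1

noncomputable def II (p : ℕ) (W : Type) [AddCommGroup W] : Ideal (ZA (ZMod p × W)) where
  carrier := {y | pi0 p W * y = 0}
  add_mem' := by
    intro a b ha hb
    simp only [Set.mem_setOf_eq] at *
    rw [mul_add, ha, hb, add_zero]
  zero_mem' := by simp
  smul_mem' := by
    intro c y hy
    simp only [Set.mem_setOf_eq, smul_eq_mul] at *
    rw [mul_left_comm, hy, mul_zero]

theorem mem_II' {y : ZA (ZMod p × W)} : y ∈ II p W ↔ pi0 p W * y = 0 := Iff.rfl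

noncomputable def sg (s : ZMod p) : ZA (ZMod p × W) →+* ZA (ZMod p × W) :=
  md ((AddMonoidHom.mulLeft s).prodMap (AddMonoidHom.id W))

noncomputable def rho : ZA (ZMod p × W) →+* ZA W := md (AddMonoidHom.snd (ZMod p) W)

noncomputable def iota : ZA W →+* ZA (ZMod p × W) := md (AddMonoidHom.inr (ZMod p) W)

theorem sg_single (s x : ZMod p) (w : W) (n : ℤ) :
    sg s (single (x, w) n) = single (s * x, w) n := by simp [sg]

theorem rho_sg (s : ZMod p) (y : ZA (ZMod p × W)) : rho (sg s y) = rho y :=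
  md_comp _ _ _ (by simp) y

theorem sg_sg (s t : ZMod p) (y : ZA (ZMod p × W)) : sg s (sg t y) = sg (s * t) y :=
  md_comp _ _ _ (by simp [mul_assoc]) y

theorem sg_one (y : ZA (ZMod p × W)) : sg 1 y = y := md_id _ (by simp) y

theorem sg_iota (s : ZMod p) (y : ZA W) : sg s (iota y) = iota y :=
  md_comp _ _ _ (by simp) y

theorem iota_rho (y : ZA (ZMod p × W)) : iota (rho y) = sg 0 y :=
  md_comp _ _ _ (by rintro ⟨x, w⟩; simp) y

theorem rho_iota (y : ZA W) : rho (iota (p := p) y) = y := by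
  rw [rho, iota, md_comp _ _ (AddMonoidHom.id W) (by simp), md_id _ (by simp)]

theorem rho_pi0 : rho (pi0 p W) = 0 := by simp [pi0, rho, one_def]

theorem z_pow (n : ℕ) (s : ZMod p) :
    (single (s, 0) 1 : ZA (ZMod p × W)) ^ n = single ((n : ZMod p) * s, 0) 1 := by
  rw [single_pow]; simp

noncomputable def ph : ZA (ZMod p × W) →+* ZA (ZMod p × W) ⧸ II p W := Ideal.Quotient.mk _

theorem ph_eq {a b : ZA (ZMod p × W)} : ph a = ph b ↔ a - b ∈ II p W := Ideal.Quotient.eq

theorem ph_surj : Function.Surjective (ph (p := p) (W := W)) := Ideal.Quotient.mk_surjective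

theorem q_z (n : ℕ) : (1 - ph (pi0 p W)) ^ n = ph (single ((n : ZMod p), 0) 1) := by
  rw [← map_one ph, ← map_sub, ← map_pow, pi0, sub_sub_cancel, z_pow, mul_one]

theorem q_zp : (1 - ph (pi0 p W)) ^ p = 1 := by
  rw [q_z, ZMod.natCast_self, ← map_one ph]; rfl

variable [Fact p.Prime]

theorem mem_II {y : ZA (ZMod p × W)} :
    y ∈ II p W ↔ ∀ x w, y.coeff (x, w) = y.coeff (0, w) := by
  have e : ∀ x w, (pi0 p W * y).coeff (x, w) = y.coeff (x, w) - y.coeff (x - 1, w) := by
    intro x w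
    rw [pi0, sub_mul, one_mul, coeff_sub, Finsupp.sub_apply, coeff_single_mul']
    simp
  rw [mem_II']
  constructor
  · intro h x w
    have e2 : ∀ n : ℕ, y.coeff ((n : ZMod p), w) = y.coeff (0, w) := by
      intro n
      induction n with
      | zero => simp
      | succ n ih =>
        have := e ((n + 1 : ℕ) : ZMod p) w
        rw [h] at this
        simp only [coeff_zero, Finsupp.coe_zero, Pi.zero_apply, Nat.cast_add, Nat.cast_one,
          add_sub_cancel_right] at this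
        push_cast
        linarith
    rw [← e2 x.val, ZMod.natCast_zmod_val]
  · intro h
    ext ⟨x, w⟩
    rw [e, h, h (x - 1)]; simp

theorem pi0_dvd (s : ZMod p) (y : ZA (ZMod p × W)) : pi0 p W ∣ sg s y - y := by
  have e : ∀ (x : ZMod p) (w : W) (n : ℤ), pi0 p W ∣ single (0, w) n - single (x, w) n := by
    intro x w n
    have a : (single (x, w) n : ZA (ZMod p × W)) = single (1, 0) 1 ^ x.val * single (0, w) n := by
      rw [z_pow, single_mul_single]; simp
    rw [a, ← one_sub_mul]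
    exact (one_sub_dvd_one_sub_pow _ _).mul_right _
  induction y using AddMonoidAlgebra.induction_linear with
  | zero => simp
  | add a b ha hb =>
    rw [map_add, show sg s a + sg s b - (a + b) = (sg s a - a) + (sg s b - b) by ring]
    exact dvd_add ha hb
  | single a n =>
    obtain ⟨x, w⟩ := a
    rw [sg_single]
    simpa using dvd_sub (e x w n) (e (s * x) w n)

theorem sg_mem {s : ZMod p} (hs : s ≠ 0) {y : ZA (ZMod p × W)} (hy : y ∈ II p W) :
    sg s y ∈ II p W := by
  rw [mem_II'] at *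
  have e : sg s (pi0 p W) ∣ pi0 p W := by
    have a := one_sub_dvd_one_sub_pow (single (s, 0) 1 : ZA (ZMod p × W)) (s⁻¹).val
    rw [z_pow, ZMod.natCast_zmod_val, inv_mul_cancel₀ hs] at a
    rw [pi0, map_sub, map_one, sg_single, mul_one]
    exact a
  obtain ⟨c, hc⟩ := e
  have a := congrArg (sg s) hy
  rw [map_mul, map_zero] at a
  rw [hc, mul_right_comm, a, zero_mul]

theorem st_mem {y : ZA (ZMod p × W)} (hy : y ∈ II p W) : st y ∈ II p W := by
  rw [mem_II] at *
  intro x w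
  rw [coeff_st, coeff_st, Prod.neg_mk, Prod.neg_mk, hy, neg_zero]

theorem II_cancel {n : ℤ} (hn : n ≠ 0) {y : ZA (ZMod p × W)}
    (hy : (n : ZA (ZMod p × W)) * y ∈ II p W) : y ∈ II p W := by
  rw [mem_II'] at *
  exact int_reg hn _ (by rw [← hy]; ring)

variable [Fintype W]

theorem all_mem : all (ZMod p × W) ∈ II p W := by
  rw [mem_II]; intro x w; rw [coeff_all, coeff_all]

theorem coeff_rho (y : ZA (ZMod p × W)) (w : W) :
    (rho y).coeff w = ∑ x, y.coeff (x, w) := by
  classical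
  rw [rho, coeff_md, Fintype.sum_prod_type]
  refine sum_congr rfl fun x _ => ?_
  rw [sum_eq_single w] <;> simp +contextual

theorem rho_mem {y : ZA (ZMod p × W)} (hy : y ∈ II p W) :
    rho y = (p : ZA W) * mkf fun w => y.coeff (0, w) := by
  ext w
  rw [coeff_rho, coeff_nat_mul, coeff_mkf, sum_congr rfl fun x _ => mem_II.1 hy x w]
  simp

theorem rho_all : rho (all (ZMod p × W)) = (p : ZA W) * all W := by
  ext w
  rw [coeff_rho, coeff_nat_mul]
  simp [coeff_all]

theorem pi0_reg {y : ZA (ZMod p × W)} (hy : pi0 p W * y ∈ II p W) : y ∈ II p W := by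
  have hp : (p : ℤ) ≠ 0 := by exact_mod_cast (Fact.out : p.Prime).ne_zero
  have e := rho_mem hy
  rw [map_mul, rho_pi0, zero_mul] at e
  have e2 := int_reg hp (mkf fun w => (pi0 p W * y).coeff (0, w))
    (by rw [Int.cast_natCast]; exact e.symm)
  rw [mem_II']
  ext ⟨x, w⟩
  rw [mem_II.1 hy]
  have := coeff_mkf (fun w => (pi0 p W * y).coeff (0, w)) w
  rw [e2] at this
  exact this.symm

theorem sq_aux {M X Y : ℤ} (hM : 0 < M) (h1 : -M ≤ 2 * Y) (h2 : 2 * Y ≤ M) :
    M ^ 2 * X ^ 2 ≤ 4 * (M * X + Y) ^ 2 := by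
  rcases lt_trichotomy X 0 with h | h | h
  · have a : M * X ≤ -M := by nlinarith
    nlinarith
  · subst h; nlinarith
  · have a : M ≤ M * X := by nlinarith
    nlinarith

theorem short {M : ℤ} (hM : 0 < M) (F X0 : ZA (ZMod p × W))
    (h : F - (M : ZA (ZMod p × W)) * X0 ∈ II p W) :
    ∃ X, F - (M : ZA (ZMod p × W)) * X ∈ II p W ∧ M ^ 2 * n2 X ≤ 4 * n2 F := by
  have ex : ∀ Y : ℤ, ∃ t : ℤ, -M ≤ 2 * (Y - M * t) ∧ 2 * (Y - M * t) ≤ M := by
    intro Y
    have a := Int.emod_add_mul_ediv (2 * Y + M) (2 * M)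
    have b := Int.emod_nonneg (2 * Y + M) (show 2 * M ≠ 0 by omega)
    have c := Int.emod_lt_of_pos (2 * Y + M) (show 0 < 2 * M by omega)
    exact ⟨(2 * Y + M) / (2 * M), by nlinarith, by nlinarith⟩
  choose t ht using ex
  set Y := F - (M : ZA (ZMod p × W)) * X0 with hY
  have hm : mkf (fun a : ZMod p × W => t (Y.coeff (0, a.2))) ∈ II p W := by
    rw [mem_II]; intro x w; rw [coeff_mkf, coeff_mkf]
  refine ⟨X0 + mkf fun a => t (Y.coeff (0, a.2)), ?_, ?_⟩
  · rw [mul_add, ← sub_sub]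
    exact (II p W).sub_mem h ((II p W).mul_mem_left _ hm)
  · unfold n2
    rw [mul_sum, mul_sum]
    refine sum_le_sum ?_
    rintro ⟨x, w⟩ -
    have e : F.coeff (x, w) = M * (X0 + mkf fun a : ZMod p × W => t (Y.coeff (0, a.2))).coeff (x, w)
        + (Y.coeff (0, w) - M * t (Y.coeff (0, w))) := by
      have a := mem_II.1 h x w
      rw [hY, coeff_sub, Finsupp.sub_apply, coeff_int_mul, ← coeff_sub, ← hY] at a
      rw [coeff_add, Finsupp.add_apply, coeff_mkf]
      linarith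
    rw [e]
    exact sq_aux hM (ht _).1 (ht _).2

noncomputable def sq_ {s : ZMod p} (hs : s ≠ 0) :
    (ZA (ZMod p × W) ⧸ II p W) →+* ZA (ZMod p × W) ⧸ II p W :=
  Ideal.Quotient.lift _ (ph.comp (sg s)) fun _ hy => Ideal.Quotient.eq_zero_iff_mem.2 (sg_mem hs hy)

omit [Fintype W] in
theorem sq_ph {s : ZMod p} (hs : s ≠ 0) (y : ZA (ZMod p × W)) : sq_ hs (ph y) = ph (sg s y) := rfl

theorem q_reg (x : ZA (ZMod p × W) ⧸ II p W) (h : ph (pi0 p W) * x = 0) : x = 0 := by
  obtain ⟨y, rfl⟩ := ph_surj x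
  rw [← map_mul] at h
  exact Ideal.Quotient.eq_zero_iff_mem.2 (pi0_reg (Ideal.Quotient.eq_zero_iff_mem.1 h))

omit [Fintype W] in
theorem q_int {n : ℤ} (hn : n ≠ 0) (x : ZA (ZMod p × W) ⧸ II p W)
    (h : (n : ZA (ZMod p × W) ⧸ II p W) * x = 0) : x = 0 := by
  obtain ⟨y, rfl⟩ := ph_surj x
  rw [← map_intCast (ph (p := p) (W := W)), ← map_mul] at h
  exact Ideal.Quotient.eq_zero_iff_mem.2 (II_cancel hn (Ideal.Quotient.eq_zero_iff_mem.1 h))

omit [Fintype W] in
theorem q_sg {s : ZMod p} (hs : s ≠ 0) (x : ZA (ZMod p × W) ⧸ II p W) :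
    ph (pi0 p W) ∣ sq_ hs x - x := by
  obtain ⟨y, rfl⟩ := ph_surj x
  rw [sq_ph, ← map_sub]
  exact map_dvd ph (pi0_dvd s y)

omit [Fintype W] in
theorem q_iota (y : ZA (ZMod p × W)) : ph (pi0 p W) ∣ ph (iota (rho y)) - ph y := by
  rw [iota_rho, ← map_sub]
  exact map_dvd ph (pi0_dvd 0 y)

theorem q_frob (hodd : Odd p) {q : ℕ} (hq : ∀ y : ZA W, (p : ZA W) ∣ y ^ (q + 2) - y)
    (x : ZA (ZMod p × W) ⧸ II p W) : ph (pi0 p W) ∣ x ^ (q + 2) - x := by
  have hp : p.Prime := Fact.out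
  obtain ⟨y, rfl⟩ := ph_surj x
  have h1 := (pi_dvd_p q_reg hp hodd (q_zp (p := p) (W := W))).1
  have hπ := (dvd_pow_self (ph (pi0 p W)) (by have := hp.two_le; omega)).trans h1
  have h2 := map_dvd ((ph (p := p) (W := W)).comp iota) (hq (rho y))
  simp only [map_natCast, map_sub, map_pow, RingHom.comp_apply] at h2
  have h3 := q_iota y
  have h4 := h3.trans (sub_dvd_pow_sub_pow _ _ (q + 2))
  have := dvd_add (dvd_sub (hπ.trans h2) h4) h3
  rwa [show ∀ a b : ZA (ZMod p × W) ⧸ II p W,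
    a ^ (q + 2) - a - (a ^ (q + 2) - b ^ (q + 2)) + (a - b) = b ^ (q + 2) - b from
      fun a b => by ring] at this

theorem rho_eq {a b : ZA (ZMod p × W)} (h : ph a = ph b) (hn : n1 (rho a) + n1 (rho b) < p) :
    rho a = rho b := by
  refine sub_eq_zero.1 (eq_zero_of_small (p := p) _ ?_ ((n1_sub _ _).trans_lt hn))
  rw [← map_sub, rho_mem (ph_eq.1 h)]
  exact dvd_mul_right _ _

end Pool.Agent.P.MP_e9cc94_co.Pl
end

-- part Pool.Agent.P.MP_e9cc94_co.PlD
section

set_option autoImplicit false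

/-! The twists `σ(D) D* / p ^ 2` are short, so their projections form a homomorphism. -/

namespace Pool.Agent.P.MP_e9cc94_co.Pl

open Finset AddMonoidAlgebra

variable {p : ℕ} [Fact p.Prime] {W : Type} [AddCommGroup W] [Fintype W]

theorem sg_all {s : ZMod p} (hs : s ≠ 0) : sg s (all (ZMod p × W)) = all (ZMod p × W) := by
  refine md_all _ (Finite.injective_iff_bijective.1 ?_)
  rintro ⟨x, w⟩ ⟨x', w'⟩ h
  simp only [AddMonoidHom.coe_prodMap, AddMonoidHom.coe_mulLeft, AddMonoidHom.coe_id,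
    Prod.map_apply, id_eq, Prod.mk.injEq] at h
  rw [mul_left_cancel₀ hs h.1, h.2]

theorem ph_all : ph (all (ZMod p × W)) = 0 := Ideal.Quotient.eq_zero_iff_mem.2 all_mem

theorem n2_int {A : Type} [AddCommGroup A] [Fintype A] {y : ZA A} {n : ℤ}
    (h : y * st y = (n : ZA A)) : n2 y = n := by
  rw [← n2_eq, h, intCast_def]; simp

theorem step2 (hodd : Odd p) (hc : Nat.Coprime p (Fintype.card W)) (m c : ℤ)
    (D : ZA (ZMod p × W))
    (hD : D * st D = (((p * m) ^ 2 : ℤ) : ZA (ZMod p × W)) + c * all (ZMod p × W))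
    {s : ZMod p} (hs : s ≠ 0) :
    ∃ X, ph (sg s D) * ph (st D) = (p : ZA (ZMod p × W) ⧸ II p W) ^ 2 * ph X ∧
      n1 X ≤ 4 * m ^ 4 := by
  have hp : p.Prime := Fact.out
  obtain ⟨q, hq⟩ := frob' (A := W) hp hc
  have h0 : (p : ZA (ZMod p × W) ⧸ II p W) ^ 2 ∣ ph D * ph (st D) := by
    rw [← map_mul, hD, map_add, map_mul, ph_all, mul_zero, add_zero, map_intCast]
    push_cast
    exact ⟨m ^ 2, by ring⟩
  obtain ⟨x0, hx0⟩ := thmA q_reg hp hodd q_zp (q_frob hodd hq) (sq_ hs) (q_sg hs) _ _ h0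
  obtain ⟨X0, rfl⟩ := ph_surj x0
  rw [sq_ph] at hx0
  set A := all (ZMod p × W) with hA
  set k : ℤ := ∑ a, D.coeff a
  have h6 : D * A = k * A := mul_all D
  have h4 : st D * A = k * A := by
    have := congrArg st h6
    rwa [map_mul, map_mul, map_intCast, hA, st_all] at this
  have h3 : sg s D * A = k * A := by
    have := congrArg (sg s) h6
    rwa [map_mul, map_mul, map_intCast, hA, sg_all hs] at this
  have h5 : sg s (st D) * A = k * A := by
    have := congrArg (sg s) h4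
    rwa [map_mul, map_mul, map_intCast, hA, sg_all hs] at this
  have h1 : sg s D * sg s (st D) = (((p * m) ^ 2 : ℤ) : ZA (ZMod p × W)) + c * A := by
    rw [← map_mul, hD, map_add, map_mul, map_intCast, map_intCast, hA, sg_all hs]
  have h7 : A * A = (Fintype.card (ZMod p × W) : ZA (ZMod p × W)) * A := all_mul_all
  have hF : (sg s D * st D - (c : ZA (ZMod p × W)) * A) * st (sg s D * st D - (c : ZA (ZMod p × W)) * A) =
      (((p * m) ^ 4 : ℤ) : ZA (ZMod p × W)) := by
    rw [map_sub, map_mul, map_mul, map_intCast, st_st, hA, st_all, ← hA,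
      show st (sg s D) = sg s (st D) from (md_st _ _).symm]
    push_cast at h1 hD ⊢
    linear_combination (D * st D) * h1 + ((p * m) ^ 2 + c * A) * hD
      - c * (sg s D * h4 + k * h3 - D * h4 - k * h6 + A * hD + c * h7)
      - c * (sg s (st D) * h6 + k * h5 - D * h4 - k * h6 + A * hD + c * h7) + 2 * c ^ 2 * h7
  have hp0 : (0 : ℤ) < (p : ℤ) ^ 2 := by have := hp.pos; positivity
  obtain ⟨X, hX, hn⟩ := short hp0 (sg s D * st D - (c : ZA (ZMod p × W)) * A) X0 (ph_eq.1 (by
    simp only [map_sub, map_mul, map_intCast, hA, ph_all]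
    push_cast
    linear_combination hx0))
  refine ⟨X, ?_, (n1_le_n2 X).trans ?_⟩
  · have := ph_eq.2 hX
    simp only [map_sub, map_mul, map_intCast, hA, ph_all] at this
    push_cast at this
    linear_combination this
  · rw [n2_int hF] at hn
    refine le_of_mul_le_mul_left ?_ (pow_pos hp0 2)
    linarith [show 4 * ((p : ℤ) * m) ^ 4 = ((p : ℤ) ^ 2) ^ 2 * (4 * m ^ 4) by ring]

theorem q_cancel (j : ℕ) {a b : ZA (ZMod p × W) ⧸ II p W}
    (h : (p : ZA (ZMod p × W) ⧸ II p W) ^ j * a = (p : ZA (ZMod p × W) ⧸ II p W) ^ j * b) :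
    a = b := by
  have hp : (p : ℤ) ≠ 0 := by exact_mod_cast (Fact.out : p.Prime).ne_zero
  refine sub_eq_zero.1 (q_int (pow_ne_zero j hp) _ ?_)
  push_cast
  linear_combination h

theorem core1 (hodd : Odd p) (hc : Nat.Coprime p (Fintype.card W)) (m : ℕ) (hm : 0 < m)
    (hcm : Nat.Coprime m (Fintype.card W)) (hbig : 24 * m ^ 8 < p) (c : ℤ)
    (D : ZA (ZMod p × W))
    (hD : D * st D = (((p * m) ^ 2 : ℤ) : ZA (ZMod p × W)) + c * all (ZMod p × W))
    (r : (ZMod p)ˣ) :
    ∃ (X : ZA (ZMod p × W)) (g : W),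
      (m : ZA (ZMod p × W)) ^ 2 * sg (r : ZMod p) D - X * D ∈ II p W ∧ (p - 1) • g = 0 ∧
      (rho X = (m : ZA W) ^ 2 * single g 1 ∨ rho X = -((m : ZA W) ^ 2 * single g 1)) := by
  have hp : p.Prime := Fact.out
  choose X hX hn using fun s : (ZMod p)ˣ => step2 hodd hc m c D hD s.ne_zero
  have hb : 24 * (m : ℤ) ^ 8 < p := by exact_mod_cast hbig
  have hm1 : (1 : ℤ) ≤ m := by exact_mod_cast hm
  have hle : ∀ i, i ≤ 8 → (m : ℤ) ^ i ≤ (m : ℤ) ^ 8 := fun i hi => pow_le_pow_right₀ hm1 hi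
  have hT : ∀ s, n1 (rho (X s)) ≤ 4 * (m : ℤ) ^ 4 := fun s => (n1_md _ _).trans (hn s)
  have hT0 : ∀ s, 0 ≤ n1 (rho (X s)) := fun s => n1_nonneg _
  have hpw : ∀ i : ℕ, n1 ((m : ZA W) ^ i) = (m : ℤ) ^ i := fun i => by
    have := n1_int (A := W) ((m : ℤ) ^ i)
    push_cast at this
    rw [this, abs_of_nonneg (by positivity)]
  have hDD : ∀ s : (ZMod p)ˣ, ph (sg (s : ZMod p) D) * ph (sg (s : ZMod p) (st D)) =
      (p : ZA (ZMod p × W) ⧸ II p W) ^ 2 * m ^ 2 := fun s => by
    rw [← map_mul, ← map_mul, hD, map_add, map_mul, map_intCast, map_intCast, sg_all s.ne_zero,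
      map_add, map_mul, ph_all, map_intCast]
    push_cast; ring
  have hD1 := hDD 1
  simp only [Units.val_one, sg_one] at hD1
  have r1 : rho (X 1) = (m : ZA W) ^ 2 := by
    have a := hX 1
    simp only [Units.val_one, sg_one] at a
    have b : ph (X 1) = ph ((m : ZA (ZMod p × W)) ^ 2) := by
      refine q_cancel 2 ?_
      rw [map_pow, map_natCast, ← a, hD1]
    have := rho_eq b (by
      rw [map_pow, map_natCast, hpw]
      linarith [hT 1, hle 4 (by omega), hle 2 (by omega), hle 0 (by omega)])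
    rwa [map_pow, map_natCast] at this
  have r2 : ∀ s t : (ZMod p)ˣ, (m : ZA W) ^ 2 * rho (X (s * t)) = rho (X s) * rho (X t) := by
    intro s t
    have a := congrArg (sq_ s.ne_zero) (hX t)
    rw [map_mul, map_mul, map_pow, map_natCast, sq_ph, sq_ph, sq_ph, sg_sg, ← Units.val_mul] at a
    have b : ph ((m : ZA (ZMod p × W)) ^ 2 * X (s * t)) = ph (X s * sg (s : ZMod p) (X t)) := by
      refine q_cancel 4 ?_
      rw [map_mul, map_mul, map_pow, map_natCast]
      linear_combination (-(p : ZA (ZMod p × W) ⧸ II p W) ^ 2 * m ^ 2) * hX (s * t)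
        - (ph (sg ((s * t : (ZMod p)ˣ) : ZMod p) D) * ph (st D)) * hDD s
        + (ph (sg (s : ZMod p) D) * ph (st D)) * a
        + ((p : ZA (ZMod p × W) ⧸ II p W) ^ 2 * ph (sg (s : ZMod p) (X t))) * hX s
    have := rho_eq b (by
      rw [map_mul, map_mul, map_pow, map_natCast, rho_sg]
      have a1 := n1_mul ((m : ZA W) ^ 2) (rho (X (s * t)))
      have a2 := n1_mul (rho (X s)) (rho (X t))
      rw [hpw] at a1
      have a3 := mul_le_mul (hT s) (hT t) (hT0 t) (by positivity)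
      have a4 := mul_le_mul_of_nonneg_left (hT (s * t)) (show 0 ≤ (m : ℤ) ^ 2 by positivity)
      nlinarith [hle 6 (by omega), hle 0 (by omega)])
    rwa [map_mul, map_mul, map_pow, map_natCast, rho_sg] at this
  have r3 : rho (X r) * st (rho (X r)) = (m : ZA W) ^ 4 := by
    have a : ph (sg (r : ZMod p) (st D)) * ph D =
        (p : ZA (ZMod p × W) ⧸ II p W) ^ 2 * ph (st (X r)) := by
      have a0 : sg (r : ZMod p) D * st D - (p : ZA (ZMod p × W)) ^ 2 * X r ∈ II p W :=
        ph_eq.1 (by rw [map_mul, map_mul, map_pow, map_natCast]; exact hX r)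
      have a1 := st_mem a0
      rw [map_sub, map_mul, map_mul, map_pow, map_natCast, st_st,
        show st (sg (r : ZMod p) D) = sg (r : ZMod p) (st D) from (md_st _ _).symm] at a1
      have a2 := ph_eq.2 a1
      rwa [map_mul, map_mul, map_pow, map_natCast] at a2
    have b : ph (X r * st (X r)) = ph ((m : ZA (ZMod p × W)) ^ 4) := by
      refine q_cancel 4 ?_
      rw [map_mul, map_pow, map_natCast]
      linear_combination (-(p : ZA (ZMod p × W) ⧸ II p W) ^ 2 * ph (st (X r))) * hX r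
        - (ph (sg (r : ZMod p) D) * ph (st D)) * a + (ph D * ph (st D)) * hDD r
        + ((p : ZA (ZMod p × W) ⧸ II p W) ^ 2 * m ^ 2) * hD1
    have e : rho (st (X r)) = st (rho (X r)) := md_st _ _
    have := rho_eq b (by
      rw [map_mul, map_pow, map_natCast, e, hpw]
      have a2 := n1_mul (rho (X r)) (st (rho (X r)))
      have a3 := mul_le_mul (hT r) ((n1_md negAddMonoidHom (rho (X r))).trans (hT r))
        (n1_nonneg _) (by positivity)
      have a4 : md negAddMonoidHom (rho (X r)) = st (rho (X r)) := rfl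
      rw [a4] at a3
      nlinarith [hle 4 (by omega), hle 0 (by omega)])
    rwa [map_mul, map_pow, map_natCast, e] at this
  have cz : ∀ (i : ℕ) (a b : ZA W), (m : ZA W) ^ i * a = (m : ZA W) ^ i * b → a = b := by
    intro i a b h
    refine sub_eq_zero.1 (int_reg (n := (m : ℤ) ^ i) (by positivity) _ ?_)
    push_cast
    linear_combination h
  have r4 : ∀ j : ℕ, (m : ZA W) ^ 2 * rho (X r) ^ j = ((m : ZA W) ^ 2) ^ j * rho (X (r ^ j)) := by
    intro j
    induction j with
    | zero => simp [r1]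
    | succ j ih =>
      rw [pow_succ r]
      linear_combination rho (X r) * ih - ((m : ZA W) ^ 2) ^ j * r2 (r ^ j) r
  have r5 : rho (X r) ^ (p - 1) = (((m ^ 2 : ℕ) : ZA W)) ^ (p - 1) := by
    refine cz 2 _ _ ?_
    rw [r4, ZMod.units_pow_card_sub_one_eq_one, r1]
    push_cast; ring
  obtain ⟨T, hT'⟩ := root (by have := hp.two_le; omega) (m ^ 2) (hcm.pow_left 2) (by positivity) _ r5
  push_cast at hT' r5
  have r6 : T * st T = 1 := by
    refine cz 4 _ _ ?_
    rw [hT', map_mul, map_pow, map_natCast] at r3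
    linear_combination r3
  have r7 : T ^ (p - 1) = 1 := by
    refine cz (2 * (p - 1)) _ _ ?_
    rw [hT', mul_pow] at r5
    rw [pow_mul, r5, mul_one]
  obtain ⟨g, hg⟩ := unit_form T r6
  refine ⟨X r, g, ph_eq.1 (q_cancel 2 ?_), ?_, ?_⟩
  · rw [map_mul, map_mul, map_pow, map_natCast]
    linear_combination ph D * hX r - ph (sg (r : ZMod p) D) * hD1
  · have ev : Even (p - 1) := Nat.Odd.sub_odd hodd odd_one
    have : (single g (1 : ℤ) : ZA W) ^ (p - 1) = 1 := by
      rcases hg with rfl | rfl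
      · exact r7
      · rwa [ev.neg_pow] at r7
    rw [single_pow, one_pow, one_def] at this
    exact (single_left_inj one_ne_zero).1 this
  · rcases hg with rfl | rfl
    · exact Or.inl hT'
    · exact Or.inr (by rw [hT']; ring)

end Pool.Agent.P.MP_e9cc94_co.Pl
end

-- part Pool.Agent.P.MP_e9cc94_co.PlE
section

set_option autoImplicit false

/-! The sign of the twist, and the final variance count. -/

namespace Pool.Agent.P.MP_e9cc94_co.Pl

open Finset AddMonoidAlgebra

theorem arith3 {κ a b : ℤ} (z : ℤ) (hκ : 0 < κ) (hb : 0 < b) (hab : a ^ 2 = 1 + 2 * b ^ 2)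
    (ha0 : 0 ≤ a) (ha : 2 * a ≤ 3 * b) (hκb : 2 * κ ^ 2 ≤ b ^ 2) :
    b ^ 2 ≤ 64 * κ ^ 2 * (b * z - κ * a) ^ 2 := by
  by_contra hcon
  push Not at hcon
  have hz : z ^ 2 ≠ 2 * κ ^ 2 := by
    intro h
    obtain ⟨t, rfl⟩ : κ ∣ z := (Int.pow_dvd_pow_iff two_ne_zero).1 ⟨2, by rw [h]; ring⟩
    have h2 : t ^ 2 = 2 := mul_left_cancel₀ (pow_pos hκ 2).ne' (by linear_combination h)
    have h3 : t < 2 := by nlinarith
    have h4 : -2 < t := by nlinarith
    interval_cases t <;> simp at h2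
  set d := b * z - κ * a with hd
  have he : 8 * κ * |d| < b := by
    refine lt_of_pow_lt_pow_left₀ 2 hb.le ?_
    rw [mul_pow, sq_abs]
    linarith [show (8 * κ) ^ 2 * d ^ 2 = 64 * κ ^ 2 * d ^ 2 by ring]
  have h0 : 0 ≤ |d| := abs_nonneg d
  have hka : 0 ≤ κ * a := by positivity
  have h1 : |d + 2 * (κ * a)| ≤ 4 * κ * b := by
    refine (abs_add_le _ _).trans ?_
    rw [abs_of_nonneg (by positivity : 0 ≤ 2 * (κ * a))]
    nlinarith
  have h2 : d * (d + 2 * (κ * a)) = b ^ 2 * (z ^ 2 - 2 * κ ^ 2) - κ ^ 2 := by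
    rw [hd]; linear_combination (-κ ^ 2) * hab
  have h3 : b ^ 2 ≤ 2 * |d * (d + 2 * (κ * a))| := by
    rw [h2]
    have hb2 : 0 < b ^ 2 := by positivity
    rcases lt_or_gt_of_ne hz with h | h
    · have := neg_le_abs (b ^ 2 * (z ^ 2 - 2 * κ ^ 2) - κ ^ 2)
      nlinarith [sq_nonneg κ]
    · have := le_abs_self (b ^ 2 * (z ^ 2 - 2 * κ ^ 2) - κ ^ 2)
      nlinarith
  rw [abs_mul] at h3
  have h4 := mul_le_mul_of_nonneg_left h1 h0
  nlinarith

theorem sign_aux {W : Type} [AddCommGroup W] [Fintype W] (E : W → ℤ) (g : W) {p m κ a b : ℤ}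
    (hp : 0 < p) (hm : 0 < m) (hκ : 0 < κ) (hab : a ^ 2 = 1 + 2 * b ^ 2) (hab2 : a = p * m + b)
    (hb : 2 * (p * m) ≤ b) (hκb : 2 * κ ^ 2 ≤ b ^ 2) (hω : κ * Fintype.card W = 2 * m * b)
    (hs : ∑ w, E w = p * m * a) (h2 : ∑ w, E w ^ 2 = (p * m) ^ 2 + p * m * b * κ * p)
    (hdiv : ∀ w, p ∣ E w + E (w - g)) : p ≤ 64 * κ ^ 3 := by
  set ω : ℤ := (Fintype.card W : ℤ) with hωd
  have hω0 : 0 < ω := by rw [hωd]; exact_mod_cast Fintype.card_pos
  have hu : 0 < p * m := by positivity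
  have hb0 : 0 < b := by omega
  have v1 : ∑ w, (ω * E w - p * m * a) ^ 2 = ω * (ω - 1) * (p * m) ^ 2 := by
    have : ∀ w, (ω * E w - p * m * a) ^ 2 =
        ω ^ 2 * E w ^ 2 - 2 * ω * (p * m * a) * E w + (p * m * a) ^ 2 := fun w => by ring
    simp only [this, sum_add_distrib, sum_sub_distrib, ← mul_sum, hs, h2, sum_const, card_univ,
      nsmul_eq_mul, ← hωd]
    linear_combination (ω * p * m * b * p) * hω - ω * (p * m) ^ 2 * hab
  have v2 : ∑ w, (ω * E (w - g) - p * m * a) ^ 2 = ω * (ω - 1) * (p * m) ^ 2 := by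
    rw [← v1]
    exact Equiv.sum_comp (Equiv.subRight g) fun w => (ω * E w - p * m * a) ^ 2
  have v3 : ∀ w, 4 * (p * m) ^ 2 * b ^ 2 ≤
      128 * κ ^ 4 * ((ω * E w - p * m * a) ^ 2 + (ω * E (w - g) - p * m * a) ^ 2) := by
    intro w
    obtain ⟨z, hz⟩ := hdiv w
    have a1 := arith3 z hκ hb0 hab (by omega) (by omega) hκb
    have a2 : κ * ((ω * E w - p * m * a) + (ω * E (w - g) - p * m * a)) =
        2 * (p * m) * (b * z - κ * a) := by
      linear_combination (κ * ω) * hz + p * z * hω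
    generalize ω * E w - p * m * a = s at *
    generalize ω * E (w - g) - p * m * a = t at *
    calc 4 * (p * m) ^ 2 * b ^ 2 ≤ 4 * (p * m) ^ 2 * (64 * κ ^ 2 * (b * z - κ * a) ^ 2) := by
          gcongr
      _ = 64 * κ ^ 2 * (κ * (s + t)) ^ 2 := by rw [a2]; ring
      _ = 64 * κ ^ 4 * (s + t) ^ 2 := by ring
      _ ≤ 64 * κ ^ 4 * (2 * (s ^ 2 + t ^ 2)) := by
          gcongr; nlinarith [sq_nonneg (s - t)]
      _ = _ := by ring
  have v4 := sum_le_sum fun w (_ : w ∈ univ) => v3 w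
  rw [← mul_sum (s := univ) (a := 128 * κ ^ 4), sum_add_distrib, v1, v2, sum_const, card_univ,
    nsmul_eq_mul, ← hωd] at v4
  have v5 : b ^ 2 ≤ 64 * κ ^ 4 * ω := by
    refine le_of_mul_le_mul_left ?_ (show 0 < 4 * ω * (p * m) ^ 2 by positivity)
    have : 0 ≤ 256 * κ ^ 4 * ω * (p * m) ^ 2 := by positivity
    nlinarith
  have v6 : b ≤ 128 * κ ^ 3 * m := by
    refine le_of_mul_le_mul_left ?_ hb0
    calc b * b = b ^ 2 := by ring
      _ ≤ 64 * κ ^ 3 * (κ * ω) := by linarith [show 64 * κ ^ 4 * ω = 64 * κ ^ 3 * (κ * ω) by ring]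
      _ = _ := by rw [hω]; ring
  refine le_of_mul_le_mul_left ?_ (show 0 < 2 * m by positivity)
  nlinarith

theorem n2_H {A : Type} [AddCommGroup A] [Fintype A] {h : A} (hh : h ≠ 0) {y : ZA A} {n : ℤ}
    (e : y * st y = (n : ZA A) * ((1 - single h 1) * st (1 - single h 1))) : n2 y = 2 * n := by
  classical
  rw [← n2_eq, e, coeff_int_mul, map_sub, map_one, st_single, sub_mul, mul_sub, mul_sub,
    single_mul_single, one_def]
  simp [single_mul_single, Finsupp.single_apply, hh]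
  ring

theorem H_all {A : Type} [AddCommGroup A] [Fintype A] (h : A) :
    (1 - single h 1 : ZA A) * all A = 0 := by
  rw [sub_mul, single_mul_all, one_mul, sub_self]

variable {p : ℕ} [Fact p.Prime] {W : Type} [AddCommGroup W] [Fintype W]

theorem rho_DD {U c : ℤ} {D : ZA (ZMod p × W)}
    (hD : D * st D = (U : ZA (ZMod p × W)) + c * all (ZMod p × W)) :
    rho D * st (rho D) = (U : ZA W) + (c * p : ℤ) * all W := by
  have := congrArg rho hD
  rw [map_mul, map_add, map_mul, map_intCast, map_intCast, rho_all,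
    show rho (st D) = st (rho D) from md_st _ _] at this
  rw [this]; push_cast; ring

theorem sign {m κ a b : ℤ} (hm : 0 < m) (hpm : IsCoprime (p : ℤ) m) (hκ : 0 < κ)
    (hab : a ^ 2 = 1 + 2 * b ^ 2) (hab2 : a = p * m + b)
    (hb : 2 * (p * m) ≤ b) (hκb : 2 * κ ^ 2 ≤ b ^ 2) (hω : κ * Fintype.card W = 2 * m * b)
    (D : ZA (ZMod p × W)) (hs : ∑ x, D.coeff x = p * m * a)
    (hD : D * st D = (((p * m) ^ 2 : ℤ) : ZA (ZMod p × W))
      + (p * m * b * κ : ℤ) * all (ZMod p × W))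
    (s : ZMod p) (X : ZA (ZMod p × W)) (g : W)
    (hX : (m : ZA (ZMod p × W)) ^ 2 * sg s D - X * D ∈ II p W)
    (hρ : rho X = -((m : ZA W) ^ 2 * single g 1)) : (p : ℤ) ≤ 64 * κ ^ 3 := by
  have hp : p.Prime := Fact.out
  refine sign_aux (fun w => (rho D).coeff w) g (by exact_mod_cast hp.pos) hm hκ hab hab2 hb hκb hω
    ?_ ?_ fun w => ?_
  · rw [← hs, Fintype.sum_prod_type_right]
    exact sum_congr rfl fun w _ => coeff_rho D w
  · have := n2_eq (rho D)
    rw [rho_DD hD, coeff_add, Finsupp.add_apply, coeff_int_mul, coeff_all, intCast_def] at this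
    simpa [n2] using this.symm
  · have e := rho_mem hX
    rw [map_sub, map_mul, map_mul, map_pow, map_intCast, rho_sg, hρ] at e
    generalize (mkf fun w => ((m : ZA (ZMod p × W)) ^ 2 * sg s D - X * D).coeff (0, w)) = V at e
    have e2 : ((m ^ 2 : ℤ) : ZA W) * (rho D + single g 1 * rho D) = (p : ZA W) * V := by
      push_cast
      linear_combination e
    have e3 := congrArg (fun y : ZA W => y.coeff w) e2
    simp only [coeff_int_mul, coeff_nat_mul, coeff_add, Finsupp.add_apply, coeff_single_mul'] at e3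
    exact (hpm.pow_right (n := 2)).dvd_of_dvd_mul_left ⟨_, e3⟩

theorem coeff_iota (y : ZA W) {x : ZMod p} (hx : x ≠ 0) (w : W) :
    (iota y : ZA (ZMod p × W)).coeff (x, w) = 0 := by
  classical
  rw [iota, coeff_md]
  simp [hx.symm]

theorem var_aux (f : ZMod p → ℤ) (c B : ℤ) (S : Finset (ZMod p)) (h1 : ∀ x, x ∉ S → f x = c)
    (h2 : ∀ x, (f x - c) ^ 2 ≤ B) :
    p * ∑ x, f x ^ 2 - (∑ x, f x) ^ 2 ≤ p * (S.card * B) := by
  have e1 : ∑ x, (f x - c) ^ 2 ≤ S.card * B := by
    rw [← sum_subset (subset_univ S) fun x _ hx => by rw [h1 x hx]; simp]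
    simpa using sum_le_card_nsmul S _ B fun x _ => h2 x
  have e2 : ∑ x, (f x - c) ^ 2 = ∑ x, f x ^ 2 - 2 * c * ∑ x, f x + p * c ^ 2 := by
    have : ∀ x, (f x - c) ^ 2 = f x ^ 2 - 2 * c * f x + c ^ 2 := fun x => by ring
    simp [this, sum_add_distrib, sum_sub_distrib, ← mul_sum]
  have e3 := mul_le_mul_of_nonneg_left e1 (Int.natCast_nonneg p)
  rw [e2] at e3
  nlinarith [sq_nonneg (∑ x, f x - p * c)]

theorem core2 (hodd : Odd p) (hc : Nat.Coprime p (Fintype.card W)) {m : ℤ} (hm : 0 < m)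
    (hpm : IsCoprime (p : ℤ) m) (hbig : 8 * m ^ 4 < p) (c κ : ℤ) (D : ZA (ZMod p × W))
    (hD : D * st D = (((p * m) ^ 2 : ℤ) : ZA (ZMod p × W)) + c * all (ZMod p × W))
    (h0 : ∀ a, 0 ≤ D.coeff a) (h1 : ∀ a, D.coeff a ≤ κ) (r : ℕ) (hr0 : (r : ZMod p) ≠ 0)
    (hr : ∀ i, 0 < i → i < p - 1 → IsCoprime ((r : ℤ) ^ i - 1) (p : ℤ)) (X : ZA (ZMod p × W))
    (hX : (m : ZA (ZMod p × W)) ^ 2 * sg (r : ZMod p) D - X * D ∈ II p W)
    (hρ : rho X = (m : ZA W) ^ 2) {h : W} (hh : h ≠ 0) :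
    2 * (p * m) ^ 2 * ((p : ℤ) - 1) ≤ Fintype.card W * (p * (8 * m ^ 4 * (2 * κ) ^ 2)) := by
  classical
  have hp : p.Prime := Fact.out
  have hp0 : (0 : ℤ) < p := by exact_mod_cast hp.pos
  obtain ⟨q, hq⟩ := frob' (A := W) hp hc
  set U : ℤ := (p * m) ^ 2 with hU
  set H : ZA (ZMod p × W) := 1 - single (0, h) 1 with hH
  set E : ZA (ZMod p × W) := iota (rho D) with hE
  have hE' : st E = iota (st (rho D)) := (md_st _ _).symm
  have hρH : rho H = 1 - single h 1 := by simp [hH, rho]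
  have hιH : iota (rho H) = H := by rw [hρH]; simp [hH, iota]
  have a0 : rho H * (rho D * st (rho D)) = U * rho H := by
    rw [rho_DD hD, hρH]
    linear_combination ((c * p : ℤ) : ZA W) * H_all h
  have a1 : H * (E * st E) = U * H := by
    have := congrArg (iota (p := p)) a0
    rwa [map_mul, map_mul, map_mul, map_intCast, hιH, ← hE', ← hE] at this
  have a2 : H * (D * st D) = U * H := by
    rw [hD]
    linear_combination (c : ZA (ZMod p × W)) * H_all ((0 : ZMod p), h)
  have hUq : (p : ZA (ZMod p × W) ⧸ II p W) ^ 2 ∣ ph (U : ZA (ZMod p × W)) := by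
    rw [map_intCast, hU]; push_cast; exact ⟨m ^ 2, by ring⟩
  obtain ⟨x0, hx0⟩ := thmB q_reg hp hodd q_zp (q_frob hodd hq) (sq_ hr0) (q_sg hr0) (r := r)
    (by rw [q_z, ← pow_one (1 - ph (pi0 p W)), q_z, sq_ph, sg_single]; simp) hr (m ^ 2)
    (hpm.symm.pow_left) (ph D) (ph (st D)) (ph E) (ph (st E)) (ph X) (ph H)
    (by
      have := ph_eq.2 hX
      rw [map_mul, map_mul, map_pow, map_intCast] at this
      rw [sq_ph, ← this]; push_cast; rfl)
    (by
      have := q_iota X
      rw [hρ, map_pow, map_intCast, map_pow, map_intCast] at this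
      push_cast
      exact dvd_sub_comm.1 this)
    (by rw [← map_mul, hD, map_add, map_mul, ph_all, mul_zero, add_zero]; exact hUq)
    (by rw [sq_ph, hE, sg_iota]) (q_iota D)
    (by rw [hE', show st (rho D) = rho (st D) from (md_st _ _).symm]; exact q_iota _)
    (by
      have := map_dvd ((ph (p := p) (W := W)).comp iota) (hq (st (rho D)))
      simpa only [map_natCast, map_sub, map_pow, RingHom.comp_apply, ← hE'] using this)
    (by rw [← map_mul, ← map_mul, a1, map_mul]; exact hUq.mul_right _)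
  obtain ⟨X0, rfl⟩ := ph_surj x0
  have hh' : ((0 : ZMod p), h) ≠ 0 := fun e => hh (Prod.mk.inj e).2
  have hF : n2 (H * D * st E) = 2 * U ^ 2 := n2_H hh' (by
    rw [map_mul, map_mul, st_st, ← hH]
    push_cast
    linear_combination (st H * (E * st E)) * a2 + (U * st H) * a1)
  have hΔ : n2 (H * D) = 2 * U := n2_H hh' (by
    rw [map_mul, ← hH]
    linear_combination st H * a2)
  have hΔ' : n2 (rho (H * D)) = 2 * U := n2_H hh (by
    rw [map_mul, map_mul, ← hρH]
    linear_combination st (rho H) * a0)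
  obtain ⟨Y, hY, hn⟩ := short (pow_pos hp0 2) (H * D * st E) X0 (ph_eq.1 (by
    simp only [map_mul, map_intCast]
    push_cast
    exact hx0))
  have hn2 : n2 Y ≤ 8 * m ^ 4 := by
    rw [hF] at hn
    refine le_of_mul_le_mul_left ?_ (pow_pos (pow_pos hp0 2) 2)
    linarith [show 4 * (2 * U ^ 2) = ((p : ℤ) ^ 2) ^ 2 * (8 * m ^ 4) by rw [hU]; ring]
  set S : Finset (ZMod p) := univ.filter fun x => ∃ w, Y.coeff (x, w) ≠ 0 with hS
  have hSc : (S.card : ℤ) ≤ 8 * m ^ 4 := by
    refine le_trans ?_ hn2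
    rw [n2, Fintype.sum_prod_type, card_eq_sum_ones]
    push_cast
    refine (sum_le_sum fun x hx => ?_).trans
      (sum_le_sum_of_subset_of_nonneg (subset_univ S) fun x _ _ =>
        sum_nonneg fun w _ => sq_nonneg _)
    obtain ⟨w, hw⟩ := (mem_filter.1 hx).2
    refine le_trans ?_ (single_le_sum (f := fun w => Y.coeff (x, w) ^ 2)
      (fun _ _ => sq_nonneg _) (mem_univ w))
    exact pow_pos (abs_pos.2 hw) 2 |>.trans_eq (sq_abs _)
  obtain ⟨x0, hx0'⟩ : ∃ x0, x0 ∉ S := by
    by_contra hcon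
    push Not at hcon
    rw [eq_univ_of_forall hcon, card_univ, ZMod.card] at hSc
    omega
  have hYE : ∀ x, x ∉ S → ∀ w, (Y * E).coeff (x, w) = 0 := by
    intro x hx w
    rw [coeff_mul']
    refine sum_eq_zero ?_
    rintro ⟨x', w'⟩ -
    by_cases e : x = x'
    · subst e
      have : Y.coeff (x, w') = 0 := by
        by_contra hne
        exact hx (mem_filter.2 ⟨mem_univ _, w', hne⟩)
      rw [this, zero_mul]
    · rw [Prod.mk_sub_mk, hE, coeff_iota _ (sub_ne_zero.2 e), mul_zero]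
  have hmem : (U : ZA (ZMod p × W)) * (H * D) - ((p ^ 2 : ℤ) : ZA (ZMod p × W)) * (Y * E)
      ∈ II p W := by
    have := (II p W).mul_mem_left E hY
    rwa [show E * (H * D * st E - ((p ^ 2 : ℤ) : ZA (ZMod p × W)) * Y) =
      U * (H * D) - ((p ^ 2 : ℤ) : ZA (ZMod p × W)) * (Y * E) by linear_combination D * a1] at this
  have hconst : ∀ w x, x ∉ S → (H * D).coeff (x, w) = (H * D).coeff (x0, w) := by
    intro w x hx
    have b1 := (mem_II.1 hmem x w).trans (mem_II.1 hmem x0 w).symm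
    simp only [coeff_sub, Finsupp.sub_apply, coeff_int_mul, hYE x hx, hYE x0 hx0'] at b1
    exact mul_left_cancel₀ (show U ≠ 0 by positivity) (by linarith)
  have hbd : ∀ a, -κ ≤ (H * D).coeff a ∧ (H * D).coeff a ≤ κ := by
    intro a
    rw [hH, sub_mul, one_mul, coeff_sub, Finsupp.sub_apply, coeff_single_mul']
    constructor <;> linarith [h0 a, h1 a, h0 (a - (0, h)), h1 (a - (0, h))]
  have hv := sum_le_sum fun w (_ : w ∈ univ) => var_aux (fun x => (H * D).coeff (x, w))
    ((H * D).coeff (x0, w)) ((2 * κ) ^ 2) S (hconst w) fun x =>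
      sq_le_sq' (by linarith [(hbd (x, w)).1, (hbd (x0, w)).2])
        (by linarith [(hbd (x, w)).2, (hbd (x0, w)).1])
  rw [sum_sub_distrib, ← mul_sum, ← Fintype.sum_prod_type_right
    (f := fun a => (H * D).coeff a ^ 2), ← n2, hΔ, sum_const, card_univ, nsmul_eq_mul] at hv
  simp only [← coeff_rho] at hv
  rw [← n2, hΔ'] at hv
  refine le_trans (by linarith) (hv.trans ?_)
  gcongr

end Pool.Agent.P.MP_e9cc94_co.Pl
end

-- part Pool.Agent.P.MP_e9cc94_co.PlF
section

set_option autoImplicit false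

/-! Images of a difference set in abelian quotients; the Pell parameters. -/

namespace Pool.Agent.P.MP_e9cc94_co.Pl

open Finset AddMonoidAlgebra

section Push

variable {G : Type} [Group G] [Fintype G] [DecidableEq G]

theorem ds_sum {D : Finset G} {lam : ℕ}
    (h : ∀ g : G, g ≠ 1 → ((D ×ˢ D).filter (fun p : G × G => p.1 * p.2⁻¹ = g)).card = lam)
    {V : Type} [AddCommMonoid V] (f : G → V) :
    ∑ d ∈ D, ∑ e ∈ D, f (d * e⁻¹) + lam • f 1 = D.card • f 1 + lam • ∑ g, f g := by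
  have e1 : ((D ×ˢ D).filter (fun p : G × G => p.1 * p.2⁻¹ = 1)).card = D.card := by
    symm
    refine card_bij (fun d _ => (d, d)) ?_ ?_ ?_
    · intro d hd; simp [hd]
    · intro a _ b _ h; exact (Prod.mk.inj h).1
    · rintro ⟨a, b⟩ hp
      simp only [mem_filter, mem_product, mul_inv_eq_one] at hp
      exact ⟨a, hp.1.1, by rw [hp.2]⟩
  have e2 : ∑ d ∈ D, ∑ e ∈ D, f (d * e⁻¹) =
      ∑ g, ((D ×ˢ D).filter (fun p : G × G => p.1 * p.2⁻¹ = g)).card • f g := by
    rw [← sum_product' (f := fun d e => f (d * e⁻¹)),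
      ← sum_fiberwise (s := D ×ˢ D) (g := fun p : G × G => p.1 * p.2⁻¹)]
    refine sum_congr rfl fun g _ => ?_
    rw [sum_congr rfl (g := fun _ => f g), sum_const]
    intro p hp
    rw [(mem_filter.1 hp).2]
  rw [e2, ← add_sum_erase _ _ (mem_univ 1), ← add_sum_erase _ f (mem_univ 1), e1,
    sum_congr rfl fun g hg => by rw [h g (mem_erase.1 hg).1], smul_add, smul_sum]
  abel

variable {A : Type} [AddCommGroup A] [Fintype A]

noncomputable def push (D : Finset G) (φ : G → A) : ZA A := ∑ d ∈ D, single (φ d) 1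

theorem push_spec {D : Finset G} {lam U : ℕ}
    (h : ∀ g : G, g ≠ 1 → ((D ×ˢ D).filter (fun p : G × G => p.1 * p.2⁻¹ = g)).card = lam)
    (hk : D.card = lam + U) (φ : G → A) (hφ : ∀ g h, φ (g * h⁻¹) = φ g - φ h)
    (hs : Function.Surjective φ) :
    ∃ κ : ℕ, κ * Fintype.card A = Fintype.card G ∧ (∀ a, 0 ≤ (push D φ).coeff a) ∧
      (∀ a, (push D φ).coeff a ≤ κ) ∧ ∑ a, (push D φ).coeff a = D.card ∧
      push D φ * st (push D φ) = (U : ZA A) + ((lam * κ : ℕ) : ZA A) * all A := by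
  classical
  have h1 : φ 1 = 0 := by simpa using hφ 1 1
  have cf : ∀ (S : Finset G) (a : A), (push S φ).coeff a = (S.filter fun g => φ g = a).card := by
    intro S a
    simp [push, Finsupp.single_apply]
  set κ := (univ.filter fun g => φ g = 0).card with hκ
  have fib : ∀ a, (univ.filter fun g => φ g = a).card = κ := by
    intro a
    obtain ⟨g0, rfl⟩ := hs a
    refine card_bij (fun g _ => g * g0⁻¹) ?_ ?_ ?_
    · intro g hg
      simp only [mem_filter, mem_univ, true_and] at hg ⊢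
      rw [hφ, hg, sub_self]
    · intro a _ b _ h; simpa using h
    · intro g hg
      simp only [mem_filter, mem_univ, true_and] at hg ⊢
      refine ⟨g * g0, ?_, by simp⟩
      have := hφ (g * g0) g0
      rw [mul_inv_cancel_right, hg] at this
      exact sub_eq_zero.1 this.symm
  refine ⟨κ, ?_, fun a => by rw [cf]; positivity, fun a => ?_, ?_, ?_⟩
  · rw [← card_univ (α := G), card_eq_sum_card_fiberwise (f := φ) (t := univ) (by simp)]
    simp [fib, mul_comm]
  · rw [cf, ← fib a]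
    exact_mod_cast card_le_card (filter_subset_filter _ (subset_univ D))
  · simp only [cf]
    exact_mod_cast (card_eq_sum_card_fiberwise (f := φ) (t := univ) (by simp)).symm
  · have e := ds_sum h fun g => (single (φ g) 1 : ZA A)
    have e1 : ∑ g, (single (φ g) 1 : ZA A) = (κ : ZA A) * all A := by
      ext a
      rw [coeff_nat_mul, coeff_all, mul_one, ← fib a]
      exact cf univ a
    have e2 : push D φ * st (push D φ) = ∑ d ∈ D, ∑ e ∈ D, (single (φ (d * e⁻¹)) 1 : ZA A) := by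
      simp only [push, map_sum, st_single, sum_mul_sum, single_mul_single, hφ, sub_eq_add_neg,
        mul_one]
    rw [← e2, e1, h1, ← one_def, hk] at e
    simp only [nsmul_eq_mul] at e
    push_cast at e ⊢
    linear_combination e

omit [Fintype A] [Group G] [Fintype G] [DecidableEq G] in
theorem md_push {A' : Type} [AddCommGroup A'] (f : A →+ A') (D : Finset G) (φ : G → A) :
    md f (push D φ) = push D fun g => f (φ g) := by
  simp [push]

end Push

theorem params {k lam : ℕ} (h : k * k + lam = k + lam * (2 * lam)) (h2 : 2 < lam) :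
    ∃ u b : ℕ, k = lam + u ^ 2 ∧ lam = u * b ∧ b ^ 2 + 1 = 2 * u * b + u ^ 2 := by
  have hk : lam < k := by
    by_contra hc
    push Not at hc
    nlinarith
  obtain ⟨n, rfl⟩ := Nat.exists_eq_add_of_lt hk
  have h' : ((n : ℤ) + 1) * (2 * lam + n) = (lam : ℤ) ^ 2 := by
    have : ((lam + n + 1 : ℕ) : ℤ) * (lam + n + 1 : ℕ) + lam =
      (lam + n + 1 : ℕ) + lam * (2 * lam) := by exact_mod_cast h
    push_cast at this
    linear_combination this
  obtain ⟨a, ha⟩ := Int.sq_of_isCoprime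
    ⟨4 * (2 * lam + n) + 2 * lam + 1, -(2 * lam + 1), by linear_combination 4 * h'⟩ h'
  have ha' : (n : ℤ) + 1 = a ^ 2 := ha.resolve_right fun e => by nlinarith [sq_nonneg a]
  have hu : n + 1 = a.natAbs ^ 2 := by
    have : ((a.natAbs ^ 2 : ℕ) : ℤ) = a ^ 2 := by push_cast; exact sq_abs a
    omega
  generalize a.natAbs = u at hu
  have h3 : u ^ 2 * (2 * lam + n) = lam ^ 2 := by rw [← hu]; exact_mod_cast h'
  obtain ⟨b, rfl⟩ : u ∣ lam := (Nat.pow_dvd_pow_iff two_ne_zero).1 ⟨_, h3.symm⟩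
  refine ⟨u, b, by omega, rfl, ?_⟩
  have h4 : 2 * (u * b) + n = b ^ 2 :=
    Nat.eq_of_mul_eq_mul_left (show 0 < u ^ 2 by omega) (by rw [h3]; ring)
  nlinarith

theorem params2 {u b : ℤ} (hu : 0 < u) (hb : 0 < b) (h : b ^ 2 + 1 = 2 * u * b + u ^ 2) :
    2 * u ≤ b ∧ 2 * b ≤ 5 * u ∧ 2 * b ∣ u ^ 2 - 1 := by
  refine ⟨by nlinarith, by nlinarith, ?_⟩
  rcases Int.even_or_odd' b with ⟨t, rfl | rfl⟩
  · exact ⟨t - u, by linear_combination -h⟩
  · exfalso
    rcases Int.even_or_odd' u with ⟨s, rfl | rfl⟩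
    · have : 4 * (t ^ 2 + t - s * (2 * t + 1) - s ^ 2) + 2 = 0 := by linear_combination h
      omega
    · have : 2 * (2 * t ^ 2 + 2 * t - (2 * s + 1) * (2 * t + 1) - 2 * s ^ 2 - 2 * s) + 1 = 0 := by
        linear_combination h
      omega

theorem n0_bound {p m b c κ n : ℤ} (hm : 0 < m) (hc : 0 < c) (hκ : κ ≤ c * m)
    (hn : 0 < n) (hbig : 200000 * m ^ 8 * c ^ 3 < p) (hb0 : 0 < b)
    (hb : b ^ 2 + 1 = 2 * (p * m) * b + (p * m) ^ 2) (hb5 : 2 * b ≤ 5 * (p * m))
    (he : 2 * b ∣ (p * m) ^ 2 - 1) (h1 : n ∣ p - 1) (h2 : n ∣ 2 * b) :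
    80 * m ^ 4 * (κ * n) < p - 1 := by
  have hc3 : c ≤ c ^ 3 := le_self_pow₀ hc (by norm_num)
  rcases (show m = 1 ∨ 1 < m by omega) with rfl | hm1
  · simp only [one_pow, mul_one] at *
    have e : n * n ∣ 8 * (b + p - 1) := by
      have := dvd_sub (dvd_sub (mul_dvd_mul h2 h2) ((mul_dvd_mul h2 h1).mul_left 4))
        ((mul_dvd_mul h1 h1).mul_left 4)
      rwa [show 2 * b * (2 * b) - 4 * (2 * b * (p - 1)) - 4 * ((p - 1) * (p - 1)) =
        8 * (b + p - 1) by linear_combination 4 * hb] at this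
    have e2 := Int.le_of_dvd (by omega) e
    have hc2 : c ^ 2 ≤ c ^ 3 := pow_le_pow_right₀ hc (by norm_num)
    by_contra hcon
    push Not at hcon
    have e3 : p - 1 ≤ 80 * (c * n) := by nlinarith
    have e4 : (p - 1) ^ 2 ≤ (80 * (c * n)) ^ 2 := pow_le_pow_left₀ (by omega) e3 2
    have e5 : c ^ 2 * (n * n) ≤ c ^ 2 * (28 * p) :=
      mul_le_mul_of_nonneg_left (by omega) (by positivity)
    have e6 : 1 ≤ c ^ 2 := one_le_pow₀ hc
    have e7 : p * (200000 * c ^ 2) ≤ p * p := by gcongr <;> omega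
    nlinarith
  · have e : n ∣ m ^ 2 - 1 := by
      have := dvd_sub (h2.trans he) (h1.mul_left (m ^ 2 * (p + 1)))
      rwa [show (p * m) ^ 2 - 1 - m ^ 2 * (p + 1) * (p - 1) = m ^ 2 - 1 by ring] at this
    have e2 := Int.le_of_dvd (by nlinarith) e
    have e3 : κ * n ≤ c * m * m ^ 2 := mul_le_mul hκ (by omega) hn.le (by positivity)
    have e4 : m ^ 7 ≤ m ^ 8 := pow_le_pow_right₀ hm (by norm_num)
    have e5 : m ^ 7 * c ≤ m ^ 8 * c ^ 3 := mul_le_mul e4 hc3 hc.le (by positivity)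
    have e6 : 0 < m ^ 8 * c ^ 3 := by positivity
    have e7 : 80 * m ^ 4 * (κ * n) ≤ 80 * m ^ 4 * (c * m * m ^ 2) := by gcongr
    nlinarith

theorem card_dvd (H : Type) [Group H] [Finite H] {n n' : ℕ} (hc : Nat.Coprime n n')
    (h : ∀ x : H, x ^ n = 1) (hd : Nat.card H ∣ n * n') : Nat.card H ∣ n := by
  refine Nat.Coprime.dvd_of_dvd_mul_right (Nat.coprime_of_dvd fun l hl h1 h2 => ?_) hd
  haveI := Fact.mk hl
  obtain ⟨x, hx⟩ := exists_prime_orderOf_dvd_card' l h1
  exact hl.one_lt.ne' (Nat.eq_one_of_dvd_coprimes hc (hx ▸ orderOf_dvd_of_pow_eq_one (h x)) h2)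

theorem quot (G : Type) [Group G] [Fintype G] {p m B e : ℕ} [Fact p.Prime]
    (hG : Fintype.card G = p * m * B) (he : (p * m) ^ 2 = 1 + B * e) (hpm : Nat.Coprime p m)
    (hc : ¬p ∣ Nat.card (commutator G)) :
    ∃ (W : Type) (_ : AddCommGroup W) (_ : Fintype W) (φ : G → ZMod p × W),
      (∀ g h, φ (g * h⁻¹) = φ g - φ h) ∧ Function.Surjective φ ∧ Fintype.card W ∣ B ∧
      Fintype.card G ≤ Nat.card (commutator G) * (p * m) * Fintype.card W := by
  have hp : p.Prime := Fact.out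
  have hcop : Nat.Coprime (p * m) B := by
    refine (Nat.coprime_pow_left_iff two_pos _ _).1 ?_
    rw [he]; simp
  have hQ : Nat.card (commutator G) * Nat.card (Abelianization G) = p * m * B := by
    rw [← hG, ← Nat.card_eq_fintype_card]
    exact (commutator G).card_mul_index
  have hQd : Nat.card (Abelianization G) ∣ p * m * B := Dvd.intro_left _ hQ
  have hkill : ∀ x : Abelianization G, x ^ (p * m * B) = 1 := fun x => by
    obtain ⟨t, ht⟩ := hQd
    rw [ht, pow_mul, pow_card_eq_one', one_pow]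
  set f1 : Abelianization G →* Abelianization G := powMonoidHom (p * m) with hf1
  set f2 : Abelianization G →* Abelianization G := powMonoidHom (m * B) with hf2
  have c1 : Nat.card f1.range ∣ B := by
    refine card_dvd _ hcop.symm ?_ (by rw [mul_comm B]; exact f1.range.card_subgroup_dvd_card.trans hQd)
    rintro ⟨_, x, rfl⟩
    ext
    simpa [hf1, ← pow_mul] using hkill x
  have c2 : Nat.card f1.ker ∣ p * m := by
    refine card_dvd _ hcop ?_ (f1.ker.card_subgroup_dvd_card.trans hQd)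
    rintro ⟨x, hx⟩
    ext
    simpa [hf1] using hx
  have hcop2 : Nat.Coprime p (m * B) := hpm.mul_right (Nat.Coprime.coprime_mul_right hcop)
  have k2 : ∀ x : f2.range, x ^ p = 1 := by
    rintro ⟨_, x, rfl⟩
    ext
    have := hkill x
    rw [show p * m * B = m * B * p by ring] at this
    simpa [hf2, ← pow_mul] using this
  have c3 : Nat.card f2.range = p := by
    have a : Nat.card f2.range ∣ p :=
      card_dvd _ hcop2 k2 (by rw [← mul_assoc]; exact f2.range.card_subgroup_dvd_card.trans hQd)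
    refine ((Nat.dvd_prime hp).1 a).resolve_left fun h1 => ?_
    have b : p ∣ Nat.card (Abelianization G) :=
      ((Nat.Prime.dvd_mul hp).1 ⟨m * B, by rw [hQ]; ring⟩).resolve_left hc
    obtain ⟨x, hx⟩ := exists_prime_orderOf_dvd_card' p b
    have : f2 x ∈ f2.range := ⟨x, rfl⟩
    rw [Subgroup.card_eq_one.1 h1, Subgroup.mem_bot] at this
    exact hp.one_lt.ne' (Nat.eq_one_of_dvd_coprimes hcop2 dvd_rfl
      (hx ▸ orderOf_dvd_of_pow_eq_one this))
  let ε : f2.range ≃* Multiplicative (ZMod p) := mulEquivOfPrimeCardEq c3 (by simp)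
  haveI : Fintype f1.range := Fintype.ofFinite _
  refine ⟨Additive f1.range, inferInstance, inferInstance, fun g =>
    ((ε (f2.rangeRestrict (Abelianization.of g))).toAdd,
      Additive.ofMul (f1.rangeRestrict (Abelianization.of g))), fun g h => ?_, ?_, ?_, ?_⟩
  · simp only [map_mul, map_inv, toAdd_mul, toAdd_inv, ofMul_mul, ofMul_inv, Prod.mk_sub_mk,
      ← sub_eq_add_neg]
  · rintro ⟨x, w⟩
    obtain ⟨q1, h1⟩ := f2.rangeRestrict_surjective (ε.symm (Multiplicative.ofAdd x))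
    obtain ⟨q2, h2⟩ := f1.rangeRestrict_surjective w.toMul
    obtain ⟨g, hg⟩ := QuotientGroup.mk_surjective (s := commutator G)
      (q1 * (q2 * q1⁻¹) ^ (p * m) ^ 2 : Abelianization G)
    have hg' : Abelianization.of g = q1 * (q2 * q1⁻¹) ^ (p * m) ^ 2 := hg
    refine ⟨g, Prod.ext ?_ ?_⟩
    · simp only [hg']
      rw [map_mul, map_pow, show (p * m) ^ 2 = p * (p * m ^ 2) by ring, pow_mul, k2, one_pow,
        mul_one, h1]
      simp
    · simp only [hg']
      have : f1.rangeRestrict (q1 * (q2 * q1⁻¹) ^ (p * m) ^ 2) = f1.rangeRestrict q2 := by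
        ext
        simp only [MonoidHom.coe_rangeRestrict, hf1, powMonoidHom_apply]
        rw [he, pow_add, pow_one, ← mul_assoc, mul_pow, ← pow_mul,
          show B * e * (p * m) = p * m * B * e by ring, pow_mul _ (p * m * B), hkill, one_pow, mul_one,
          mul_comm q2, mul_inv_cancel_left]
      rw [this, h2]; rfl
  · rw [← Nat.card_eq_fintype_card]; exact c1
  · have a := f1.ker.card_mul_index
    rw [Subgroup.index_ker] at a
    have b : Fintype.card (Additive f1.range) = Nat.card f1.range := by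
      rw [← Nat.card_eq_fintype_card]; rfl
    rw [hG, ← hQ, ← a, b, mul_assoc]
    gcongr
    exact Nat.le_of_dvd (Nat.pos_of_ne_zero fun h0 => by
      rw [h0] at he; simp at he; omega) c2

end Pool.Agent.P.MP_e9cc94_co.Pl
end
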