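import Pool.Agent.K.MP_e9cc94_co.C4
import Mathlib

-- part Pool.Agent.P.MP_e9cc94_co.A2G
section

set_option autoImplicit false

namespace PellDS.A2
open Finset

def ep (e : Bool) : ZMod 3 := if e then 1 else 2
def EE (e : Bool) (a : ZMod 4) : ZMod 3 := ep e ^ a.val
def FF (a : ZMod 4) : ZMod 5 := 2 ^ a.val

theorem EE_add : ∀ (e : Bool) (a b : ZMod 4), EE e (a + b) = EE e a * EE e b := by decide
theorem FF_add : ∀ a b : ZMod 4, FF (a + b) = FF a * FF b := by decide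
theorem EE_zero (e : Bool) : EE e 0 = 1 := rfl
theorem FF_zero : FF 0 = 1 := rfl

/-- the quotient of order 60 -/
def Gm (_e : Bool) : Type := ZMod 4 × ZMod 3 × ZMod 5

variable {e : Bool}

instance : Fintype (Gm e) := inferInstanceAs (Fintype (ZMod 4 × ZMod 3 × ZMod 5))
instance : DecidableEq (Gm e) := inferInstanceAs (DecidableEq (ZMod 4 × ZMod 3 × ZMod 5))
instance : Mul (Gm e) :=
  ⟨fun p q => (p.1 + q.1, p.2.1 + EE e p.1 * q.2.1, p.2.2 + FF p.1 * q.2.2)⟩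
instance : One (Gm e) := ⟨((0 : ZMod 4), (0 : ZMod 3), (0 : ZMod 5))⟩
instance : Inv (Gm e) := ⟨fun p => (-p.1, -(EE e (-p.1) * p.2.1), -(FF (-p.1) * p.2.2))⟩

def mg (e : Bool) (a : ZMod 4) (b : ZMod 3) (z : ZMod 5) : Gm e := (a, b, z)

theorem mul_a (p q : Gm e) : (p * q).1 = p.1 + q.1 := rfl
theorem mul_b (p q : Gm e) : (p * q).2.1 = p.2.1 + EE e p.1 * q.2.1 := rfl
theorem mul_z (p q : Gm e) : (p * q).2.2 = p.2.2 + FF p.1 * q.2.2 := rfl
theorem Gm.ext' {p q : Gm e} (h1 : p.1 = q.1) (h2 : p.2.1 = q.2.1) (h3 : p.2.2 = q.2.2) : p = q :=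
  Prod.ext h1 (Prod.ext h2 h3)

instance : Group (Gm e) :=
  Group.ofLeftAxioms
    (fun p q r => Gm.ext' (by simp only [mul_a]; ring)
      (by simp only [mul_a, mul_b, EE_add]; ring) (by simp only [mul_a, mul_z, FF_add]; ring))
    (fun p => Gm.ext' (zero_add _)
      (show (0 : ZMod 3) + EE e 0 * p.2.1 = p.2.1 by rw [EE_zero]; ring)
      (show (0 : ZMod 5) + FF 0 * p.2.2 = p.2.2 by rw [FF_zero]; ring))
    (fun p => Gm.ext' (neg_add_cancel _)
      (show -(EE e (-p.1) * p.2.1) + EE e (-p.1) * p.2.1 = 0 by ring)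
      (show -(FF (-p.1) * p.2.2) + FF (-p.1) * p.2.2 = 0 by ring))

theorem div_a (p q : Gm e) : (p * q⁻¹).1 = p.1 - q.1 := (sub_eq_add_neg _ _).symm
theorem div_b (p q : Gm e) : (p * q⁻¹).2.1 = p.2.1 - EE e (p.1 - q.1) * q.2.1 := by
  show p.2.1 + EE e p.1 * -(EE e (-q.1) * q.2.1) = _
  rw [sub_eq_add_neg p.1, EE_add]; ring
theorem div_z (p q : Gm e) : (p * q⁻¹).2.2 = p.2.2 - FF (p.1 - q.1) * q.2.2 := by
  show p.2.2 + FF p.1 * -(FF (-q.1) * q.2.2) = _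
  rw [sub_eq_add_neg p.1, FF_add]; ring

theorem sum_Gm {R : Type} [AddCommMonoid R] (f : Gm e → R) :
    ∑ p, f p = ∑ a, ∑ b, ∑ z, f (mg e a b z) := by
  have := Fintype.sum_prod_type (α₁ := ZMod 4) (α₂ := ZMod 3 × ZMod 5) f
  refine this.trans (Finset.sum_congr rfl fun a _ => ?_)
  rw [Fintype.sum_prod_type]; rfl

/-- the image of a difference set in the quotient of order 60 -/
structure Sol (X : Gm e → ℕ) : Prop where
  le : ∀ p, X p ≤ 2
  tot : ∑ p, X p = 35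
  eqn : ∀ {R : Type} [CommSemiring R] (φ : Gm e → R),
    ∑ p, ∑ q, (X p : R) * (X q : R) * φ (p * q⁻¹) = 25 * φ 1 + 20 * ∑ p, φ p

theorem Sol.tr {X : Gm e → ℕ} (h : Sol X) (g k : Gm e) : Sol fun p => X (g * p * k) := by
  let T : Gm e ≃ Gm e := (Equiv.mulLeft g).trans (Equiv.mulRight k)
  let C : Gm e ≃ Gm e := (Equiv.mulLeft g⁻¹).trans (Equiv.mulRight g)
  refine ⟨fun p => h.le _, (Equiv.sum_comp T X).trans h.tot, fun φ => ?_⟩
  have h1 := h.eqn (fun p => φ (C p))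
  rw [Equiv.sum_comp C φ, show C 1 = 1 by simp [C], ← Equiv.sum_comp T] at h1
  rw [← h1]
  refine Finset.sum_congr rfl fun p _ => ?_
  refine Eq.trans ?_ (Equiv.sum_comp T _)
  refine Finset.sum_congr rfl fun q _ => ?_
  have : C (T p * (T q)⁻¹) = p * q⁻¹ := by simp [C, T]; group
  rw [this]; rfl

theorem Sol.bil {X : Gm e → ℕ} (h : Sol X) {R : Type} [CommSemiring R] {κ : Type} [Fintype κ]
    (φ : Gm e → R) (α β : κ → Gm e → R) (hφ : ∀ p q, φ (p * q⁻¹) = ∑ k, α k p * β k q) :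
    ∑ k, (∑ p, (X p : R) * α k p) * (∑ q, (X q : R) * β k q) = 25 * φ 1 + 20 * ∑ p, φ p := by
  rw [← h.eqn φ]
  simp only [Finset.sum_mul_sum]
  simp only [hφ, Finset.mul_sum]
  rw [Finset.sum_comm]
  refine Finset.sum_congr rfl fun p _ => ?_
  rw [Finset.sum_comm]
  refine Finset.sum_congr rfl fun q _ => Finset.sum_congr rfl fun k _ => by ring

theorem sum_push {G H R : Type} [Fintype H] [DecidableEq H] [CommSemiring R] (S : Finset G)
    (f : G → H) (ψ : H → R) :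
    ∑ d ∈ S, ψ (f d) = ∑ p, ((S.filter fun d => f d = p).card : R) * ψ p := by
  rw [← Finset.sum_fiberwise (s := S) (g := f)]
  refine Finset.sum_congr rfl fun p _ => ?_
  rw [Finset.sum_congr rfl (g := fun _ => ψ p) fun d hd => by rw [(mem_filter.1 hd).2],
    Finset.sum_const, nsmul_eq_mul]

variable {G : Type} [Group G] [Fintype G] [DecidableEq G] {D : Finset G}

theorem exists_sol (h : DS D) {j : G → ZMod 8} {u : G → ZMod 3} {y : G → ZMod 5}
    (c : Coord (ep e) 2 j u y) : ∃ X : Gm e → ℕ, Sol X := by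
  let ca : ZMod 8 → ZMod 4 := fun a => (a.val : ZMod 4)
  have ca_add : ∀ a b, ca (a + b) = ca a + ca b := by decide
  have hE : ∀ (e : Bool) a, EE e (ca a) = ep e ^ a.val := by decide
  have hF : ∀ a, FF (ca a) = 2 ^ a.val := by decide
  let f : G →* Gm e := MonoidHom.mk' (fun g => mg e (ca (j g)) (u g) (y g)) fun g k =>
    Gm.ext' (by show ca (j (g * k)) = ca (j g) + ca (j k); rw [c.jm, ca_add])
      (by show u (g * k) = u g + EE e (ca (j g)) * u k; rw [c.um, hE])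
      (by show y (g * k) = y g + FF (ca (j g)) * y k; rw [c.ym, hF])
  have fib : ∀ p, (univ.filter fun g => f g = p).card = 2 := by
    intro p
    rw [Finset.card_filter]
    have := c.sum (fun a b z => if mg e (ca a) b z = p then 1 else 0)
    refine this.trans ?_
    have key : ∀ p : ZMod 4 × ZMod 3 × ZMod 5, (∑ a : ZMod 8, ∑ b : ZMod 3, ∑ z : ZMod 5,
        if (ca a, b, z) = p then 1 else 0) = 2 := by decide +kernel
    exact key p
  refine ⟨fun p => (D.filter fun d => f d = p).card, fun p => ?_, ?_, fun {R} _ φ => ?_⟩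
  · rw [← fib p]; exact card_le_card (filter_subset_filter _ (subset_univ D))
  · rw [← h.1]; exact (Finset.card_eq_sum_card_fiberwise (f := f) (fun _ _ => mem_univ _)).symm
  · have h1 := h.sum (fun g => φ (f g))
    simp only [map_mul, map_inv, map_one] at h1
    rw [sum_push univ f φ] at h1
    simp only [fib] at h1
    rw [sum_push D f (fun p => ∑ d ∈ D, φ (p * (f d)⁻¹))] at h1
    have h2 : ∀ p : Gm e, ∑ d ∈ D, φ (p * (f d)⁻¹) =
        ∑ q, ((D.filter fun d => f d = q).card : R) * φ (p * q⁻¹) :=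
      fun p => sum_push D f (fun q => φ (p * q⁻¹))
    simp only [h2, Finset.mul_sum, ← mul_assoc] at h1
    rw [h1, ← Finset.mul_sum, nsmul_eq_mul, nsmul_eq_mul]
    push_cast; ring

end PellDS.A2
end

-- part Pool.Agent.P.MP_e9cc94_co.A2B
section

set_option autoImplicit false

namespace PellDS.A2
open Finset

variable {e : Bool}

def cc (X : Gm e → ℕ) (a : ZMod 4) (z : ZMod 5) : ℕ := ∑ b, X (mg e a b z)
def rr (X : Gm e → ℕ) (a : ZMod 4) (b : ZMod 3) : ℕ := ∑ z, X (mg e a b z)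
def tt (X : Gm e → ℕ) (a : ZMod 4) : ℕ := ∑ z, cc X a z
def MM (X : Gm e → ℕ) (i k : ZMod 5) : ℕ := ∑ a, cc X a (i - FF a * k)

theorem tt_eq (X : Gm e → ℕ) (a : ZMod 4) : tt X a = ∑ b, rr X a b := Finset.sum_comm

theorem fib_a (X : Gm e → ℕ) {R : Type} [CommSemiring R] (a : ZMod 4) (f : ZMod 3 → ZMod 5 → R) :
    ∑ p : Gm e, (X p : R) * (if p.1 = a then f p.2.1 p.2.2 else 0) =
      ∑ b, ∑ z, (X (mg e a b z) : R) * f b z := by
  rw [sum_Gm, Finset.sum_eq_single a]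
  · simp [mg]
  · intro a' _ h; simp [mg, h]
  · simp

theorem Sol.cos {X : Gm e → ℕ} (h : Sol X) {R : Type} [CommSemiring R] {κ : Type} [Fintype κ]
    (a0 : ZMod 4) (φ : ZMod 3 → ZMod 5 → R) (α β : κ → ZMod 3 → ZMod 5 → R)
    (hφ : ∀ b z b' z', φ (b - EE e a0 * b') (z - FF a0 * z') = ∑ k, α k b z * β k b' z') :
    ∑ a, ∑ k, (∑ b, ∑ z, (X (mg e (a + a0) b z) : R) * α k b z) *
      (∑ b, ∑ z, (X (mg e a b z) : R) * β k b z) =
      (if a0 = 0 then 25 * φ 0 0 else 0) + 20 * ∑ b, ∑ z, φ b z := by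
  have := h.bil (κ := ZMod 4 × κ) (fun p => if p.1 = a0 then φ p.2.1 p.2.2 else 0)
    (fun k p => if p.1 = k.1 + a0 then α k.2 p.2.1 p.2.2 else 0)
    (fun k q => if q.1 = k.1 then β k.2 q.2.1 q.2.2 else 0) (by
      intro p q
      rw [Fintype.sum_prod_type, Finset.sum_eq_single q.1]
      · simp only [div_a, div_b, div_z, if_true]
        by_cases hp : p.1 = q.1 + a0
        · have : p.1 - q.1 = a0 := by rw [hp]; ring
          simp only [this, if_true, if_pos hp, hφ]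
        · rw [if_neg (fun hh => hp (by rw [← hh]; ring))]
          simp [hp]
      · intro a _ ha; simp [Ne.symm ha]
      · simp)
  simp only [fib_a] at this
  rw [Fintype.sum_prod_type] at this
  rw [this]
  congr 1
  · show 25 * (if (0 : ZMod 4) = a0 then φ 0 0 else 0) = _
    by_cases h0 : a0 = 0
    · simp [h0]
    · simp [h0, Ne.symm h0]
  · have := fib_a (e := e) (fun _ => 1) a0 φ
    simp only [Nat.cast_one, one_mul] at this
    rw [this]

variable {X : Gm e → ℕ}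

theorem Sol.tt_tot (h : Sol X) : ∑ a, tt X a = 35 := by
  rw [← h.tot, sum_Gm]; simp only [tt_eq, rr]

theorem Sol.tt_eqn (h : Sol X) (s : ZMod 4) :
    ∑ a, tt X (a + s) * tt X a = (if s = 0 then 25 else 0) + 300 := by
  have := h.cos (R := ℕ) (κ := Unit) s (fun _ _ => 1) (fun _ _ _ => 1) (fun _ _ _ => 1) (by simp)
  simpa [tt_eq, rr] using this

theorem Sol.rr_eqn (h : Sol X) (a0 : ZMod 4) (b0 : ZMod 3) :
    ∑ a, ∑ b, rr X (a + a0) (b0 + EE e a0 * b) * rr X a b =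
      (if a0 = 0 ∧ b0 = 0 then 25 else 0) + 100 := by
  have := h.cos (R := ℕ) (κ := ZMod 3) a0 (fun b _ => if b = b0 then 1 else 0)
    (fun k b _ => if b = b0 + EE e a0 * k then 1 else 0) (fun k b _ => if b = k then 1 else 0) (by
      intro b z b' z'
      rw [Finset.sum_eq_single b']
      · simp only [if_true, mul_one, sub_eq_iff_eq_add]
      · intro k _ hk; simp [Ne.symm hk]
      · simp)
  have e1 : ∀ (a : ZMod 4) (c : ZMod 3), (∑ b, ∑ z, ((X (mg e a b z) : ℕ) : ℕ) *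
      (if b = c then 1 else 0)) = rr X a c := by
    intro a c
    rw [Finset.sum_eq_single c]
    · simp [rr]
    · intro b _ hb; simp [hb]
    · simp
  simp only [Nat.cast_id] at this e1
  simp only [e1] at this
  rw [this]
  have e2 : ∀ b0 : ZMod 3, (∑ b : ZMod 3, ∑ _z : ZMod 5, if b = b0 then 1 else 0) = 5 := by decide
  rw [e2]
  by_cases h1 : a0 = 0 <;> by_cases h2 : b0 = 0 <;> simp [h1, h2, eq_comm]

theorem Sol.sq (h : Sol X) : ∑ p, X p * X p = 45 := by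
  have := h.eqn (R := ℕ) (fun p => if p = 1 then 1 else 0)
  simpa [mul_inv_eq_one] using this

theorem Sol.twos (h : Sol X) : ∑ p, X p / 2 = 5 := by
  have h1 : ∀ p, X p * X p = X p + 2 * (X p / 2) := fun p => by
    have := h.le p
    generalize X p = n at this
    interval_cases n <;> rfl
  have h2 := h.sq
  simp only [h1, Finset.sum_add_distrib, h.tot, ← Finset.mul_sum] at h2
  omega

def act (p : Gm e) (k : ZMod 5) : ZMod 5 := p.2.2 + FF p.1 * k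
theorem act_mul (p q : Gm e) (k : ZMod 5) : act (p * q) k = act p (act q k) := by
  simp only [act, mul_a, mul_z, FF_add]; ring
theorem act_one (k : ZMod 5) : act (1 : Gm e) k = k := by
  show (0 : ZMod 5) + FF 0 * k = k
  rw [FF_zero]; ring

theorem MM_eq (X : Gm e → ℕ) (i k : ZMod 5) :
    ∑ p, X p * (if act p k = i then 1 else 0) = MM X i k := by
  rw [sum_Gm]
  refine Finset.sum_congr rfl fun a _ => Finset.sum_congr rfl fun b _ => ?_
  rw [Finset.sum_eq_single (i - FF a * k)]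
  · simp [act, mg]
  · intro z _ hz
    rw [if_neg, mul_zero]
    intro hh; apply hz; rw [← hh]; simp [act, mg]
  · simp

theorem Sol.MM_eqn (h : Sol X) (i i' : ZMod 5) :
    ∑ k, MM X i k * MM X i' k = (if i = i' then 25 else 0) + 240 := by
  have := h.bil (R := ℕ) (κ := ZMod 5) (fun p => if act p i' = i then 1 else 0)
    (fun k p => if act p k = i then 1 else 0) (fun k q => if act q k = i' then 1 else 0) (by
      intro p q
      rw [Finset.sum_eq_single (act q⁻¹ i')]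
      · rw [← act_mul, ← act_mul, mul_inv_cancel, act_one]; simp
      · intro k _ hk
        rw [if_neg (c := act q k = i'), mul_zero]
        intro hh; apply hk; rw [← hh, ← act_mul, inv_mul_cancel, act_one]
      · simp)
  simp only [Nat.cast_id, MM_eq, act_one] at this
  rw [this]
  have e1 := MM_eq (e := e) (fun _ => 1) i i'
  simp only [one_mul] at e1
  rw [e1]
  by_cases hi : i = i'
  · simp [hi, MM, cc]
  · simp [hi, Ne.symm hi, MM, cc]

theorem sum_aff5 (f : ZMod 5 → ℕ) (c m : ZMod 5) (hm : m ≠ 0) : ∑ z, f (c + m * z) = ∑ z, f z := by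
  have : ∀ c m : ZMod 5, m ≠ 0 → Function.Bijective fun z => c + m * z := by decide
  exact (this c m hm).sum_comp f
theorem sum_aff3 (f : ZMod 3 → ℕ) (c m : ZMod 3) (hm : m ≠ 0) : ∑ z, f (c + m * z) = ∑ z, f z := by
  have : ∀ c m : ZMod 3, m ≠ 0 → Function.Bijective fun z => c + m * z := by decide
  exact (this c m hm).sum_comp f
theorem FF_ne : ∀ a, FF a ≠ 0 := by decide
theorem EE_ne : ∀ e a, EE e a ≠ 0 := by decide

theorem Sol.MM_row (h : Sol X) (i : ZMod 5) : ∑ k, MM X i k = 35 := by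
  rw [← h.tt_tot]
  simp only [MM]
  rw [Finset.sum_comm]
  refine Finset.sum_congr rfl fun a _ => ?_
  have := sum_aff5 (cc X a) i (-FF a) (neg_ne_zero.2 (FF_ne a))
  simp only [neg_mul, ← sub_eq_add_neg] at this
  exact this

theorem Sol.cc_le (h : Sol X) (a : ZMod 4) (z : ZMod 5) : cc X a z ≤ 6 := by
  have := Finset.sum_le_card_nsmul univ (fun b => X (mg e a b z)) 2 fun b _ => h.le _
  simpa [cc] using this

theorem Sol.MM_cc (h : Sol X) (j : ZMod 4) (y : ZMod 5) :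
    ∑ k, MM X (y + FF j * k) k + tt X j = 5 * cc X j y + 35 := by
  have hne : ∀ a j : ZMod 4, a ≠ j → FF j - FF a ≠ 0 := by decide
  simp only [MM]
  rw [Finset.sum_comm, ← h.tt_tot, ← Finset.add_sum_erase _ _ (mem_univ j),
    ← Finset.add_sum_erase _ (tt X) (mem_univ j)]
  have e1 : ∑ k, cc X j (y + FF j * k - FF j * k) = 5 * cc X j y := by simp
  have e2 : ∑ a ∈ univ.erase j, ∑ k, cc X a (y + FF j * k - FF a * k) =
      ∑ a ∈ univ.erase j, tt X a := by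
    refine Finset.sum_congr rfl fun a ha => ?_
    rw [tt, ← sum_aff5 (cc X a) y (FF j - FF a) (hne a j (mem_erase.1 ha).1)]
    exact Finset.sum_congr rfl fun k _ => by congr 1; ring
  rw [e1, e2]; ring

/-- two-sided translation -/
def trl (X : Gm e → ℕ) (g k : Gm e) : Gm e → ℕ := fun p => X (g * p * k)

theorem mg_mul (a a' : ZMod 4) (b b' : ZMod 3) (z z' : ZMod 5) :
    mg e a b z * mg e a' b' z' = mg e (a + a') (b + EE e a * b') (z + FF a * z') := rfl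

theorem cc_trl (X : Gm e → ℕ) (s s' : ZMod 4) (x y : ZMod 3) (c d : ZMod 5) (a : ZMod 4)
    (z : ZMod 5) : cc (trl X (mg e s x c) (mg e s' y d)) a z =
      cc X (s + a + s') (c + FF s * z + FF (s + a) * d) := by
  simp only [cc, trl, mg_mul]
  rw [← sum_aff3 (fun b => X (mg e (s + a + s') b (c + FF s * z + FF (s + a) * d)))
    (x + EE e (s + a) * y) (EE e s) (EE_ne e s)]
  exact Finset.sum_congr rfl fun b _ => by congr 2; ring

theorem tt_trl (X : Gm e → ℕ) (s s' : ZMod 4) (x y : ZMod 3) (c d : ZMod 5) (a : ZMod 4) :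
    tt (trl X (mg e s x c) (mg e s' y d)) a = tt X (s + a + s') := by
  simp only [tt, cc_trl]
  rw [← sum_aff5 (cc X (s + a + s')) (c + FF (s + a) * d) (FF s) (FF_ne s)]
  exact Finset.sum_congr rfl fun b _ => by congr 1; ring

theorem MM_trl (X : Gm e → ℕ) (s : ZMod 4) (x y : ZMod 3) (c d i k : ZMod 5) :
    MM (trl X (mg e s x c) (mg e (-s) y (-(FF (-s) * d)))) i k =
      MM X (FF s * i + c) (FF s * k + d) := by
  simp only [MM, cc_trl]
  refine Finset.sum_congr rfl fun a _ => ?_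
  have h1 : FF s * FF (-s) = 1 := by rw [← FF_add, add_neg_cancel, FF_zero]
  congr 1
  · ring
  · rw [FF_add]; linear_combination (-(FF a * d)) * h1

theorem rr_trl (X : Gm e → ℕ) (x y : ZMod 3) (a : ZMod 4) (b : ZMod 3) :
    rr (trl X (mg e 0 x 0) (mg e 0 y 0)) a b = rr X a (b + x + EE e a * y) := by
  simp only [rr, trl, mg_mul, EE_zero, FF_zero, zero_add, add_zero, one_mul, mul_zero, add_comm x b]

end PellDS.A2
end

-- part Pool.Agent.P.MP_e9cc94_co.A2K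
section

set_option autoImplicit false

namespace PellDS.A2

structure R5 where
  (a b c d e : ℕ)
structure R3 where
  (a b c : ℕ)
structure Rc where
  (P Q n w Z : ℕ)
structure Pr where
  k : ℕ
  x : Rc
  y : Rc

noncomputable section

def frc {α : Type} (n : ℕ) (f : ℕ → α) : α := Nat.rec (f 0) (fun m _ => f (Nat.succ m)) n
def al {α : Type} (f : α → Bool) (l : List α) : Bool :=
  List.rec true (fun a _ ih => Bool.rec false ih (f a)) l
def an {α : Type} (f : α → Bool) (l : List α) : Bool :=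
  List.rec false (fun a _ ih => Bool.rec ih true (f a)) l
def app {α : Type} (l r : List α) : List α := List.rec r (fun a _ ih => a :: ih) l
def flat {α β : Type} (f : α → List β) (l : List α) : List β :=
  List.rec [] (fun a _ ih => app (f a) ih) l
def filt {α : Type} (f : α → Bool) (l : List α) : List α :=
  List.rec [] (fun a _ ih => Bool.rec ih (a :: ih) (f a)) l
def mp {α β : Type} (f : α → β) (l : List α) : List β := List.rec [] (fun a _ ih => f a :: ih) l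
def fld {α : Type} (f : ℕ → α → ℕ) (l : List α) : ℕ → ℕ :=
  List.rec (fun z => z) (fun a _ ih z => frc (f z a) ih) l
def orr (a b : Bool) : Bool := Bool.rec b true a
def andd (a b : Bool) : Bool := Bool.rec false b a

def pp : ℕ := nat_lit 2147482951
def om1 : ℕ := nat_lit 2102522372
def om2 : ℕ := nat_lit 44960578
def lam : ℕ := nat_lit 1234567

def ev (x : R5) (p q r s : ℕ) : ℕ :=
  ((((x.a.add (x.b.mul p)).add (x.c.mul q)).add (x.d.mul r)).add (x.e.mul s)).mod pp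
def e1 (x : R5) : ℕ :=
  ev x (nat_lit 1025815503) (nat_lit 1004659767) (nat_lit 1920893789) (nat_lit 343596842)
def e4 (x : R5) : ℕ :=
  ev x (nat_lit 343596842) (nat_lit 1920893789) (nat_lit 1004659767) (nat_lit 1025815503)
def e3 (x : R5) : ℕ :=
  ev x (nat_lit 1920893789) (nat_lit 1025815503) (nat_lit 343596842) (nat_lit 1004659767)
def cmb (a b c u v : ℕ) : ℕ := ((a.add (b.mul u)).add (c.mul v)).mod pp
def tw (x : R5) : ℕ :=
  ((((x.a.div 2).add (x.b.div 2)).add (x.c.div 2)).add (x.d.div 2)).add (x.e.div 2)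
def R5.sm (x : R5) : ℕ := (((x.a.add x.b).add x.c).add x.d).add x.e

def mkRc (u v : ℕ) (x y z : R5) : Rc :=
  frc (e1 x) fun a => frc (e1 y) fun b => frc (e1 z) fun c =>
  frc (cmb a b c om1 om2) fun P =>
  frc (((cmb a b c om2 om1).mul lam).mod pp) fun Q =>
  frc ((P.mul (cmb (e4 x) (e4 y) (e4 z) om2 om1)).mod pp) fun n =>
  frc (((tw x).add (tw y)).add (tw z)) fun w =>
  ⟨P, Q, n, w, cmb (e3 x) (e3 y) (e3 z) u v⟩

def all243 : List R5 :=
  flat (fun a => flat (fun b => flat (fun c => flat (fun d => mp (fun e => ⟨a, b, c, d, e⟩)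
    [0, 1, 2]) [0, 1, 2]) [0, 1, 2]) [0, 1, 2]) [0, 1, 2]
def rowsBy (s : ℕ) : List R5 := filt (fun x => x.sm.beq s) all243
def fit (c x y : ℕ) : Bool := andd ((x.add y).ble c) (c.ble ((x.add y).add 2))
def fits (c x y : R5) : Bool :=
  andd (fit c.a x.a y.a) (andd (fit c.b x.b y.b) (andd (fit c.c x.c y.c)
    (andd (fit c.d x.d y.d) (fit c.e x.e y.e))))
def rest (c x y : R5) : R5 :=
  ⟨c.a.sub (x.a.add y.a), c.b.sub (x.b.add y.b), c.c.sub (x.c.add y.c), c.d.sub (x.d.add y.d),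
    c.e.sub (x.e.add y.e)⟩
def lst1 (u v : ℕ) (c : R5) (A B : List R5) : List Rc :=
  flat (fun x => mp (fun y => mkRc u v x y (rest c x y)) (filt (fits c x) B)) A
def lst (u v : ℕ) (c : R5) (r : R3) : List Rc := lst1 u v c (rowsBy r.a) (rowsBy r.b)

def key (a b : Rc) : ℕ := (((a.n.add b.n).add ((b.P.mul a.Q).add (a.P.mul b.Q)))).mod pp
def mkE (a b : Rc) : Pr := frc (key a b) fun k => ⟨k, a, b⟩
def mkO (a b : Rc) : Pr := frc (((pp.add 25).sub (key a b)).mod pp) fun k => ⟨k, a, b⟩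
def cls (L : List Rc) (k : ℕ) : List Rc := filt (fun r => r.w.beq k) L
def prs1 (mk : Rc → Rc → Pr) (A B : List Rc) : List (List Pr) := mp (fun a => mp (mk a) B) A
def prs (mk : Rc → Rc → Pr) (A B : List Rc) (s : ℕ) : List (List Pr) :=
  flat (fun k => prs1 mk (cls A k) (cls B (s.sub k))) (filt (fun k => k.ble s) [0, 1, 2, 3, 4, 5])

def h1 (k : ℕ) : ℕ := k.mod (nat_lit 16384)
def h2 (k : ℕ) : ℕ := (k.div (nat_lit 16384)).mod (nat_lit 16384)
def ins (z : ℕ) (x : Pr) : ℕ := z.lor (((nat_lit 1).shiftLeft (h1 x.k)).lor ((nat_lit 1).shiftLeft (h2 x.k)))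
def bits (L : List Pr) (z : ℕ) : ℕ := fld ins L z
def bits2 (L : List (List Pr)) : ℕ := fld (fun z l => bits l z) L 0
def tb (b i : ℕ) : Bool := ((b.shiftRight i).land (nat_lit 1)).beq (nat_lit 1)
def hit (b : ℕ) (x : Pr) : Bool := andd (tb b (h1 x.k)) (tb b (h2 x.k))
def emp {α : Type} (L : List α) : Bool := List.rec true (fun _ _ _ => false) L
def ok3 (e o : Pr) : Bool :=
  Bool.rec true (Nat.ble 1 (((((o.x.P.mul e.x.Z).add (e.y.P.mul o.x.Z)).add (o.y.P.mul e.y.Z)).add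
    (e.x.P.mul o.y.Z)).mod pp)) (e.k.beq o.k)
def join3 (E O : List Pr) : Bool := al (fun e => al (ok3 e) O) E
def join2 (E : List Pr) (O : List (List Pr)) : Bool :=
  frc (bits E 0) fun b => join3 E (flat (filt (hit b)) O)
def join (E O : List (List Pr)) : Bool :=
  orr (al emp E) (orr (al emp O) (frc (bits2 O) fun b => join2 (flat (filt (hit b)) E) O))
def chk4 (L0 L1 L2 L3 : List Rc) : Bool :=
  al (fun s => join (prs mkE L0 L2 s) (prs mkO L1 L3 (Nat.sub 5 s))) [0, 1, 2, 3, 4, 5]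
def R3.sm (x : R3) : ℕ := (x.a.add x.b).add x.c

structure C4 where
  (c0 c1 c2 c3 : R5)
structure T4 where
  (r0 r1 r2 r3 : R3)

def chk (u v : ℕ) (c : C4) (r : T4) : Bool :=
  Bool.rec true (chk4 (lst u v c.c0 r.r0) (lst u v c.c1 r.r1) (lst u v c.c2 r.r2) (lst u v c.c3 r.r3))
    (c.c0.sm.beq r.r0.sm)

end

end PellDS.A2
end

-- part Pool.Agent.P.MP_e9cc94_co.A2L
section

set_option autoImplicit false

namespace PellDS.A2

def Creps : List C4 :=
  [⟨⟨0,2,3,3,2⟩,⟨1,3,3,1,2⟩,⟨2,3,0,3,2⟩,⟨0,0,2,1,2⟩⟩,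
   ⟨⟨0,1,2,3,2⟩,⟨0,2,4,1,2⟩,⟨2,4,1,3,2⟩,⟨1,1,1,1,2⟩⟩,
   ⟨⟨0,3,2,2,3⟩,⟨2,1,3,3,1⟩,⟨0,2,3,3,2⟩,⟨1,2,0,0,2⟩⟩,
   ⟨⟨2,1,2,4,3⟩,⟨0,2,4,1,2⟩,⟨0,3,1,2,2⟩,⟨1,2,1,1,1⟩⟩,
   ⟨⟨2,2,2,4,2⟩,⟨1,1,5,1,1⟩,⟨0,2,2,2,2⟩,⟨1,2,1,1,1⟩⟩,
   ⟨⟨0,2,2,2,2⟩,⟨1,1,1,1,5⟩,⟨2,2,4,2,2⟩,⟨1,1,1,2,1⟩⟩,
   ⟨⟨2,1,3,3,1⟩,⟨1,2,2,1,4⟩,⟨1,3,2,3,1⟩,⟨0,0,1,3,1⟩⟩,
   ⟨⟨1,2,4,2,1⟩,⟨1,2,1,3,3⟩,⟨1,2,2,1,4⟩,⟨1,2,0,0,2⟩⟩,
   ⟨⟨2,2,2,2,2⟩,⟨2,2,2,2,2⟩,⟨1,1,1,1,6⟩,⟨1,1,1,1,1⟩⟩,
   ⟨⟨2,2,1,4,1⟩,⟨2,1,3,3,1⟩,⟨2,1,1,2,4⟩,⟨0,2,1,2,0⟩⟩,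
   ⟨⟨1,3,2,3,1⟩,⟨4,1,2,2,1⟩,⟨1,2,1,3,3⟩,⟨0,0,1,3,1⟩⟩,
   ⟨⟨2,2,2,2,2⟩,⟨1,1,6,1,1⟩,⟨2,2,2,2,2⟩,⟨1,1,1,1,1⟩⟩,
   ⟨⟨2,2,2,2,2⟩,⟨2,2,2,2,2⟩,⟨2,2,2,2,2⟩,⟨0,0,0,5,0⟩⟩,
   ⟨⟨1,6,1,1,1⟩,⟨2,2,2,2,2⟩,⟨2,2,2,2,2⟩,⟨1,1,1,1,1⟩⟩]
def Rp : List T4 :=
  [⟨⟨1,1,6⟩,⟨3,3,3⟩,⟨4,4,4⟩,⟨2,2,2⟩⟩,
   ⟨⟨2,2,6⟩,⟨4,4,2⟩,⟨3,3,4⟩,⟨1,1,3⟩⟩,
   ⟨⟨3,3,4⟩,⟨4,4,2⟩,⟨2,2,6⟩,⟨1,1,3⟩⟩,
   ⟨⟨4,4,4⟩,⟨3,3,3⟩,⟨1,1,6⟩,⟨2,2,2⟩⟩]
def Rm : List T4 :=
  [⟨⟨1,1,6⟩,⟨3,3,3⟩,⟨4,4,4⟩,⟨2,2,2⟩⟩,
   ⟨⟨1,3,4⟩,⟨2,3,4⟩,⟨4,2,6⟩,⟨3,2,1⟩⟩,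
   ⟨⟨1,3,4⟩,⟨2,4,3⟩,⟨4,2,6⟩,⟨3,1,2⟩⟩,
   ⟨⟨1,4,3⟩,⟨2,3,4⟩,⟨4,6,2⟩,⟨3,2,1⟩⟩,
   ⟨⟨1,4,3⟩,⟨2,4,3⟩,⟨4,6,2⟩,⟨3,1,2⟩⟩,
   ⟨⟨1,3,6⟩,⟨3,3,4⟩,⟨4,2,4⟩,⟨2,2,1⟩⟩,
   ⟨⟨1,6,3⟩,⟨3,3,4⟩,⟨4,4,2⟩,⟨2,2,1⟩⟩,
   ⟨⟨2,2,6⟩,⟨2,4,4⟩,⟨3,3,4⟩,⟨3,1,1⟩⟩,
   ⟨⟨2,4,4⟩,⟨3,3,4⟩,⟨3,1,6⟩,⟨2,2,1⟩⟩,
   ⟨⟨2,4,4⟩,⟨3,3,4⟩,⟨3,6,1⟩,⟨2,2,1⟩⟩,
   ⟨⟨3,3,4⟩,⟨2,4,4⟩,⟨2,2,6⟩,⟨3,1,1⟩⟩,
   ⟨⟨2,4,6⟩,⟨2,3,4⟩,⟨3,1,4⟩,⟨3,2,1⟩⟩,
   ⟨⟨2,4,6⟩,⟨2,4,3⟩,⟨3,1,4⟩,⟨3,1,2⟩⟩,
   ⟨⟨2,6,4⟩,⟨2,3,4⟩,⟨3,4,1⟩,⟨3,2,1⟩⟩,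
   ⟨⟨2,6,4⟩,⟨2,4,3⟩,⟨3,4,1⟩,⟨3,1,2⟩⟩,
   ⟨⟨4,4,4⟩,⟨3,3,3⟩,⟨1,1,6⟩,⟨2,2,2⟩⟩]

structure M5 where
  (r0 r1 r2 r3 r4 : R5)

noncomputable section

def sel5 {α : Type} (a b c d e : α) (k : ℕ) : α :=
  Nat.rec a (fun k _ => Nat.rec b (fun k _ => Nat.rec c (fun k _ => Nat.rec d (fun _ _ => e) k) k) k) k
def R5.get (x : R5) (k : ℕ) : ℕ := sel5 x.a x.b x.c x.d x.e k
def R3.get (x : R3) (k : ℕ) : ℕ := sel5 x.a x.b x.c 0 0 k
def M5.row (m : M5) (i : ℕ) : R5 := sel5 m.r0 m.r1 m.r2 m.r3 m.r4 i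
def C4.row (m : C4) (i : ℕ) : R5 := sel5 m.c0 m.c1 m.c2 m.c3 m.c3 i
def T4.row (m : T4) (i : ℕ) : R3 := sel5 m.r0 m.r1 m.r2 m.r3 m.r3 i
def sm (f : ℕ → ℕ) (l : List ℕ) : ℕ := List.rec 0 (fun a _ ih => (f a).add ih) l
def hor (f : ℕ → ℕ) (l : List ℕ) : ℕ := List.rec 0 (fun a _ ih => (f a).add (ih.mul 16)) l
def nt (a : Bool) : Bool := Bool.rec true false a
def imp (a b : Bool) : Bool := Bool.rec true b a
def l3 : List ℕ := [0, 1, 2]
def l4 : List ℕ := [0, 1, 2, 3]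
def l5 : List ℕ := [0, 1, 2, 3, 4]

/-! the level of order 4 -/
def T3 : List R5 := [⟨8, 9, 12, 6, 0⟩, ⟨10, 10, 10, 5, 0⟩, ⟨12, 9, 8, 6, 0⟩]
def kt (t : R5) (s : ℕ) : ℕ := hor (fun a => t.get ((a.add s).mod 4)) l4
def teq (t : R5) (s : ℕ) : ℕ := sm (fun a => (t.get ((a.add s).mod 4)).mul (t.get a)) l4
def R5.eqb (x y : R5) : Bool :=
  andd (x.a.beq y.a) (andd (x.b.beq y.b) (andd (x.c.beq y.c) (andd (x.d.beq y.d) (x.e.beq y.e))))
def tOK (t : R5) : Bool :=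
  imp ((teq t 0).beq 325) (imp ((teq t 1).beq 300) (imp ((teq t 2).beq 300)
    (imp (al (fun s => (kt t 0).ble (kt t s)) l4) (an (fun u => u.eqb t) T3))))
def chkT : Bool :=
  al (fun a => al (fun b => al (fun c => tOK ⟨a, b, c, Nat.sub 35 ((a.add b).add c), 0⟩)
    (List.range 19)) (List.range 19)) (List.range 19)

/-! the level of order 20 -/
def dot (x y : R5) : ℕ :=
  ((((x.a.mul y.a).add (x.b.mul y.b)).add (x.c.mul y.c)).add (x.d.mul y.d)).add (x.e.mul y.e)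
def mkRow (a b c d : ℕ) : R5 := ⟨a, b, c, d, Nat.sub 35 (((a.add b).add c).add d)⟩
def rowsM : List R5 :=
  flat (fun a => flat (fun b => flat (fun c => filt (fun x => (dot x x).beq 265)
    (mp (fun d => mkRow a b c d) (List.range 12))) (List.range 12)) (List.range 12)) (List.range 12)
def orth (x : R5) (l : List R5) : List R5 := filt (fun y => (dot x y).beq 240) l
def rk (x : R5) (m d : ℕ) : ℕ := hor (fun k => x.get (((m.mul k).add d).mod 5)) [4, 3, 2, 1, 0]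
def k12 (M : M5) (m b d : ℕ) : ℕ :=
  ((rk (M.row ((m.add b).mod 5)) m d).mul 1048576).add (rk (M.row (((m.mul 2).add b).mod 5)) m d)
def min0 (x : R5) : Bool :=
  al (fun s => al (fun d => (rk x 1 0).ble (rk x (Nat.pow 2 s) d)) l5) l4
def minM (M : M5) : Bool :=
  al (fun s => al (fun b => al (fun d => imp ((rk (M.row b) (Nat.pow 2 s) d).beq (rk M.r0 1 0))
    ((k12 M 1 0 0).ble (k12 M (Nat.pow 2 s) b d))) l5) l5) l4
def minM0 (M : M5) : Bool :=
  al (fun s => al (fun b => al (fun d => (rk M.r0 1 0).ble (rk (M.row b) (Nat.pow 2 s) d)) l5) l5) l4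
def sj (M : M5) (t : R5) (j y : ℕ) : ℕ :=
  (sm (fun k => (M.row ((y.add ((Nat.pow 2 j).mul k)).mod 5)).get k) l5).add (t.get j)
def cOK (M : M5) (t : R5) : Bool :=
  imp (al (fun j => al (fun y => andd (((sj M t j y).mod 5).beq 0)
      (andd (Nat.ble 35 (sj M t j y)) ((sj M t j y).ble 65))) l5) l4)
    (an (fun c => al (fun j => al (fun y =>
      ((((c.row j).get y).mul 5).add 35).beq (sj M t j y)) l5) l4) Creps)
def leafM (M : M5) : Bool := imp (minM0 M) (imp (minM M) (al (cOK M) T3))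
def lv4 (a b c d : R5) (l : List R5) : Bool := al (fun e => leafM ⟨a, b, c, d, e⟩) l
def lv3 (a b c : R5) (l : List R5) : Bool := al (fun d => lv4 a b c d (orth d l)) l
def lv2 (a b : R5) (l : List R5) : Bool := al (fun c => lv3 a b c (orth c l)) l
def lv1 (a : R5) (l : List R5) : Bool := al (fun b => lv2 a b (orth b l)) l
def lv0 (l : List R5) : Bool := al (fun a => imp (min0 a) (lv1 a (orth a l))) l
def chkM : Bool := lv0 rowsM

/-! the level of order 12 -/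
def nn (x : R3) : ℕ := ((((x.a.mul x.a).add (x.b.mul x.b)).add (x.c.mul x.c)).mul 3).sub (x.sm.mul x.sm)
def tri (s : ℕ) : List (R3 × ℕ) :=
  filt (fun p => p.2.ble 50) (flat (fun a => mp (fun b =>
    frc (s.sub (a.add b)) fun c => frc (nn ⟨a, b, c⟩) fun n => (⟨a, b, c⟩, n))
    (filt (fun b => (a.add b).ble s) (List.range 13))) (List.range 13))
def req (w : ℕ) (r : T4) (a0 b0 : ℕ) : ℕ :=
  sm (fun a => sm (fun b => ((r.row ((a.add a0).mod 4)).get
    ((b0.add ((Nat.pow w a0).mul b)).mod 3)).mul ((r.row a).get b)) l3) l4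
def kr (w : ℕ) (r : T4) (x y : ℕ) : ℕ :=
  hor (fun i => (r.row (i.div 3)).get ((((i.mod 3).add x).add ((Nat.pow w (i.div 3)).mul y)).mod 3))
    [11, 10, 9, 8, 7, 6, 5, 4, 3, 2, 1, 0]
def R3.eqb (x y : R3) : Bool := andd (x.a.beq y.a) (andd (x.b.beq y.b) (x.c.beq y.c))
def T4.eqb (x y : T4) : Bool :=
  andd (x.r0.eqb y.r0) (andd (x.r1.eqb y.r1) (andd (x.r2.eqb y.r2) (x.r3.eqb y.r3)))
def dot3 (x y : R3) : ℕ := ((x.a.mul y.a).add (x.b.mul y.b)).add (x.c.mul y.c)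
def leafR (w : ℕ) (R : List T4) (r : T4) : Bool :=
  imp (al (fun b => (req w r 1 b).beq 100) [1, 2])
    (imp (al (fun x => al (fun y => (kr w r 0 0).ble (kr w r x y)) l3) l3) (an (fun u => u.eqb r) R))
def chkR1 (w : ℕ) (R : List T4) (L0 L1 L2 L3 : List (R3 × ℕ)) : Bool :=
  al (fun p => al (fun r => frc (p.2.add r.2) fun n => imp (n.ble 50) (frc (dot3 p.1 r.1) fun d =>
    al (fun q => frc (n.add q.2) fun n => imp (n.ble 50) (frc (Nat.sub 50 n) fun m => al (fun s =>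
      imp (s.2.beq m) (imp ((d.add (dot3 q.1 s.1)).beq 50)
        (leafR w R ⟨p.1, q.1, r.1, s.1⟩))) L3)) L1)) L2) L0
def chkR (w : ℕ) (R : List T4) : Bool :=
  al (fun t => chkR1 w R (tri t.a) (tri t.b) (tri t.c) (tri t.d)) T3

end

end PellDS.A2
end

-- part Pool.Agent.P.MP_e9cc94_co.A2S
section

set_option autoImplicit false

namespace PellDS.A2

theorem frc_eq {α : Type} (n : ℕ) (f : ℕ → α) : frc n f = f n := by cases n <;> rfl
theorem orr_iff (a b : Bool) : orr a b = true ↔ a = true ∨ b = true := by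
  cases a <;> cases b <;> simp [orr]
theorem andd_iff (a b : Bool) : andd a b = true ↔ a = true ∧ b = true := by
  cases a <;> cases b <;> simp [andd]
theorem imp_iff (a b : Bool) : imp a b = true ↔ (a = true → b = true) := by
  cases a <;> cases b <;> simp [imp]
theorem al_iff {α : Type} (f : α → Bool) (l : List α) : al f l = true ↔ ∀ a ∈ l, f a = true := by
  induction l with
  | nil => simp [al]
  | cons a l ih =>
    have : al f (a :: l) = andd (f a) (al f l) := rfl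
    rw [this, andd_iff, ih]; simp
theorem an_iff {α : Type} (f : α → Bool) (l : List α) : an f l = true ↔ ∃ a ∈ l, f a = true := by
  induction l with
  | nil => simp [an]
  | cons a l ih =>
    have : an f (a :: l) = orr (f a) (an f l) := rfl
    rw [this, orr_iff, ih]; simp
theorem app_eq {α : Type} (l r : List α) : app l r = l ++ r := by
  induction l with
  | nil => rfl
  | cons a l ih => exact congrArg (a :: ·) ih
theorem mem_flat {α β : Type} (f : α → List β) (l : List α) (b : β) :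
    b ∈ flat f l ↔ ∃ a ∈ l, b ∈ f a := by
  induction l with
  | nil => simp [flat]
  | cons a l ih =>
    have : flat f (a :: l) = app (f a) (flat f l) := rfl
    rw [this, app_eq, List.mem_append, ih]; simp
theorem mem_filt {α : Type} (f : α → Bool) (l : List α) (b : α) :
    b ∈ filt f l ↔ b ∈ l ∧ f b = true := by
  induction l with
  | nil => simp [filt]
  | cons a l ih =>
    have : filt f (a :: l) = Bool.rec (filt f l) (a :: filt f l) (f a) := rfl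
    rw [this]
    cases h : f a
    · simp only [ih, List.mem_cons]
      constructor
      · exact fun h => ⟨Or.inr h.1, h.2⟩
      · rintro ⟨rfl | h1, h2⟩
        · rw [h] at h2; cases h2
        · exact ⟨h1, h2⟩
    · simp only [ih, List.mem_cons]
      constructor
      · rintro (rfl | h1)
        · exact ⟨Or.inl rfl, h⟩
        · exact ⟨Or.inr h1.1, h1.2⟩
      · rintro ⟨rfl | h1, h2⟩
        · exact Or.inl rfl
        · exact Or.inr ⟨h1, h2⟩
theorem mem_mp {α β : Type} (f : α → β) (l : List α) (b : β) : b ∈ mp f l ↔ ∃ a ∈ l, f a = b := by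
  induction l with
  | nil => simp [mp]
  | cons a l ih =>
    have : mp f (a :: l) = f a :: mp f l := rfl
    rw [this, List.mem_cons, ih]; simp [eq_comm]
theorem emp_false {α : Type} {l : List α} {a : α} (h : a ∈ l) : emp l ≠ true := by
  cases l with
  | nil => cases h
  | cons b l => simp [emp]

theorem tb_eq (b i : ℕ) : tb b i = b.testBit i := by
  have : tb b i = Nat.beq ((b >>> i) &&& 1) 1 := rfl
  rw [this, Nat.and_one_is_mod, Nat.testBit_eq_decide_div_mod_eq, Nat.shiftRight_eq_div_pow]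
  rw [Bool.eq_iff_iff]; simp

theorem fld_mono (P : ℕ → Prop) {α : Type} (f : ℕ → α → ℕ) (hf : ∀ z a, P z → P (f z a))
    (l : List α) : ∀ z, P z → P (fld f l z) := by
  induction l with
  | nil => exact fun z h => h
  | cons a l ih =>
    intro z h
    have : fld f (a :: l) z = frc (f z a) (fld f l) := rfl
    rw [this, frc_eq]; exact ih _ (hf z a h)

theorem fld_mem (P : ℕ → Prop) {α : Type} (f : ℕ → α → ℕ) (hf : ∀ z a, P z → P (f z a))
    (l : List α) (a : α) (ha : a ∈ l) (h : ∀ z, P (f z a)) : ∀ z, P (fld f l z) := by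
  induction l with
  | nil => cases ha
  | cons b l ih =>
    intro z
    have : fld f (b :: l) z = frc (f z b) (fld f l) := rfl
    rw [this, frc_eq]
    rcases List.mem_cons.1 ha with rfl | ha
    · exact fld_mono P f hf l _ (h z)
    · exact ih ha _

theorem ins_eq (z : ℕ) (x : Pr) : ins z x = z ||| (1 <<< h1 x.k ||| 1 <<< h2 x.k) := rfl
theorem hit_ins (x : Pr) (z : ℕ) (y : Pr) (h : hit z x = true) : hit (ins z y) x = true := by
  simp only [hit, andd_iff, tb_eq, ins_eq, Nat.testBit_or] at h ⊢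
  simp [h.1, h.2]
theorem hit_self (x : Pr) (z : ℕ) : hit (ins z x) x = true := by
  simp only [hit, andd_iff, tb_eq, ins_eq, Nat.testBit_or]
  simp [Nat.testBit_shiftLeft]
theorem hit_bits {x : Pr} {l : List Pr} (h : x ∈ l) (z : ℕ) : hit (bits l z) x = true :=
  fld_mem (fun z => hit z x = true) ins (hit_ins x) l x h (hit_self x) z
theorem hit_bits2 {x : Pr} {l : List Pr} {L : List (List Pr)} (h : x ∈ l) (hl : l ∈ L) :
    hit (bits2 L) x = true :=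
  fld_mem (fun z => hit z x = true) (fun z l => bits l z)
    (fun z l hz => fld_mono (fun z => hit z x = true) ins (hit_ins x) l z hz) L l hl (hit_bits h) 0
theorem hit_congr {x y : Pr} (h : x.k = y.k) (b : ℕ) : hit b x = hit b y := by
  simp only [hit, h]

theorem join_sound {E O : List (List Pr)} (h : join E O = true) {e o : Pr} {le lo : List Pr}
    (he : e ∈ le) (hle : le ∈ E) (ho : o ∈ lo) (hlo : lo ∈ O) (hk : e.k = o.k) :
    ok3 e o = true := by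
  simp only [join, orr_iff, al_iff, frc_eq, join2, join3] at h
  rcases h with h | h | h
  · exact absurd (h le hle) (emp_false he)
  · exact absurd (h lo hlo) (emp_false ho)
  · have h1 : e ∈ flat (filt (hit (bits2 O))) E :=
      (mem_flat _ _ _).2 ⟨le, hle, (mem_filt _ _ _).2 ⟨he, by rw [hit_congr hk]; exact hit_bits2 ho hlo⟩⟩
    exact h e h1 o ((mem_flat _ _ _).2 ⟨lo, hlo, (mem_filt _ _ _).2
      ⟨ho, by rw [← hit_congr hk]; exact hit_bits h1 0⟩⟩)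

theorem mem_prs (mk : Rc → Rc → Pr) {A B : List Rc} {a b : Rc} (ha : a ∈ A) (hb : b ∈ B) {s : ℕ}
    (hs : a.w + b.w = s) (h5 : s ≤ 5) : ∃ l ∈ prs mk A B s, mk a b ∈ l := by
  refine ⟨mp (mk a) (cls B (s.sub a.w)), ?_, ?_⟩
  · simp only [prs, mem_flat, mem_filt, prs1, mem_mp, cls]
    refine ⟨a.w, ⟨?_, by simp; omega⟩, a, ⟨ha, by simp⟩, rfl⟩
    have : a.w ≤ 5 := by omega
    generalize a.w = n at this
    interval_cases n <;> simp
  · simp only [mem_mp, cls, mem_filt]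
    exact ⟨b, ⟨hb, by simp; omega⟩, rfl⟩

theorem chk4_sound {L0 L1 L2 L3 : List Rc} (h : chk4 L0 L1 L2 L3 = true) {x0 x1 x2 x3 : Rc}
    (h0 : x0 ∈ L0) (h1 : x1 ∈ L1) (h2 : x2 ∈ L2) (h3 : x3 ∈ L3)
    (hw : x0.w + x1.w + x2.w + x3.w = 5) (hk : (key x0 x2 + key x1 x3) % pp = 25)
    (hz : (x1.P * x0.Z + x2.P * x1.Z + x3.P * x2.Z + x0.P * x3.Z) % pp = 0) : False := by
  simp only [chk4, al_iff] at h
  have hs : x0.w + x2.w ∈ [0, 1, 2, 3, 4, 5] := by
    have : x0.w + x2.w ≤ 5 := by omega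
    generalize x0.w + x2.w = n at this
    interval_cases n <;> simp
  obtain ⟨le, hle, he⟩ := mem_prs mkE h0 h2 rfl (by omega)
  obtain ⟨lo, hlo, ho⟩ := mem_prs mkO h1 h3 (s := Nat.sub 5 (x0.w + x2.w)) (by simp; omega)
    (by simp)
  have hk' : (mkE x0 x2).k = (mkO x1 x3).k := by
    simp only [mkE, mkO, frc_eq]
    show key x0 x2 = (pp + 25 - key x1 x3) % pp
    have a1 : key x0 x2 < pp := Nat.mod_lt _ (by decide)
    have a2 : key x1 x3 < pp := Nat.mod_lt _ (by decide)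
    generalize key x0 x2 = k1 at *
    generalize key x1 x3 = k2 at *
    unfold pp at a1 a2 hk ⊢
    change k1 < 2147482951 at a1
    change k2 < 2147482951 at a2
    change (k1 + k2) % 2147482951 = 25 at hk
    change k1 = (2147482951 + 25 - k2) % 2147482951
    omega
  have := join_sound (h _ hs) he hle ho hlo hk'
  rw [ok3, hk', Nat.beq_refl] at this
  simp only [mkE, mkO, frc_eq] at this
  have e : Nat.ble 1 ((x1.P * x0.Z + x2.P * x1.Z + x3.P * x2.Z + x0.P * x3.Z) % pp) = true := this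
  rw [hz] at e; cases e

def Le2 (x : R5) : Prop := x.a ≤ 2 ∧ x.b ≤ 2 ∧ x.c ≤ 2 ∧ x.d ≤ 2 ∧ x.e ≤ 2

theorem mem_rowsBy {x : R5} (h : Le2 x) : x ∈ rowsBy x.sm := by
  have key : ∀ n ≤ 2, n ∈ [0, 1, 2] := by decide
  obtain ⟨h1, h2, h3, h4, h5⟩ := h
  simp only [rowsBy, mem_filt, all243, mem_flat, mem_mp, Nat.beq_refl, and_true]
  exact ⟨_, key _ h1, _, key _ h2, _, key _ h3, _, key _ h4, _, key _ h5, rfl⟩

theorem mem_lst (u v : ℕ) {x y z : R5} (hx : Le2 x) (hy : Le2 y) (hz : Le2 z) (s : ℕ) :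
    mkRc u v x y z ∈ lst u v ⟨x.a + y.a + z.a, x.b + y.b + z.b, x.c + y.c + z.c, x.d + y.d + z.d,
      x.e + y.e + z.e⟩ ⟨x.sm, y.sm, s⟩ := by
  simp only [lst, lst1, mem_flat, mem_mp, mem_filt]
  refine ⟨x, mem_rowsBy hx, y, ⟨mem_rowsBy hy, ?_⟩, ?_⟩
  · obtain ⟨h1, h2, h3, h4, h5⟩ := hz
    simp only [fits, fit, andd_iff, Nat.ble_eq, Nat.add_eq]
    omega
  · congr 1
    simp [rest]

theorem R5.eq_of_eqb {x y : R5} (h : x.eqb y = true) : x = y := by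
  simp only [R5.eqb, andd_iff, Nat.beq_eq] at h
  cases x; cases y; simp_all
theorem R3.eq_of_eqb {x y : R3} (h : x.eqb y = true) : x = y := by
  simp only [R3.eqb, andd_iff, Nat.beq_eq] at h
  cases x; cases y; simp_all
theorem T4.eq_of_eqb {x y : T4} (h : x.eqb y = true) : x = y := by
  simp only [T4.eqb, andd_iff] at h
  cases x; cases y
  simp only [T4.mk.injEq]
  exact ⟨R3.eq_of_eqb h.1, R3.eq_of_eqb h.2.1, R3.eq_of_eqb h.2.2.1, R3.eq_of_eqb h.2.2.2⟩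

theorem chkT_sound (h : chkT = true) (a b c d : ℕ) (hs : a + b + c + d = 35)
    (h0 : teq ⟨a, b, c, d, 0⟩ 0 = 325) (h1 : teq ⟨a, b, c, d, 0⟩ 1 = 300)
    (h2 : teq ⟨a, b, c, d, 0⟩ 2 = 300)
    (hm : ∀ s < 4, kt ⟨a, b, c, d, 0⟩ 0 ≤ kt ⟨a, b, c, d, 0⟩ s) : (⟨a, b, c, d, 0⟩ : R5) ∈ T3 := by
  have e : teq ⟨a, b, c, d, 0⟩ 0 = a * a + (b * b + (c * c + (d * d + 0))) := rfl
  simp only [chkT, al_iff, List.mem_range] at h
  have h3 := h a (by nlinarith) b (by nlinarith) c (by nlinarith)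
  have e2 : Nat.sub 35 ((a.add b).add c) = d := by simp; omega
  rw [e2] at h3
  simp only [tOK, imp_iff, Nat.beq_eq, al_iff, an_iff, Nat.ble_eq] at h3
  obtain ⟨u, hu, hu2⟩ := h3 h0 h1 h2 fun s hs => hm s (by simp [l4] at hs; omega)
  rw [← R5.eq_of_eqb hu2]; exact hu

theorem mem_rowsM {x : R5} (hs : x.sm = 35) (hq : dot x x = 265) : x ∈ rowsM := by
  obtain ⟨a, b, c, d, e⟩ := x
  have hs' : a + b + c + d + e = 35 := hs
  have hq' : a * a + b * b + c * c + d * d + e * e = 265 := hq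
  have key : ∀ n : ℕ, 12 * n ≤ n * n + 36 := fun n => by
    zify; nlinarith [sq_nonneg ((n : ℤ) - 6)]
  have key2 : ∀ n : ℕ, n * n + 11 ≤ 12 * n → n < 12 := fun n hn => by
    by_contra hh; nlinarith
  have ka := key a; have kb := key b; have kc := key c; have kd := key d; have ke := key e
  simp only [rowsM, mem_flat, mem_filt, mem_mp, List.mem_range, Nat.beq_eq]
  refine ⟨a, key2 a (by omega), b, key2 b (by omega), c, key2 c (by omega),
    ⟨d, key2 d (by omega), ?_⟩, hq⟩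
  simp only [mkRow, R5.mk.injEq, true_and]
  simp; omega

theorem chkM_sound (h : chkM = true) (M : M5) (hs : ∀ i < 5, (M.row i).sm = 35)
    (hq : ∀ i < 5, dot (M.row i) (M.row i) = 265)
    (ho : ∀ i < 5, ∀ k < 5, i ≠ k → dot (M.row i) (M.row k) = 240)
    (h0 : ∀ s < 4, ∀ b < 5, ∀ d < 5, rk M.r0 1 0 ≤ rk (M.row b) (2 ^ s) d)
    (h1 : ∀ s < 4, ∀ b < 5, ∀ d < 5, rk (M.row b) (2 ^ s) d = rk M.r0 1 0 →
      k12 M 1 0 0 ≤ k12 M (2 ^ s) b d) {t : R5} (ht : t ∈ T3) : cOK M t = true := by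
  have m4 : ∀ s ∈ l4, s < 4 := by decide
  have m5 : ∀ s ∈ l5, s < 5 := by decide
  have r : ∀ i < 5, M.row i ∈ rowsM := fun i hi => mem_rowsM (hs i hi) (hq i hi)
  have o : ∀ i k, (i < 5 ∧ k < 5 ∧ i ≠ k) → ∀ l, M.row k ∈ l → M.row k ∈ orth (M.row i) l :=
    fun i k hh l hl => (mem_filt _ _ _).2 ⟨hl, by rw [Nat.beq_eq]; exact ho i hh.1 k hh.2.1 hh.2.2⟩
  simp only [chkM, lv0, lv1, lv2, lv3, lv4, al_iff, imp_iff, leafM] at h
  refine h (M.row 0) (r 0 (by decide)) ?_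
    (M.row 1) (o 0 1 (by decide) _ (r 1 (by decide)))
    (M.row 2) (o 1 2 (by decide) _ (o 0 2 (by decide) _ (r 2 (by decide))))
    (M.row 3) (o 2 3 (by decide) _ (o 1 3 (by decide) _ (o 0 3 (by decide) _ (r 3 (by decide)))))
    (M.row 4) (o 3 4 (by decide) _ (o 2 4 (by decide) _ (o 1 4 (by decide) _ (o 0 4 (by decide) _
      (r 4 (by decide)))))) ?_ ?_ t ht
  · simp only [min0, al_iff, Nat.ble_eq]
    exact fun s hs d hd => h0 s (m4 s hs) 0 (by decide) d (m5 d hd)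
  · simp only [minM0, al_iff, Nat.ble_eq]
    exact fun s hs b hb d hd => h0 s (m4 s hs) b (m5 b hb) d (m5 d hd)
  · simp only [minM, al_iff, Nat.ble_eq, imp_iff, Nat.beq_eq]
    exact fun s hs b hb d hd => h1 s (m4 s hs) b (m5 b hb) d (m5 d hd)

theorem cOK_sound {M : M5} {t : R5} (h : cOK M t = true) (c : C4)
    (hc : ∀ j < 4, ∀ y < 5, (c.row j).get y ≤ 6 ∧ sj M t j y = 5 * (c.row j).get y + 35) :
    c ∈ Creps := by
  have m4 : ∀ s, s ∈ l4 ↔ s < 4 := by intro s; simp [l4]; omega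
  have m5 : ∀ s, s ∈ l5 ↔ s < 5 := by intro s; simp [l5]; omega
  simp only [cOK, imp_iff, al_iff, an_iff, andd_iff, Nat.beq_eq, Nat.ble_eq, m4, m5] at h
  obtain ⟨c', hc', e⟩ := h fun j hj y hy => by
    obtain ⟨h1, h2⟩ := hc j hj y hy
    rw [h2]
    refine ⟨?_, by omega, by omega⟩
    show (5 * (c.row j).get y + 35) % 5 = 0
    omega
  have e2 : ∀ j < 4, ∀ y < 5, (c'.row j).get y = (c.row j).get y := fun j hj y hy => by
    have h1 : (c'.row j).get y * 5 + 35 = sj M t j y := e j hj y hy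
    rw [(hc j hj y hy).2] at h1; omega
  have e3 : ∀ j < 4, c'.row j = c.row j := fun j hj => by
    have a0 := e2 j hj 0 (by decide); have a1 := e2 j hj 1 (by decide)
    have a2 := e2 j hj 2 (by decide); have a3 := e2 j hj 3 (by decide)
    have a4 := e2 j hj 4 (by decide)
    generalize c'.row j = x at *
    generalize c.row j = y at *
    cases x; cases y
    simp only [R5.mk.injEq]
    exact ⟨a0, a1, a2, a3, a4⟩
  have : c' = c := by
    have a0 := e3 0 (by decide); have a1 := e3 1 (by decide)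
    have a2 := e3 2 (by decide); have a3 := e3 3 (by decide)
    cases c'; cases c
    simp only [C4.mk.injEq]
    exact ⟨a0, a1, a2, a3⟩
  rw [← this]; exact hc'

theorem nn_spec (x : R3) : nn x + x.sm * x.sm = 3 * dot3 x x := by
  obtain ⟨a, b, c⟩ := x
  show (a * a + b * b + c * c) * 3 - (a + b + c) * (a + b + c) + (a + b + c) * (a + b + c) =
    3 * (a * a + b * b + c * c)
  have : (a + b + c) * (a + b + c) ≤ (a * a + b * b + c * c) * 3 := by
    zify; nlinarith [sq_nonneg ((a : ℤ) - b), sq_nonneg ((a : ℤ) - c), sq_nonneg ((b : ℤ) - c)]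
  omega

theorem mem_tri {x : R3} (hs : x.sm ≤ 12) (hn : nn x ≤ 50) : (x, nn x) ∈ tri x.sm := by
  obtain ⟨a, b, c⟩ := x
  have hs' : a + b + c ≤ 12 := hs
  simp only [tri, mem_filt, mem_flat, mem_mp, List.mem_range, frc_eq, Nat.ble_eq]
  refine ⟨⟨a, by omega, b, ⟨by omega, ?_⟩, ?_⟩, hn⟩
  · show a + b ≤ a + b + c
    omega
  · have : (R3.sm ⟨a, b, c⟩).sub (a.add b) = c := by
      show a + b + c - (a + b) = c
      omega
    rw [this]

theorem chkR_sound {w : ℕ} {R : List T4} (h : chkR w R = true) (r : T4)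
    (ht : (⟨r.r0.sm, r.r1.sm, r.r2.sm, r.r3.sm, 0⟩ : R5) ∈ T3)
    (hq : dot3 r.r0 r.r0 + dot3 r.r1 r.r1 + dot3 r.r2 r.r2 + dot3 r.r3 r.r3 = 125)
    (h2 : dot3 r.r0 r.r2 + dot3 r.r1 r.r3 = 50) (h1 : req w r 1 1 = 100) (h1' : req w r 1 2 = 100)
    (hm : ∀ x < 3, ∀ y < 3, kr w r 0 0 ≤ kr w r x y) : r ∈ R := by
  have m3 : ∀ s ∈ l3, s < 3 := by decide
  have hT : ∀ t ∈ T3, t.a ≤ 12 ∧ t.b ≤ 12 ∧ t.c ≤ 12 ∧ t.d ≤ 12 ∧
      t.a * t.a + t.b * t.b + t.c * t.c + t.d * t.d = 325 := by decide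
  obtain ⟨b0, b1, b2, b3, b4⟩ := hT _ ht
  simp only at b0 b1 b2 b3 b4
  have n0 := nn_spec r.r0; have n1 := nn_spec r.r1; have n2 := nn_spec r.r2
  have n3 := nn_spec r.r3
  simp only [chkR, al_iff] at h
  have h3 := h _ ht
  simp only [chkR1, al_iff, frc_eq, imp_iff, Nat.ble_eq, Nat.beq_eq, leafR, an_iff] at h3
  obtain ⟨u, hu, e⟩ := h3 _ (mem_tri b0 (by omega)) _ (mem_tri b2 (by omega))
    (by simp only [Nat.add_eq]; omega) _ (mem_tri b1 (by omega))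
    (by simp only [Nat.add_eq]; omega) _ (mem_tri b3 (by omega))
    (by simp only [Nat.add_eq, Nat.sub_eq]; omega) h2
    (by intro b hb; simp at hb; rcases hb with rfl | rfl; exacts [h1, h1'])
    (fun x hx y hy => hm x (m3 x hx) y (m3 y hy))
  have e' : u = r := T4.eq_of_eqb e
  rw [← e']; exact hu

end PellDS.A2
end

-- part Pool.Agent.P.MP_e9cc94_co.A2P
section

set_option autoImplicit false

namespace PellDS.A2
open Finset

theorem sum3 {R : Type} [AddCommMonoid R] (f : ZMod 3 → R) : ∑ z, f z = f 0 + f 1 + f 2 :=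
  Fin.sum_univ_three f
theorem sum4 {R : Type} [AddCommMonoid R] (f : ZMod 4 → R) : ∑ z, f z = f 0 + f 1 + f 2 + f 3 :=
  Fin.sum_univ_four f
theorem sum5 {R : Type} [AddCommMonoid R] (f : ZMod 5 → R) :
    ∑ z, f z = f 0 + f 1 + f 2 + f 3 + f 4 := Fin.sum_univ_five f

def row5 (f : ZMod 5 → ℕ) : R5 := ⟨f 0, f 1, f 2, f 3, f 4⟩
def row3 (f : ZMod 3 → ℕ) : R3 := ⟨f 0, f 1, f 2⟩
theorem row5_sm (f : ZMod 5 → ℕ) : (row5 f).sm = ∑ z, f z := (sum5 f).symm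
theorem row3_sm (f : ZMod 3 → ℕ) : (row3 f).sm = ∑ z, f z := (sum3 f).symm

noncomputable def WW (b : ZMod 3) : ZMod pp := ((sel5 1 om1 om2 0 0 b.val : ℕ) : ZMod pp)
noncomputable def HH (z : ZMod 5) : ZMod pp :=
  ((sel5 1 1025815503 1004659767 1920893789 343596842 z.val : ℕ) : ZMod pp)

theorem WW_add (b c : ZMod 3) : WW (b + c) = WW b * WW c := by
  have : ∀ b c : ZMod 3, sel5 1 om1 om2 0 0 (b + c).val % pp =
      (sel5 1 om1 om2 0 0 b.val * sel5 1 om1 om2 0 0 c.val) % pp := by decide +kernel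
  rw [WW, WW, WW, ← Nat.cast_mul, ZMod.natCast_eq_natCast_iff']; exact this b c
theorem HH_add (b c : ZMod 5) : HH (b + c) = HH b * HH c := by
  have : ∀ b c : ZMod 5, sel5 1 1025815503 1004659767 1920893789 343596842 (b + c).val % pp =
      (sel5 1 1025815503 1004659767 1920893789 343596842 b.val *
        sel5 1 1025815503 1004659767 1920893789 343596842 c.val) % pp := by decide +kernel
  rw [HH, HH, HH, ← Nat.cast_mul, ZMod.natCast_eq_natCast_iff']; exact this b c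
theorem WW_zero : WW 0 = 1 := Nat.cast_one
theorem HH_zero : HH 0 = 1 := Nat.cast_one
theorem WW_sum : ∑ b, WW b = 0 := by
  rw [sum3]
  have : ((1 + om1 + om2 : ℕ) : ZMod pp) = ((0 : ℕ) : ZMod pp) := by
    rw [ZMod.natCast_eq_natCast_iff']; decide +kernel
  rw [Nat.cast_add, Nat.cast_add, Nat.cast_zero] at this
  exact this

theorem ev_cast (x : R5) (p q r s : ℕ) : ((ev x p q r s : ℕ) : ZMod pp) =
    x.a * ((1 : ℕ) : ZMod pp) + x.b * p + x.c * q + x.d * r + x.e * s := by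
  show (((x.a + x.b * p + x.c * q + x.d * r + x.e * s) % pp : ℕ) : ZMod pp) = _
  rw [ZMod.natCast_mod]; push_cast; ring
theorem cmb_cast (a b c u v : ℕ) : ((cmb a b c u v : ℕ) : ZMod pp) = a + b * u + c * v := by
  show (((a + b * u + c * v) % pp : ℕ) : ZMod pp) = _
  rw [ZMod.natCast_mod]; push_cast; ring
theorem e1_cast (f : ZMod 5 → ℕ) : ((e1 (row5 f) : ℕ) : ZMod pp) = ∑ z, (f z : ZMod pp) * HH (1 * z) := by
  rw [sum5, e1, ev_cast]; rfl
theorem e4_cast (f : ZMod 5 → ℕ) : ((e4 (row5 f) : ℕ) : ZMod pp) = ∑ z, (f z : ZMod pp) * HH (-1 * z) := by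
  rw [sum5, e4, ev_cast]; rfl
theorem e3_cast (f : ZMod 5 → ℕ) : ((e3 (row5 f) : ℕ) : ZMod pp) = ∑ z, (f z : ZMod pp) * HH (-2 * z) := by
  rw [sum5, e3, ev_cast]; rfl

variable {e : Bool}

noncomputable def PP (X : Gm e → ℕ) (a : ZMod 4) (m : ZMod 3) (n : ZMod 5) : ZMod pp :=
  ∑ b, ∑ z, (X (mg e a b z) : ZMod pp) * (WW (m * b) * HH (n * z))

theorem PP_eq (X : Gm e → ℕ) (a : ZMod 4) (m : ZMod 3) (n : ZMod 5) : PP X a m n =
    (∑ z, (X (mg e a 0 z) : ZMod pp) * HH (n * z)) +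
    (∑ z, (X (mg e a 1 z) : ZMod pp) * HH (n * z)) * WW (m * 1) +
    (∑ z, (X (mg e a 2 z) : ZMod pp) * HH (n * z)) * WW (m * 2) := by
  rw [PP, sum3, mul_zero, WW_zero, Finset.sum_mul, Finset.sum_mul]
  congr 1
  · congr 1 <;> exact Finset.sum_congr rfl fun z _ => by ring
  · exact Finset.sum_congr rfl fun z _ => by ring

theorem Sol.PP_eqn {X : Gm e → ℕ} (h : Sol X) (a0 : ZMod 4) :
    ∑ a, PP X (a + a0) 1 1 * PP X a (-EE e a0) (-FF a0) = if a0 = 0 then 25 else 0 := by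
  have := h.cos (R := ZMod pp) (κ := Unit) a0 (fun b z => WW b * HH z)
    (fun _ b z => WW (1 * b) * HH (1 * z)) (fun _ b z => WW (-EE e a0 * b) * HH (-FF a0 * z)) (by
      intro b z b' z'
      rw [Fintype.sum_unique, sub_eq_add_neg, sub_eq_add_neg, WW_add, HH_add, one_mul, one_mul,
        neg_mul, neg_mul]
      ring)
  simp only [Fintype.sum_unique] at this
  rw [← Finset.sum_mul_sum, WW_sum, WW_zero, HH_zero] at this
  simpa [PP] using this

def uE (e : Bool) : ℕ := if e then om2 else om1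
def vE (e : Bool) : ℕ := if e then om1 else om2
def xr (X : Gm e → ℕ) (a : ZMod 4) (b : ZMod 3) : R5 := row5 fun z => X (mg e a b z)
noncomputable def rc (X : Gm e → ℕ) (a : ZMod 4) : Rc :=
  mkRc (uE e) (vE e) (xr X a 0) (xr X a 1) (xr X a 2)

theorem rc_P (X : Gm e → ℕ) (a : ZMod 4) : ((rc X a).P : ZMod pp) = PP X a 1 1 := by
  simp only [rc, mkRc, frc_eq, xr]
  rw [cmb_cast, e1_cast, e1_cast, e1_cast, PP_eq]; rfl
theorem rc_Q (X : Gm e → ℕ) (a : ZMod 4) : ((rc X a).Q : ZMod pp) = PP X a (-1) 1 * lam := by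
  simp only [rc, mkRc, frc_eq, xr]
  show (((cmb _ _ _ om2 om1 * lam) % pp : ℕ) : ZMod pp) = _
  rw [ZMod.natCast_mod, Nat.cast_mul, cmb_cast, e1_cast, e1_cast, e1_cast, PP_eq]; rfl
theorem rc_n (X : Gm e → ℕ) (a : ZMod 4) :
    ((rc X a).n : ZMod pp) = PP X a 1 1 * PP X a (-1) (-1) := by
  simp only [rc, mkRc, frc_eq, xr]
  show (((cmb _ _ _ om1 om2 * cmb _ _ _ om2 om1) % pp : ℕ) : ZMod pp) = _
  rw [ZMod.natCast_mod, Nat.cast_mul, cmb_cast, cmb_cast, e1_cast, e1_cast, e1_cast, e4_cast,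
    e4_cast, e4_cast, PP_eq, PP_eq]; rfl
theorem rc_Z (X : Gm e → ℕ) (a : ZMod 4) :
    ((rc X a).Z : ZMod pp) = PP X a (-EE e 1) (-2) := by
  simp only [rc, mkRc, frc_eq, xr]
  rw [cmb_cast, e3_cast, e3_cast, e3_cast, PP_eq]
  cases e <;> rfl
theorem rc_w (X : Gm e → ℕ) (a : ZMod 4) : (rc X a).w = ∑ b, ∑ z, X (mg e a b z) / 2 := by
  simp only [rc, mkRc, frc_eq, xr, sum3, sum5]; rfl

theorem key_cast (x y : Rc) : ((key x y : ℕ) : ZMod pp) = x.n + y.n + (y.P * x.Q + x.P * y.Q) := by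
  show (((x.n + y.n + (y.P * x.Q + x.P * y.Q)) % pp : ℕ) : ZMod pp) = _
  rw [ZMod.natCast_mod]; push_cast; ring

theorem rc_mem {X : Gm e → ℕ} (h : Sol X) (a : ZMod 4) :
    rc X a ∈ lst (uE e) (vE e) (row5 (cc X a)) (row3 (rr X a)) := by
  have l2 : ∀ b, Le2 (xr X a b) := fun b => ⟨h.le _, h.le _, h.le _, h.le _, h.le _⟩
  have := mem_lst (uE e) (vE e) (l2 0) (l2 1) (l2 2) (rr X a 2)
  simp only [row5, row3, cc, rr, sum3, sum5]
  simp only [rr, sum5] at this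
  exact this

/-- the last level -/
theorem Sol.last {X : Gm e → ℕ} (h : Sol X)
    (hc : chk (uE e) (vE e) ⟨row5 (cc X 0), row5 (cc X 1), row5 (cc X 2), row5 (cc X 3)⟩
      ⟨row3 (rr X 0), row3 (rr X 1), row3 (rr X 2), row3 (rr X 3)⟩ = true) : False := by
  have e0 : (row5 (cc X 0)).sm = (row3 (rr X 0)).sm := by
    rw [row5_sm, row3_sm, ← tt_eq]; rfl
  simp only [chk, e0, Nat.beq_refl] at hc
  have h0 := h.PP_eqn 0
  have h1 := h.PP_eqn 1
  have h2 := h.PP_eqn 2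
  have a2 : ∀ e, EE e 2 = 1 := by decide
  rw [sum4] at h0 h1 h2
  rw [if_pos rfl, EE_zero, FF_zero] at h0
  rw [if_neg (by decide), show FF 1 = 2 from rfl] at h1
  rw [if_neg (by decide), a2, show -FF 2 = 1 from rfl] at h2
  simp only [add_zero] at h0
  rw [show (0 : ZMod 4) + 1 = 1 from rfl, show (1 : ZMod 4) + 1 = 2 from rfl,
    show (2 : ZMod 4) + 1 = 3 from rfl, show (3 : ZMod 4) + 1 = 0 from rfl] at h1
  rw [show (0 : ZMod 4) + 2 = 2 from rfl, show (1 : ZMod 4) + 2 = 3 from rfl,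
    show (2 : ZMod 4) + 2 = 0 from rfl, show (3 : ZMod 4) + 2 = 1 from rfl] at h2
  refine chk4_sound hc (rc_mem h 0) (rc_mem h 1) (rc_mem h 2) (rc_mem h 3) ?_ ?_ ?_
  · rw [← h.twos, sum_Gm, sum4]; simp only [rc_w]
  · refine (ZMod.natCast_eq_natCast_iff' _ 25 pp).1 ?_
    rw [Nat.cast_add, key_cast, key_cast]
    simp only [rc_P, rc_Q, rc_n]
    push_cast
    linear_combination h0 + (lam : ZMod pp) * h2
  · refine (ZMod.natCast_eq_natCast_iff' _ 0 pp).1 ?_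
    push_cast
    simp only [rc_P, rc_Z]
    exact h1

end PellDS.A2
end
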